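import Pool.Agent.Lib.MP_1f96ff_gt.Step

/-! Boolean checks for the table of excluded graphs and for the cover of the roots. -/

namespace Pool.Agent.Lib.MP_1f96ff_gt

variable {K : ∀ n : ℕ, SimpleGraph (Fin n) → Prop}

/-- `p j` for `lo ≤ j < lo + k`. -/
def allN (p : ℕ → Bool) (lo k : ℕ) : Bool :=
  Nat.rec (motive := fun _ => Bool) true
    (fun j ih => Bool.rec (motive := fun _ => Bool) false ih (p (Nat.add lo j))) k

theorem allN_of {p : ℕ → Bool} {lo k : ℕ} (h : allN p lo k = true) :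
    ∀ j, lo ≤ j → j < lo + k → p j = true := by
  induction k with
  | zero => intro j h1 h2; omega
  | succ k ih =>
    have h' : Bool.rec (motive := fun _ => Bool) false (allN p lo k) (p (lo + k)) = true := h
    cases e : p (lo + k) <;> rw [e] at h'
    · exact Bool.noConfusion h'
    · intro j h1 h2
      rcases Nat.lt_succ_iff_lt_or_eq.mp h2 with h3 | h3
      · exact ih h' j h1 h3
      · exact h3 ▸ e

/-- All bits of `x` are bits of `y`. -/
def subB (x y : ℕ) : Bool := Nat.beq (Nat.lor x y) y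

theorem subB_bit {x y : ℕ} (h : subB x y = true) {k : ℕ} (hk : x.testBit k = true) :
    y.testBit k = true := by
  have e : x ||| y = y := Nat.eq_of_beq_eq_true h
  rw [← e, Nat.testBit_or, hk, Bool.true_or]

/-- The bit `(a, b)`. -/
def bt2 (a b : ℕ) : ℕ := Nat.pow 2 (Nat.add (Nat.mul 16 a) b)

theorem bt2_bit {a b x y : ℕ} (hb : b < 16) (hy : y < 16) :
    (bt2 a b).testBit (16 * x + y) = true ↔ x = a ∧ y = b := by
  show (2 ^ (16 * a + b)).testBit _ = true ↔ _
  rw [Nat.testBit_two_pow, decide_eq_true_iff]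
  omega

/-- An excluded graph: the number of vertices is stored above bit 208. -/
def Excl (K : ∀ n : ℕ, SimpleGraph (Fin n) → Prop) (e : ℕ) : Prop :=
  0 < e >>> 208 ∧ ¬ K (e >>> 208) (Gr (e >>> 208) e)

/-- The entry `x` comes from the entry `y` by a triangle-star move at `a b c`. -/
def dyB (x y a b c : ℕ) : Bool :=
  (fun p => Nat.beq (Nat.shiftRight x 208) (Nat.succ p) && Nat.ble p 12 && Nat.ble (Nat.succ a) p &&
    Nat.ble (Nat.succ b) p && Nat.ble (Nat.succ c) p &&
    subB (Nat.lor (bt2 p a) (Nat.lor (bt2 p b) (bt2 p c))) x &&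
    subB (Nat.mod y (Nat.pow 2 208)) (Nat.lor x (Nat.lor (bt2 b a) (Nat.lor (bt2 c a) (bt2 c b)))))
    (Nat.shiftRight y 208)

theorem dyB_ok (hK : KI K) {x y a b c : ℕ} (h : dyB x y a b c = true) (hy : Excl K y) :
    Excl K x := by
  simp only [dyB, Bool.and_eq_true, Nat.beq_eq, Nat.ble_eq] at h
  obtain ⟨⟨⟨⟨⟨⟨h1, h2⟩, ha⟩, hb⟩, hc⟩, h3⟩, h4⟩ := h
  unfold Excl at hy ⊢
  change x >>> 208 = y >>> 208 + 1 at h1
  change y >>> 208 ≤ 12 at h2
  change a < y >>> 208 at ha
  change b < y >>> 208 at hb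
  change c < y >>> 208 at hc
  change subB (bt2 (y >>> 208) a ||| (bt2 (y >>> 208) b ||| bt2 (y >>> 208) c)) x = true at h3
  change subB (y % 2 ^ 208) (x ||| (bt2 b a ||| (bt2 c a ||| bt2 c b))) = true at h4
  rw [h1]
  generalize y >>> 208 = p at *
  refine ⟨by omega, fun hx => hy.2 ?_⟩
  have star : ∀ (t : ℕ) (ht : t < p), t = a ∨ t = b ∨ t = c →
      (Gr (p + 1) x).Adj (Fin.last p) (Fin.castSucc ⟨t, ht⟩) := by
    intro t ht h
    refine Gr_adj.mpr ⟨(Fin.castSucc_lt_last _).ne', .inl (subB_bit h3 ?_)⟩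
    simp only [Nat.testBit_or, Bool.or_eq_true, Fin.val_last, Fin.val_castSucc]
    rw [bt2_bit (by omega) (by omega), bt2_bit (by omega) (by omega),
      bt2_bit (by omega) (by omega)]
    omega
  let H : SimpleGraph (Fin (p + 1)) := (Gr p y).map Fin.castSuccEmb
  have key : ∀ s t : Fin p, s ≠ t → y.testBit (16 * s.1 + t.1) = true →
      (Gr (p + 1) x).Adj s.castSucc t.castSucc ∨
        ((s.1 = a ∨ s.1 = b ∨ s.1 = c) ∧ (t.1 = a ∨ t.1 = b ∨ t.1 = c)) := by
    intro s t hst hb'
    have hs := s.2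
    have ht := t.2
    have := subB_bit h4 (k := 16 * s.1 + t.1) (by
      rw [Nat.testBit_mod_two_pow, hb', Bool.and_true, decide_eq_true_iff]; omega)
    simp only [Nat.testBit_or, Bool.or_eq_true] at this
    rw [bt2_bit (by omega) (by omega), bt2_bit (by omega) (by omega),
      bt2_bit (by omega) (by omega)] at this
    rcases this with h | h
    · exact .inl (Gr_adj.mpr ⟨fun e => hst (Fin.castSucc_injective _ e), .inl h⟩)
    · right; omega
  have kH : K (p + 1) H := by
    refine hK.yd _ H (Fin.last p) _ _ _ (star a ha (by simp)) (star b hb (by simp))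
      (star c hc (by simp)) ?_ hx
    rintro _ _ ⟨-, s, t, hst, rfl, rfl⟩
    refine ⟨(Fin.castSucc_lt_last _).ne, ?_⟩
    simp only [Fin.castSuccEmb_apply, Fin.ext_iff, Fin.val_castSucc]
    rcases Gr_adj.mp hst with ⟨hne, h | h⟩
    · exact key s t hne h
    · exact (key t s hne.symm h).imp SimpleGraph.Adj.symm And.symm
  exact hK.mono H _ Fin.castSucc (Fin.castSucc_injective _)
    (fun s t hst => ⟨(Fin.castSucc_injective _).ne hst.ne, s, t, hst, rfl, rfl⟩) kH

/-- Check of entry `j`; the justification is `(parent + 1) * 4096 + 256 a + 16 b + c`. -/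
def baseB (T J : ℕ → ℕ) (j : ℕ) : Bool :=
  (fun z => (fun q => Nat.ble (Nat.succ q) j &&
    dyB (T j) (T q) (Nat.mod (Nat.shiftRight z 8) 16) (Nat.mod (Nat.shiftRight z 4) 16)
      (Nat.mod z 16)) (Nat.pred (Nat.shiftRight z 12))) (J j)

theorem base_ok (hK : KI K) {T J : ℕ → ℕ} {r N : ℕ} (h0 : ∀ j < r, Excl K (T j))
    (h : ∀ j, r ≤ j → j < N → baseB T J j = true) : ∀ j < N, Excl K (T j) := by
  intro j
  induction j using Nat.strong_induction_on with
  | _ j ih =>
    intro hj
    rcases Nat.lt_or_ge j r with e | e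
    · exact h0 j e
    · have := h j e hj
      simp only [baseB, Bool.and_eq_true, Nat.ble_eq] at this
      exact dyB_ok hK this.2 (ih _ this.1 (lt_trans this.1 hj))

/-- Off-diagonal positions of an `m × m` matrix. -/
def offM (m : ℕ) : ℕ :=
  Nat.xor (Nat.mul (Nat.div (Nat.pow 2 (Nat.mul 16 m)) 65535) (Nat.pred (Nat.pow 2 m)))
    (Nat.div (Nat.pow 2 (Nat.mul 17 m)) 131071)

theorem offM_bit : ∀ m < 13, ∀ a < 13, ∀ b < 13, (offM m).testBit (16 * a + b) = true →
    a < m ∧ b < m ∧ a ≠ b := by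
  have : allN (fun m => allN (fun a => allN (fun b => !(offM m).testBit (16 * a + b) ||
    decide (a < m ∧ b < m ∧ a ≠ b)) 0 13) 0 13) 0 13 = true := by decide +kernel
  intro m hm a ha b hb h
  have := allN_of (allN_of (allN_of this m (by omega) (by omega)) a (by omega) (by omega)) b
    (by omega) (by omega)
  simpa [h] using this

/-- The neighbours `b < k` of `w`. -/
def nbr (P w k : ℕ) : ℕ :=
  Nat.rec (motive := fun _ => ℕ) 0 (fun b ih => Nat.lor ih (Nat.shiftLeft (Nat.mod
    (Nat.lor (Nat.shiftRight P (Nat.add (Nat.mul 16 w) b))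
      (Nat.shiftRight P (Nat.add (Nat.mul 16 b) w))) 2) b)) k

theorem nbr_bit {P w k b : ℕ} (h : (nbr P w k).testBit b = true) :
    b < k ∧ (P.testBit (16 * w + b) = true ∨ P.testBit (16 * b + w) = true) := by
  induction k with
  | zero => simp [nbr] at h
  | succ k ih =>
    change (nbr P w k ||| ((P >>> (16 * w + k) ||| P >>> (16 * k + w)) % 2 ^ 1) <<< k).testBit b
      = true at h
    rw [Nat.testBit_or, Bool.or_eq_true] at h
    rcases h with h | h
    · exact ⟨(ih h).1.trans (Nat.lt_succ_self k), (ih h).2⟩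
    · simp only [Nat.testBit_shiftLeft, Nat.testBit_mod_two_pow, Nat.testBit_or,
        Nat.testBit_shiftRight, Bool.and_eq_true, decide_eq_true_iff, Bool.or_eq_true] at h
      obtain ⟨h1, h2, h3⟩ := h
      obtain rfl : b = k := by omega
      simpa using h3

/-- The entry `e` covers the root `(P, w)`. -/
def covB (m off P w e : ℕ) : Bool :=
  (fun P' => subB (Nat.mod e (Nat.pow 2 208))
    (Nat.lor P' (Nat.lor (Nat.shiftLeft (nbr P' w m) (Nat.mul 16 m)) (bt2 w w)))) (Nat.land P off)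

theorem covB_ok {m P w e : ℕ} (hm : m ≤ 12) (hw : w < m) (h : covB m (offM m) P w e = true) :
    InDbl m P w e ∧ ∀ v < m, e.testBit (17 * v) = true → v = w := by
  change subB (e % 2 ^ 208) ((P &&& offM m) ||| (nbr (P &&& offM m) w m <<< (16 * m) |||
    bt2 w w)) = true at h
  have key : ∀ a ≤ m, ∀ b ≤ m, e.testBit (16 * a + b) = true →
      (a < m ∧ b < m ∧ a ≠ b ∧ P.testBit (16 * a + b) = true) ∨
      (a = m ∧ b < m ∧ b ≠ w ∧
        (P.testBit (16 * w + b) = true ∨ P.testBit (16 * b + w) = true)) ∨ (a = w ∧ b = w) := by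
    intro a ha b hb hbit
    have := subB_bit h (k := 16 * a + b) (by
      rw [Nat.testBit_mod_two_pow, hbit, Bool.and_true, decide_eq_true_iff]; omega)
    simp only [Nat.testBit_or, Bool.or_eq_true, Nat.testBit_and, Bool.and_eq_true,
      Nat.testBit_shiftLeft, decide_eq_true_iff] at this
    rcases this with ⟨h1, h2⟩ | ⟨h1, h2⟩ | h1
    · obtain ⟨e1, e2, e3⟩ := offM_bit m (by omega) a (by omega) b (by omega) h2
      exact .inl ⟨e1, e2, e3, h1⟩
    · obtain rfl : a = m := by omega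
      rw [Nat.add_sub_cancel_left] at h2
      obtain ⟨e1, e2⟩ := nbr_bit h2
      simp only [Nat.testBit_and, Bool.and_eq_true] at e2
      refine .inr (.inl ⟨rfl, e1, ?_, e2.imp And.left And.left⟩)
      rcases e2 with e2 | e2
      · exact (offM_bit a (by omega) w (by omega) b (by omega) e2.2).2.2.symm
      · exact (offM_bit a (by omega) b (by omega) w (by omega) e2.2).2.2
    · exact .inr (.inr ((bt2_bit (by omega) (by omega)).mp h1))
  refine ⟨fun a ha b hb hab hbit => ?_, fun v hv hbit => ?_⟩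
  · rcases key a ha b hb hbit with h | h | h
    · exact .inl ⟨h.1, h.2.1, h.2.2.2⟩
    · exact .inr h
    · omega
  · have := key v hv.le v hv.le (by rwa [show 16 * v + v = 17 * v by omega])
    omega

/-- Check of the roots of pattern `i`; `C i` lists the identifiers in words of 18 bits. -/
def coverB (m : ℕ) (T' C E : ℕ → ℕ) (i : ℕ) : Bool :=
  (fun P c off => allN (fun w =>
    covB m off P w (E (Nat.mod (Nat.shiftRight c (Nat.mul 18 w)) 262144))) 0 m)
    (T' i) (C i) (offM m)

theorem cover_ok {m : ℕ} (hm : m ≤ 12) {T' T C E : ℕ → ℕ} {len' len : ℕ}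
    (hE : ∀ id, ∃ v < m, (E id).testBit (17 * v) = true ∧ Holds K (m + 1) T len (E id) v)
    (h : ∀ i < len', coverB m T' C E i = true) : Cover K m T' len' T len := by
  intro i hi w hw
  have h0 : allN (fun w => covB m (offM m) (T' i) w (E (C i >>> (18 * w) % 262144))) 0 m = true :=
    h i hi
  obtain ⟨h1, h2⟩ := covB_ok hm hw (allN_of h0 w (Nat.zero_le _) (by omega))
  obtain ⟨v, hv, h3, h4⟩ := hE (C i >>> (18 * w) % 262144)
  exact ⟨_, h2 v hv h3 ▸ h4, h1⟩

theorem Excl.top (hK : KI K) {e : ℕ} (h : Excl K e) (he : e >>> 208 = 7) : ¬ K 7 ⊤ := by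
  intro h7
  have := h.2
  rw [he] at this
  exact this (hK.le le_top h7)

/-- All levels together. -/
theorem no_good (hK : KI K) (h7 : ¬ K 7 ⊤) {T7 T8 T9 T10 T11 T12 T13 : ℕ → ℕ}
    {l8 l9 l10 l11 l12 : ℕ} (h : T7 0 = 2 ^ 16) (c8 : Cover K 7 T7 1 T8 l8)
    (c9 : Cover K 8 T8 l8 T9 l9) (c10 : Cover K 9 T9 l9 T10 l10)
    (c11 : Cover K 10 T10 l10 T11 l11) (c12 : Cover K 11 T11 l11 T12 l12)
    (c13 : Cover K 12 T12 l12 T13 0) (G : SimpleGraph (Fin 13)) (hG : K 13 G) (hG' : K 13 Gᶜ) :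
    False :=
  step_13 hK h7 (step_le hK (by decide) (by decide) (step_le hK (by decide) (by decide)
    (step_le hK (by decide) (by decide) (step_le hK (by decide) (by decide)
      (step_le hK (by decide) (by decide) (claim_7 hK h7 h) c8) c9) c10) c11) c12) c13 G hG hG'

end Pool.Agent.Lib.MP_1f96ff_gt
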