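import Mathlib

/-! Semantics of the search certificate, over an abstract class `K` of graphs. -/

namespace Pool.Agent.Lib.MP_1f96ff_gt

open Classical in
/-- Degree. -/
noncomputable def dg {n : ℕ} (G : SimpleGraph (Fin n)) (x : Fin n) : ℕ :=
  (Finset.univ.filter fun y => G.Adj x y).card

open Classical in
/-- Degree of the vertex obtained by contracting the pair `z w`. -/
noncomputable def kk {n : ℕ} (G : SimpleGraph (Fin n)) (z w : Fin n) : ℕ :=
  (Finset.univ.filter fun y => y ≠ z ∧ y ≠ w ∧ (G.Adj z y ∨ G.Adj w y)).card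

/-- The graph of a bit matrix (bit `16 a + b` or bit `16 b + a`). -/
def Gr (n M : ℕ) : SimpleGraph (Fin n) :=
  SimpleGraph.fromRel fun a b => M.testBit (16 * a.1 + b.1) = true

/-- The closure properties used by the search. -/
structure KI (K : ∀ n : ℕ, SimpleGraph (Fin n) → Prop) : Prop where
  mono : ∀ {m n : ℕ} (G : SimpleGraph (Fin n)) (H : SimpleGraph (Fin m)) (f : Fin m → Fin n),
    Function.Injective f → (∀ a b, H.Adj a b → G.Adj (f a) (f b)) → K n G → K m H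
  contr : ∀ {n : ℕ} (G H : SimpleGraph (Fin n)) (p a : Fin n), G.Adj p a →
    (∀ x y, H.Adj x y → x ≠ p ∧ (G.Adj x y ∨ (x = a ∧ G.Adj p y) ∨ (y = a ∧ G.Adj p x))) →
    K n G → K n H
  addE : ∀ {n : ℕ} (G : SimpleGraph (Fin n)) (x y z : Fin n), G.Adj x y → G.Adj x z →
    dg G x ≤ 3 → K n G → K n (G ⊔ SimpleGraph.edge y z)
  pend : ∀ {n : ℕ} (G : SimpleGraph (Fin n)) (u v : Fin n), (∀ w, ¬ G.Adj u w) →
    K n G → K n (G ⊔ SimpleGraph.edge u v)

/-- Admissible colourings (red `G`, blue `Gᶜ`). -/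
structure Adm (K : ∀ n : ℕ, SimpleGraph (Fin n) → Prop) (n : ℕ) (G : SimpleGraph (Fin n)) :
    Prop where
  red : K n G
  blue : K n Gᶜ
  mx : n ≤ 12 → ∀ x y z, dg G x ≤ 3 → G.Adj x y → G.Adj x z → y ≠ z → G.Adj y z
  two : n = 13 → ∀ x y, (∀ z, dg G y ≤ dg G z) → dg G y ≤ dg Gᶜ x

/-- Optimal pair. -/
structure Opt {n : ℕ} (G : SimpleGraph (Fin n)) (u v : Fin n) : Prop where
  adj : G.Adj u v
  deg : ∀ x, dg G u ≤ dg G x
  con : ∀ z w, dg G z ≤ dg G u → G.Adj z w → kk G u v ≤ kk G z w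

/-- Blue contains a copy of a pattern of the list (`T i` for `i < len`). -/
def Concl (n : ℕ) (T : ℕ → ℕ) (len : ℕ) (G : SimpleGraph (Fin n)) : Prop :=
  ∃ i < len, ∃ σ : Equiv.Perm (Fin n), ∀ a b, (Gr n (T i)).Adj a b → Gᶜ.Adj (σ a) (σ b)

/-- The statement of a lemma of the certificate: blue pattern `Q`, root pair `(n - 1, v)`. -/
def Holds (K : ∀ n : ℕ, SimpleGraph (Fin n) → Prop) (n : ℕ) (T : ℕ → ℕ) (len Q v : ℕ) : Prop :=
  ∀ (G : SimpleGraph (Fin n)) (u w : Fin n), u.1 + 1 = n → w.1 = v → Adm K n G → Opt G u w →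
    Gr n Q ≤ Gᶜ → Concl n T len G

/-- The statement of a level. -/
def Claim (K : ∀ n : ℕ, SimpleGraph (Fin n) → Prop) (n : ℕ) (T : ℕ → ℕ) (len : ℕ) : Prop :=
  ∀ G : SimpleGraph (Fin n), K n G → K n Gᶜ → Concl n T len G

end Pool.Agent.Lib.MP_1f96ff_gt
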