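import Pool.Agent.Lib.MP_1f96ff_gt.Sem

/-! Invariance under relabelling, and the star-triangle step. -/

namespace Pool.Agent.Lib.MP_1f96ff_gt

variable {K : ∀ n : ℕ, SimpleGraph (Fin n) → Prop} {n : ℕ}

theorem dg_comap (G : SimpleGraph (Fin n)) (σ : Equiv.Perm (Fin n)) (x : Fin n) :
    dg (G.comap σ) x = dg G (σ x) := by
  classical
  unfold dg
  refine Finset.card_bij (fun y _ => σ y) ?_ ?_ ?_
  · intro y hy; simpa using hy
  · intro a _ b _ h; exact σ.injective h
  · intro y hy; exact ⟨σ.symm y, by simpa using hy, by simp⟩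

theorem kk_comap (G : SimpleGraph (Fin n)) (σ : Equiv.Perm (Fin n)) (z w : Fin n) :
    kk (G.comap σ) z w = kk G (σ z) (σ w) := by
  classical
  unfold kk
  refine Finset.card_bij (fun y _ => σ y) ?_ ?_ ?_
  · intro y hy; simpa using hy
  · intro a _ b _ h; exact σ.injective h
  · intro y hy
    refine ⟨σ.symm y, ?_, by simp⟩
    simp only [Finset.mem_filter, Finset.mem_univ, true_and, SimpleGraph.comap_adj,
      Equiv.apply_symm_apply] at hy ⊢
    refine ⟨fun h => hy.1 ?_, fun h => hy.2.1 ?_, hy.2.2⟩ <;> rw [← h] <;> simp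

theorem compl_comap (G : SimpleGraph (Fin n)) (σ : Equiv.Perm (Fin n)) :
    (G.comap σ)ᶜ = Gᶜ.comap σ := by
  ext a b; simp

theorem KI.le (hK : KI K) {G H : SimpleGraph (Fin n)} (h : H ≤ G) (hG : K n G) : K n H :=
  hK.mono G H id Function.injective_id (fun _ _ hab => h hab) hG

theorem KI.comap (hK : KI K) {G : SimpleGraph (Fin n)} (σ : Equiv.Perm (Fin n)) (hG : K n G) :
    K n (G.comap σ) :=
  hK.mono G _ σ σ.injective (fun _ _ hab => hab) hG

theorem Adm.comap (hK : KI K) {G : SimpleGraph (Fin n)} (h : Adm K n G)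
    (σ : Equiv.Perm (Fin n)) : Adm K n (G.comap σ) where
  red := hK.comap σ h.red
  blue := by rw [compl_comap]; exact hK.comap σ h.blue
  mx := fun hn x y z hd hy hz hyz => by
    rw [dg_comap] at hd
    exact h.mx hn (σ x) (σ y) (σ z) hd hy hz (σ.injective.ne hyz)
  two := fun hn x y hy => by
    rw [compl_comap, dg_comap, dg_comap]
    refine h.two hn _ _ fun z => ?_
    have := hy (σ.symm z)
    simpa [dg_comap] using this

theorem Opt.comap {G : SimpleGraph (Fin n)} (σ : Equiv.Perm (Fin n)) {u v : Fin n}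
    (h : Opt G (σ u) (σ v)) : Opt (G.comap σ) u v where
  adj := h.adj
  deg := fun x => by rw [dg_comap, dg_comap]; exact h.deg _
  con := fun z w hz hzw => by
    rw [dg_comap, dg_comap] at hz
    rw [kk_comap, kk_comap]; exact h.con _ _ hz hzw

theorem Concl.of_comap {T : ℕ → ℕ} {len : ℕ} {G : SimpleGraph (Fin n)}
    (σ : Equiv.Perm (Fin n)) (h : Concl n T len (G.comap σ)) : Concl n T len G := by
  obtain ⟨i, hi, τ, hτ⟩ := h
  refine ⟨i, hi, τ.trans σ, fun a b hab => ?_⟩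
  have := hτ a b hab
  rw [compl_comap] at this
  exact this

theorem Concl.of_le {T : ℕ → ℕ} {len : ℕ} {G H : SimpleGraph (Fin n)} (hle : G ≤ H)
    (h : Concl n T len H) : Concl n T len G := by
  obtain ⟨i, hi, τ, hτ⟩ := h
  exact ⟨i, hi, τ, fun a b hab => compl_le_compl hle (hτ a b hab)⟩

/-- A lemma applied through a relabelling that fixes the root. -/
theorem Holds.perm (hK : KI K) {T : ℕ → ℕ} {len Q v : ℕ} (h : Holds K n T len Q v)
    (σ : Equiv.Perm (Fin n)) {G : SimpleGraph (Fin n)} {u w : Fin n} (hu : u.1 + 1 = n)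
    (hw : w.1 = v) (hA : Adm K n G) (hO : Opt G (σ u) (σ w))
    (hQ : ∀ a b, (Gr n Q).Adj a b → Gᶜ.Adj (σ a) (σ b)) : Concl n T len G := by
  refine Concl.of_comap σ (h _ u w hu hw (hA.comap hK σ) (hO.comap σ) fun a b hab => ?_)
  rw [compl_comap]
  exact hQ a b hab

theorem Gr_adj {M : ℕ} {a b : Fin n} : (Gr n M).Adj a b ↔
    a ≠ b ∧ (M.testBit (16 * a.1 + b.1) = true ∨ M.testBit (16 * b.1 + a.1) = true) :=
  SimpleGraph.fromRel_adj _ _ _

theorem dg_le_three {G : SimpleGraph (Fin n)} {p a b c : Fin n}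
    (h : ∀ y, G.Adj p y → y = a ∨ y = b ∨ y = c) : dg G p ≤ 3 := by
  classical
  unfold dg
  refine le_trans (Finset.card_le_card (t := {a, b, c}) ?_) Finset.card_le_three
  intro y hy
  simpa using h y (by simpa using hy)

/-- Star-triangle closure. -/
theorem KI.yd (hK : KI K) (G H : SimpleGraph (Fin n)) (p a b c : Fin n) (ha : G.Adj p a)
    (hb : G.Adj p b) (hc : G.Adj p c)
    (hH : ∀ x y, H.Adj x y → x ≠ p ∧
      (G.Adj x y ∨ ((x = a ∨ x = b ∨ x = c) ∧ (y = a ∨ y = b ∨ y = c)))) (hG : K n G) :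
    K n H := by
  let G1 : SimpleGraph (Fin n) :=
    { Adj := fun x y => G.Adj x y ∧ (x = p → y = a ∨ y = b ∨ y = c) ∧
        (y = p → x = a ∨ x = b ∨ x = c)
      symm := ⟨fun _ _ h => ⟨h.1.symm, h.2.2, h.2.1⟩⟩
      loopless := ⟨fun _ h => h.1.ne rfl⟩ }
  have h1 : K n G1 := hK.le (fun _ _ h => h.1) hG
  have ea : G1.Adj p a := ⟨ha, fun _ => .inl rfl, fun h => absurd h ha.ne'⟩
  have eb : G1.Adj p b := ⟨hb, fun _ => .inr (.inl rfl), fun h => absurd h hb.ne'⟩
  have ec : G1.Adj p c := ⟨hc, fun _ => .inr (.inr rfl), fun h => absurd h hc.ne'⟩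
  have na := ha.ne
  have nb := hb.ne
  have nc := hc.ne
  have d1 : ∀ y, G1.Adj p y → y = a ∨ y = b ∨ y = c := fun y h => h.2.1 rfl
  have step : ∀ (F : SimpleGraph (Fin n)) (s t : Fin n), p ≠ s → p ≠ t →
      (∀ y, F.Adj p y → y = a ∨ y = b ∨ y = c) →
      ∀ y, (F ⊔ SimpleGraph.edge s t).Adj p y → y = a ∨ y = b ∨ y = c := by
    intro F s t hs ht hF y hy
    rw [SimpleGraph.sup_adj, SimpleGraph.edge_adj] at hy
    rcases hy with hy | ⟨⟨h, -⟩ | ⟨h, -⟩, -⟩
    · exact hF y hy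
    · exact absurd h hs
    · exact absurd h ht
  have d2 := step G1 a b na nb d1
  have d3 := step _ a c na nc d2
  have h2 := hK.addE G1 p a b ea eb (dg_le_three d1) h1
  have h3 := hK.addE (G1 ⊔ SimpleGraph.edge a b) p a c (Or.inl ea) (Or.inl ec) (dg_le_three d2) h2
  have h4 := hK.addE (G1 ⊔ SimpleGraph.edge a b ⊔ SimpleGraph.edge a c) p b c
    (Or.inl (Or.inl eb)) (Or.inl (Or.inl ec)) (dg_le_three d3) h3
  refine hK.le (fun x y hxy => ?_) h4
  obtain ⟨hx, h⟩ := hH x y hxy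
  obtain ⟨hy, -⟩ := hH y x hxy.symm
  have hne := hxy.ne
  simp only [SimpleGraph.sup_adj, SimpleGraph.edge_adj]
  rcases h with h | ⟨hx', hy'⟩
  · exact .inl (.inl (.inl ⟨h, fun e => absurd e hx, fun e => absurd e hy⟩))
  · have hne' := hne.symm
    rcases hx' with h | h | h <;> rcases hy' with h' | h' | h' <;> rw [h, h'] at hne hne' <;>
      rw [h, h'] <;> first | exact absurd rfl hne | simp [hne, hne']

end Pool.Agent.Lib.MP_1f96ff_gt
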