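import Mathlib

/-!
Piecewise linear spatial graphs, polygonal knots, the unknot (by triangle moves) and
intrinsically knotted graphs.
-/

namespace Pool.Agent.Lib.MP_1f96ff_gt

/-- Euclidean three-space. -/
abbrev R3 := EuclideanSpace ℝ (Fin 3)

/-- The sides of the polygonal path through the points of a list: the consecutive pairs. -/
def sides (l : List R3) : List (R3 × R3) := l.zip l.tail

/-- The point set of the polygonal path. -/
def trace (l : List R3) : Set R3 := {x | ∃ s ∈ sides l, x ∈ segment ℝ s.1 s.2}

/-- Two segments meet at most in common end points. -/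
def Meet (s t : R3 × R3) : Prop :=
  segment ℝ s.1 s.2 ∩ segment ℝ t.1 t.2 ⊆ {s.1, s.2} ∩ {t.1, t.2}

/-- A simple polygonal arc: distinct corners, sides meeting only in common end points. -/
def IsArc (l : List R3) : Prop := l.Nodup ∧ (sides l).Pairwise Meet

/-- The closed path: the first point is repeated at the end. -/
def closeUp (l : List R3) : List R3 := l ++ l.take 1

/-- A polygonal knot, given by the cyclic list of its corners (a simple closed polygon). -/
def IsKnot (l : List R3) : Prop :=
  3 ≤ l.length ∧ l.Nodup ∧ (sides (closeUp l)).Pairwise Meet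

/-- An elementary move between polygonal knots: a cyclic shift of the list of corners, or a
triangle move, which replaces the side `p q` by the two sides `p r`, `r q` when the triangle
`p q r` meets the knot only in the side `p q` (for `r` on the side it is a subdivision). -/
def Move (l l' : List R3) : Prop :=
  IsKnot l ∧ IsKnot l' ∧ (l' = l.rotate 1 ∨ ∃ p q r t, l = p :: q :: t ∧ l' = p :: r :: q :: t ∧
    convexHull ℝ {p, q, r} ∩ trace (closeUp l) ⊆ segment ℝ p q)

/-- The trivial knot: finitely many moves and inverse moves lead to a triangle. -/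
def Unknotted (l : List R3) : Prop :=
  ∃ a b c, IsKnot [a, b, c] ∧ Relation.EqvGen Move l [a, b, c]

/-- A piecewise linear spatial embedding: `pos` places the vertices, the edge `u v` runs from
`pos u` through the points `bend u v` to `pos v`. -/
structure Emb {V : Type} (G : SimpleGraph V) where
  pos : V → R3
  bend : V → V → List R3
  inj : Function.Injective pos
  rev : ∀ u v, G.Adj u v → bend v u = (bend u v).reverse
  arc : ∀ u v, G.Adj u v → IsArc (pos u :: bend u v ++ [pos v])
  disj : ∀ u v u' v', G.Adj u v → G.Adj u' v' → s(u, v) ≠ s(u', v') →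
    trace (pos u :: bend u v ++ [pos v]) ∩ trace (pos u' :: bend u' v' ++ [pos v']) ⊆
      pos '' ({u, v} ∩ {u', v'})
  off : ∀ u v w, G.Adj u v → pos w ∈ trace (pos u :: bend u v ++ [pos v]) → w = u ∨ w = v

/-- The corners of the closed polygon along which a closed walk is embedded. -/
def Emb.poly {V : Type} {G : SimpleGraph V} (e : Emb G) {v : V} (c : G.Walk v v) : List R3 :=
  c.darts.flatMap fun d => e.pos d.fst :: e.bend d.fst d.snd

/-- Intrinsically knotted: every embedding has a cycle that is a nontrivial knot. -/
def IK {V : Type} (G : SimpleGraph V) : Prop :=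
  ∀ e : Emb G, ∃ (v : V) (c : G.Walk v v), c.IsCycle ∧ ¬ Unknotted (e.poly c)

end Pool.Agent.Lib.MP_1f96ff_gt
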