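import Mathlib

/-! Words of crossing letters: subsequence counts mod 2, the Polyak-Viro count, over-crossing
numbers. A letter is a crossing and a Boolean (`true` = this strand passes over). -/

namespace Pool.Agent.Lib.MP_1f96ff_gt

/-- Number mod 2 of occurrences of the first word as a subsequence of the second. -/
def cnt {A : Type} [DecidableEq A] : List A → List A → ZMod 2
  | [], _ => 1
  | _ :: _, [] => 0
  | a :: p, b :: w => cnt (a :: p) w + if a = b then cnt p w else 0

/-- The Polyak-Viro count mod 2 of a based word. -/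
def PVw {L : Type} [Fintype L] [DecidableEq L] (w : List (L × Bool)) : ZMod 2 :=
  ∑ c : L, ∑ c' : L, if c = c' then 0 else cnt [(c, false), (c', true), (c, true), (c', false)] w

/-- Number mod 2 of crossings where the first word passes over the second. -/
def om {L : Type} [Fintype L] [DecidableEq L] (w w' : List (L × Bool)) : ZMod 2 :=
  ∑ c : L, cnt [(c, true)] w * cnt [(c, false)] w'

/-- The word read along a walk. -/
def wordOf {V L : Type} {G : SimpleGraph V} (w : V → V → List (L × Bool)) {u v : V}
    (c : G.Walk u v) : List (L × Bool) :=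
  c.darts.flatMap fun d => w d.fst d.snd

/-- Indicator mod 2 of a strict inequality. -/
noncomputable def lt2 (x y : ℝ) : ZMod 2 := if x < y then 1 else 0

/-- The data read off a generic projection of a knotless embedding. -/
def K0 {V : Type} (G : SimpleGraph V) : Prop :=
  ∃ (L : Type) (_ : Fintype L) (_ : DecidableEq L) (w : V → V → List (L × Bool)) (ξ : V → ℝ)
    (φ : V → V → V → ZMod 2), Function.Injective ξ ∧
    (∀ u v, G.Adj u v → w v u = (w u v).reverse) ∧
    (∀ a b c d, G.Adj a b → G.Adj c d → s(a, b) ≠ s(c, d) → ∀ x ∈ w a b, x ∉ w c d) ∧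
    (∀ (v : V) (c : G.Walk v v), c.IsCycle → PVw (wordOf w c) = 0) ∧
    (∀ x u v, G.Adj u v → φ x u v = φ x v u) ∧
    ∀ a b c d, G.Adj a b → G.Adj c d → a ≠ c → a ≠ d → b ≠ c → b ≠ d →
      om (w a b) (w c d) + om (w c d) (w a b) =
        lt2 (ξ a) (ξ c) + lt2 (ξ a) (ξ d) + lt2 (ξ b) (ξ c) + lt2 (ξ b) (ξ d) +
          φ a c d + φ b c d + φ c a b + φ d a b

end Pool.Agent.Lib.MP_1f96ff_gt
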