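import Pool.Agent.Lib.MP_1f96ff_gt.KnB1

namespace Pool.Agent.Lib.MP_1f96ff_gt

set_option synthInstance.maxSize 4000 in
theorem knAbs_bits : ∀ p z x : ZMod 2, (p = z → x = p) → ∀ w y : ZMod 2, (p = w → y = p) →
    ∀ q : ZMod 2, (x = q → y = x) → (z = q → w = z) → ∀ s t : ZMod 2, (p = t → s = p) →
    ∀ s' : ZMod 2, (x = s' → s = x) → (z = s' → t = z) → ∀ t' : ZMod 2, (y = t' → s = y) →
    (w = t' → t = w) → (q = t' → s' = q) →
    (y + s + t') * (1 + w + t' + t) * (z + t + s') + y * (1 + w) * z + s * (w + y + z + x) +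
      ((1 + z + s' + t) * (w + t + t') * (1 + y + t' + s) + (1 + z) * w * (1 + y) +
        s' * (1 + w + (1 + z) + (1 + y) + (1 + x))) = 0 := by
  decide

open Classical

/-! Abstract Gauss data: change of the base point. -/

theorem pv_congr {ι κ : Type} {C : Finset ι} {C' : Finset κ} {o u : ι → ℝ} {o' u' : κ → ℝ}
    (i : ι → κ) (hi : Set.BijOn i C C') (ho : ∀ c ∈ C, o' (i c) = o c)
    (hu : ∀ c ∈ C, u' (i c) = u c) : pv C' o' u' = pv C o u := by
  refine (Finset.sum_nbij i hi.mapsTo hi.injOn hi.surjOn fun c hc =>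
    Finset.sum_nbij i hi.mapsTo hi.injOn hi.surjOn fun c' hc' => ?_).symm
  rw [ho c hc, hu c hc, ho c' hc', hu c' hc']

theorem knAbs_rot {N x y : ℝ} (hx : 0 ≤ x) (hx' : x < N + 1) (hy : 0 ≤ y) (hy' : y < N + 1) :
    lt2 (if x < 1 then x + N else x - 1) (if y < 1 then y + N else y - 1) =
      lt2 x y + lt2 x 1 + lt2 y 1 := by
  split_ifs with a b b
  · rw [lt2_of_lt a, lt2_of_lt b, add_assoc, two_zero, add_zero]
    exact lt2_congr (add_lt_add_iff_right N)
  · rw [lt2_of_lt a, lt2_of_le (not_lt.1 b), lt2_of_le (by linarith),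
      lt2_of_lt (by linarith), two_zero, add_zero]
  · rw [lt2_of_lt b, lt2_of_le (not_lt.1 a), lt2_of_lt (by linarith),
      lt2_of_le (by linarith), add_zero, zero_add]
  · rw [lt2_of_le (not_lt.1 a), lt2_of_le (not_lt.1 b), add_zero, add_zero]
    exact lt2_congr (sub_lt_sub_iff_right 1)

theorem knAbs_tr (x y z : ℝ) (h : lt2 x y = lt2 y z) : lt2 x z = lt2 x y := by
  rcases lt_or_ge x y with a | a <;> rcases lt_or_ge y z with b | b
  · rw [lt2_of_lt a, lt2_of_lt (a.trans b)]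
  · rw [lt2_of_lt a, lt2_of_le b] at h
    exact absurd h one_ne_zero
  · rw [lt2_of_le a, lt2_of_lt b] at h
    exact absurd h zero_ne_one
  · rw [lt2_of_le a, lt2_of_le (b.trans a)]

theorem knAbs_rev {x y : ℝ} (h : x ≠ y) : lt2 y x = 1 + lt2 x y := by
  linear_combination lt2_add_lt2 h - two_zero (lt2 x y)

theorem knAbs_sym {ι : Type} [DecidableEq ι] {C : Finset ι} {G : ι → ι → ZMod 2}
    (h : ∀ c ∈ C, ∀ c' ∈ C, c ≠ c' → G c c' + G c' c = 0) :
    ∑ c ∈ C, ∑ c' ∈ C.erase c, G c c' = 0 := by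
  rw [← Finset.sum_finset_product' C.offDiag C (fun c => C.erase c) fun p => by
    rw [Finset.mem_offDiag, Finset.mem_erase, ne_comm]
    tauto]
  refine Finset.sum_involution (fun p _ => p.swap) (fun p hp => ?_) (fun p hp _ e => ?_)
    (fun p hp => ?_) fun p _ => p.swap_swap
  · obtain ⟨a, b, c⟩ := Finset.mem_offDiag.1 hp
    exact h _ a _ b c
  · exact (Finset.mem_offDiag.1 hp).2.2 (congrArg Prod.snd e)
  · obtain ⟨a, b, c⟩ := Finset.mem_offDiag.1 hp
    exact Finset.mem_offDiag.2 ⟨b, a, c.symm⟩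

theorem knAbs_erase {ι : Type} [DecidableEq ι] (C : Finset ι) (o u : ι → ℝ) : pv C o u =
    ∑ c ∈ C, ∑ c' ∈ C.erase c, lt2 (u c) (o c') * lt2 (o c') (o c) * lt2 (o c) (u c') :=
  Finset.sum_congr rfl fun c _ => (Finset.sum_erase C (by
    rw [lt2_of_le (le_refl (o c)), mul_zero, zero_mul])).symm

/-- The letters with time `< 1` are moved to the end. Let `T c c'` be the summand of `pv` and
`T'` the one for the new times, and `G c c' = T c c' + T' c c' + [u c < 1] [c ≠ c'] il c c'`.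
Then `G c c = 0` and `G c c' + G c' c = 0` for `c ≠ c'` (a statement about four different reals
`u c, o c, u c', o c'` in `[0, N + 1)`: state it as a separate lemma on reals, split on the four
comparisons with `1` and the six mutual comparisons, evaluate each `lt2` by `lt2_of_lt` /
`lt2_of_le` with `linarith`, finish with `decide`). So the sum of `G` over `C ×ˢ C` vanishes
(`Finset.sum_involution` with `Prod.swap`), and the third part vanishes by `hG`. -/
theorem pv_rot {ι : Type} [DecidableEq ι] {C : Finset ι} {o u o' u' : ι → ℝ} {N : ℝ}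
    (hb : ∀ c ∈ C, 0 ≤ o c ∧ o c < N + 1 ∧ 0 ≤ u c ∧ u c < N + 1)
    (ho : ∀ c ∈ C, o' c = if o c < 1 then o c + N else o c - 1)
    (hu : ∀ c ∈ C, u' c = if u c < 1 then u c + N else u c - 1)
    (hou : ∀ c ∈ C, ∀ c' ∈ C, o c ≠ u c') (hoo : ∀ c ∈ C, ∀ c' ∈ C, o c = o c' → c = c')
    (huu : ∀ c ∈ C, ∀ c' ∈ C, u c = u c' → c = c')
    (hG : ∀ c ∈ C, u c < 1 → ∑ c' ∈ C.erase c, il o u c c' = 0) :
    pv C o' u' = pv C o u := by
  have h0 : ∑ c ∈ C, ∑ c' ∈ C.erase c, lt2 (u c) 1 * il o u c c' = 0 := by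
    refine Finset.sum_eq_zero fun c hc => ?_
    rw [← Finset.mul_sum]
    rcases lt_or_ge (u c) 1 with h | h
    · rw [hG c hc h, mul_zero]
    · rw [lt2_of_le h, zero_mul]
  have h1 := knAbs_sym (C := C) (G := fun c c' =>
    lt2 (u' c) (o' c') * lt2 (o' c') (o' c) * lt2 (o' c) (u' c') +
      lt2 (u c) (o c') * lt2 (o c') (o c) * lt2 (o c) (u c') + lt2 (u c) 1 * il o u c c')
    fun c hc c' hc' hne => by
      obtain ⟨a1, a2, a3, a4⟩ := hb c hc
      obtain ⟨b1, b2, b3, b4⟩ := hb c' hc'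
      simp only [ho c hc, ho c' hc', hu c hc, hu c' hc', il]
      rw [knAbs_rot a3 a4 b1 b2, knAbs_rot b1 b2 a1 a2, knAbs_rot a1 a2 b3 b4,
        knAbs_rot b3 b4 a1 a2, knAbs_rot a1 a2 b1 b2, knAbs_rot b1 b2 a3 a4,
        knAbs_rev fun e => hne (hoo c hc c' hc' e), knAbs_rev fun e => hne (huu c hc c' hc' e),
        knAbs_rev (hou c hc c' hc'), knAbs_rev (hou c' hc' c hc).symm]
      exact knAbs_bits _ _ _ (knAbs_tr (u c) (o c) (u c')) _ _ (knAbs_tr _ _ (o c')) _
        (knAbs_tr _ (u c') (o c')) (knAbs_tr _ _ _) _ _ (knAbs_tr _ _ 1) _ (knAbs_tr _ _ _)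
        (knAbs_tr _ _ _) _ (knAbs_tr _ _ _) (knAbs_tr _ _ _) (knAbs_tr _ _ _)
  simp only [Finset.sum_add_distrib] at h1
  rw [h0, ← knAbs_erase, ← knAbs_erase] at h1
  linear_combination h1 - two_zero (pv C o u)

end Pool.Agent.Lib.MP_1f96ff_gt
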