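import Pool.Agent.Lib.MP_1f96ff_gt.KnB2

namespace Pool.Agent.Lib.MP_1f96ff_gt

open Classical

/-! The count for a list `I ++ P` whose initial part `I` has no crossing with itself. -/

theorem knApp_sum (F : Fr) {I P : List Seg} (hn : (I ++ P).Nodup)
    (hI : ∀ σ ∈ I, ∀ σ' ∈ I, ¬ F.cr σ σ') (g : Seg × Seg → ZMod 2) :
    ∑ c ∈ F.C (I ++ P), g c = ∑ c ∈ F.C P, g c +
      (∑ e ∈ fs P, ∑ σ ∈ fs I, ind (F.ov e σ) * g (e, σ)) +
      ∑ σ ∈ fs I, ∑ f ∈ fs P, ind (F.ov σ f) * g (σ, f) := by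
  rw [F.sum_C, F.sum_C, sum_fs_append hn]
  simp only [sum_fs_append hn, Finset.sum_add_distrib]
  have h0 : ∑ σ ∈ fs I, ∑ σ' ∈ fs I, ind (F.ov σ σ') * g (σ, σ') = 0 :=
    Finset.sum_eq_zero fun σ h => Finset.sum_eq_zero fun σ' h' => by
      rw [ind_false fun h1 => hI σ (mem_fs.1 h) σ' (mem_fs.1 h') h1.1, zero_mul]
  rw [h0]
  ring

theorem knApp_ind {A : Prop} {x y : ZMod 2} (h : A → x = y) : ind A * x = ind A * y := by
  by_cases hA : A
  · rw [h hA]
  · rw [ind_false hA, zero_mul, zero_mul]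

theorem knApp_zero {A : Prop} {x : ZMod 2} (h : A → x = 0) : ind A * x = 0 := by
  rw [knApp_ind h, mul_zero]

/-- Use `Fr.sum_C`, `sum_fs_append`, `idx_append_left`, `idx_append_right`, `idx_lt_length`.
All times of letters on `I` are `< I.length`, all times of letters on `P` are
`I.length + F.time P ..` `> I.length` (parameters of crossings are in `(0,1)`). With
`c = (over, under)` the nine cases are: both crossings inside `P` give `F.PV P`; `c = (e, σ)` and
`c'` inside `P` give the second term; `c = (e, σ')`, `c' = (σ, f)` give the third term; in all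
other cases one of the three `lt2` factors vanishes. -/
theorem PV_append (F : Fr) {I P : List Seg} (hn : (I ++ P).Nodup)
    (hI : ∀ σ ∈ I, ∀ σ' ∈ I, ¬ F.cr σ σ') :
    F.PV (I ++ P) = F.PV P +
      (∑ c ∈ F.C P, ∑ e ∈ fs P, ∑ σ ∈ fs I, ind (F.ov e σ) *
        (lt2 (F.time P c.1 c.2) (F.time P e σ) * lt2 (F.time P e σ) (F.time P c.2 c.1))) +
      ∑ e ∈ fs P, ∑ f ∈ fs P, ∑ σ' ∈ fs I, ∑ σ ∈ fs I, ind (F.ov e σ') * ind (F.ov σ f) *
        (lt2 (F.time I σ' e) (F.time I σ f) * lt2 (F.time P e σ') (F.time P f σ)) := by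
  have hd : ∀ e ∈ P, e ∉ I := fun e he hi => List.disjoint_of_nodup_append hn hi he
  have tL : ∀ σ ∈ I, ∀ f, F.time (I ++ P) σ f = F.time I σ f := fun σ h f => by
    simp only [Fr.time, idx_append_left h]
  have tR : ∀ e ∈ P, ∀ f, F.time (I ++ P) e f = I.length + F.time P e f := fun e h f => by
    simp only [Fr.time, idx_append_right (hd e h), add_assoc]
  have bL : ∀ σ ∈ I, ∀ f, F.cr σ f → F.time I σ f < I.length := fun σ h f hc => by
    have h1 := idx_lt_length h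
    have h2 := hc.2.2.1
    simp only [Fr.time]
    linarith
  have bR : ∀ e f, F.cr e f → 0 < F.time P e f := fun e f hc => by
    have h1 := idx_nonneg P e
    have h2 := hc.2.1
    simp only [Fr.time]
    linarith
  have sh : ∀ x y : ℝ, lt2 (I.length + x) (I.length + y) = lt2 x y := fun x y =>
    lt2_congr (add_lt_add_iff_left _)
  have one : ∀ σ ∈ I, ∀ f e g, F.cr σ f → F.cr e g →
      lt2 (F.time I σ f) (I.length + F.time P e g) = 1 := fun σ h f e g h1 h2 =>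
    lt2_of_lt (by linarith [bL σ h f h1, bR e g h2])
  have zer : ∀ σ ∈ I, ∀ f e g, F.cr σ f → F.cr e g →
      lt2 (I.length + F.time P e g) (F.time I σ f) = 0 := fun σ h f e g h1 h2 =>
    lt2_of_le (by linarith [bL σ h f h1, bR e g h2])
  obtain ⟨T, hT⟩ : ∃ T : Seg × Seg → Seg × Seg → ZMod 2, ∀ c c', T c c' =
      lt2 (F.time (I ++ P) c.2 c.1) (F.time (I ++ P) c'.1 c'.2) *
        lt2 (F.time (I ++ P) c'.1 c'.2) (F.time (I ++ P) c.1 c.2) *
        lt2 (F.time (I ++ P) c.1 c.2) (F.time (I ++ P) c'.2 c'.1) := ⟨_, fun _ _ => rfl⟩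
  have h0 : F.PV (I ++ P) = ∑ c ∈ F.C (I ++ P), ∑ c' ∈ F.C (I ++ P), T c c' := by
    simp only [Fr.PV, pv, hT]
  have hA : ∑ c ∈ F.C P, ∑ c' ∈ F.C (I ++ P), T c c' = F.PV P := by
    rw [Fr.PV, pv]
    refine Finset.sum_congr rfl fun c hc => ?_
    obtain ⟨c1, c2, c3⟩ := Fr.mem_C.1 hc
    have z1 : ∑ e ∈ fs P, ∑ σ ∈ fs I, ind (F.ov e σ) * T c (e, σ) = 0 :=
      Finset.sum_eq_zero fun e he => Finset.sum_eq_zero fun σ hσ => knApp_zero fun h => by
        rw [hT]
        simp only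
        rw [tL σ (mem_fs.1 hσ), tR _ c1, zer σ (mem_fs.1 hσ) _ _ _ h.1.symm c3.1, mul_zero]
    have z2 : ∑ σ ∈ fs I, ∑ f ∈ fs P, ind (F.ov σ f) * T c (σ, f) = 0 :=
      Finset.sum_eq_zero fun σ hσ => Finset.sum_eq_zero fun f hf => knApp_zero fun h => by
        rw [hT]
        simp only
        rw [tL σ (mem_fs.1 hσ), tR _ c2, zer σ (mem_fs.1 hσ) _ _ _ h.1 c3.1.symm, zero_mul,
          zero_mul]
    rw [knApp_sum F hn hI, z1, z2, add_zero, add_zero]
    refine Finset.sum_congr rfl fun c' hc' => ?_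
    obtain ⟨d1, d2, -⟩ := Fr.mem_C.1 hc'
    rw [hT, tR _ c1, tR _ c2, tR _ d1, tR _ d2, sh, sh, sh]
  have hC : ∑ σ ∈ fs I, ∑ f ∈ fs P, ind (F.ov σ f) * ∑ c' ∈ F.C (I ++ P), T (σ, f) c' = 0 :=
    Finset.sum_eq_zero fun σ hσ => Finset.sum_eq_zero fun f hf => knApp_zero fun h =>
      Finset.sum_eq_zero fun c' _ => by
        rw [hT]
        simp only
        rw [tL σ (mem_fs.1 hσ), tR f (mem_fs.1 hf)]
        have h1 := bL σ (mem_fs.1 hσ) f h.1
        have h2 := bR f σ h.1.symm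
        rcases le_or_gt (F.time (I ++ P) c'.1 c'.2) I.length with h3 | h3
        · rw [lt2_of_le (x := I.length + F.time P f σ) (by linarith), zero_mul, zero_mul]
        · rw [lt2_of_le (x := F.time (I ++ P) c'.1 c'.2) (by linarith), mul_zero, zero_mul]
  have hB : ∀ e ∈ fs P, ∀ σ' ∈ fs I, ind (F.ov e σ') * ∑ c' ∈ F.C (I ++ P), T (e, σ') c' =
      (∑ c ∈ F.C P, ind (F.ov e σ') *
        (lt2 (F.time P c.1 c.2) (F.time P e σ') * lt2 (F.time P e σ') (F.time P c.2 c.1))) +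
      ∑ f ∈ fs P, ∑ σ ∈ fs I, ind (F.ov e σ') * ind (F.ov σ f) *
        (lt2 (F.time I σ' e) (F.time I σ f) * lt2 (F.time P e σ') (F.time P f σ)) := by
    intro e he σ' hσ'
    simp only [mul_assoc (ind (F.ov e σ')), ← Finset.mul_sum, ← mul_add]
    refine knApp_ind fun h => ?_
    have he' := mem_fs.1 he
    have hs' := mem_fs.1 hσ'
    have z1 : ∑ e' ∈ fs P, ∑ σ ∈ fs I, ind (F.ov e' σ) * T (e, σ') (e', σ) = 0 :=
      Finset.sum_eq_zero fun e' _ => Finset.sum_eq_zero fun σ hσ => knApp_zero fun h' => by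
        rw [hT]
        simp only
        rw [tL σ (mem_fs.1 hσ), tR e he', zer σ (mem_fs.1 hσ) _ _ _ h'.1.symm h.1, mul_zero]
    rw [knApp_sum F hn hI, z1, add_zero, Finset.sum_comm (s := fs I)]
    refine congrArg₂ (· + ·) (Finset.sum_congr rfl fun c hc => ?_)
      (Finset.sum_congr rfl fun f hf => Finset.sum_congr rfl fun σ hσ => knApp_ind fun h' => ?_)
    · obtain ⟨c1, c2, c3⟩ := Fr.mem_C.1 hc
      rw [hT]
      simp only
      rw [tL σ' hs', tR e he', tR _ c1, tR _ c2, sh, sh, one σ' hs' _ _ _ h.1.symm c3.1, one_mul]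
    · rw [hT]
      simp only
      rw [tL σ' hs', tR e he', tL σ (mem_fs.1 hσ), tR f (mem_fs.1 hf), sh,
        one σ (mem_fs.1 hσ) _ _ _ h'.1 h.1, mul_one]
  rw [h0, knApp_sum F hn hI, hA, hC, add_zero, add_assoc,
    Finset.sum_congr rfl fun e he => Finset.sum_congr rfl (hB e he)]
  simp only [Finset.sum_add_distrib]
  refine congrArg (F.PV P + ·) (congrArg₂ (· + ·) ?_ ?_)
  · rw [Finset.sum_comm (s := F.C P)]
    exact Finset.sum_congr rfl fun e _ => Finset.sum_comm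
  · exact Finset.sum_congr rfl fun e _ => Finset.sum_comm

end Pool.Agent.Lib.MP_1f96ff_gt
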