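import Pool.Agent.Lib.MP_1f96ff_gt.KnGeo

namespace Pool.Agent.Lib.MP_1f96ff_gt

open Classical

/-! Algebra of points on segments, crossings, indicators. No genericity. -/

theorem ind_true {P : Prop} (h : P) : ind P = 1 := by simp [ind, h]
theorem ind_false {P : Prop} (h : ¬ P) : ind P = 0 := by simp [ind, h]
theorem ind_congr {P Q : Prop} (h : P ↔ Q) : ind P = ind Q := by rw [propext h]
theorem ind_and (P Q : Prop) : ind (P ∧ Q) = ind P * ind Q := by
  by_cases hP : P <;> by_cases hQ : Q <;> simp [ind, hP, hQ]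
theorem ind_not (P : Prop) : ind (¬ P) = 1 + ind P := by
  by_cases hP : P <;> simp [ind, hP]; decide
theorem ind_or {P Q : Prop} (h : ¬ (P ∧ Q)) : ind (P ∨ Q) = ind P + ind Q := by
  by_cases hP : P <;> by_cases hQ : Q <;> simp_all [ind]
theorem lt2_eq (x y : ℝ) : lt2 x y = ind (x < y) := by
  by_cases h : x < y <;> simp [lt2, ind, h]
theorem lt2_of_lt {x y : ℝ} (h : x < y) : lt2 x y = 1 := by simp [lt2, h]
theorem lt2_of_le {x y : ℝ} (h : y ≤ x) : lt2 x y = 0 := by simp [lt2, not_lt.mpr h]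
theorem lt2_congr {x y x' y' : ℝ} (h : x < y ↔ x' < y') : lt2 x y = lt2 x' y' := by
  rw [lt2_eq, lt2_eq, ind_congr h]
theorem two_zero (z : ZMod 2) : z + z = 0 := CharTwo.add_self_eq_zero z
theorem lt2_add_lt2 {x y : ℝ} (h : x ≠ y) : lt2 x y + lt2 y x = 1 := by
  rcases lt_or_gt_of_ne h with h | h
  · rw [lt2_of_lt h, lt2_of_le h.le, add_zero]
  · rw [lt2_of_lt h, lt2_of_le h.le, zero_add]

@[simp] theorem pt_zero (e : Seg) : pt e 0 = e.1 := by simp [pt]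
@[simp] theorem pt_one (e : Seg) : pt e 1 = e.2 := by simp [pt]
@[simp] theorem pt2_zero (a : Seg2) : pt2 a 0 = a.1 := by simp [pt2]
@[simp] theorem pt2_one (a : Seg2) : pt2 a 1 = a.2 := by simp [pt2]

theorem pt_swap (e : Seg) (t : ℝ) : pt e.swap t = pt e (1 - t) := by
  simp only [pt, Prod.fst_swap, Prod.snd_swap]; module

theorem pt_pt (e : Seg) (a b t : ℝ) : pt (pt e a, pt e b) t = pt e (a + t * (b - a)) := by
  simp only [pt]; module

theorem pt2_fst (a : Seg2) (t : ℝ) : (pt2 a t).1 = a.1.1 + t * (a.2.1 - a.1.1) := by simp [pt2]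
theorem pt2_snd (a : Seg2) (t : ℝ) : (pt2 a t).2 = a.1.2 + t * (a.2.2 - a.1.2) := by simp [pt2]

theorem mem_seg (e : Seg) (x : R3) :
    x ∈ segment ℝ e.1 e.2 ↔ ∃ t, 0 ≤ t ∧ t ≤ 1 ∧ x = pt e t := by
  rw [segment_eq_image']
  constructor
  · rintro ⟨t, ⟨h0, h1⟩, rfl⟩; exact ⟨t, h0, h1, rfl⟩
  · rintro ⟨t, h0, h1, rfl⟩; exact ⟨t, ⟨h0, h1⟩, rfl⟩

theorem pt_inj {e : Seg} (h : e.1 ≠ e.2) {s t : ℝ} (hst : pt e s = pt e t) : s = t := by
  have h1 : (s - t) • (e.2 - e.1) = 0 := by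
    have := sub_eq_zero.mpr hst
    rw [← this]; simp only [pt]; module
  rcases smul_eq_zero.mp h1 with h2 | h2
  · linarith
  · exact absurd (sub_eq_zero.mp h2).symm h

theorem Meet.symm {e f : Seg} (h : Meet e f) : Meet f e := fun x hx => by
  have := h ⟨hx.2, hx.1⟩; exact ⟨this.2, this.1⟩

theorem Meet.swap_left {e f : Seg} (h : Meet e f) : Meet e.swap f := fun x hx => by
  have := h ⟨by simpa [segment_symm] using hx.1, hx.2⟩
  refine ⟨?_, this.2⟩
  rcases this.1 with h1 | h1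
  · exact Or.inr h1
  · exact Or.inl h1

theorem Meet.swap_right {e f : Seg} (h : Meet e f) : Meet e f.swap := h.symm.swap_left.symm

/-- a common point of two segments that `Meet` is an end of both -/
theorem Meet.ends {e f : Seg} (h : Meet e f) {s t : ℝ} (s0 : 0 ≤ s) (s1 : s ≤ 1) (t0 : 0 ≤ t)
    (t1 : t ≤ 1) (hst : pt e s = pt f t) :
    (pt e s = e.1 ∨ pt e s = e.2) ∧ (pt e s = f.1 ∨ pt e s = f.2) := by
  have := h (a := pt e s) ⟨(mem_seg _ _).mpr ⟨s, s0, s1, rfl⟩, (mem_seg _ _).mpr ⟨t, t0, t1, hst⟩⟩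
  simpa using this

theorem Meet.ne {e f : Seg} (h : Meet e f) (hn : e.1 ≠ e.2) {s t : ℝ} (s0 : 0 < s) (s1 : s < 1)
    (t0 : 0 ≤ t) (t1 : t ≤ 1) : pt e s ≠ pt f t := fun hst => by
  rcases (h.ends s0.le s1.le t0 t1 hst).1 with h1 | h1
  · have := pt_inj hn (h1.trans (pt_zero e).symm); linarith
  · have := pt_inj hn (h1.trans (pt_one e).symm); linarith

theorem meet_of_pt {e f : Seg} (h : ∀ s t, 0 ≤ s → s ≤ 1 → 0 ≤ t → t ≤ 1 → pt e s = pt f t →
    (pt e s = e.1 ∨ pt e s = e.2) ∧ (pt e s = f.1 ∨ pt e s = f.2)) : Meet e f := fun x hx => by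
  obtain ⟨s, s0, s1, rfl⟩ := (mem_seg _ _).mp hx.1
  obtain ⟨t, t0, t1, ht⟩ := (mem_seg _ _).mp hx.2
  simpa using h s t s0 s1 t0 t1 ht

theorem not_meet_self {e : Seg} (hn : e.1 ≠ e.2) : ¬ Meet e e := fun h =>
  h.ne hn (s := 1 / 2) (t := 1 / 2) (by norm_num) (by norm_num) (by norm_num) (by norm_num) rfl

theorem In.swap {S : Set R3} {e : Seg} (h : In S e) : In S e.swap := ⟨h.2, h.1⟩

namespace Fr

variable (F : Fr)

theorem π_pt (e : Seg) (t : ℝ) : F.π (pt e t) = pt2 (F.π e.1, F.π e.2) t := by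
  simp [pt, pt2]

theorem h_pt (e : Seg) (t : ℝ) : F.h (pt e t) = F.h e.1 + t * (F.h e.2 - F.h e.1) := by
  simp [pt]

theorem co_π : F.Co F.π := ⟨F.π_pt, fun _ _ => Iff.rfl⟩

theorem D_symm (e f : Seg) : F.D f e = -F.D e f := by simp only [D, det2]; ring

theorem D_self (e : Seg) : F.D e e = 0 := by simp only [D, det2]; ring

theorem par_iff {e f : Seg} (hD : F.D e f ≠ 0) (s t : ℝ) :
    F.π (pt e s) = F.π (pt f t) ↔ s = F.par e f ∧ t = F.par f e := by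
  have hD' : F.D f e ≠ 0 := by rw [F.D_symm]; exact neg_ne_zero.mpr hD
  rw [par, par, eq_div_iff hD, eq_div_iff hD', F.π_pt, F.π_pt, Prod.ext_iff, pt2_fst, pt2_fst,
    pt2_snd, pt2_snd]
  simp only [D, det2, Prod.fst_sub, Prod.snd_sub] at hD ⊢
  constructor
  · rintro ⟨h1, h2⟩
    constructor
    · linear_combination ((F.π f.2).2 - (F.π f.1).2) * h1 - ((F.π f.2).1 - (F.π f.1).1) * h2
    · linear_combination -((F.π e.2).2 - (F.π e.1).2) * h1 + ((F.π e.2).1 - (F.π e.1).1) * h2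
  · rintro ⟨h1, h2⟩
    constructor
    · apply mul_left_cancel₀ hD
      linear_combination ((F.π e.2).1 - (F.π e.1).1) * h1 + ((F.π f.2).1 - (F.π f.1).1) * h2
    · apply mul_left_cancel₀ hD
      linear_combination ((F.π e.2).2 - (F.π e.1).2) * h1 + ((F.π f.2).2 - (F.π f.1).2) * h2

variable {F}

theorem cr.symm {e f : Seg} (h : F.cr e f) : F.cr f e :=
  ⟨by rw [F.D_symm]; exact neg_ne_zero.mpr h.1, h.2.2.2.1, h.2.2.2.2, h.2.1, h.2.2.1⟩

theorem cr.π_eq {e f : Seg} (h : F.cr e f) :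
    F.π (pt e (F.par e f)) = F.π (pt f (F.par f e)) := (F.par_iff h.1 _ _).mpr ⟨rfl, rfl⟩

theorem cr.nd {e f : Seg} (h : F.cr e f) : e.1 ≠ e.2 := fun he => h.1 (by simp [D, det2, he])

theorem cr_of_π {e f : Seg} (hD : F.D e f ≠ 0) {s t : ℝ} (s0 : 0 < s) (s1 : s < 1) (t0 : 0 < t)
    (t1 : t < 1) (h : F.π (pt e s) = F.π (pt f t)) : F.cr e f := by
  obtain ⟨h1, h2⟩ := (F.par_iff hD s t).mp h
  exact ⟨hD, h1 ▸ s0, h1 ▸ s1, h2 ▸ t0, h2 ▸ t1⟩

theorem not_cr_self (e : Seg) : ¬ F.cr e e := fun h => h.1 (F.D_self e)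

/-- segments with a common end do not cross -/
theorem not_cr_adj {e f : Seg} (h : e.1 = f.1 ∨ e.1 = f.2 ∨ e.2 = f.1 ∨ e.2 = f.2) :
    ¬ F.cr e f := fun hc => by
  obtain ⟨hD, a0, a1, -, -⟩ := hc
  rcases h with h | h | h | h
  · have := ((F.par_iff hD 0 0).mp (by simp [h])).1; linarith
  · have := ((F.par_iff hD 0 1).mp (by simp [h])).1; linarith
  · have := ((F.par_iff hD 1 0).mp (by simp [h])).1; linarith
  · have := ((F.par_iff hD 1 1).mp (by simp [h])).1; linarith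

theorem ov_asymm {e f : Seg} (h : F.ov e f) : ¬ F.ov f e := fun h' => lt_asymm h.2 h'.2

theorem D_swap_left (e f : Seg) : F.D e.swap f = -F.D e f := by
  simp only [D, det2, Prod.fst_swap, Prod.snd_swap, Prod.fst_sub, Prod.snd_sub]; ring

theorem D_swap_right (e f : Seg) : F.D e f.swap = -F.D e f := by
  simp only [D, det2, Prod.fst_swap, Prod.snd_swap, Prod.fst_sub, Prod.snd_sub]; ring

theorem par_swap {e f : Seg} (hD : F.D e f ≠ 0) :
    F.par e.swap f = 1 - F.par e f ∧ F.par f e.swap = F.par f e := by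
  have hD' : F.D e.swap f ≠ 0 := by rw [D_swap_left]; exact neg_ne_zero.mpr hD
  have := (F.par_iff hD' (1 - F.par e f) (F.par f e)).mp (by
    rw [pt_swap, sub_sub_cancel]; exact (F.par_iff hD _ _).mpr ⟨rfl, rfl⟩)
  exact ⟨this.1.symm, this.2.symm⟩

theorem cr.swap_left {e f : Seg} (h : F.cr e f) : F.cr e.swap f := by
  obtain ⟨h1, h2⟩ := par_swap h.1
  refine ⟨by rw [D_swap_left]; exact neg_ne_zero.mpr h.1, ?_, ?_, ?_, ?_⟩
  · rw [h1]; linarith [h.2.2.1]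
  · rw [h1]; linarith [h.2.1]
  · rw [h2]; exact h.2.2.2.1
  · rw [h2]; exact h.2.2.2.2

theorem cr.swap_right {e f : Seg} (h : F.cr e f) : F.cr e f.swap := h.symm.swap_left.symm

theorem ov.swap_left {e f : Seg} (h : F.ov e f) : F.ov e.swap f := by
  obtain ⟨h1, h2⟩ := par_swap h.1.1
  refine ⟨h.1.swap_left, ?_⟩
  rw [h1, h2, pt_swap, sub_sub_cancel]; exact h.2

theorem ov.swap_right {e f : Seg} (h : F.ov e f) : F.ov e f.swap := by
  obtain ⟨h1, h2⟩ := par_swap h.1.symm.1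
  refine ⟨h.1.swap_right, ?_⟩
  rw [h1, h2, pt_swap, sub_sub_cancel]; exact h.2

@[simp] theorem neg_π : F.neg.π = F.π := rfl
@[simp] theorem neg_h (x : R3) : F.neg.h x = -F.h x := rfl
@[simp] theorem neg_D (e f : Seg) : F.neg.D e f = F.D e f := rfl
@[simp] theorem neg_par (e f : Seg) : F.neg.par e f = F.par e f := rfl
@[simp] theorem neg_cr (e f : Seg) : F.neg.cr e f ↔ F.cr e f := Iff.rfl
@[simp] theorem neg_ov (e f : Seg) : F.neg.ov e f ↔ F.ov f e := by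
  simp only [ov, neg_cr, neg_h, neg_par, neg_lt_neg_iff]
  exact ⟨fun h => ⟨h.1.symm, h.2⟩, fun h => ⟨h.1.symm, h.2⟩⟩
theorem Gen.neg {S : Set R3} (h : F.Gen S) : F.neg.Gen S := ⟨h.vert, h.trip, h.xinj⟩
theorem Co.neg {M : R3 → P2} (h : F.Co M) : F.neg.Co M := ⟨h.aff, h.eq⟩

theorem D_sub (e f : Seg) (a b : ℝ) : F.D (pt e a, pt e b) f = (b - a) * F.D e f := by
  simp only [D, det2, F.π_pt, pt2_fst, pt2_snd, Prod.fst_sub, Prod.snd_sub]; ring

/-- parameters on a part of a segment -/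
theorem par_sub {e f : Seg} (hD : F.D e f ≠ 0) {a b : ℝ} (hab : a ≠ b) :
    F.par e f = a + F.par (pt e a, pt e b) f * (b - a) ∧
      F.par f (pt e a, pt e b) = F.par f e := by
  have hD' : F.D (pt e a, pt e b) f ≠ 0 := by
    rw [D_sub]; exact mul_ne_zero (sub_ne_zero.mpr hab.symm) hD
  have h1 := (F.par_iff hD' _ _).mpr ⟨rfl, rfl⟩
  rw [pt_pt] at h1
  have := (F.par_iff hD _ _).mp h1
  exact ⟨this.1.symm, this.2⟩

end Fr

end Pool.Agent.Lib.MP_1f96ff_gt
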