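import Pool.Agent.Lib.MP_1f96ff_gt.KnList

namespace Pool.Agent.Lib.MP_1f96ff_gt

open Classical

/-! Consequences of genericity. -/

namespace Fr

variable {F : Fr} {S : Set R3}

theorem Gen.mono {S' : Set R3} (h : F.Gen S) (hs : S' ⊆ S) : F.Gen S' :=
  ⟨fun e he c hc => h.vert e ⟨hs he.1, hs he.2⟩ c (hs hc),
    fun e f g he hf hg => h.trip e f g ⟨hs he.1, hs he.2⟩ ⟨hs hf.1, hs hf.2⟩ ⟨hs hg.1, hs hg.2⟩,
    fun a ha b hb => h.xinj a (hs ha) b (hs hb)⟩

/-- segments with parallel projections: points with the same projection are equal -/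
theorem Gen.pll (h : F.Gen S) {e f : Seg} (he : In S e) (hf : In S f) (hD : F.D e f = 0)
    {s t : ℝ} (hst : F.π (pt e s) = F.π (pt f t)) : pt e s = pt f t := by
  by_cases hn : e.1 = e.2
  · have h1 : pt e s = e.1 := by simp [pt, hn]
    rw [h1] at hst ⊢
    exact h.vert f hf _ he.1 t hst
  · have hx : (F.π e.2).1 - (F.π e.1).1 ≠ 0 := fun h0 =>
      hn (h.xinj _ he.1 _ he.2 (by linarith))
    set μ := ((F.π f.2).1 - (F.π f.1).1) / ((F.π e.2).1 - (F.π e.1).1) with hμ
    have m1 : (F.π f.2).1 - (F.π f.1).1 = μ * ((F.π e.2).1 - (F.π e.1).1) := by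
      rw [hμ]; field_simp
    have m2 : (F.π f.2).2 - (F.π f.1).2 = μ * ((F.π e.2).2 - (F.π e.1).2) := by
      simp only [D, det2, Prod.fst_sub, Prod.snd_sub] at hD
      apply mul_left_cancel₀ hx
      linear_combination hD + ((F.π e.2).2 - (F.π e.1).2) * m1
    rw [F.π_pt, F.π_pt, Prod.ext_iff, pt2_fst, pt2_fst, pt2_snd, pt2_snd] at hst
    simp only at hst
    obtain ⟨h1, h2⟩ := hst
    have a1 : f.1 = pt e (s - t * μ) := h.vert e he _ hf.1 _ (by
      rw [F.π_pt, Prod.ext_iff, pt2_fst, pt2_snd]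
      constructor
      · simp only; linear_combination -h1 - t * m1
      · simp only; linear_combination -h2 - t * m2)
    have a2 : f.2 = pt e (s - t * μ + μ) := h.vert e he _ hf.2 _ (by
      rw [F.π_pt, Prod.ext_iff, pt2_fst, pt2_snd]
      constructor
      · simp only; linear_combination -h1 + (1 - t) * m1
      · simp only; linear_combination -h2 + (1 - t) * m2)
    have : f = (pt e (s - t * μ), pt e (s - t * μ + μ)) := Prod.ext a1 a2
    rw [this, pt_pt]; congr 1; ring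

/-- an interior point of `e` and a different point of the closed segment `f` with the same
projection form a crossing -/
theorem Gen.cr_of_ne (h : F.Gen S) {e f : Seg} (he : In S e) (hf : In S f) {s t : ℝ}
    (s0 : 0 < s) (s1 : s < 1) (t0 : 0 ≤ t) (t1 : t ≤ 1) (hst : F.π (pt e s) = F.π (pt f t))
    (hne : pt e s ≠ pt f t) : F.cr e f ∧ s = F.par e f ∧ t = F.par f e := by
  have hD : F.D e f ≠ 0 := fun hD => hne (h.pll he hf hD hst)
  have t0' : 0 < t := lt_of_le_of_ne t0 fun h0 => hne (by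
    subst h0; rw [pt_zero] at hst ⊢; exact (h.vert e he _ hf.1 s hst.symm).symm)
  have t1' : t < 1 := lt_of_le_of_ne t1 fun h0 => hne (by
    subst h0; rw [pt_one] at hst ⊢; exact (h.vert e he _ hf.2 s hst.symm).symm)
  exact ⟨cr_of_π hD s0 s1 t0' t1' hst, (F.par_iff hD s t).mp hst⟩

theorem Gen.cr_of (h : F.Gen S) {e f : Seg} (he : In S e) (hf : In S f) (hm : Meet e f)
    (hn : e.1 ≠ e.2) {s t : ℝ} (s0 : 0 < s) (s1 : s < 1) (t0 : 0 ≤ t) (t1 : t ≤ 1)
    (hst : F.π (pt e s) = F.π (pt f t)) : F.cr e f ∧ s = F.par e f ∧ t = F.par f e :=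
  h.cr_of_ne he hf s0 s1 t0 t1 hst (hm.ne hn s0 s1 t0 t1)

theorem cr.pt_ne {e f : Seg} (hc : F.cr e f) (hm : Meet e f) :
    pt e (F.par e f) ≠ pt f (F.par f e) :=
  hm.ne hc.nd hc.2.1 hc.2.2.1 hc.2.2.2.1.le hc.2.2.2.2.le

theorem cr.ov_or {e f : Seg} (hc : F.cr e f) (hm : Meet e f) : F.ov e f ∨ F.ov f e := by
  rcases lt_trichotomy (F.h (pt f (F.par f e))) (F.h (pt e (F.par e f))) with h | h | h
  · exact Or.inl ⟨hc, h⟩
  · exact absurd (F.inj _ _ hc.π_eq h.symm) (hc.pt_ne hm)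
  · exact Or.inr ⟨hc.symm, h⟩

theorem ind_cr {e f : Seg} (hm : Meet e f) : ind (F.cr e f) = ind (F.ov e f) + ind (F.ov f e) := by
  rw [← ind_or fun h => ov_asymm h.1 h.2]
  exact ind_congr ⟨fun h => h.ov_or hm, fun h => h.elim (fun h => h.1) fun h => h.1.symm⟩

/-- no triple points: two crossings on `e` at the same parameter come from the same point -/
theorem Gen.pt_eq (h : F.Gen S) {e f g : Seg} (he : In S e) (hf : In S f) (hg : In S g)
    (h1 : F.cr e f) (h2 : F.cr e g) (hp : F.par e f = F.par e g) :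
    pt f (F.par f e) = pt g (F.par g e) :=
  h.trip e f g he hf hg _ _ _ h1.1 h2.1 h1.π_eq (hp ▸ h2.π_eq)

theorem Gen.par_ne (h : F.Gen S) {e f g : Seg} (he : In S e) (hf : In S f) (hg : In S g)
    (hm : Meet f g) (h1 : F.cr e f) (h2 : F.cr e g) : F.par e f ≠ F.par e g := fun hp =>
  hm.ne h1.symm.nd h1.2.2.2.1 h1.2.2.2.2 h2.2.2.2.1.le h2.2.2.2.2.le (h.pt_eq he hf hg h1 h2 hp)

theorem time_lt_iff {Q : List Seg} {e f e' f' : Seg} (he : e ∈ Q) (h1 : F.cr e f)
    (h2 : F.cr e' f') : F.time Q e f < F.time Q e' f' ↔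
      idx Q e < idx Q e' ∨ (e = e' ∧ F.par e f < F.par e' f') :=
  idx_add_lt he h1.2.1 h1.2.2.1 h2.2.1 h2.2.2.1

theorem eq_of_time_eq {Q : List Seg} {e f e' f' : Seg} (he : e ∈ Q) (h1 : F.cr e f)
    (h2 : F.cr e' f') (ht : F.time Q e f = F.time Q e' f') :
    e = e' ∧ F.par e f = F.par e' f' := by
  have a := h1.2.1; have b := h1.2.2.1; have c := h2.2.1; have d := h2.2.2.1
  simp only [time] at ht
  rcases lt_trichotomy (idx Q e) (idx Q e') with h | h | h
  · have := idx_succ_le h; linarith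
  · exact ⟨idx_inj he h, by linarith⟩
  · have := idx_succ_le h; linarith

/-- all letters of a good list have different times -/
theorem Gen.time_inj (h : F.Gen S) {Q : List Seg} (hQ : Good Q) (hS : ∀ e ∈ Q, In S e)
    {e f e' f' : Seg} (he : e ∈ Q) (hf : f ∈ Q) (hf' : f' ∈ Q) (h1 : F.cr e f)
    (h2 : F.cr e' f') (ht : F.time Q e f = F.time Q e' f') : e = e' ∧ f = f' := by
  obtain ⟨rfl, hp⟩ := eq_of_time_eq he h1 h2 ht
  refine ⟨rfl, by_contra fun hne => ?_⟩
  exact h.par_ne (hS e he) (hS f hf) (hS f' hf') (hQ.meet hf hf' hne) h1 h2 hp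

end Fr

theorem in_of_mem_sides {S : Set R3} {l : List R3} (h : ∀ x ∈ l, x ∈ S) {e : Seg}
    (he : e ∈ sides l) : In S e :=
  ⟨h _ (mem_of_mem_sides he).1, h _ (mem_of_mem_sides he).2⟩

theorem in_of_mem_closeUp {S : Set R3} {l : List R3} (h : ∀ x ∈ l, x ∈ S) {e : Seg}
    (he : e ∈ sides (closeUp l)) : In S e :=
  in_of_mem_sides (fun x hx => by
    rcases List.mem_append.mp hx with hx | hx
    · exact h x hx
    · exact h x (List.mem_of_mem_take hx)) he

end Pool.Agent.Lib.MP_1f96ff_gt
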