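import Pool.Agent.Lib.MP_1f96ff_gt.KnB1

namespace Pool.Agent.Lib.MP_1f96ff_gt

open Classical

/-! Clipping, the one-dimensional lemma. Three affine functions `A i + s * B i` (barycentric
coordinates along a segment) and an affine height `C + s * E` on `[0, 1]`; `κ0`, `κ1` say that the
end `0`, resp. `1`, is a corner of the triangle. -/

/-- boundary crossing above side `i` -/
def Bd (A B : Fin 3 → ℝ) (C E : ℝ) (i : Fin 3) : Prop :=
  ∃ s, 0 < s ∧ s < 1 ∧ A i + s * B i = 0 ∧ (∀ j, 0 ≤ A j + s * B j) ∧ 0 < C + s * E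

theorem knClip1_left {U : Set ℝ} (hU : IsOpen U) {s lo : ℝ} (hs : s ∈ U) (h : lo < s) :
    ∃ t, lo < t ∧ t < s ∧ t ∈ U := by
  obtain ⟨t, h1, h2⟩ := (Filter.Eventually.and (mem_nhdsWithin_of_mem_nhds (hU.mem_nhds hs))
    (Ioo_mem_nhdsLT h)).exists
  exact ⟨t, h2.1, h2.2, h1⟩

theorem knClip1_right {U : Set ℝ} (hU : IsOpen U) {s hi : ℝ} (hs : s ∈ U) (h : s < hi) :
    ∃ t, s < t ∧ t < hi ∧ t ∈ U := by
  obtain ⟨t, h1, h2⟩ := (Filter.Eventually.and (mem_nhdsWithin_of_mem_nhds (hU.mem_nhds hs))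
    (Ioo_mem_nhdsGT h)).exists
  exact ⟨t, h2.1, h2.2, h1⟩

theorem knClip1_open (A B : Fin 3 → ℝ) (C E : ℝ) (Q : Fin 3 → Prop) :
    IsOpen {s : ℝ | (∀ i, Q i → 0 < A i + s * B i) ∧ 0 < C + s * E} := by
  have : {s : ℝ | (∀ i, Q i → 0 < A i + s * B i) ∧ 0 < C + s * E} =
      (⋂ i, ⋂ _ : Q i, {s | 0 < A i + s * B i}) ∩ {s | 0 < C + s * E} := by
    ext s
    simp
  rw [this]
  exact (isOpen_iInter_of_finite fun i => isOpen_iInter_of_finite fun _ =>
    isOpen_lt continuous_const (by fun_prop)).inter (isOpen_lt continuous_const (by fun_prop))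

theorem knClip1_sum {P : Fin 3 → Prop} {Q : Prop} (h : Q → ∃ i, P i)
    (hu : Q → ∀ i j, i ≠ j → P i → ¬ P j) : ∑ i, ind (Q ∧ P i) = ind Q := by
  by_cases hQ : Q
  · obtain ⟨i, hi⟩ := h hQ
    rw [Finset.sum_eq_single i, ind_true ⟨hQ, hi⟩, ind_true hQ]
    · exact fun j _ hj => ind_false fun h' => hu hQ i j hj.symm hi h'.2
    · simp
  · rw [ind_false hQ]
    exact Finset.sum_eq_zero fun i _ => ind_false fun h' => hQ h'.1

theorem knClip1_root {A B s : ℝ} (hB : B ≠ 0) (h : A + s * B = 0) : s = -A / B := by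
  rw [eq_div_iff hB]
  linarith

/-- Let `I = {s ∈ [0,1] | ∀ i, 0 ≤ A i + s * B i}`, compact and convex. If there is
`s* ∈ (0,1)` with all three functions positive and positive height, take `a = sInf I`,
`b = sSup I` (or `IsCompact.exists_isLeast`), `a < s* < b`, `I = [a, b]`; the height has no zero
on `I ∩ (0,1)`, so it is positive there (affine, intermediate value: solve for the zero);
at an interior point of `I` no function vanishes (else its slope is zero, `h3`);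
`k0 = ind (a = 0)`, `k1 = ind (b = 1)`; if `a > 0` then exactly one function vanishes at `a`
(minimality, `h2`) and has positive slope; `Bd i` holds iff function `i` vanishes at `a > 0` or at
`b < 1`, never both. Otherwise take `a = b = 0`, `k0 = k1 = 0`: a `Bd i`, or a good end point,
would give such an `s*` nearby. -/
theorem clip1 (A B : Fin 3 → ℝ) (C E : ℝ) (κ0 κ1 : Prop)
    (h1 : ∀ s, 0 < s → s < 1 → (∀ i, 0 ≤ A i + s * B i) → C + s * E ≠ 0)
    (h2 : ∀ s, 0 < s → s < 1 → ∀ i j, i ≠ j → A i + s * B i = 0 → A j + s * B j ≠ 0)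
    (h3 : ∀ s, 0 < s → s < 1 → (∀ j, 0 ≤ A j + s * B j) → ∀ i, A i + s * B i = 0 → B i ≠ 0)
    (h40 : ¬ κ0 → (∀ i, 0 ≤ A i) → (∀ i, 0 < A i) ∧ C ≠ 0)
    (h41 : ¬ κ1 → (∀ i, 0 ≤ A i + B i) → (∀ i, 0 < A i + B i) ∧ C + E ≠ 0) :
    ∃ (a b : ℝ) (k0 k1 : ZMod 2), 0 ≤ a ∧ a ≤ b ∧ b ≤ 1 ∧
      (∀ s, 0 < s → s < 1 → (((∀ i, 0 < A i + s * B i) ∧ 0 < C + s * E) ↔ a < s ∧ s < b)) ∧
      (a < b → ∀ s, 0 ≤ s → s ≤ 1 → ((∀ i, 0 ≤ A i + s * B i) ↔ a ≤ s ∧ s ≤ b)) ∧
      (a < b → ∀ s, a ≤ s → s ≤ b → 0 < C + s * E ∨ (s = 0 ∧ κ0) ∨ (s = 1 ∧ κ1)) ∧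
      (a < b → ∀ s, s = a ∨ s = b → s = 0 ∨ s = 1 ∨ ∃ i, Bd A B C E i ∧ s = -A i / B i) ∧
      (∀ i, Bd A B C E i → a < b) ∧
      (∀ g : ℝ → ZMod 2, g a + g b =
        k0 * g 0 + k1 * g 1 + ∑ i, ind (Bd A B C E i) * g (-A i / B i)) ∧
      (¬ κ0 → k0 = ind ((∀ i, 0 < A i) ∧ 0 < C)) ∧
      (¬ κ1 → k1 = ind ((∀ i, 0 < A i + B i) ∧ 0 < C + E)) := by
  by_cases hex : ∃ t, 0 < t ∧ t < 1 ∧ (∀ i, 0 < A i + t * B i) ∧ 0 < C + t * E
  swap
  · have hB : ∀ i, ¬ Bd A B C E i := by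
      rintro i ⟨s, s0, s1, hi, hN, hH⟩
      have hU := knClip1_open A B C E fun j => j ≠ i
      have hs : s ∈ {s : ℝ | (∀ j, j ≠ i → 0 < A j + s * B j) ∧ 0 < C + s * E} :=
        ⟨fun j hj => lt_of_le_of_ne (hN j) (h2 s s0 s1 i j hj.symm hi).symm, hH⟩
      rcases lt_or_gt_of_ne (h3 s s0 s1 hN i hi) with hb | hb
      · obtain ⟨t, t0, t1, ht⟩ := knClip1_left hU hs s0
        refine hex ⟨t, t0, t1.trans s1, fun j => ?_, ht.2⟩
        by_cases hj : j = i
        · rw [hj]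
          nlinarith
        · exact ht.1 j hj
      · obtain ⟨t, t0, t1, ht⟩ := knClip1_right hU hs s1
        refine hex ⟨t, s0.trans t0, t1, fun j => ?_, ht.2⟩
        by_cases hj : j = i
        · rw [hj]
          nlinarith
        · exact ht.1 j hj
    have hU := knClip1_open A B C E fun _ => True
    refine ⟨0, 0, 0, 0, le_rfl, le_rfl, zero_le_one,
      fun s s0 s1 => ⟨fun h => (hex ⟨s, s0, s1, h⟩).elim, fun h => absurd h.1 h.2.not_gt⟩,
      fun h => (lt_irrefl _ h).elim, fun h => (lt_irrefl _ h).elim,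
      fun h => (lt_irrefl _ h).elim, fun i hi => (hB i hi).elim, fun g => ?_, fun _ => ?_,
      fun _ => ?_⟩
    · simp [two_zero, ind_false (hB _)]
    · refine (ind_false fun h => ?_).symm
      obtain ⟨t, t0, t1, ht⟩ := knClip1_right hU (s := 0)
        ⟨fun i _ => by simpa using h.1 i, by simpa using h.2⟩ zero_lt_one
      exact hex ⟨t, t0, t1, fun i => ht.1 i trivial, ht.2⟩
    · refine (ind_false fun h => ?_).symm
      obtain ⟨t, t0, t1, ht⟩ := knClip1_left hU (s := 1)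
        ⟨fun i _ => by simpa using h.1 i, by simpa using h.2⟩ zero_lt_one
      exact hex ⟨t, t0, t1, fun i => ht.1 i trivial, ht.2⟩
  obtain ⟨t, t0, t1, tP, tH⟩ := hex
  have hK : IsCompact (Set.Icc (0 : ℝ) 1 ∩ ⋂ i, {s : ℝ | 0 ≤ A i + s * B i}) :=
    isCompact_Icc.inter_right (isClosed_iInter fun i => isClosed_le continuous_const (by fun_prop))
  have hm : ∀ s, 0 ≤ s → s ≤ 1 → (∀ i, 0 ≤ A i + s * B i) →
      s ∈ Set.Icc (0 : ℝ) 1 ∩ ⋂ i, {s : ℝ | 0 ≤ A i + s * B i} :=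
    fun s s0 s1 h => ⟨⟨s0, s1⟩, Set.mem_iInter.2 h⟩
  have ht := hm t t0.le t1.le fun i => (tP i).le
  obtain ⟨a, ⟨⟨a0, a1⟩, aN⟩, ha⟩ := hK.exists_isLeast ⟨t, ht⟩
  obtain ⟨b, ⟨⟨b0, b1⟩, bN⟩, hb⟩ := hK.exists_isGreatest ⟨t, ht⟩
  replace aN : ∀ i, 0 ≤ A i + a * B i := Set.mem_iInter.1 aN
  replace bN : ∀ i, 0 ≤ A i + b * B i := Set.mem_iInter.1 bN
  have hU := knClip1_open A B 1 0 fun _ => True
  have hl : ∀ s, 0 < s → s ≤ 1 → (∀ i, 0 < A i + s * B i) → a < s := by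
    intro s s0 s1 h
    obtain ⟨u, u0, u1, hu⟩ := knClip1_left hU (s := s) ⟨fun i _ => h i, by simp⟩ s0
    exact (ha (hm u u0.le (u1.le.trans s1) fun i => (hu.1 i trivial).le)).trans_lt u1
  have hr : ∀ s, 0 ≤ s → s < 1 → (∀ i, 0 < A i + s * B i) → s < b := by
    intro s s0 s1 h
    obtain ⟨u, u0, u1, hu⟩ := knClip1_right hU (s := s) ⟨fun i _ => h i, by simp⟩ s1
    exact u0.trans_le (hb (hm u (s0.trans u0.le) u1.le fun i => (hu.1 i trivial).le))
  have hat := hl t t0 t1.le tP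
  have htb := hr t t0.le t1 tP
  have hN : ∀ s, a ≤ s → s ≤ b → ∀ i, 0 ≤ A i + s * B i := by
    intro s s0 s1 i
    have := aN i
    have := bN i
    rcases le_total 0 (B i) with h | h <;> nlinarith
  have hP : ∀ s, a < s → s < b → ∀ i, 0 < A i + s * B i := by
    intro s s0 s1 i
    refine lt_of_le_of_ne (hN s s0.le s1.le i) fun h => ?_
    have := aN i
    have := bN i
    rcases lt_or_gt_of_ne (h3 s (a0.trans_lt s0) (s1.trans_le b1) (hN s s0.le s1.le) i h.symm)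
      with h' | h' <;> nlinarith
  have hH : ∀ s, a ≤ s → s ≤ b → C + s * E ≠ 0 → 0 < C + s * E := by
    intro s s0 s1 hne
    by_contra hn
    have hc : ContinuousOn (fun s : ℝ => C + s * E) (Set.uIcc s t) := by fun_prop
    obtain ⟨u, hu, hz⟩ := intermediate_value_uIcc hc (a := s) (b := t)
      (Set.mem_uIcc.2 (Or.inl ⟨not_lt.1 hn, tH.le⟩))
    have hus : u ≠ s := fun h => hne (h ▸ hz)
    rcases Set.mem_uIcc.1 hu with h | h
    · have := lt_of_le_of_ne h.1 hus.symm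
      exact h1 u (by linarith) (by linarith) (hN u (by linarith) (by linarith [h.2])) hz
    · have := lt_of_le_of_ne h.2 hus
      exact h1 u (by linarith [h.1]) (by linarith) (hN u (by linarith [h.1]) (by linarith)) hz
  have hH' : ∀ s, a ≤ s → s ≤ b → 0 < s → s < 1 → 0 < C + s * E :=
    fun s s0 s1 s2 s3 => hH s s0 s1 (h1 s s2 s3 (hN s s0 s1))
  have hza : 0 < a → ∃ i, A i + a * B i = 0 := by
    intro h
    by_contra hn
    exact lt_irrefl _ (hl a h a1 fun i => lt_of_le_of_ne (aN i) fun e => hn ⟨i, e.symm⟩)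
  have hzb : b < 1 → ∃ i, A i + b * B i = 0 := by
    intro h
    by_contra hn
    exact lt_irrefl _ (hr b b0 h fun i => lt_of_le_of_ne (bN i) fun e => hn ⟨i, e.symm⟩)
  have hab := hat.trans htb
  have hBa : ∀ i, 0 < a → A i + a * B i = 0 → Bd A B C E i ∧ a = -A i / B i := fun i h e =>
    ⟨⟨a, h, hat.trans t1, e, aN, hH' a le_rfl hab.le h (hat.trans t1)⟩,
      knClip1_root (h3 a h (hat.trans t1) aN i e) e⟩
  have hBb : ∀ i, b < 1 → A i + b * B i = 0 → Bd A B C E i ∧ b = -A i / B i := fun i h e =>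
    ⟨⟨b, t0.trans htb, h, e, bN, hH' b hab.le le_rfl (t0.trans htb) h⟩,
      knClip1_root (h3 b (t0.trans htb) h bN i e) e⟩
  refine ⟨a, b, ind (a = 0), ind (b = 1), a0, hab.le, b1, fun s s0 s1 => ⟨fun h =>
    ⟨hl s s0 s1.le h.1, hr s s0.le s1 h.1⟩, fun h => ⟨hP s h.1 h.2, hH' s h.1.le h.2.le s0 s1⟩⟩,
    fun _ s s0 s1 => ⟨fun h => ⟨ha (hm s s0 s1 h), hb (hm s s0 s1 h)⟩, fun h => hN s h.1 h.2⟩,
    fun _ s s0 s1 => ?_, fun _ s hs => ?_, fun _ _ => hab, fun g => ?_, fun hk => ?_, fun hk => ?_⟩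
  · rcases (a0.trans s0).eq_or_lt with e | e
    · subst e
      by_cases hk : κ0
      · exact Or.inr (Or.inl ⟨rfl, hk⟩)
      · exact Or.inl (hH 0 s0 s1 (by simpa using (h40 hk (by simpa using hN 0 s0 s1)).2))
    rcases (s1.trans b1).eq_or_lt with e' | e'
    · subst e'
      by_cases hk : κ1
      · exact Or.inr (Or.inr ⟨rfl, hk⟩)
      · exact Or.inl (hH 1 s0 s1 (by simpa using (h41 hk (by simpa using hN 1 s0 s1)).2))
    exact Or.inl (hH' s s0 s1 e e')
  · rcases hs with rfl | rfl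
    · rcases a0.eq_or_lt with e | e
      · exact Or.inl e.symm
      · obtain ⟨i, hi⟩ := hza e
        exact Or.inr (Or.inr ⟨i, hBa i e hi⟩)
    · rcases b1.eq_or_lt with e | e
      · exact Or.inr (Or.inl e)
      · obtain ⟨i, hi⟩ := hzb e
        exact Or.inr (Or.inr ⟨i, hBb i e hi⟩)
  · have key : ∀ i, ind (Bd A B C E i) * g (-A i / B i) =
        ind (0 < a ∧ A i + a * B i = 0) * g a + ind (b < 1 ∧ A i + b * B i = 0) * g b := by
      intro i
      by_cases ea : 0 < a ∧ A i + a * B i = 0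
      · have eb : ¬ (b < 1 ∧ A i + b * B i = 0) := fun eb =>
          hab.ne ((hBa i ea.1 ea.2).2.trans (hBb i eb.1 eb.2).2.symm)
        rw [ind_true ea, ind_false eb, ind_true (hBa i ea.1 ea.2).1, ← (hBa i ea.1 ea.2).2]
        ring
      by_cases eb : b < 1 ∧ A i + b * B i = 0
      · rw [ind_false ea, ind_true eb, ind_true (hBb i eb.1 eb.2).1, ← (hBb i eb.1 eb.2).2]
        ring
      rw [ind_false ea, ind_false eb, ind_false]
      · ring
      rintro ⟨s, s0, s1, hi, hs, -⟩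
      rcases (ha (hm s s0.le s1.le hs)).eq_or_lt with e | e
      · exact ea ⟨e ▸ s0, e ▸ hi⟩
      rcases (hb (hm s s0.le s1.le hs)).eq_or_lt with e' | e'
      · exact eb ⟨e' ▸ s1, e' ▸ hi⟩
      exact (hP s e e' i).ne' hi
    simp only [key, Finset.sum_add_distrib, ← Finset.sum_mul]
    rw [knClip1_sum hza fun h i j hij => h2 a h (hat.trans t1) i j hij,
      knClip1_sum hzb fun h i j hij => h2 b (t0.trans htb) h i j hij]
    have e1 : g a = ind (a = 0) * g 0 + ind (0 < a) * g a := by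
      rcases a0.eq_or_lt with e | e
      · rw [ind_true e.symm, ind_false e.not_lt, ← e]
        ring
      · rw [ind_false e.ne', ind_true e]
        ring
    have e2 : g b = ind (b = 1) * g 1 + ind (b < 1) * g b := by
      rcases b1.eq_or_lt with e | e
      · rw [ind_true e, ind_false e.not_lt, e]
        ring
      · rw [ind_false e.ne, ind_true e]
        ring
    linear_combination e1 + e2
  · refine ind_congr ⟨fun e => ?_, fun h => le_antisymm
      (ha (hm 0 le_rfl zero_le_one fun i => by simpa using (h.1 i).le)) a0⟩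
    subst e
    have := h40 hk (by simpa using aN)
    exact ⟨this.1, by simpa using hH 0 le_rfl b0 (by simpa using this.2)⟩
  · refine ind_congr ⟨fun e => ?_, fun h => le_antisymm b1
      (hb (hm 1 zero_le_one le_rfl fun i => by simpa using (h.1 i).le))⟩
    subst e
    have := h41 hk (by simpa using bN)
    exact ⟨this.1, by simpa using hH 1 a1 le_rfl (by simpa using this.2)⟩

end Pool.Agent.Lib.MP_1f96ff_gt
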