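import Pool.Agent.Lib.MP_1f96ff_gt.KnCtx
import Pool.Agent.Lib.MP_1f96ff_gt.KnClip1

namespace Pool.Agent.Lib.MP_1f96ff_gt

open Classical

/-! Clipping the sides of the rest at the triangle. -/

variable {F : Fr} {S : Set R3} {p q r : R3} {t : List R3} {M : R3 → P2} {η : R3 → ℝ}

/-- the three affine functions that cut out the triangle -/
def knClip_l (i : Fin 3) (z : P2) : ℝ := ![z.2, 2 * z.1 - z.2, 2 - 2 * z.1 - z.2] i

/-- the three sides -/
def knClip_s (p q r : R3) (i : Fin 3) : Seg := ![(p, q), (p, r), (r, q)] i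

theorem knClip_inT (z : P2) : (∀ i, 0 ≤ knClip_l i z) ↔ inT z := by
  simp only [Fin.forall_fin_succ, knClip_l, inT]
  simp only [Matrix.cons_val_zero, Matrix.cons_val_succ, IsEmpty.forall_iff, and_true, sub_nonneg]

theorem knClip_inO (z : P2) : (∀ i, 0 < knClip_l i z) ↔ inO z := by
  simp only [Fin.forall_fin_succ, knClip_l, inO]
  simp only [Matrix.cons_val_zero, Matrix.cons_val_succ, IsEmpty.forall_iff, and_true, sub_pos]

theorem knClip_aff (c : Ctx F S p q r t M η) (e : Seg) (s : ℝ) (i : Fin 3) :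
    knClip_l i (M e.1) + s * (knClip_l i (M e.2) - knClip_l i (M e.1)) =
      knClip_l i (M (pt e s)) := by
  rw [c.co.aff]
  fin_cases i <;> simp [knClip_l, pt2_fst, pt2_snd] <;> ring

theorem knClip_mem (i : Fin 3) : knClip_s p q r i ∈ TS p q r := by
  fin_cases i <;> simp [knClip_s, TS]

theorem knClip_ex {σ : Seg} (h : σ ∈ TS p q r) : ∃ i, σ = knClip_s p q r i := by
  simp only [TS, List.mem_cons, List.not_mem_nil, or_false] at h
  rcases h with rfl | rfl | rfl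
  exacts [⟨0, rfl⟩, ⟨1, rfl⟩, ⟨2, rfl⟩]

theorem knClip_zero (c : Ctx F S p q r t M η) (i : Fin 3) (u : ℝ) :
    knClip_l i (M (pt (knClip_s p q r i) u)) = 0 := by
  fin_cases i <;> simp [knClip_l, knClip_s, c.M_pq, c.M_pr, c.M_rq] <;> ring

theorem knClip_on (c : Ctx F S p q r t M η) {i : Fin 3} {z : P2} (h : knClip_l i z = 0) :
    ∃ u, z = M (pt (knClip_s p q r i) u) ∧ (inT z → 0 ≤ u ∧ u ≤ 1) := by
  fin_cases i
  · have h' : z.2 = 0 := h
    refine ⟨z.1, (Prod.ext (x := z) (y := (z.1, 0)) rfl h').trans (c.M_pq z.1).symm,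
      fun ⟨_, h2, h3⟩ => ⟨?_, ?_⟩⟩ <;> linarith
  · have h' : 2 * z.1 - z.2 = 0 := h
    refine ⟨z.2, (Prod.ext (y := (z.2 / 2, z.2)) (show z.1 = z.2 / 2 by linarith) rfl).trans
      (c.M_pr z.2).symm, fun ⟨h1, _, h3⟩ => ⟨?_, ?_⟩⟩ <;> linarith
  · have h' : 2 - 2 * z.1 - z.2 = 0 := h
    refine ⟨1 - z.2, (Prod.ext (show z.1 = 1 / 2 + (1 - z.2) / 2 by linarith)
      (show z.2 = 1 - (1 - z.2) by ring)).trans (c.M_rq (1 - z.2)).symm,
      fun ⟨h1, h2, _⟩ => ⟨?_, ?_⟩⟩ <;> linarith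

theorem knClip_two (c : Ctx F S p q r t M η) {i j : Fin 3} (hij : i ≠ j) {z : P2}
    (hi : knClip_l i z = 0) (hj : knClip_l j z = 0) :
    ∃ k u, (u = 0 ∨ u = 1) ∧ z = M (pt (knClip_s p q r k) u) := by
  have h : (z.1 = 0 ∧ z.2 = 0) ∨ (z.1 = 1 ∧ z.2 = 0) ∨ (z.1 = 1 / 2 ∧ z.2 = 1) := by
    fin_cases i <;> fin_cases j <;> simp [knClip_l] at hij hi hj
    · exact Or.inl ⟨by linarith, hi⟩
    · exact Or.inr (Or.inl ⟨by linarith, hi⟩)
    · exact Or.inl ⟨by linarith, hj⟩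
    · exact Or.inr (Or.inr ⟨by linarith, by linarith⟩)
    · exact Or.inr (Or.inl ⟨by linarith, hj⟩)
    · exact Or.inr (Or.inr ⟨by linarith, by linarith⟩)
  rcases h with ⟨h1, h2⟩ | ⟨h1, h2⟩ | ⟨h1, h2⟩
  · exact ⟨0, 0, Or.inl rfl, (Prod.ext h1 h2).trans (c.M_pq 0).symm⟩
  · exact ⟨0, 1, Or.inr rfl, (Prod.ext h1 h2).trans (c.M_pq 1).symm⟩
  · exact ⟨1, 1, Or.inr rfl, (Prod.ext h1 h2).trans (c.M_pr 1).symm⟩

theorem knClip_eta (c : Ctx F S p q r t M η) {x : R3} (hx : x ∈ S) {i : Fin 3}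
    (h : knClip_l i (M x) = 0) : η x = 0 := by
  obtain ⟨u, hu, -⟩ := knClip_on c h
  rw [c.gen.vert _ (c.in_TS (knClip_mem i)) x hx u ((c.co.eq _ _).1 hu)]
  exact c.eta_TS (knClip_mem i) u

/-- Apply `clip1` with `A = ![l0 e.1, l1 e.1, l2 e.1]`, `B = ![l0 e.2 - l0 e.1, ...]`, where
`l0 x = (M x).2`, `l1 x = 2 (M x).1 - (M x).2`, `l2 x = 2 - 2 (M x).1 - (M x).2`, `C = η e.1`,
`E = η e.2 - η e.1`, `κ0 = (e.1 = q)`, `κ1 = (e.2 = p)`. `h1` is `noT`. `h2`: two vanishing functions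
mean that `M (pt e s)` is `M p`, `M q` or `M r`, i.e. parameter `0` or `1` on a side, which
contradicts `cross` (`u = par σ e ∈ (0,1)`). `h3`: the point is on the closed side `σ_i`; if the slope
were zero then also `M e.1 = M (pt σ u')` for some `u'`, and likewise `e.2`, so both ends are on the
line of `σ_i` (`Gen.vert`) and `η` vanishes on `e`, against `cross`. `h40`, `h41`: `corner`.
`Bd i ↔ F.ov e σ_i` and then `-A i / B i = F.par e σ_i` (`cross`, `ov_data`). -/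
theorem clip_loc (c : Ctx F S p q r t M η) {e : Seg} (he : e ∈ rest p q t) :
    ∃ (a b : ℝ) (k0 k1 : ZMod 2), ClipAt F p q r M η e a b k0 k1 ∧
      (e.1 ≠ q → k0 = ind (abv M η e.1)) ∧ (e.2 ≠ p → k1 = ind (abv M η e.2)) := by
  have hA := knClip_aff c e
  have hE := fun s => (c.eaff e s).symm
  have hA1 : ∀ i, knClip_l i (M e.1) + (knClip_l i (M e.2) - knClip_l i (M e.1)) =
      knClip_l i (M e.2) := fun i => by ring
  have hE1 : η e.1 + (η e.2 - η e.1) = η e.2 := by ring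
  have h1 : ∀ s, 0 < s → s < 1 → inT (M (pt e s)) → η (pt e s) ≠ 0 := fun s s0 s1 h h0 => by
    rcases c.noT he s0.le s1.le h h0 with ⟨h', -⟩ | ⟨h', -⟩
    exacts [s0.ne' h', s1.ne h']
  have h3 : ∀ s, 0 < s → s < 1 → inT (M (pt e s)) → ∀ i, knClip_l i (M (pt e s)) = 0 →
      knClip_l i (M e.2) - knClip_l i (M e.1) ≠ 0 := fun s s0 s1 h i hi hB => by
    rw [← hA, hB, mul_zero, add_zero] at hi
    rw [hi, sub_zero] at hB
    refine h1 s s0 s1 h ?_
    rw [c.eaff, knClip_eta c (c.in_rest he).1 hi, knClip_eta c (c.in_rest he).2 hB]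
    ring
  have hB : ∀ i, Bd (fun i => knClip_l i (M e.1))
      (fun i => knClip_l i (M e.2) - knClip_l i (M e.1)) (η e.1) (η e.2 - η e.1) i →
      F.ov e (knClip_s p q r i) ∧ -knClip_l i (M e.1) /
        (knClip_l i (M e.2) - knClip_l i (M e.1)) = F.par e (knClip_s p q r i) := by
    rintro i ⟨s, s0, s1, h0, hT, hη⟩
    simp only [hA, hE, knClip_inT] at h0 hT hη
    obtain ⟨u, hu, hu'⟩ := knClip_on c h0
    obtain ⟨-, hs, -, -, ho⟩ := c.cross he (knClip_mem i) s0 s1 (hu' hT).1 (hu' hT).2 hu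
    refine ⟨ho.2 hη, ?_⟩
    rw [← hs, div_eq_iff (h3 s s0 s1 hT i h0)]
    linarith [hA s i]
  have hB' : ∀ i, F.ov e (knClip_s p q r i) → Bd (fun i => knClip_l i (M e.1))
      (fun i => knClip_l i (M e.2) - knClip_l i (M e.1)) (η e.1) (η e.2 - η e.1) i := by
    intro i ho
    obtain ⟨h4, h5, h6, -⟩ := c.ov_data (knClip_mem i) ho
    refine ⟨F.par e (knClip_s p q r i), ho.1.2.1, ho.1.2.2.1, ?_⟩
    simp only [hA, hE, knClip_inT]
    exact ⟨by rw [h4, knClip_zero c], h6, h5⟩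
  obtain ⟨a, b, k0, k1, g0, g1, g2, g3, g4, g5, g6, g7, g8, g9, g10⟩ := clip1
    (fun i => knClip_l i (M e.1)) (fun i => knClip_l i (M e.2) - knClip_l i (M e.1)) (η e.1)
    (η e.2 - η e.1) (e.1 = q) (e.2 = p)
    (by simpa only [hA, hE, knClip_inT] using h1)
    (by
      simp only [hA]
      intro s s0 s1 i j hij hi hj
      obtain ⟨k, u, hu, hz⟩ := knClip_two c hij hi hj
      obtain ⟨hc, -, hp, -⟩ := c.cross he (knClip_mem k) s0 s1 (u := u)
        (by rcases hu with rfl | rfl <;> norm_num) (by rcases hu with rfl | rfl <;> norm_num) hz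
      have h4 := hc.2.2.2.1
      have h5 := hc.2.2.2.2
      rcases hu with rfl | rfl <;> linarith)
    (by simpa only [hA, knClip_inT] using h3)
    (by
      simp only [knClip_inT, knClip_inO]
      intro hq hT
      rcases c.corner he (Or.inl rfl) hT with h | h | h
      exacts [absurd h (c.k1.rest_fst_ne he), absurd h hq, h])
    (by
      simp only [hA1, hE1, knClip_inT, knClip_inO]
      intro hp hT
      rcases c.corner he (Or.inr rfl) hT with h | h | h
      exacts [absurd h hp, absurd h (c.k1.rest_snd_ne he), h])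
  simp only [hA, hE, hA1, hE1, knClip_inT, knClip_inO] at g3 g4 g5 g9 g10
  refine ⟨a, b, k0, k1, ⟨g0, g1, g2, g3, g4, fun hab s sa sb => ?_, fun hab s hs => ?_,
    fun σ hσ ho => ?_, fun g => ?_⟩, g9, g10⟩
  · rcases g5 hab s sa sb with h | ⟨rfl, h⟩ | ⟨rfl, h⟩
    · exact Or.inl h
    · exact Or.inr (Or.inr ((pt_zero e).trans h))
    · exact Or.inr (Or.inl ((pt_one e).trans h))
  · rcases g6 hab s hs with h | h | ⟨i, hi, h⟩
    · exact Or.inl h
    · exact Or.inr (Or.inl h)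
    · exact Or.inr (Or.inr ⟨_, knClip_mem i, (hB i hi).1, h.trans (hB i hi).2⟩)
  · obtain ⟨i, rfl⟩ := knClip_ex hσ
    exact g7 i (hB' i ho)
  · rw [g8 g, Finset.sum_congr rfl (g := fun i => ind (F.ov e (knClip_s p q r i)) *
      g (F.par e (knClip_s p q r i))) fun i _ => ?_, Fin.sum_univ_three]
    · rfl
    · by_cases ho : F.ov e (knClip_s p q r i)
      · rw [ind_true (hB' i ho), ind_true ho]
        exact congrArg (fun x => 1 * g x) (hB i (hB' i ho)).2
      · rw [ind_false ho, ind_false fun h => ho (hB i h).1, zero_mul, zero_mul]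

/-- Choose the data for every side; `ψ q` is `k0` of the side that starts at `q`, `ψ p` is `k1` of
the side that ends at `p` (unique by `rest_fst_inj`, `rest_snd_inj`; `0` if there is none). -/
theorem clip (c : Ctx F S p q r t M η) : ∃ ψ a b, Clip F p q r t M η ψ a b := by
  have h : ∀ e : Seg, ∃ (a b : ℝ) (k0 k1 : ZMod 2), e ∈ rest p q t →
      ClipAt F p q r M η e a b k0 k1 ∧ (e.1 ≠ q → k0 = ind (abv M η e.1)) ∧
        (e.2 ≠ p → k1 = ind (abv M η e.2)) := fun e => by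
    by_cases he : e ∈ rest p q t
    · obtain ⟨a, b, k0, k1, h⟩ := clip_loc c he
      exact ⟨a, b, k0, k1, fun _ => h⟩
    · exact ⟨0, 0, 0, 0, fun h => absurd h he⟩
  choose a b k0 k1 h using h
  obtain ⟨v0, hv0⟩ : ∃ v0, ∀ e ∈ rest p q t, e.1 = q → k0 e = v0 := by
    by_cases hq : ∃ f ∈ rest p q t, f.1 = q
    · obtain ⟨f, hf, hq⟩ := hq
      exact ⟨k0 f, fun e he h' => by rw [c.k1.rest_fst_inj he hf (h'.trans hq.symm)]⟩
    · exact ⟨0, fun e he h' => absurd ⟨e, he, h'⟩ hq⟩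
  obtain ⟨v1, hv1⟩ : ∃ v1, ∀ e ∈ rest p q t, e.2 = p → k1 e = v1 := by
    by_cases hp : ∃ f ∈ rest p q t, f.2 = p
    · obtain ⟨f, hf, hp⟩ := hp
      exact ⟨k1 f, fun e he h' => by rw [c.k1.rest_snd_inj he hf (h'.trans hp.symm)]⟩
    · exact ⟨0, fun e he h' => absurd ⟨e, he, h'⟩ hp⟩
  refine ⟨fun x => if x = q then v0 else if x = p then v1 else ind (abv M η x), a, b,
    fun x hp hq => by rw [if_neg hq, if_neg hp], fun e he => ?_⟩
  obtain ⟨h1, h2, h3⟩ := h e he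
  have e0 : (if e.1 = q then v0 else if e.1 = p then v1 else ind (abv M η e.1)) = k0 e := by
    by_cases hq : e.1 = q
    · rw [if_pos hq, hv0 e he hq]
    · rw [if_neg hq, if_neg (c.k1.rest_fst_ne he), h2 hq]
  have e1 : (if e.2 = q then v0 else if e.2 = p then v1 else ind (abv M η e.2)) = k1 e := by
    rw [if_neg (c.k1.rest_snd_ne he)]
    by_cases hp : e.2 = p
    · rw [if_pos hp, hv1 e he hp]
    · rw [if_neg hp, h3 hp]
  rw [e0, e1]
  exact h1

/-- if the part above is not empty, every point of `e` over the open triangle is above it -/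
theorem ClipAt.above (c : Ctx F S p q r t M η) {e : Seg} {a b : ℝ} {k0 k1 : ZMod 2}
    (h : ClipAt F p q r M η e a b k0 k1) (hab : a < b) {s : ℝ} (s0 : 0 ≤ s) (s1 : s ≤ 1)
    (hs : inO (M (pt e s))) : 0 < η (pt e s) := by
  obtain ⟨h1, h2⟩ := (h.cls hab s s0 s1).1 ⟨hs.1.le, hs.2.1.le, hs.2.2.le⟩
  rcases h.hgt hab s h1 h2 with h3 | h3 | h3
  · exact h3
  · rw [h3, c.Mp] at hs
    exact absurd hs.1 (lt_irrefl _)
  · rw [h3, c.Mq] at hs
    exact absurd hs.1 (lt_irrefl _)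

/-- a side is not both over and under sides of the triangle: by `pos`, `cls`, `hgt` the point of
the under-crossing would have positive height (it is not a corner) -/
theorem Ctx.not_both (c : Ctx F S p q r t M η) {e σ σ' : Seg} (he : e ∈ rest p q t)
    (h : σ ∈ TS p q r) (h' : σ' ∈ TS p q r) (h1 : F.ov e σ') : ¬ F.ov σ e := by
  intro h2
  obtain ⟨a, b, k0, k1, hc, -⟩ := clip_loc c he
  have hab := hc.pos σ' h' h1
  obtain ⟨-, h3, h4, -⟩ := c.neg.ov_data h ((Fr.neg_ov e σ).2 h2)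
  rw [Fr.neg_par] at h3 h4
  obtain ⟨h5, h6⟩ := (hc.cls hab _ h2.1.2.2.2.1.le h2.1.2.2.2.2.le).1 h4
  rcases hc.hgt hab _ h5 h6 with h7 | h7 | h7
  · linarith
  · rw [h7, c.ep] at h3
    linarith
  · rw [h7, c.eq] at h3
    linarith

end Pool.Agent.Lib.MP_1f96ff_gt
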