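import Pool.Agent.Lib.MP_1f96ff_gt.KnB1
import Pool.Agent.Lib.MP_1f96ff_gt.WdEq

namespace Pool.Agent.Lib.MP_1f96ff_gt

open Classical

/-! Subsequence counts in a word whose letters carry increasing times. Pure combinatorics. -/

/-- One step: induction on `ws`; for the head `x` the filter of the tail keeps everything, for a
later element the head is filtered away. -/
theorem cnt_cons_timed {A : Type} [DecidableEq A] (a : A) (p : List A) (ws : List (ℝ × A))
    (h : ws.Pairwise fun x y => x.1 < y.1) :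
    cnt (a :: p) (ws.map Prod.snd) = ∑ x ∈ ws.toFinset, ind (x.2 = a) *
      cnt p ((ws.filter fun y => decide (x.1 < y.1)).map Prod.snd) := by
  induction ws with
  | nil => simp [cnt]
  | cons x t ih =>
    obtain ⟨h1, h2⟩ := List.pairwise_cons.1 h
    have hx : x ∉ t.toFinset := fun e => lt_irrefl _ (h1 x (List.mem_toFinset.1 e))
    rw [List.toFinset_cons, Finset.sum_insert hx, List.map_cons, cnt, ih h2, add_comm,
      List.filter_cons_of_neg (by simp), List.filter_eq_self.2 (by simpa using h1)]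
    congr 1
    · by_cases e : a = x.2
      · rw [if_pos e, ind_true e.symm, one_mul]
      · rw [if_neg e, ind_false fun q => e q.symm, zero_mul]
    · refine Finset.sum_congr rfl fun y hy => ?_
      rw [List.filter_cons_of_neg (by simpa using (h1 y (List.mem_toFinset.1 hy)).le)]

theorem knCnt_step {A : Type} [DecidableEq A] (a : A) (p : List A) (ws : List (ℝ × A))
    (h : ws.Pairwise fun x y => x.1 < y.1) (s : ℝ) :
    cnt (a :: p) ((ws.filter fun y => decide (s < y.1)).map Prod.snd) =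
      ∑ x ∈ ws.toFinset, ind (x.2 = a) * (lt2 s x.1 *
        cnt p ((ws.filter fun y => decide (x.1 < y.1)).map Prod.snd)) := by
  rw [cnt_cons_timed a p _ (h.filter _), List.toFinset_filter, Finset.sum_filter]
  refine Finset.sum_congr rfl fun x _ => ?_
  by_cases e : s < x.1
  · rw [if_pos (by simpa using e), lt2_of_lt e, one_mul, List.filter_filter]
    congr 3
    refine List.filter_congr fun y _ => ?_
    by_cases q : x.1 < y.1
    · simp [q, e.trans q]
    · simp [q]
  · rw [if_neg (by simpa using e), lt2_of_le (not_lt.1 e), zero_mul, mul_zero]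

theorem knCnt_nil {A : Type} [DecidableEq A] (w : List A) : cnt [] w = 1 := by
  cases w <;> rfl

theorem knCnt_zero {A : Type} [DecidableEq A] {a : A} (w : List A) (hw : a ∉ w) :
    ∀ p : List A, a ∈ p → cnt p w = 0 := by
  induction w with
  | nil =>
    intro p hp
    cases p with
    | nil => cases hp
    | cons b p => rfl
  | cons c w ih =>
    intro p hp
    have h1 : a ∉ w := fun e => hw (List.mem_cons_of_mem _ e)
    cases p with
    | nil => cases hp
    | cons b p =>
      rw [cnt, ih h1 _ hp, zero_add]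
      split_ifs with e
      · refine ih h1 _ ((List.mem_cons.1 hp).resolve_left fun q => hw ?_)
        rw [q, e]
        exact List.mem_cons_self
      · rfl

theorem knCnt_single {A : Type} [DecidableEq A] {ws : List (ℝ × A)}
    (hinj : ∀ x ∈ ws, ∀ y ∈ ws, x.2 = y.2 → x = y) {s : ℝ} {a : A} (h : (s, a) ∈ ws)
    (f : ℝ × A → ZMod 2) : ∑ x ∈ ws.toFinset, ind (x.2 = a) * f x = f (s, a) := by
  rw [Finset.sum_eq_single (s, a), ind_true rfl, one_mul]
  · intro y hy e
    rw [ind_false fun q => e (hinj y (List.mem_toFinset.1 hy) _ h q), zero_mul]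
  · exact fun e => absurd (List.mem_toFinset.2 h) e

theorem knCnt_img {L ι : Type} [Fintype L] [DecidableEq L] {C : Finset ι} {cid : ι → L}
    (hc : ∀ c ∈ C, ∀ c' ∈ C, cid c = cid c' → c = c') (G : L → ZMod 2)
    (h0 : ∀ z, (¬∃ c ∈ C, cid c = z) → G z = 0) : ∑ z, G z = ∑ c ∈ C, G (cid c) := by
  rw [← Finset.sum_image (f := G) hc]
  exact (Finset.sum_subset (Finset.subset_univ _) fun z _ hz =>
    h0 z fun e => hz (Finset.mem_image.2 e)).symm

theorem knCnt_miss {L ι : Type} {ws ws' : List (ℝ × (L × Bool))} {C : Finset ι} {cid : ι → L}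
    (hs : ∀ z s s', (s, (z, true)) ∈ ws → (s', (z, false)) ∈ ws' → ∃ c ∈ C, cid c = z) {z : L}
    (hz : ¬∃ c ∈ C, cid c = z) :
    (z, true) ∉ ws.map Prod.snd ∨ (z, false) ∉ ws'.map Prod.snd := by
  by_contra h
  obtain ⟨⟨s, _⟩, h1, rfl⟩ := List.mem_map.1 (not_not.1 (not_or.1 h).1)
  obtain ⟨⟨s', _⟩, h2, rfl⟩ := List.mem_map.1 (not_not.1 (not_or.1 h).2)
  exact hz (hs z s s' h1 h2)

theorem cnt_one {A : Type} [DecidableEq A] (a : A) (ws : List (ℝ × A))
    (h : ws.Pairwise fun x y => x.1 < y.1) :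
    cnt [a] (ws.map Prod.snd) = ∑ x ∈ ws.toFinset, ind (x.2 = a) := by
  simp only [cnt_cons_timed a [] ws h, knCnt_nil, mul_one]

/-- four applications of `cnt_cons_timed` (`List.toFinset_filter`, `Finset.sum_filter`,
`List.Pairwise.filter`); the extra inequalities follow by transitivity -/
theorem cnt_four {A : Type} [DecidableEq A] (a b c d : A) (ws : List (ℝ × A))
    (h : ws.Pairwise fun x y => x.1 < y.1) :
    cnt [a, b, c, d] (ws.map Prod.snd) =
      ∑ x ∈ ws.toFinset, ∑ y ∈ ws.toFinset, ∑ z ∈ ws.toFinset, ∑ w ∈ ws.toFinset,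
        ind (x.2 = a) * ind (y.2 = b) * ind (z.2 = c) * ind (w.2 = d) *
          (lt2 x.1 y.1 * lt2 y.1 z.1 * lt2 z.1 w.1) := by
  simp only [cnt_cons_timed a _ ws h, knCnt_step _ _ ws h, knCnt_nil, mul_one, Finset.mul_sum]
  refine Finset.sum_congr rfl fun x _ => Finset.sum_congr rfl fun y _ =>
    Finset.sum_congr rfl fun z _ => Finset.sum_congr rfl fun w _ => ?_
  ring

/-- For a crossing label `z` not of the form `cid c` one of the letters `(z,true)`, `(z,false)`
does not occur, so the term vanishes; for `z = cid c`, `z' = cid c'` each inner sum has the single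
term `U c`, `O c'`, `O c`, `U c'`; the diagonal `c = c'` of `pv` vanishes (`lt2 x x = 0`). -/
theorem PVw_eq_pv {L ι : Type} [Fintype L] [DecidableEq L] (ws : List (ℝ × (L × Bool)))
    (h : ws.Pairwise fun x y => x.1 < y.1) (hinj : ∀ x ∈ ws, ∀ y ∈ ws, x.2 = y.2 → x = y)
    (C : Finset ι) (cid : ι → L) (o u : ι → ℝ) (hc : ∀ c ∈ C, ∀ c' ∈ C, cid c = cid c' → c = c')
    (ho : ∀ c ∈ C, (o c, (cid c, true)) ∈ ws) (hu : ∀ c ∈ C, (u c, (cid c, false)) ∈ ws)
    (hs : ∀ z s s', (s, (z, true)) ∈ ws → (s', (z, false)) ∈ ws → ∃ c ∈ C, cid c = z) :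
    PVw (ws.map Prod.snd) = pv C o u := by
  have h0 : ∀ z, (¬∃ c ∈ C, cid c = z) → ∀ p : List (L × Bool), (z, true) ∈ p → (z, false) ∈ p →
      cnt p (ws.map Prod.snd) = 0 := fun z hz p p1 p2 =>
    (knCnt_miss hs hz).elim (fun e => knCnt_zero _ e p p1) fun e => knCnt_zero _ e p p2
  rw [PVw, pv, knCnt_img hc _ fun z hz => Finset.sum_eq_zero fun z' _ => by
    rw [h0 z hz _ (by simp) (by simp), ite_self]]
  refine Finset.sum_congr rfl fun c hc1 => ?_
  rw [knCnt_img hc _ fun z hz => by rw [h0 z hz _ (by simp) (by simp), ite_self]]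
  refine Finset.sum_congr rfl fun c' hc2 => ?_
  split_ifs with e
  · rw [hc c hc1 c' hc2 e, lt2_of_le (le_refl (o c')), mul_zero, zero_mul]
  · rw [cnt_cons_timed _ _ ws h, knCnt_single hinj (hu c hc1), knCnt_step _ _ ws h,
      knCnt_single hinj (ho c' hc2), knCnt_step _ _ ws h, knCnt_single hinj (ho c hc1),
      knCnt_step _ _ ws h, knCnt_single hinj (hu c' hc2), knCnt_nil, mul_one, mul_assoc]

/-- the same for the over-crossing number of two words -/
theorem om_eq_card {L ι : Type} [Fintype L] [DecidableEq L] (ws ws' : List (ℝ × (L × Bool)))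
    (h : ws.Pairwise fun x y => x.1 < y.1) (h' : ws'.Pairwise fun x y => x.1 < y.1)
    (hinj : ∀ x ∈ ws, ∀ y ∈ ws, x.2 = y.2 → x = y)
    (hinj' : ∀ x ∈ ws', ∀ y ∈ ws', x.2 = y.2 → x = y)
    (C : Finset ι) (cid : ι → L) (hc : ∀ c ∈ C, ∀ c' ∈ C, cid c = cid c' → c = c')
    (ho : ∀ c ∈ C, ∃ s, (s, (cid c, true)) ∈ ws) (hu : ∀ c ∈ C, ∃ s, (s, (cid c, false)) ∈ ws')
    (hs : ∀ z s s', (s, (z, true)) ∈ ws → (s', (z, false)) ∈ ws' → ∃ c ∈ C, cid c = z) :
    om (ws.map Prod.snd) (ws'.map Prod.snd) = ∑ _c ∈ C, (1 : ZMod 2) := by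
  rw [om, knCnt_img hc _ fun z hz => (knCnt_miss hs hz).elim
    (fun e => by rw [knCnt_zero _ e _ (by simp), zero_mul])
    fun e => by rw [knCnt_zero _ e _ (by simp), mul_zero]]
  refine Finset.sum_congr rfl fun c hc1 => ?_
  obtain ⟨s, h1⟩ := ho c hc1
  obtain ⟨s', h2⟩ := hu c hc1
  rw [cnt_cons_timed _ _ ws h, knCnt_single hinj h1, cnt_cons_timed _ _ ws' h',
    knCnt_single hinj' h2, knCnt_nil, knCnt_nil, mul_one]

end Pool.Agent.Lib.MP_1f96ff_gt
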