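import Pool.Agent.Lib.MP_1f96ff_gt.KnB1

namespace Pool.Agent.Lib.MP_1f96ff_gt

open Classical

/-! The parity lemma for two planar segments. -/

theorem knSeg_sign {c u L U : ℝ} (h : L < U) (hL : c + L * u ≠ 0) (hU : c + U * u ≠ 0) :
    ind (∃ σ, L < σ ∧ σ < U ∧ c + σ * u = 0) = ind (0 < c + L * u) + ind (0 < c + U * u) := by
  rcases lt_or_gt_of_ne hL with h1 | h1 <;> rcases lt_or_gt_of_ne hU with h2 | h2
  · rw [ind_false h1.not_gt, ind_false h2.not_gt, add_zero, ind_false]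
    rintro ⟨σ, k1, k2, k3⟩
    rcases le_total 0 u with k | k <;> nlinarith
  · have hu : 0 < u := by nlinarith
    rw [ind_false h1.not_gt, ind_true h2, zero_add, ind_true]
    exact ⟨-c / u, (lt_div_iff₀ hu).2 (by linarith), (div_lt_iff₀ hu).2 (by linarith), by
      field_simp; ring⟩
  · have hu : u < 0 := by nlinarith
    rw [ind_true h1, ind_false h2.not_gt, add_zero, ind_true]
    exact ⟨-c / u, (lt_div_iff_of_neg hu).2 (by linarith), (div_lt_iff_of_neg hu).2 (by linarith),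
      by rw [div_mul_cancel₀ _ hu.ne]; ring⟩
  · rw [ind_true h1, ind_true h2, two_zero, ind_false]
    rintro ⟨σ, k1, k2, k3⟩
    rcases le_total 0 u with k | k <;> nlinarith

theorem knSeg_aff {c u ρ τ : ℝ} (h : ρ < τ) (h0 : ρ ≤ 0 → 0 ≤ τ → c + 0 * u ≠ 0)
    (h1 : ρ ≤ 1 → 1 ≤ τ → c + 1 * u ≠ 0) (h2 : 0 ≤ ρ → ρ ≤ 1 → c + ρ * u ≠ 0)
    (h3 : 0 ≤ τ → τ ≤ 1 → c + τ * u ≠ 0) :
    ind (∃ σ, 0 < σ ∧ σ < 1 ∧ ρ < σ ∧ σ < τ ∧ c + σ * u = 0) =
      ind (0 < ρ ∧ ρ ≤ 1 ∧ 0 < c + ρ * u) + ind (0 < τ ∧ τ ≤ 1 ∧ 0 < c + τ * u) +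
        ind (ρ ≤ 0 ∧ 0 < τ ∧ 0 < c + 0 * u) + ind (ρ ≤ 1 ∧ 1 < τ ∧ 0 < c + 1 * u) := by
  rcases le_or_gt τ 0 with k1 | k1
  · rw [ind_false (by rintro ⟨σ, _, _, _, _, _⟩; linarith), ind_false fun k => by linarith [k.1],
      ind_false fun k => by linarith [k.1], ind_false fun k => by linarith [k.2.1],
      ind_false fun k => by linarith [k.2.1]]
    rfl
  rcases lt_trichotomy ρ 1 with k2 | rfl | k2
  · rcases le_or_gt ρ 0 with k3 | k3 <;> rcases le_or_gt τ 1 with k4 | k4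
    · rw [ind_congr (Q := ∃ σ, 0 < σ ∧ σ < τ ∧ c + σ * u = 0)
        ⟨fun ⟨σ, a, _, _, b, e⟩ => ⟨σ, a, b, e⟩,
          fun ⟨σ, a, b, e⟩ => ⟨σ, a, by linarith, by linarith, b, e⟩⟩,
        knSeg_sign k1 (h0 k3 k1.le) (h3 k1.le k4)]
      simp [ind, k1, k3, k4, k3.not_gt, k4.not_gt, add_comm]
    · rw [ind_congr (Q := ∃ σ, 0 < σ ∧ σ < 1 ∧ c + σ * u = 0)
        ⟨fun ⟨σ, a, b, _, _, e⟩ => ⟨σ, a, b, e⟩,
          fun ⟨σ, a, b, e⟩ => ⟨σ, a, b, by linarith, by linarith, e⟩⟩,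
        knSeg_sign one_pos (h0 k3 k1.le) (h1 k2.le k4.le)]
      simp [ind, k1, k3, k4, k3.not_gt, k4.not_ge, k2.le]
    · rw [ind_congr (Q := ∃ σ, ρ < σ ∧ σ < τ ∧ c + σ * u = 0)
        ⟨fun ⟨σ, _, _, a, b, e⟩ => ⟨σ, a, b, e⟩,
          fun ⟨σ, a, b, e⟩ => ⟨σ, by linarith, by linarith, a, b, e⟩⟩,
        knSeg_sign h (h2 k3.le k2.le) (h3 k1.le k4)]
      simp [ind, k1, k3, k4, k3.not_ge, k4.not_gt, k2.le]
    · rw [ind_congr (Q := ∃ σ, ρ < σ ∧ σ < 1 ∧ c + σ * u = 0)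
        ⟨fun ⟨σ, _, b, a, _, e⟩ => ⟨σ, a, b, e⟩,
          fun ⟨σ, a, b, e⟩ => ⟨σ, by linarith, b, a, by linarith, e⟩⟩,
        knSeg_sign k2 (h2 k3.le k2.le) (h1 k2.le k4.le)]
      simp [ind, k3, k4, k3.not_ge, k4.not_ge, k2.le]
  · rw [ind_false (by rintro ⟨σ, _, _, _, _, _⟩; linarith),
      ind_false (P := 0 < τ ∧ _) fun k => by linarith [k.2.1],
      ind_false (P := (1 : ℝ) ≤ 0 ∧ _) fun k => by linarith [k.1], add_zero, add_zero,
      ind_congr (P := (1 : ℝ) ≤ 1 ∧ _) (Q := (0 : ℝ) < 1 ∧ (1 : ℝ) ≤ 1 ∧ 0 < c + 1 * u)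
        ⟨fun k => ⟨one_pos, le_rfl, k.2.2⟩, fun k => ⟨le_rfl, h, k.2.2⟩⟩, two_zero]
  · rw [ind_false (by rintro ⟨σ, _, _, _, _, _⟩; linarith), ind_false fun k => by linarith [k.2.1],
      ind_false fun k => by linarith [k.2.1], ind_false fun k => by linarith [k.1],
      ind_false fun k => by linarith [k.1]]
    rfl

theorem knSeg_or_pt (a b : Seg2) (σ : ℝ) :
    or2 b (pt2 a σ) = or2 b a.1 + σ * (or2 b a.2 - or2 b a.1) := by
  simp only [or2, det2, Prod.fst_sub, Prod.snd_sub, pt2_fst, pt2_snd]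
  ring

theorem knSeg_or_self (b : Seg2) (t : ℝ) : or2 b (pt2 b t) = 0 := by
  simp only [or2, det2, Prod.fst_sub, Prod.snd_sub, pt2_fst, pt2_snd]
  ring

theorem knSeg_on {b : Seg2} (h : b.1.1 < b.2.1) {y : P2} (h0 : or2 b y = 0) :
    y = pt2 b ((y.1 - b.1.1) / (b.2.1 - b.1.1)) := by
  have h1 : b.2.1 - b.1.1 ≠ 0 := sub_ne_zero.2 h.ne'
  simp only [or2, det2, Prod.fst_sub, Prod.snd_sub] at h0
  refine Prod.ext ?_ ?_
  · rw [pt2_fst]
    field_simp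
    ring
  · rw [pt2_snd]
    field_simp
    linear_combination h0

theorem knSeg_off {b : Seg2} (h : b.1.1 < b.2.1) {y : P2} (hy : Off y b) (h1 : b.1.1 ≤ y.1)
    (h2 : y.1 ≤ b.2.1) : or2 b y ≠ 0 := fun h0 =>
  hy _ (div_nonneg (by linarith) (by linarith)) ((div_le_one (by linarith)).2 (by linarith))
    (knSeg_on h h0)

theorem knSeg_X {a b : Seg2} (h : b.1.1 < b.2.1) : X2 a b ↔ ∃ σ, 0 < σ ∧ σ < 1 ∧
    b.1.1 < (pt2 a σ).1 ∧ (pt2 a σ).1 < b.2.1 ∧ or2 b (pt2 a σ) = 0 := by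
  constructor
  · rintro ⟨s, t, s0, s1, t0, t1, e⟩
    refine ⟨s, s0, s1, ?_, ?_, ?_⟩
    · rw [e, pt2_fst]; nlinarith
    · rw [e, pt2_fst]; nlinarith
    · rw [e, knSeg_or_self]
  · rintro ⟨s, s0, s1, k1, k2, e⟩
    exact ⟨s, _, s0, s1, div_pos (by linarith) (by linarith),
      (div_lt_one (by linarith)).2 (by linarith), knSeg_on h e⟩

theorem knSeg_Xsymm {a b : Seg2} : X2 a b ↔ X2 b a :=
  ⟨fun ⟨s, t, a, b, c, d, e⟩ => ⟨t, s, c, d, a, b, e.symm⟩,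
    fun ⟨s, t, a, b, c, d, e⟩ => ⟨t, s, c, d, a, b, e.symm⟩⟩

theorem knSeg_pt_swap (a : Seg2) (t : ℝ) : pt2 a.swap t = pt2 a (1 - t) := by
  simp only [pt2, Prod.fst_swap, Prod.snd_swap]; module

theorem knSeg_or_swap (a : Seg2) (y : P2) : or2 a.swap y = -or2 a y := by
  simp only [or2, det2, Prod.fst_swap, Prod.snd_swap, Prod.fst_sub, Prod.snd_sub]; ring

theorem knSeg_off_swap {a : Seg2} {y : P2} (h : Off y a) : Off y a.swap := fun t t0 t1 => by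
  rw [knSeg_pt_swap]
  exact h _ (by linarith) (by linarith)

theorem knSeg_X_swap {a b : Seg2} (h : X2 a b) : X2 a.swap b := by
  obtain ⟨s, t, s0, s1, t0, t1, e⟩ := h
  exact ⟨1 - s, t, by linarith, by linarith, t0, t1, by rw [knSeg_pt_swap, sub_sub_cancel, e]⟩

theorem knSeg_up_swap (a : Seg2) (y : P2) : up a.swap y = up a y := by
  simp only [up, knSeg_or_swap, Prod.fst_swap, Prod.snd_swap, neg_lt_zero, neg_pos, or_comm]

theorem knSeg_dn_swap (a : Seg2) (y : P2) : dn a.swap y = dn a y := by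
  simp only [dn, knSeg_or_swap, Prod.fst_swap, Prod.snd_swap, neg_lt_zero, neg_pos, or_comm]

theorem knSeg_up {a : Seg2} (h : a.1.1 ≤ a.2.1) (y : P2) :
    up a y = ind (a.1.1 < y.1 ∧ y.1 ≤ a.2.1 ∧ or2 a y < 0) :=
  ind_congr (or_iff_left fun k => by linarith [k.1, k.2.1])

theorem knSeg_dn {a : Seg2} (h : a.1.1 ≤ a.2.1) (y : P2) :
    dn a y = ind (a.1.1 ≤ y.1 ∧ y.1 < a.2.1 ∧ 0 < or2 a y) :=
  ind_congr (or_iff_left fun k => by linarith [k.1, k.2.1])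

/-- a vertical segment against a non-vertical one -/
theorem knSeg_vert {a b : Seg2} (ha : a.1.1 = a.2.1) (hb : b.1.1 < b.2.1) (h1 : Off a.1 b)
    (h2 : Off a.2 b) (h3 : Off b.1 a) (h4 : Off b.2 a) (ε : ℝ) (hε : ε ≠ 0) {K : Prop}
    (k1 : K → b.1.1 ≤ a.1.1 ∧ a.1.1 ≤ b.2.1) (k2 : b.1.1 < a.1.1 → a.1.1 < b.2.1 → K) :
    ind (X2 a b) = ind (K ∧ 0 < ε * or2 b a.1) + ind (K ∧ 0 < ε * or2 b a.2) := by
  have hx : ∀ σ, (pt2 a σ).1 = a.1.1 := fun σ => by rw [pt2_fst, ← ha]; ring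
  by_cases hK : K
  · obtain ⟨k3, k4⟩ := k1 hK
    have e1 := knSeg_off hb h1 k3 k4
    have e2 := knSeg_off hb h2 (ha ▸ k3) (ha ▸ k4)
    have e3 := knSeg_sign (c := ε * or2 b a.1) (u := ε * (or2 b a.2 - or2 b a.1)) one_pos
      (by simpa [hε] using e1) (by simpa [mul_sub, hε] using e2)
    rw [zero_mul, add_zero, one_mul, mul_sub, add_sub_cancel] at e3
    rw [ind_congr (and_iff_right hK), ind_congr (and_iff_right hK), ← e3, knSeg_X hb]
    refine ind_congr ⟨fun ⟨σ, s0, s1, _, _, e⟩ => ⟨σ, s0, s1, ?_⟩, fun ⟨σ, s0, s1, e⟩ => ?_⟩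
    · rw [knSeg_or_pt] at e
      linear_combination ε * e
    · have e4 : or2 b (pt2 a σ) = 0 := by
        rw [knSeg_or_pt]
        exact mul_left_cancel₀ hε (by linear_combination e)
      have e5 := knSeg_on hb e4
      refine ⟨σ, s0, s1, lt_of_le_of_ne ((hx σ).symm ▸ k3) fun e6 => ?_,
        lt_of_le_of_ne ((hx σ).symm ▸ k4) fun e6 => ?_, e4⟩
      · rw [← e6, sub_self, zero_div, pt2_zero] at e5
        exact h3 σ s0.le s1.le e5.symm
      · rw [e6, div_self (sub_ne_zero.2 hb.ne'), pt2_one] at e5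
        exact h4 σ s0.le s1.le e5.symm
  · rw [ind_false fun k : K ∧ _ => hK k.1, ind_false fun k : K ∧ _ => hK k.1, add_zero, ind_false]
    rw [knSeg_X hb]
    rintro ⟨σ, _, _, e1, e2, _⟩
    exact hK (k2 (hx σ ▸ e1) (hx σ ▸ e2))

theorem knSeg_uIcc {a : Seg2} (ha : a.1.1 = a.2.1) {y : P2} (hy : y.1 = a.1.1) :
    y.2 ∈ Set.uIcc a.1.2 a.2.2 ↔ ∃ t, 0 ≤ t ∧ t ≤ 1 ∧ y = pt2 a t := by
  rw [← segment_eq_uIcc, segment_eq_image']
  constructor
  · rintro ⟨t, ⟨t0, t1⟩, e⟩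
    exact ⟨t, t0, t1, Prod.ext (by rw [pt2_fst, ← ha, hy]; ring) (by rw [pt2_snd]; exact e.symm)⟩
  · rintro ⟨t, t0, t1, e⟩
    exact ⟨t, ⟨t0, t1⟩, by rw [e, pt2_snd]; rfl⟩

theorem knSeg_both {a b : Seg2} (ha : a.1.1 = a.2.1) (hb : b.1.1 = b.2.1) (h1 : Off a.1 b)
    (h2 : Off a.2 b) (h3 : Off b.1 a) : ¬ X2 a b := by
  rintro ⟨s, t, s0, s1, t0, t1, e⟩
  have e1 : (pt2 a s).1 = a.1.1 := by rw [pt2_fst, ← ha]; ring
  have e2 : (pt2 a s).1 = b.1.1 := by rw [e, pt2_fst, ← hb]; ring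
  have e3 : a.1.1 = b.1.1 := e1.symm.trans e2
  have k1 := (knSeg_uIcc ha e1).2 ⟨s, s0.le, s1.le, rfl⟩
  have k2 := (knSeg_uIcc hb e2).2 ⟨t, t0.le, t1.le, e⟩
  have k3 := mt (knSeg_uIcc hb e3).1 fun ⟨t, a, b, c⟩ => h1 t a b c
  have k4 := mt (knSeg_uIcc hb (ha ▸ e3)).1 fun ⟨t, a, b, c⟩ => h2 t a b c
  have k5 := mt (knSeg_uIcc ha e3.symm).1 fun ⟨t, a, b, c⟩ => h3 t a b c
  simp only [Set.mem_uIcc] at k1 k2 k3 k4 k5
  grind

theorem knSeg_main {a b : Seg2} (ha : a.1.1 ≤ a.2.1) (hb : b.1.1 ≤ b.2.1) (h1 : Off a.1 b)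
    (h2 : Off a.2 b) (h3 : Off b.1 a) (h4 : Off b.2 a) : ind (X2 a b) = rays a b := by
  rw [rays, knSeg_up ha, knSeg_up ha, knSeg_dn hb, knSeg_dn hb]
  rcases ha.eq_or_lt with ha | ha <;> rcases hb.eq_or_lt with hb | hb
  · rw [ind_false (knSeg_both ha hb h1 h2 h3), ind_false fun k => by linarith [k.1, k.2.1],
      ind_false fun k => by linarith [k.1, k.2.1], ind_false fun k => by linarith [k.1, k.2.1],
      ind_false fun k => by linarith [k.1, k.2.1]]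
    rfl
  · rw [knSeg_vert ha hb h1 h2 h3 h4 1 one_ne_zero (K := b.1.1 ≤ a.1.1 ∧ a.1.1 < b.2.1)
      (fun k => ⟨k.1, k.2.le⟩) fun k k' => ⟨k.le, k'⟩,
      ind_false (P := a.1.1 < b.1.1 ∧ _) fun k => by linarith [k.1, k.2.1],
      ind_false (P := a.1.1 < b.2.1 ∧ _) fun k => by linarith [k.1, k.2.1]]
    simp only [one_mul, and_assoc, zero_add, ← ha]
  · rw [ind_congr knSeg_Xsymm, knSeg_vert hb ha h3 h4 h1 h2 (-1) (by norm_num)
      (K := a.1.1 < b.1.1 ∧ b.1.1 ≤ a.2.1) (fun k => ⟨k.1.le, k.2⟩) fun k k' => ⟨k, k'.le⟩,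
      ind_false (P := b.1.1 ≤ a.1.1 ∧ _) fun k => by linarith [k.1, k.2.1],
      ind_false (P := b.1.1 ≤ a.2.1 ∧ _) fun k => by linarith [k.1, k.2.1]]
    simp only [neg_mul, one_mul, neg_pos, and_assoc, add_zero, ← hb]
  · have hd : 0 < a.2.1 - a.1.1 := sub_pos.2 ha
    have he : 0 < b.2.1 - b.1.1 := sub_pos.2 hb
    have key : ∀ y : P2, or2 b y = 0 → (a.2.1 - a.1.1) * (or2 b a.1 +
        (y.1 - a.1.1) / (a.2.1 - a.1.1) * (or2 b a.2 - or2 b a.1)) =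
          (b.2.1 - b.1.1) * -or2 a y := fun y hy => by
      simp only [or2, det2, Prod.fst_sub, Prod.snd_sub] at hy ⊢
      field_simp
      linear_combination (a.2.1 - a.1.1) * hy
    have pos : ∀ y : P2, or2 b y = 0 → (0 < or2 b a.1 +
        (y.1 - a.1.1) / (a.2.1 - a.1.1) * (or2 b a.2 - or2 b a.1) ↔ or2 a y < 0) := fun y hy => by
      rw [← mul_pos_iff_of_pos_left hd, key y hy, mul_pos_iff_of_pos_left he, neg_pos]
    have ne : ∀ y : P2, or2 b y = 0 → Off y a → 0 ≤ (y.1 - a.1.1) / (a.2.1 - a.1.1) →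
        (y.1 - a.1.1) / (a.2.1 - a.1.1) ≤ 1 → or2 b a.1 +
          (y.1 - a.1.1) / (a.2.1 - a.1.1) * (or2 b a.2 - or2 b a.1) ≠ 0 := fun y hy k k1 k2 e => by
      have e1 := key y hy
      rw [e, mul_zero] at e1
      rw [le_div_iff₀ hd] at k1
      rw [div_le_one hd] at k2
      exact knSeg_off ha k (by linarith) (by linarith)
        (neg_eq_zero.1 ((mul_eq_zero.1 e1.symm).resolve_left he.ne'))
    have b1 : or2 b b.1 = 0 := by simpa using knSeg_or_self b 0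
    have b2 : or2 b b.2 = 0 := by simpa using knSeg_or_self b 1
    have e := knSeg_aff (c := or2 b a.1) (u := or2 b a.2 - or2 b a.1)
      (ρ := (b.1.1 - a.1.1) / (a.2.1 - a.1.1)) (τ := (b.2.1 - a.1.1) / (a.2.1 - a.1.1))
      (div_lt_div_of_pos_right (by linarith) hd)
      (fun k1 k2 => by
        rw [div_le_iff₀ hd] at k1
        rw [le_div_iff₀ hd] at k2
        simpa using knSeg_off hb h1 (by linarith) (by linarith))
      (fun k1 k2 => by
        rw [div_le_one hd] at k1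
        rw [one_le_div hd] at k2
        simpa using knSeg_off hb h2 (by linarith) (by linarith))
      (ne _ b1 h3) (ne _ b2 h4)
    rw [pos _ b1, pos _ b2] at e
    simp only [lt_div_iff₀ hd, div_lt_iff₀ hd, div_le_iff₀ hd, zero_mul, one_mul, add_zero,
      add_sub_cancel, sub_pos, sub_nonpos, sub_le_sub_iff_right, sub_lt_sub_iff_right] at e
    rw [← e, knSeg_X hb]
    refine ind_congr (exists_congr fun σ => ?_)
    rw [knSeg_or_pt, pt2_fst, sub_lt_iff_lt_add', lt_sub_iff_add_lt']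

/-- If no end of one segment lies on the other, then the segments cross iff the number of ray
hits is odd. Sketch: both sides are invariant under swapping the ends of `a` or of `b`
(`pt2 a.swap t = pt2 a (1 - t)`, `or2 a.swap y = - or2 a y`), so assume `a.1.1 ≤ a.2.1` and
`b.1.1 ≤ b.2.1`. Non-vertical case: `a`, `b` are graphs of affine functions `A`, `B` over
`[p, q]`, `[r, s]`; put `Δ = A - B`, `L = max p r`, `U = min q s`. `up a y` for `y` on `b` is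
`[p < y.1 ≤ q and Δ y.1 > 0]`, `dn b x` for `x` on `a` is `[r ≤ x.1 < s and Δ x.1 > 0]`. If
`L < U` exactly one term is `[Δ L > 0]` and exactly one is `[Δ U > 0]`, `Δ L ≠ 0 ≠ Δ U` by the
hypotheses, and the segments cross iff the signs differ. If `L ≥ U` there is no crossing and the
terms vanish or cancel (`q = r`: two equal terms). Vertical `a`: `up = 0`, and the two `dn` terms
differ iff `b` passes between the ends. Vertical `b` likewise. Both vertical: everything is zero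
(an overlap would put an end on the other segment). -/
theorem seg_par {a b : Seg2} (h1 : Off a.1 b) (h2 : Off a.2 b) (h3 : Off b.1 a) (h4 : Off b.2 a) :
    ind (X2 a b) = rays a b := by
  have key : ∀ {a b : Seg2}, a.1.1 ≤ a.2.1 → Off a.1 b → Off a.2 b → Off b.1 a → Off b.2 a →
      ind (X2 a b) = rays a b := fun {a b} ha h1 h2 h3 h4 => by
    rcases le_total b.1.1 b.2.1 with hb | hb
    · exact knSeg_main ha hb h1 h2 h3 h4
    · have e := knSeg_main (b := b.swap) ha hb (knSeg_off_swap h1) (knSeg_off_swap h2) h4 h3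
      rw [rays, knSeg_dn_swap, knSeg_dn_swap, Prod.fst_swap, Prod.snd_swap,
        add_comm (up a b.2)] at e
      rw [rays, ← e]
      exact ind_congr ⟨fun h => knSeg_Xsymm.1 (knSeg_X_swap (knSeg_Xsymm.1 h)),
        fun h => knSeg_Xsymm.1 (knSeg_X_swap (knSeg_Xsymm.1 h))⟩
  rcases le_total a.1.1 a.2.1 with ha | ha
  · exact key ha h1 h2 h3 h4
  · have e := key (a := a.swap) ha h2 h1 (knSeg_off_swap h3) (knSeg_off_swap h4)
    rw [rays, knSeg_up_swap, knSeg_up_swap, Prod.fst_swap, Prod.snd_swap, add_right_comm] at e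
    rw [rays, ← e]
    exact ind_congr ⟨fun h => knSeg_X_swap h, fun h => knSeg_X_swap h⟩

end Pool.Agent.Lib.MP_1f96ff_gt
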