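import Pool.Agent.Lib.MP_1f96ff_gt.KnB2
import Pool.Agent.Lib.MP_1f96ff_gt.KnSeg

namespace Pool.Agent.Lib.MP_1f96ff_gt

open Classical

/-! Adapted coordinates, and the parity lemma for parts of two segments in space. -/

theorem knCo_self (v : P2) : det2 v v = 0 := by
  unfold det2
  ring

theorem knCo_left (a b c w : P2) (t : ℝ) : det2 (pt2 (a, b) t - c) w =
    det2 (a - c) w + t * (det2 (b - c) w - det2 (a - c) w) := by
  simp only [det2, Prod.fst_sub, Prod.snd_sub, pt2_fst, pt2_snd]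
  ring

theorem knCo_right (a b c w : P2) (t : ℝ) : det2 w (pt2 (a, b) t - c) =
    det2 w (a - c) + t * (det2 w (b - c) - det2 w (a - c)) := by
  simp only [det2, Prod.fst_sub, Prod.snd_sub, pt2_fst, pt2_snd]
  ring

theorem knCo_inj {v w x y c : P2} (hD : det2 v w ≠ 0) (h1 : det2 (x - c) w = det2 (y - c) w)
    (h2 : det2 v (x - c) = det2 v (y - c)) : x = y := by
  simp only [det2, Prod.fst_sub, Prod.snd_sub] at hD h1 h2
  refine Prod.ext (mul_left_cancel₀ hD ?_) (mul_left_cancel₀ hD ?_)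
  · linear_combination v.1 * h1 + w.1 * h2
  · linear_combination v.2 * h1 + w.2 * h2

/-- Explicitly: with `v = π q - π p`, `w = π r - π p`, `z = π x - π p`, put
`β = det2 v z / det2 v w`, `α = det2 z w / det2 v w`, `M x = (α + ρ β, β)`. -/
theorem exists_co (F : Fr) {p q r : R3} (h : F.D (p, q) (p, r) ≠ 0) (ρ : ℝ) :
    ∃ M, F.Co M ∧ M p = (0, 0) ∧ M q = (1, 0) ∧ M r = (ρ, 1) := by
  have hD : det2 (F.π q - F.π p) (F.π r - F.π p) ≠ 0 := h
  refine ⟨fun x => (det2 (F.π x - F.π p) (F.π r - F.π p) / det2 (F.π q - F.π p) (F.π r - F.π p) +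
      ρ * (det2 (F.π q - F.π p) (F.π x - F.π p) / det2 (F.π q - F.π p) (F.π r - F.π p)),
      det2 (F.π q - F.π p) (F.π x - F.π p) / det2 (F.π q - F.π p) (F.π r - F.π p)),
    ⟨fun e t => ?_, fun x y => ⟨fun hxy => ?_, fun hxy => by simp only [hxy]⟩⟩, ?_, ?_, ?_⟩
  · refine Prod.ext ?_ ?_
    · rw [pt2_fst]
      simp only [F.π_pt, knCo_left, knCo_right]
      ring
    · rw [pt2_snd]
      simp only [F.π_pt, knCo_right]
      ring
  · have h2 := congrArg Prod.snd hxy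
    have h1 := congrArg Prod.fst hxy
    simp only at h1 h2
    rw [h2, add_left_inj] at h1
    exact knCo_inj hD ((div_left_inj' hD).1 h1) ((div_left_inj' hD).1 h2)
  · simp [det2]
  · simp only [div_self hD, knCo_self, zero_div, mul_zero, add_zero]
  · simp only [div_self hD, knCo_self, zero_div, mul_one, zero_add]

/-- the height above the plane of `p q r`: `η x = h x - h p - α (h q - h p) - β (h r - h p)` -/
theorem exists_eta (F : Fr) {p q r : R3} (h : F.D (p, q) (p, r) ≠ 0) :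
    ∃ η : R3 → ℝ, (∀ e s, η (pt e s) = η e.1 + s * (η e.2 - η e.1)) ∧
      (∀ x y, F.π x = F.π y → η x - η y = F.h x - F.h y) ∧ η p = 0 ∧ η q = 0 ∧ η r = 0 := by
  obtain ⟨M, hM, h1, h2, h3⟩ := exists_co F h 0
  refine ⟨fun x => F.h x - F.h p - (M x).1 * (F.h q - F.h p) - (M x).2 * (F.h r - F.h p),
    fun e s => ?_, fun x y hxy => ?_, ?_, ?_, ?_⟩
  · simp only [hM.aff, F.h_pt, pt2_fst, pt2_snd]
    ring
  · simp only [(hM.eq x y).2 hxy]
    ring
  · simp [h1]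
  · simp [h2]
  · simp [h3]

theorem Fr.Co.pt2_sub {F : Fr} {M : R3 → P2} (hM : F.Co M) (e : Seg) (a b t : ℝ) :
    pt2 (sub2 M e a b) t = M (pt e (a + t * (b - a))) := by
  rw [← pt_pt, hM.aff]
  rfl

theorem Fr.Co.off {F : Fr} {M : R3 → P2} (hM : F.Co M) {x : R3} {f : Seg} {a b : ℝ} (hab : a ≤ b)
    (h : ∀ t, a ≤ t → t ≤ b → F.π x ≠ F.π (pt f t)) : Off (M x) (sub2 M f a b) := by
  intro t t0 t1 hx
  rw [hM.pt2_sub, hM.eq] at hx
  exact h _ (by nlinarith) (by nlinarith) hx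

/-- `seg_par` for the planar images; `X2` is translated with `Gen.cr_of` and `cr.π_eq`. -/
theorem pair_id {F : Fr} {S : Set R3} (hg : F.Gen S) {M : R3 → P2} (hM : F.Co M) {e f : Seg}
    (he : In S e) (hf : In S f) (hm : Meet e f) (hn : e.1 ≠ e.2) {a0 a1 b0 b1 : ℝ}
    (ha0 : 0 ≤ a0) (ha : a0 < a1) (ha1 : a1 ≤ 1) (hb0 : 0 ≤ b0) (hb : b0 < b1) (hb1 : b1 ≤ 1)
    (h1 : ∀ s, s = a0 ∨ s = a1 → ∀ t, b0 ≤ t → t ≤ b1 → F.π (pt e s) ≠ F.π (pt f t))
    (h2 : ∀ t, t = b0 ∨ t = b1 → ∀ s, a0 ≤ s → s ≤ a1 → F.π (pt e s) ≠ F.π (pt f t)) :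
    ind (F.cr e f ∧ a0 < F.par e f ∧ F.par e f < a1 ∧ b0 < F.par f e ∧ F.par f e < b1) =
      rays (sub2 M e a0 a1) (sub2 M f b0 b1) := by
  rw [← seg_par (a := sub2 M e a0 a1) (b := sub2 M f b0 b1)
    (hM.off hb.le (h1 a0 (Or.inl rfl))) (hM.off hb.le (h1 a1 (Or.inr rfl)))
    (hM.off ha.le fun s s0 s1 => (h2 b0 (Or.inl rfl) s s0 s1).symm)
    (hM.off ha.le fun s s0 s1 => (h2 b1 (Or.inr rfl) s s0 s1).symm)]
  have hA : 0 < a1 - a0 := sub_pos.2 ha
  have hB : 0 < b1 - b0 := sub_pos.2 hb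
  refine ind_congr ⟨fun ⟨hc, p1, p2, p3, p4⟩ => ?_, fun ⟨s, t, s0, s1, t0, t1, hst⟩ => ?_⟩
  · refine ⟨(F.par e f - a0) / (a1 - a0), (F.par f e - b0) / (b1 - b0),
      div_pos (sub_pos.2 p1) hA, (div_lt_one hA).2 (by linarith),
      div_pos (sub_pos.2 p3) hB, (div_lt_one hB).2 (by linarith), ?_⟩
    rw [hM.pt2_sub, hM.pt2_sub, div_mul_cancel₀ _ hA.ne', div_mul_cancel₀ _ hB.ne',
      add_sub_cancel, add_sub_cancel, hM.eq]
    exact hc.π_eq
  · rw [hM.pt2_sub, hM.pt2_sub, hM.eq] at hst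
    have q1 : a0 < a0 + s * (a1 - a0) := by nlinarith
    have q2 : a0 + s * (a1 - a0) < a1 := by nlinarith
    have q3 : b0 < b0 + t * (b1 - b0) := by nlinarith
    have q4 : b0 + t * (b1 - b0) < b1 := by nlinarith
    obtain ⟨hc, e1, e2⟩ := hg.cr_of he hf hm hn (by linarith) (by linarith) (by linarith)
      (by linarith) hst
    rw [← e1, ← e2]
    exact ⟨hc, q1, q2, q3, q4⟩

end Pool.Agent.Lib.MP_1f96ff_gt
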