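import Pool.Agent.Lib.MP_1f96ff_gt.KnB2

namespace Pool.Agent.Lib.MP_1f96ff_gt

open Classical

/-! Basic facts in the setting of a nondegenerate triangle move. -/

namespace Ctx

variable {F : Fr} {S : Set R3} {p q r : R3} {t : List R3} {M : R3 → P2} {η : R3 → ℝ}

theorem neg (c : Ctx F S p q r t M η) : Ctx F.neg S p q r t M (fun x => -η x) := by
  refine ⟨c.gen.neg, c.mem, c.k1, c.k2, c.hull, c.co.neg, c.Mp, c.Mq, c.Mr, fun e s => ?_,
    fun x y h => ?_, by simp [c.ep], by simp [c.eq], by simp [c.er]⟩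
  · rw [c.eaff]; ring
  · have := c.ediff x y h
    simp only [Fr.neg_h]; linarith

theorem in_rest (c : Ctx F S p q r t M η) {e : Seg} (he : e ∈ rest p q t) : In S e := by
  exact in_of_mem_closeUp c.mem (by rw [sides_closeUp']; simp [he])

theorem in_TS (c : Ctx F S p q r t M η) {σ : Seg} (h : σ ∈ TS p q r) : In S σ := by
  simp only [TS, List.mem_cons, List.not_mem_nil, or_false] at h
  rcases h with rfl | rfl | rfl <;> exact ⟨c.mem _ (by simp), c.mem _ (by simp)⟩

/-- from `k1.good'` and `k2.good` (`sides_closeUp'`, `List.pairwise_cons`) -/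
theorem meet (c : Ctx F S p q r t M η) {e σ : Seg} (he : e ∈ rest p q t) (h : σ ∈ TS p q r) :
    Meet e σ := by
  have h1 := c.k1.good'.2
  have h2 := c.k2.good.2
  rw [sides_closeUp', List.pairwise_cons, List.pairwise_cons] at h2
  simp only [TS, List.mem_cons, List.not_mem_nil, or_false] at h
  rcases h with rfl | rfl | rfl
  · exact ((List.pairwise_cons.mp h1).1 e he).symm
  · exact (h2.1 e (List.mem_cons_of_mem _ he)).symm
  · exact (h2.2.1 e he).symm

theorem M_pq (c : Ctx F S p q r t M η) (u : ℝ) : M (pt (p, q) u) = (u, 0) := by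
  rw [c.co.aff]
  refine Prod.ext ?_ ?_
  · simp only [pt2_fst, c.Mp, c.Mq]; ring
  · simp only [pt2_snd, c.Mp, c.Mq]; ring

theorem M_pr (c : Ctx F S p q r t M η) (u : ℝ) : M (pt (p, r) u) = (u / 2, u) := by
  rw [c.co.aff]
  refine Prod.ext ?_ ?_
  · simp only [pt2_fst, c.Mp, c.Mr]; ring
  · simp only [pt2_snd, c.Mp, c.Mr]; ring

theorem M_rq (c : Ctx F S p q r t M η) (u : ℝ) : M (pt (r, q) u) = (1 / 2 + u / 2, 1 - u) := by
  rw [c.co.aff]
  refine Prod.ext ?_ ?_
  · simp only [pt2_fst, c.Mr, c.Mq]; ring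
  · simp only [pt2_snd, c.Mr, c.Mq]; ring

theorem eta_TS (c : Ctx F S p q r t M η) {σ : Seg} (h : σ ∈ TS p q r) (u : ℝ) :
    η (pt σ u) = 0 := by
  simp only [TS, List.mem_cons, List.not_mem_nil, or_false] at h
  rcases h with rfl | rfl | rfl <;> rw [c.eaff] <;> simp [c.ep, c.eq, c.er]

/-- A point with `inT (M x)` and `η x = 0` lies in the triangle: the point
`z = pt (pt (p,q) u, r) v` with `v = (M x).2`, `u = ((M x).1 - v/2) / (1 - v)` (or `z = r` if `v = 1`)
has the same `M`, so the same projection, and the same height (`ediff`, `F.inj`). -/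
theorem mem_hull (c : Ctx F S p q r t M η) {x : R3} (h : inT (M x)) (h0 : η x = 0) :
    x ∈ convexHull ℝ ({p, q, r} : Set R3) := by
  obtain ⟨h1, h2, h3⟩ := h
  have v1 : (M x).2 ≤ 1 := by linarith
  obtain ⟨u, u0, u1, hu⟩ : ∃ u : ℝ, 0 ≤ u ∧ u ≤ 1 ∧ u * (1 - (M x).2) = (M x).1 - (M x).2 / 2 := by
    rcases v1.eq_or_lt with hv | hv
    · exact ⟨0, le_rfl, zero_le_one, by linarith⟩
    · have hv' : 0 < 1 - (M x).2 := by linarith
      exact ⟨((M x).1 - (M x).2 / 2) / (1 - (M x).2), div_nonneg (by linarith) hv'.le,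
        (div_le_one hv').mpr (by linarith), div_mul_cancel₀ _ hv'.ne'⟩
  have hM : M x = M (pt (pt (p, q) u, r) (M x).2) := by
    rw [c.co.aff]
    refine Prod.ext ?_ ?_
    · simp only [pt2_fst, c.M_pq, c.Mr]; linarith
    · simp only [pt2_snd, c.M_pq, c.Mr]; ring
  have hπ := (c.co.eq _ _).mp hM
  have hη : η (pt (pt (p, q) u, r) (M x).2) = 0 := by
    rw [c.eaff]
    simp only [c.eta_TS (σ := (p, q)) (by simp [TS]) u, c.er]; ring
  have hx : x = pt (pt (p, q) u, r) (M x).2 :=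
    F.inj _ _ hπ (by have := c.ediff _ _ hπ; linarith)
  have hc := convex_convexHull ℝ ({p, q, r} : Set R3)
  have hs := subset_convexHull ℝ ({p, q, r} : Set R3)
  have m1 : pt (p, q) u ∈ convexHull ℝ ({p, q, r} : Set R3) :=
    hc.segment_subset (hs (by simp)) (hs (by simp)) ((mem_seg (p, q) _).mpr ⟨u, u0, u1, rfl⟩)
  exact hc.segment_subset m1 (hs (by simp)) ((mem_seg (pt (p, q) u, r) _).mpr ⟨_, h1, v1, hx⟩)

/-- The rest meets the triangle only in `q` (start) and `p` (end): `hull`, then `Meet e (p,q)`,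
`Meet.ends`, `rest_fst_ne`, `rest_snd_ne`, `pt_inj`. -/
theorem noT (c : Ctx F S p q r t M η) {e : Seg} (he : e ∈ rest p q t) {s : ℝ} (s0 : 0 ≤ s)
    (s1 : s ≤ 1) (h : inT (M (pt e s))) (h0 : η (pt e s) = 0) :
    (s = 0 ∧ e.1 = q) ∨ (s = 1 ∧ e.2 = p) := by
  have m := c.hull ⟨c.mem_hull h h0, e, by rw [sides_closeUp]; exact List.mem_cons_of_mem _ he,
    (mem_seg e _).mpr ⟨s, s0, s1, rfl⟩⟩
  obtain ⟨u, u0, u1, hu⟩ := (mem_seg (p, q) _).mp m
  have hn : e.1 ≠ e.2 := c.k1.good_rest.1 e he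
  obtain ⟨a, b⟩ := (c.meet he (σ := (p, q)) (by simp [TS])).ends s0 s1 u0 u1 hu
  rcases a with a | a
  · rcases b with b | b
    · exact absurd (a.symm.trans b) (c.k1.rest_fst_ne he)
    · exact Or.inl ⟨pt_inj hn (a.trans (pt_zero e).symm), a.symm.trans b⟩
  · rcases b with b | b
    · exact Or.inr ⟨pt_inj hn (a.trans (pt_one e).symm), a.symm.trans b⟩
    · exact absurd (a.symm.trans b) (c.k1.rest_snd_ne he)

/-- An interior point of a side of the rest that projects to a closed side of the triangle is a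
crossing (`Gen.cr_of`; heights by `ediff`, `eta_TS`, `cr.pt_ne`, `F.inj`). -/
theorem cross (c : Ctx F S p q r t M η) {e σ : Seg} (he : e ∈ rest p q t) (h : σ ∈ TS p q r)
    {s u : ℝ} (s0 : 0 < s) (s1 : s < 1) (u0 : 0 ≤ u) (u1 : u ≤ 1)
    (hM : M (pt e s) = M (pt σ u)) :
    F.cr e σ ∧ s = F.par e σ ∧ u = F.par σ e ∧ η (pt e s) ≠ 0 ∧
      (F.ov e σ ↔ 0 < η (pt e s)) := by
  have hn : e.1 ≠ e.2 := c.k1.good_rest.1 e he
  have hπ := (c.co.eq _ _).mp hM
  obtain ⟨hc, hs, hu⟩ := c.gen.cr_of (c.in_rest he) (c.in_TS h) (c.meet he h) hn s0 s1 u0 u1 hπ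
  have hd := c.ediff _ _ hπ
  rw [c.eta_TS h] at hd
  refine ⟨hc, hs, hu, fun h0 => (c.meet he h).ne hn s0 s1 u0 u1 (F.inj _ _ hπ (by linarith)), ?_⟩
  rw [Fr.ov, ← hs, ← hu]
  exact ⟨fun h' => by linarith [h'.2], fun h' => ⟨hc, by linarith⟩⟩

/-- A corner of the rest that projects into the closed triangle is `p`, `q`, or projects into
the open triangle with nonzero height (on a boundary line use `Gen.vert` with the side, then
`noT`). -/
theorem corner (c : Ctx F S p q r t M η) {e : Seg} (he : e ∈ rest p q t) {x : R3}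
    (hx : x = e.1 ∨ x = e.2) (h : inT (M x)) : x = p ∨ x = q ∨ (inO (M x) ∧ η x ≠ 0) := by
  by_cases h0 : η x = 0
  · rcases hx with rfl | rfl
    · rcases c.noT he (s := 0) le_rfl zero_le_one (by rwa [pt_zero]) (by rwa [pt_zero]) with
        h1 | h1
      · exact Or.inr (Or.inl h1.2)
      · exact absurd h1.1 zero_ne_one
    · rcases c.noT he (s := 1) zero_le_one le_rfl (by rwa [pt_one]) (by rwa [pt_one]) with h1 | h1
      · exact absurd h1.1 one_ne_zero
      · exact Or.inl h1.2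
  · have hS : x ∈ S := by
      rcases hx with rfl | rfl
      · exact (c.in_rest he).1
      · exact (c.in_rest he).2
    have key : ∀ σ ∈ TS p q r, ∀ u, M x ≠ M (pt σ u) := fun σ hσ u hM =>
      h0 (by rw [c.gen.vert σ (c.in_TS hσ) x hS u ((c.co.eq _ _).mp hM)]; exact c.eta_TS hσ u)
    obtain ⟨h1, h2, h3⟩ := h
    refine Or.inr (Or.inr ⟨⟨lt_of_le_of_ne h1 fun e1 => ?_, lt_of_le_of_ne h2 fun e2 => ?_,
      lt_of_le_of_ne h3 fun e3 => ?_⟩, h0⟩)
    · exact key (p, q) (by simp [TS]) (M x).1 (by rw [c.M_pq]; exact Prod.ext rfl e1.symm)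
    · exact key (p, r) (by simp [TS]) (M x).2 (by
        rw [c.M_pr]; exact Prod.ext (by simp only; linarith) rfl)
    · exact key (r, q) (by simp [TS]) (1 - (M x).2) (by
        rw [c.M_rq]; exact Prod.ext (by simp only; linarith) (by simp only; ring))

/-- the data at an over-crossing with a side of the triangle -/
theorem ov_data (c : Ctx F S p q r t M η) {e σ : Seg} (h : σ ∈ TS p q r) (ho : F.ov e σ) :
    M (pt e (F.par e σ)) = M (pt σ (F.par σ e)) ∧ 0 < η (pt e (F.par e σ)) ∧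
      inT (M (pt e (F.par e σ))) ∧ ¬ inO (M (pt e (F.par e σ))) := by
  have hπ := ho.1.π_eq
  have hM := (c.co.eq _ _).mpr hπ
  have hd := c.ediff _ _ hπ
  rw [c.eta_TS h] at hd
  have u0 := ho.1.2.2.2.1
  have u1 := ho.1.2.2.2.2
  refine ⟨hM, by linarith [ho.2], ?_⟩
  rw [hM]
  simp only [TS, List.mem_cons, List.not_mem_nil, or_false] at h
  rcases h with rfl | rfl | rfl
  · rw [c.M_pq]
    exact ⟨⟨le_rfl, by simp only; linarith, by simp only; linarith⟩, fun h' => lt_irrefl _ h'.1⟩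
  · rw [c.M_pr]
    refine ⟨⟨u0.le, by simp only; linarith, by simp only; linarith⟩, fun h' => ?_⟩
    have := h'.2.1
    simp only at this; linarith
  · rw [c.M_rq]
    refine ⟨⟨by simp only; linarith, by simp only; linarith, by simp only; linarith⟩, fun h' => ?_⟩
    have := h'.2.2
    simp only at this; linarith

end Ctx

end Pool.Agent.Lib.MP_1f96ff_gt
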