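import Pool.Agent.Lib.MP_1f96ff_gt.KnClip

namespace Pool.Agent.Lib.MP_1f96ff_gt

open Classical

/-! First term: over-crossings of the boundary of the triangle between two times. -/

variable {F : Fr} {S : Set R3} {p q r : R3} {t : List R3} {M : R3 → P2} {η : R3 → ℝ}

theorem knD1_congr {e : Seg} {f f' : ℝ → ZMod 2}
    (h : ∀ σ ∈ TS p q r, F.ov e σ → f (F.par e σ) = f' (F.par e σ)) :
    F.bsum p q r e f = F.bsum p q r e f' := by
  have k : ∀ σ ∈ TS p q r, ind (F.ov e σ) * f (F.par e σ) = ind (F.ov e σ) * f' (F.par e σ) :=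
    fun σ hσ => by
      by_cases ho : F.ov e σ
      · rw [h σ hσ ho]
      · rw [ind_false ho, zero_mul, zero_mul]
  rw [Fr.bsum, Fr.bsum, k _ (by simp [TS]), k _ (by simp [TS]), k _ (by simp [TS])]

/-- Parity of the over-crossings before the point `pt g s`. Split `lt2 (idx e + x) (idx g + s)`
by `idx_add_lt`: for `e` before `g` use `sum` with the constant function `1`
(`bsum e 1 = ψ e.1 + ψ e.2`) and `tele_before`; for `e = g` use `sum` with `x ↦ lt2 x s`
(`lt2 a s + lt2 b s = ind (a < s ∧ s < b)` because `s ≠ b` when `a < b`, by `ends` and `hs`). -/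
theorem count_before (c : Ctx F S p q r t M η) {ψ : R3 → ZMod 2} {a b : Seg → ℝ}
    (h : Clip F p q r t M η ψ a b) {g : Seg} (hg : g ∈ rest p q t) {s : ℝ} (s0 : 0 < s)
    (s1 : s < 1) (hs : ∀ σ ∈ TS p q r, F.ov g σ → s ≠ F.par g σ) :
    ∑ e ∈ fs (rest p q t), F.bsum p q r e
      (fun x => lt2 (idx (rest p q t) e + x) (idx (rest p q t) g + s)) =
        ψ q + ind (abv M η (pt g s)) := by
  have key : ∀ e ∈ fs (rest p q t), F.bsum p q r e
      (fun x => lt2 (idx (rest p q t) e + x) (idx (rest p q t) g + s)) =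
      lt2 (idx (rest p q t) e) (idx (rest p q t) g) * (ψ e.1 + ψ e.2) +
        if e = g then F.bsum p q r g (fun x => lt2 x s) else 0 := by
    intro e he
    have he := mem_fs.1 he
    split_ifs with hge
    · subst hge
      rw [lt2_of_le le_rfl, zero_mul, zero_add]
      exact knD1_congr fun σ _ _ => lt2_congr (add_lt_add_iff_left _)
    · refine Eq.trans (knD1_congr (f' := fun _ => lt2 (idx (rest p q t) e) (idx (rest p q t) g))
        fun σ _ ho => ?_) ?_
      · exact lt2_congr (by rw [idx_add_lt he ho.1.2.1 ho.1.2.2.1 s0 s1]; simp [hge])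
      have h1 := (h.loc e he).sum fun _ => 1
      simp only [Fr.bsum] at h1 ⊢
      linear_combination (-lt2 (idx (rest p q t) e) (idx (rest p q t) g)) * h1 +
        two_zero (lt2 (idx (rest p q t) e) (idx (rest p q t) g)) -
        two_zero (lt2 (idx (rest p q t) e) (idx (rest p q t) g) * (ψ e.1 + ψ e.2))
  rw [Finset.sum_congr rfl key, Finset.sum_add_distrib, c.k1.tele_before hg, Finset.sum_ite_eq',
    if_pos (mem_fs.2 hg)]
  have L := h.loc g hg
  have h1 := L.sum fun x => lt2 x s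
  simp only [lt2_of_lt s0, lt2_of_le s1.le] at h1
  have h2 : lt2 (a g) s + lt2 (b g) s = ind (abv M η (pt g s)) := by
    rw [ind_congr (L.opn s s0 s1)]
    rcases L.hab.eq_or_lt with e | e
    · rw [e, two_zero, ind_false fun h => lt_asymm h.1 h.2]
    have hb : s ≠ b g := fun e' => by
      rcases L.ends e s (Or.inr e') with h | h | ⟨σ, h1, h2, h3⟩
      exacts [s0.ne' h, s1.ne h, hs σ h1 h2 h3]
    rcases le_or_gt s (a g) with h3 | h3
    · rw [lt2_of_le h3, lt2_of_le (h3.trans e.le), ind_false fun h => h.1.not_ge h3, add_zero]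
    rcases lt_or_gt_of_ne hb with h4 | h4
    · rw [lt2_of_lt h3, lt2_of_le h4.le, ind_true ⟨h3, h4⟩, add_zero]
    · rw [lt2_of_lt h3, lt2_of_lt h4, two_zero, ind_false fun h => lt_asymm h.2 h4]
  linear_combination h2 - h1

/-- For `τ ≠ o`: `lt2 o τ * lt2 τ u = lt2 o u * (lt2 τ o + lt2 τ u)`; the times differ by
`eq_of_time_eq` and `Gen.par_ne` (`Ctx.meet`). Then `count_before` twice. The two points `x` (over)
and `y` (under) have the same `M`, `η y < η x`, and `η ≠ 0` if `inO` (`noT`), so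
`ind (abv x) + ind (abv y) = ind mid`; and `lt2 o u = lt2 (idx g) (idx k)` since `g ≠ k`. -/
theorem term1 (c : Ctx F S p q r t M η) {g k : Seg} (hg : g ∈ rest p q t) (hk : k ∈ rest p q t)
    (ho : F.ov g k) :
    ∑ e ∈ fs (rest p q t), F.bsum p q r e (fun x =>
      lt2 (F.time (rest p q t) g k) (idx (rest p q t) e + x) *
        lt2 (idx (rest p q t) e + x) (F.time (rest p q t) k g)) =
      lt2 (idx (rest p q t) g) (idx (rest p q t) k) * ind (F.mid M η g k) := by
  obtain ⟨ψ, a, b, h⟩ := clip c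
  have cr := ho.1
  have n1 : ∀ σ ∈ TS p q r, F.ov g σ → F.par g k ≠ F.par g σ := fun σ hσ h' =>
    c.gen.par_ne (c.in_rest hg) (c.in_rest hk) (c.in_TS hσ) (c.meet hk hσ) cr h'.1
  have n2 : ∀ σ ∈ TS p q r, F.ov k σ → F.par k g ≠ F.par k σ := fun σ hσ h' =>
    c.gen.par_ne (c.in_rest hk) (c.in_rest hg) (c.in_TS hσ) (c.meet hg hσ) cr.symm h'.1
  have c1 := count_before c h hg cr.2.1 cr.2.2.1 n1
  have c2 := count_before c h hk cr.2.2.2.1 cr.2.2.2.2 n2
  have alg : ∀ o u τ : ℝ, o ≠ τ → lt2 o τ * lt2 τ u = lt2 o u * (lt2 τ o + lt2 τ u) := by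
    intro o u τ hne
    rcases le_or_gt u o with h1 | h1
    · rw [lt2_of_le h1, zero_mul]
      rcases le_or_gt τ o with h2 | h2
      · rw [lt2_of_le h2, zero_mul]
      · rw [lt2_of_le (h1.trans h2.le), mul_zero]
    · rw [lt2_of_lt h1, one_mul]
      rcases lt_or_gt_of_ne hne with h2 | h2
      · rw [lt2_of_lt h2, lt2_of_le h2.le, one_mul, zero_add]
      · rw [lt2_of_le h2.le, lt2_of_lt h2, lt2_of_lt (h2.trans h1), zero_mul, two_zero]
  have key : ∀ e ∈ fs (rest p q t), F.bsum p q r e (fun x =>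
      lt2 (F.time (rest p q t) g k) (idx (rest p q t) e + x) *
        lt2 (idx (rest p q t) e + x) (F.time (rest p q t) k g)) =
      lt2 (F.time (rest p q t) g k) (F.time (rest p q t) k g) *
        (F.bsum p q r e (fun x => lt2 (idx (rest p q t) e + x) (idx (rest p q t) g + F.par g k)) +
        F.bsum p q r e (fun x => lt2 (idx (rest p q t) e + x) (idx (rest p q t) k + F.par k g))) := by
    intro e _
    refine Eq.trans (knD1_congr (f' := fun x => lt2 (F.time (rest p q t) g k) (F.time (rest p q t) k g) *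
      (lt2 (idx (rest p q t) e + x) (F.time (rest p q t) g k) +
        lt2 (idx (rest p q t) e + x) (F.time (rest p q t) k g))) fun σ hσ h' => ?_) ?_
    · refine alg _ _ _ fun e' => ?_
      obtain ⟨rfl, e2⟩ := Fr.eq_of_time_eq hg cr h'.1 e'
      exact n1 σ hσ h' e2
    simp only [Fr.bsum, Fr.time]
    ring
  have t1 : lt2 (F.time (rest p q t) g k) (F.time (rest p q t) k g) =
      lt2 (idx (rest p q t) g) (idx (rest p q t) k) := lt2_congr (by
    rw [Fr.time_lt_iff hg cr cr.symm]
    exact ⟨fun h => h.resolve_right fun h => Fr.not_cr_self k (h.1 ▸ cr), Or.inl⟩)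
  rw [Finset.sum_congr rfl key, ← Finset.mul_sum, Finset.sum_add_distrib, c1, c2, t1]
  congr 1
  have m : M (pt g (F.par g k)) = M (pt k (F.par k g)) := (c.co.eq _ _).2 cr.π_eq
  have d := c.ediff _ _ cr.π_eq
  have d' := ho.2
  have fin : ind (abv M η (pt g (F.par g k))) + ind (abv M η (pt k (F.par k g))) =
      ind (F.mid M η g k) := by
    by_cases hi : inO (M (pt k (F.par k g)))
    · have h0 : η (pt k (F.par k g)) ≠ 0 := fun h0 => by
        rcases c.noT hk cr.2.2.2.1.le cr.2.2.2.2.le ⟨hi.1.le, hi.2.1.le, hi.2.2.le⟩ h0 with h | h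
        exacts [cr.2.2.2.1.ne' h.1, cr.2.2.2.2.ne h.1]
      rcases lt_or_gt_of_ne h0 with h1 | h1
      · rw [ind_false (P := abv M η (pt k _)) fun h => lt_asymm h.2 h1, add_zero]
        exact ind_congr ⟨fun h => ⟨cr, h, hi, neg_pos.2 h1⟩, fun h => h.2.1⟩
      · rw [ind_true (P := abv M η (pt k _)) ⟨hi, h1⟩,
          ind_true (P := abv M η (pt g _)) ⟨m ▸ hi, by linarith⟩, two_zero,
          ind_false fun h => lt_asymm h1 (neg_pos.1 h.2.2.2)]
    · rw [ind_false (P := abv M η (pt k _)) fun h => hi h.1,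
        ind_false (P := abv M η (pt g _)) fun h => hi (m ▸ h.1), add_zero,
        ind_false fun h => hi h.2.2.1]
  linear_combination fin + two_zero (ψ q)

end Pool.Agent.Lib.MP_1f96ff_gt
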