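import Pool.Agent.Lib.MP_1f96ff_gt.KnB1

namespace Pool.Agent.Lib.MP_1f96ff_gt

open Classical

/-! Small facts on the ray indicators. In each proof unfold `up`, `dn`, `or2`, `det2`; when
`y.1` lies in the range of `a`, use the point `pt2 a t` with `t = (y.1 - a.1.1) / (a.2.1 - a.1.1)`,
which has first coordinate `y.1`, and `or2 a y = (a.2.1 - a.1.1) * (y.2 - (pt2 a t).2)`. -/

theorem knSeg2_or (a : Seg2) (y : P2) :
    or2 a y = (a.2.1 - y.1) * (y.2 - a.1.2) + (y.1 - a.1.1) * (y.2 - a.2.2) := by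
  simp only [or2, det2, Prod.fst_sub, Prod.snd_sub]
  ring

theorem knSeg2_ne {a : Seg2} {y : P2} (h : Off y a) (h0 : a.1.1 ≠ a.2.1)
    (h1 : (a.1.1 ≤ y.1 ∧ y.1 ≤ a.2.1) ∨ (a.2.1 ≤ y.1 ∧ y.1 ≤ a.1.1)) : or2 a y ≠ 0 := by
  intro h2
  have h3 : a.2.1 - a.1.1 ≠ 0 := sub_ne_zero.2 h0.symm
  rw [knSeg2_or] at h2
  refine h ((y.1 - a.1.1) / (a.2.1 - a.1.1)) ?_ ?_ (Prod.ext ?_ ?_)
  · rcases h1 with h1 | h1
    · exact div_nonneg (by linarith [h1.1]) (by linarith [h1.1, h1.2])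
    · exact div_nonneg_of_nonpos (by linarith [h1.2]) (by linarith [h1.1, h1.2])
  · rcases h1 with h1 | h1
    · exact div_le_one_of_le₀ (by linarith [h1.2]) (by linarith [h1.1, h1.2])
    · exact (div_le_one_of_neg (lt_of_le_of_ne (by linarith [h1.1, h1.2]) h3)).2
        (by linarith [h1.1])
  · rw [pt2_fst, div_mul_cancel₀ _ h3]
    ring
  · rw [pt2_snd]
    field_simp
    linarith

theorem knSeg2_low {a : Seg2} {y : P2} (h1 : inT a.1) (h2 : inT a.2) (hy : y.2 = 0) :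
    (a.1.1 ≤ y.1 → y.1 ≤ a.2.1 → or2 a y ≤ 0) ∧ (a.2.1 ≤ y.1 → y.1 ≤ a.1.1 → 0 ≤ or2 a y) := by
  rw [knSeg2_or, hy]
  refine ⟨fun h3 h4 => ?_, fun h3 h4 => ?_⟩ <;>
    nlinarith [mul_nonneg (sub_nonneg.2 h3) h1.1, mul_nonneg (sub_nonneg.2 h3) h2.1,
      mul_nonneg (sub_nonneg.2 h4) h1.1, mul_nonneg (sub_nonneg.2 h4) h2.1]

theorem knSeg2_high {a : Seg2} {y : P2} (h1 : inT a.1) (h2 : inT a.2)
    (hy : y.2 = 2 * y.1 ∨ y.2 = 2 - 2 * y.1) :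
    (a.1.1 ≤ y.1 → y.1 ≤ a.2.1 → 0 ≤ or2 a y) ∧ (a.2.1 ≤ y.1 → y.1 ≤ a.1.1 → or2 a y ≤ 0) := by
  rw [knSeg2_or]
  have a1 := sub_nonneg.2 h1.2.1
  have a2 := sub_nonneg.2 h1.2.2
  have b1 := sub_nonneg.2 h2.2.1
  have b2 := sub_nonneg.2 h2.2.2
  refine ⟨fun h3 h4 => ?_, fun h3 h4 => ?_⟩ <;> rcases hy with hy | hy <;> rw [hy]
  · nlinarith [mul_nonneg (sub_nonneg.2 h3) b1, mul_nonneg (sub_nonneg.2 h4) a1]
  · nlinarith [mul_nonneg (sub_nonneg.2 h3) b2, mul_nonneg (sub_nonneg.2 h4) a2]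
  · nlinarith [mul_nonneg (sub_nonneg.2 h3) a1, mul_nonneg (sub_nonneg.2 h4) b1]
  · nlinarith [mul_nonneg (sub_nonneg.2 h3) a2, mul_nonneg (sub_nonneg.2 h4) b2]

theorem knSeg2_one : (1 : ZMod 2) + 1 = 0 := by decide

theorem up_deg (x y : P2) : up (x, x) y = 0 := by
  refine ind_false ?_
  rintro (⟨h1, h2, -⟩ | ⟨h1, h2, -⟩) <;> exact absurd h1 (not_lt.2 h2)

theorem dn_deg (x y : P2) : dn (x, x) y = 0 := by
  refine ind_false ?_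
  rintro (⟨h1, h2, -⟩ | ⟨h1, h2, -⟩) <;> exact absurd h2 (not_lt.2 h1)

theorem rays_deg_left (x : P2) (b : Seg2) : rays (x, x) b = 0 := by
  rw [rays, up_deg, up_deg, zero_add, zero_add, two_zero]

theorem rays_deg_right (a : Seg2) (y : P2) : rays a (y, y) = 0 := by
  rw [rays, dn_deg, dn_deg, add_zero, add_zero, two_zero]

theorem up_swap (a : Seg2) (y : P2) : up a.swap y = up a y := by
  have h : or2 a.swap y = -or2 a y := by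
    rw [knSeg2_or, knSeg2_or, Prod.fst_swap, Prod.snd_swap]
    ring
  rw [up, up, h, neg_lt_zero, neg_pos, or_comm]
  rfl

theorem up_left {a : Seg2} {y : P2} (h1 : y.1 ≤ a.1.1) (h2 : y.1 ≤ a.2.1) : up a y = 0 := by
  refine ind_false ?_
  rintro (⟨h3, -⟩ | ⟨h3, -⟩)
  exacts [absurd h3 (not_lt.2 h1), absurd h3 (not_lt.2 h2)]

theorem dn_right {b : Seg2} {x : P2} (h1 : b.1.1 ≤ x.1) (h2 : b.2.1 ≤ x.1) : dn b x = 0 := by
  refine ind_false ?_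
  rintro (⟨-, h3, -⟩ | ⟨-, h3, -⟩)
  exacts [absurd h3 (not_lt.2 h2), absurd h3 (not_lt.2 h1)]

/-- segments on the two sides of a vertical line -/
theorem rays_sep {a b : Seg2} {c : ℝ} (h1 : c ≤ a.1.1) (h2 : c ≤ a.2.1) (h3 : b.1.1 ≤ c)
    (h4 : b.2.1 ≤ c) : rays a b = 0 := by
  rw [rays, up_left (h3.trans h1) (h3.trans h2), up_left (h4.trans h1) (h4.trans h2),
    dn_right (h3.trans h1) (h4.trans h1), dn_right (h3.trans h2) (h4.trans h2)]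
  simp

theorem dn_eq_up {b : Seg2} {x : P2} (h : Off x b) (h1 : x.1 ≠ b.1.1) (h2 : x.1 ≠ b.2.1) :
    dn b x = up b x + lt2 x.1 b.1.1 + lt2 x.1 b.2.1 := by
  rcases lt_or_gt_of_ne h1 with a1 | a1 <;> rcases lt_or_gt_of_ne h2 with a2 | a2
  · rw [up_left a1.le a2.le, lt2_of_lt a1, lt2_of_lt a2, zero_add, knSeg2_one]
    refine ind_false ?_
    rintro (⟨h3, -⟩ | ⟨h3, -⟩)
    exacts [absurd a1 (not_lt.2 h3), absurd a2 (not_lt.2 h3)]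
  · have h3 := knSeg2_ne h (a2.trans a1).ne' (Or.inr ⟨a2.le, a1.le⟩)
    rw [lt2_of_lt a1, lt2_of_le a2.le, add_zero, add_comm, up, ← ind_not]
    refine ind_congr ?_
    simp only [a1, a1.le, a2, a2.le, not_le.2 a1, not_lt.2 a1.le, true_and, false_and, false_or,
      not_lt]
    exact ⟨le_of_lt, fun h4 => lt_of_le_of_ne h4 h3⟩
  · have h3 := knSeg2_ne h (a1.trans a2).ne (Or.inl ⟨a1.le, a2.le⟩)
    rw [lt2_of_lt a2, lt2_of_le a1.le, add_zero, add_comm, up, ← ind_not]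
    refine ind_congr ?_
    simp only [a1, a1.le, a2, a2.le, not_le.2 a2, not_lt.2 a2.le, true_and, false_and, or_false,
      not_lt]
    exact ⟨le_of_lt, fun h4 => lt_of_le_of_ne h4 h3.symm⟩
  · rw [dn_right a1.le a2.le, lt2_of_le a1.le, lt2_of_le a2.le, add_zero, add_zero]
    refine (ind_false ?_).symm
    rintro (⟨-, h3, -⟩ | ⟨-, h3, -⟩)
    exacts [absurd a2 (not_lt.2 h3), absurd a1 (not_lt.2 h3)]

/-- `y` on the lower side of the triangle -/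
theorem up_low {a : Seg2} {y : P2} (h1 : inT a.1) (h2 : inT a.2) (hy : y.2 = 0) (h : Off y a) :
    up a y = lt2 a.1.1 y.1 + lt2 a.2.1 y.1 := by
  obtain ⟨b1, b2⟩ := knSeg2_low h1 h2 hy
  rcases lt_or_ge a.1.1 y.1 with a1 | a1 <;> rcases lt_or_ge a.2.1 y.1 with a2 | a2
  · rw [lt2_of_lt a1, lt2_of_lt a2, knSeg2_one]
    refine ind_false ?_
    rintro (⟨-, h3, -⟩ | ⟨-, h3, -⟩)
    exacts [absurd a2 (not_lt.2 h3), absurd a1 (not_lt.2 h3)]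
  · rw [lt2_of_lt a1, lt2_of_le a2, add_zero]
    exact ind_true (Or.inl ⟨a1, a2, lt_of_le_of_ne (b1 a1.le a2)
      (knSeg2_ne h (a1.trans_le a2).ne (Or.inl ⟨a1.le, a2⟩))⟩)
  · rw [lt2_of_le a1, lt2_of_lt a2, zero_add]
    exact ind_true (Or.inr ⟨a2, a1, lt_of_le_of_ne (b2 a2.le a1)
      (knSeg2_ne h (a2.trans_le a1).ne' (Or.inr ⟨a2.le, a1⟩)).symm⟩)
  · rw [up_left a1 a2, lt2_of_le a1, lt2_of_le a2, add_zero]

/-- `y` on the line of an upper side -/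
theorem up_high {a : Seg2} {y : P2} (h1 : inT a.1) (h2 : inT a.2)
    (hy : y.2 = 2 * y.1 ∨ y.2 = 2 - 2 * y.1) : up a y = 0 := by
  obtain ⟨b1, b2⟩ := knSeg2_high h1 h2 hy
  refine ind_false ?_
  rintro (⟨h3, h4, h5⟩ | ⟨h3, h4, h5⟩)
  exacts [absurd h5 (not_lt.2 (b1 h3.le h4)), absurd h5 (not_lt.2 (b2 h3.le h4))]

theorem dn_low {b : Seg2} {x : P2} (h1 : inT b.1) (h2 : inT b.2) (hx : x.2 = 0) : dn b x = 0 := by
  obtain ⟨b1, b2⟩ := knSeg2_low h1 h2 hx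
  refine ind_false ?_
  rintro (⟨h3, h4, h5⟩ | ⟨h3, h4, h5⟩)
  exacts [absurd h5 (not_lt.2 (b1 h3 h4.le)), absurd h5 (not_lt.2 (b2 h3 h4.le))]

theorem dn_high {b : Seg2} {x : P2} (h1 : inT b.1) (h2 : inT b.2)
    (hx : x.2 = 2 * x.1 ∨ x.2 = 2 - 2 * x.1) (h : Off x b) :
    dn b x = lt2 x.1 b.1.1 + lt2 x.1 b.2.1 := by
  obtain ⟨b1, b2⟩ := knSeg2_high h1 h2 hx
  rcases lt_or_ge x.1 b.1.1 with a1 | a1 <;> rcases lt_or_ge x.1 b.2.1 with a2 | a2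
  · rw [lt2_of_lt a1, lt2_of_lt a2, knSeg2_one]
    refine ind_false ?_
    rintro (⟨h3, -⟩ | ⟨h3, -⟩)
    exacts [absurd a1 (not_lt.2 h3), absurd a2 (not_lt.2 h3)]
  · rw [lt2_of_lt a1, lt2_of_le a2, add_zero]
    exact ind_true (Or.inr ⟨a2, a1, lt_of_le_of_ne (b2 a2 a1.le)
      (knSeg2_ne h (a2.trans_lt a1).ne' (Or.inr ⟨a2, a1.le⟩))⟩)
  · rw [lt2_of_le a1, lt2_of_lt a2, zero_add]
    exact ind_true (Or.inl ⟨a1, a2, lt_of_le_of_ne (b1 a1 a2.le)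
      (knSeg2_ne h (a1.trans_lt a2).ne (Or.inl ⟨a1, a2.le⟩)).symm⟩)
  · rw [dn_right a1 a2, lt2_of_le a1, lt2_of_le a2, add_zero]

end Pool.Agent.Lib.MP_1f96ff_gt
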