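import Pool.Agent.Lib.MP_1f96ff_gt.KnClip
import Pool.Agent.Lib.MP_1f96ff_gt.KnCo
import Pool.Agent.Lib.MP_1f96ff_gt.KnSeg2

namespace Pool.Agent.Lib.MP_1f96ff_gt

open Classical

/-! Second term: the pair identity for the part of `e` above and the part of `f` below. -/

variable {F : Fr} {S : Set R3} {p q r : R3} {t : List R3} {M : R3 → P2} {η : R3 → ℝ}

theorem knD2a_neg_neg (F : Fr) : F.neg.neg = F := by
  cases F
  simp [Fr.neg]

theorem knD2a_off (c : Ctx F S p q r t M η) {e f σ : Seg} (he : e ∈ rest p q t)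
    (hf : f ∈ rest p q t) (hef : e ≠ f) (hσ : σ ∈ TS p q r) (hc : F.cr f σ) {a b : ℝ} (h0 : 0 ≤ a)
    (hab : a ≤ b) (h1 : b ≤ 1) : Off (M (pt f (F.par f σ))) (sub2 M e a b) := by
  refine c.co.off hab fun s s0 s1 hs => ?_
  obtain ⟨k1, k2, -⟩ := c.gen.cr_of (c.in_TS hσ) (c.in_rest he) (c.meet he hσ).symm hc.symm.nd
    hc.2.2.2.1 hc.2.2.2.2 (h0.trans s0) (s1.trans h1) (hc.π_eq.symm.trans hs)
  exact c.gen.par_ne (c.in_TS hσ) (c.in_rest hf) (c.in_rest he)
    (c.k1.good_rest.meet hf he hef.symm) hc.symm k1 k2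

theorem knD2a_side (c : Ctx F S p q r t M η) {f σ : Seg} (hσ : σ ∈ TS p q r) (hc : F.cr f σ) :
    (σ = (p, q) ∧ (M (pt f (F.par f σ))).2 = 0) ∨ (σ ≠ (p, q) ∧
      ((M (pt f (F.par f σ))).2 = 2 * (M (pt f (F.par f σ))).1 ∨
        (M (pt f (F.par f σ))).2 = 2 - 2 * (M (pt f (F.par f σ))).1)) := by
  rw [(c.co.eq _ _).2 hc.π_eq]
  have h1 := c.Mr
  simp only [TS, List.mem_cons, List.not_mem_nil, or_false] at hσ
  rcases hσ with rfl | rfl | rfl
  · exact .inl ⟨rfl, by rw [c.M_pq]⟩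
  · refine .inr ⟨fun e => ?_, .inl (by rw [c.M_pr]; ring)⟩
    rw [(Prod.mk.inj e).2, c.Mq] at h1
    simp at h1
  · refine .inr ⟨fun e => ?_, .inr (by rw [c.M_rq]; ring)⟩
    rw [(Prod.mk.inj e).1, c.Mp] at h1
    simp at h1

/-- An end of the upper part of `e` does not project to a point of the lower part of `f`.
If `s ∈ {0,1}`: `Gen.vert` makes the two points equal, so by `hgt` (both signs; `η p = η q = 0`)
the point is `p` or `q`, a common end of `e ≠ f` (`Meet.ends`), impossible by `rest_fst_ne`,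
`rest_snd_ne`, `rest_fst_inj`, `rest_snd_inj`. Otherwise `s = par e σ` with `ov e σ` (`ends`); the
points are different (`Meet.ne`), so `cr e f` (`Gen.cr_of`) with `par e f = par e σ`, against
`Gen.par_ne` (`Ctx.meet`). -/
theorem no_touch (c : Ctx F S p q r t M η) {e f : Seg} (he : e ∈ rest p q t)
    (hf : f ∈ rest p q t) (hef : e ≠ f) {a b a' b' : ℝ} {k0 k1 k0' k1' : ZMod 2}
    (h : ClipAt F p q r M η e a b k0 k1)
    (h' : ClipAt F.neg p q r M (fun x => -η x) f a' b' k0' k1') (hab : a < b) (hab' : a' < b')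
    {s u : ℝ} (hs : s = a ∨ s = b) (u0 : a' ≤ u) (u1 : u ≤ b') :
    F.π (pt e s) ≠ F.π (pt f u) := by
  intro hπ
  have sa : a ≤ s ∧ s ≤ b := by
    rcases hs with rfl | rfl
    exacts [⟨le_rfl, hab.le⟩, ⟨hab.le, le_rfl⟩]
  have u0' := h'.h0.trans u0
  have u1' := u1.trans h'.h1
  have hne : pt e s ≠ pt f u := fun hx => by
    obtain ⟨k1, k2⟩ := (c.k1.good_rest.meet he hf hef).ends (h.h0.trans sa.1) (sa.2.trans h.h1)
      u0' u1' hx
    have k3 : pt e s = p ∨ pt e s = q := by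
      refine (h.hgt hab s sa.1 sa.2).elim (fun k => ?_) id
      rw [hx] at k ⊢
      exact (h'.hgt hab' u u0 u1).resolve_left fun k' => by linarith
    rcases k3 with k | k <;> rw [k] at k1 k2
    · exact hef (c.k1.rest_snd_inj he hf ((k1.resolve_left (c.k1.rest_fst_ne he).symm).symm.trans
        (k2.resolve_left (c.k1.rest_fst_ne hf).symm)))
    · exact hef (c.k1.rest_fst_inj he hf ((k1.resolve_right (c.k1.rest_snd_ne he).symm).symm.trans
        (k2.resolve_right (c.k1.rest_snd_ne hf).symm)))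
  rcases h.ends hab s hs with rfl | rfl | ⟨σ, hσ, ho, rfl⟩
  · rw [pt_zero] at hπ hne
    exact hne (c.gen.vert f (c.in_rest hf) _ (c.in_rest he).1 u hπ)
  · rw [pt_one] at hπ hne
    exact hne (c.gen.vert f (c.in_rest hf) _ (c.in_rest he).2 u hπ)
  · obtain ⟨k1, k2, -⟩ := c.gen.cr_of_ne (c.in_rest he) (c.in_rest hf) ho.1.2.1 ho.1.2.2.1
      u0' u1' hπ hne
    exact c.gen.par_ne (c.in_rest he) (c.in_rest hf) (c.in_TS hσ) (c.meet hf hσ) k1 ho.1 k2.symm

/-- Degenerate parts: `rays_deg_left/right` and `opn`. Otherwise `pair_id`, with `no_touch` and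
`no_touch` for `c.neg` (there `F.neg.neg` and `- -η`: rebuild `h` with `simpa`, or prove a lemma
`ClipAt.neg_neg`), and `opn` to identify the indicator. -/
theorem pair_mid (c : Ctx F S p q r t M η) {e f : Seg} (he : e ∈ rest p q t)
    (hf : f ∈ rest p q t) (hef : e ≠ f) {a b a' b' : ℝ} {k0 k1 k0' k1' : ZMod 2}
    (h : ClipAt F p q r M η e a b k0 k1)
    (h' : ClipAt F.neg p q r M (fun x => -η x) f a' b' k0' k1') :
    ind (F.mid M η e f) = rays (sub2 M e a b) (sub2 M f a' b') := by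
  have key : F.mid M η e f ↔
      F.cr e f ∧ a < F.par e f ∧ F.par e f < b ∧ a' < F.par f e ∧ F.par f e < b' := by
    refine and_congr_right fun k => ?_
    rw [h.opn _ k.2.1 k.2.2.1, h'.opn _ k.2.2.2.1 k.2.2.2.2, and_assoc]
  rw [ind_congr key]
  rcases h.hab.eq_or_lt with rfl | hab
  · exact (ind_false fun k => lt_asymm k.2.1 k.2.2.1).trans (rays_deg_left _ _).symm
  rcases h'.hab.eq_or_lt with rfl | hab'
  · exact (ind_false fun k => lt_asymm k.2.2.2.1 k.2.2.2.2).trans (rays_deg_right _ _).symm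
  have hn : ClipAt F.neg.neg p q r M (fun x => - -η x) e a b k0 k1 := by
    simpa only [knD2a_neg_neg, neg_neg] using h
  exact pair_id c.gen c.co (c.in_rest he) (c.in_rest hf) (c.k1.good_rest.meet he hf hef)
    (c.k1.good_rest.1 e he) h.h0 hab h.h1 h'.h0 hab' h'.h1
    (fun s hs u u0 u1 => no_touch c he hf hef h h' hab hab' hs u0 u1)
    fun u hu s s0 s1 => (no_touch c.neg hf he hef.symm h' hn hab' hab hu s0 s1).symm

/-- `y` is the point of `f` under the side `σ`. Degenerate part: `up_deg`, `two_zero`. Otherwise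
both ends are `inT` (`cls`); for the upper sides `up_high`; for the lower side `up_low`, where `Off`
holds: a point `pt e s` with the same projection is not a corner (`Gen.vert` would put it on the
open side `σ`, against `Ctx.meet`), so `cr σ e` and `cr σ f` have the same parameter on `σ`,
against `Gen.par_ne`. -/
theorem up_bd (c : Ctx F S p q r t M η) {e f σ : Seg} (he : e ∈ rest p q t)
    (hf : f ∈ rest p q t) (hef : e ≠ f) {a b : ℝ} {k0 k1 : ZMod 2}
    (h : ClipAt F p q r M η e a b k0 k1) (hσ : σ ∈ TS p q r) (hc : F.cr f σ) :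
    up (sub2 M e a b) (M (pt f (F.par f σ))) = ind (σ = (p, q)) *
      (lt2 (M (pt e a)).1 (M (pt f (F.par f σ))).1 + lt2 (M (pt e b)).1 (M (pt f (F.par f σ))).1) := by
  rcases h.hab.eq_or_lt with rfl | hab
  · rw [two_zero, mul_zero]
    exact up_deg _ _
  have i1 := (h.cls hab a h.h0 (h.hab.trans h.h1)).2 ⟨le_rfl, h.hab⟩
  have i2 := (h.cls hab b (h.h0.trans h.hab) h.h1).2 ⟨h.hab, le_rfl⟩
  rcases knD2a_side c hσ hc with ⟨k1, k2⟩ | ⟨k1, k2⟩
  · rw [ind_true k1, one_mul]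
    exact up_low i1 i2 k2 (knD2a_off c he hf hef hσ hc h.h0 h.hab h.h1)
  · rw [ind_false k1, zero_mul]
    exact up_high i1 i2 k2

/-- the mirror statement with `dn_low`, `dn_high` (stated for any clipped side `f`) -/
theorem dn_bd (c : Ctx F S p q r t M η) {e f σ : Seg} (he : e ∈ rest p q t)
    (hf : f ∈ rest p q t) (hef : e ≠ f) {a b : ℝ} {k0 k1 : ZMod 2}
    (h : ClipAt F p q r M η f a b k0 k1) (hσ : σ ∈ TS p q r) (hc : F.cr e σ) :
    dn (sub2 M f a b) (M (pt e (F.par e σ))) = ind (σ ≠ (p, q)) *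
      (lt2 (M (pt e (F.par e σ))).1 (M (pt f a)).1 + lt2 (M (pt e (F.par e σ))).1 (M (pt f b)).1) := by
  rcases h.hab.eq_or_lt with rfl | hab
  · rw [two_zero, mul_zero]
    exact dn_deg _ _
  have i1 := (h.cls hab a h.h0 (h.hab.trans h.h1)).2 ⟨le_rfl, h.hab⟩
  have i2 := (h.cls hab b (h.h0.trans h.hab) h.h1).2 ⟨h.hab, le_rfl⟩
  rcases knD2a_side c hσ hc with ⟨k1, k2⟩ | ⟨k1, k2⟩
  · rw [ind_false (not_not.2 k1), zero_mul]
    exact dn_low i1 i2 k2
  · rw [ind_true k1, one_mul]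
    exact dn_high i1 i2 k2 (knD2a_off c hf he hef.symm hσ hc h.h0 h.hab h.h1)

end Pool.Agent.Lib.MP_1f96ff_gt
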