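import Pool.Agent.Lib.MP_1f96ff_gt.KnD2a

namespace Pool.Agent.Lib.MP_1f96ff_gt

open Classical

/-! Second term: telescoping. `P = rest p q t`; sums over pairs `e` before `f`. -/

variable {F : Fr} {S : Set R3} {p q r : R3} {t : List R3} {M : R3 → P2} {η : R3 → ℝ}
  {ψ ψ' : R3 → ZMod 2} {a b a' b' : Seg → ℝ}

theorem knD2b_after (hk : IsKnot (p :: q :: t)) (h : Clip F p q r t M η ψ a b) {e : Seg}
    (he : e ∈ rest p q t) (g : R3 → ZMod 2) (h1 : ψ e.2 * g e.2 = 0) (h2 : g p = 0) :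
    ∑ f ∈ fs (rest p q t), lt2 (idx (rest p q t) e) (idx (rest p q t) f) *
      (g (pt f (a f)) + g (pt f (b f))) =
    ∑ f ∈ fs (rest p q t), lt2 (idx (rest p q t) e) (idx (rest p q t) f) *
      F.bsum p q r f (fun u => g (pt f u)) := by
  have h3 := hk.tele_after he fun x => ψ x * g x
  rw [h1, h2, mul_zero, add_zero] at h3
  rw [← zero_add (∑ f ∈ fs (rest p q t), lt2 (idx (rest p q t) e) (idx (rest p q t) f) *
    F.bsum p q r f (fun u => g (pt f u))), ← h3, ← Finset.sum_add_distrib]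
  refine Finset.sum_congr rfl fun f hf => ?_
  have h4 := (h.loc f (mem_fs.1 hf)).sum fun u => g (pt f u)
  rw [pt_zero, pt_one] at h4
  rw [h4]
  ring

theorem knD2b_before (hk : IsKnot (p :: q :: t)) (h : Clip F p q r t M η ψ a b) {f : Seg}
    (hf : f ∈ rest p q t) (g : R3 → ZMod 2) (h1 : ψ f.1 * g f.1 = 0) (h2 : g q = 0) :
    ∑ e ∈ fs (rest p q t), lt2 (idx (rest p q t) e) (idx (rest p q t) f) *
      (g (pt e (a e)) + g (pt e (b e))) =
    ∑ e ∈ fs (rest p q t), lt2 (idx (rest p q t) e) (idx (rest p q t) f) *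
      F.bsum p q r e (fun u => g (pt e u)) := by
  have h3 := hk.tele_before hf fun x => ψ x * g x
  rw [h1, h2, mul_zero, add_zero] at h3
  rw [← zero_add (∑ e ∈ fs (rest p q t), lt2 (idx (rest p q t) e) (idx (rest p q t) f) *
    F.bsum p q r e (fun u => g (pt e u))), ← h3, ← Finset.sum_add_distrib]
  refine Finset.sum_congr rfl fun e he => ?_
  have h4 := (h.loc e (mem_fs.1 he)).sum fun u => g (pt e u)
  rw [pt_zero, pt_one] at h4
  rw [h4]
  ring

/-- the last corner of a side with a part above the triangle is not below it -/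
theorem knD2b_snd (c : Ctx F S p q r t M η) (h : Clip F p q r t M η ψ a b)
    (h' : Clip F.neg p q r t M (fun x => -η x) ψ' a' b') {e : Seg} (he : e ∈ rest p q t)
    (hab : a e < b e) (g : R3 → ZMod 2) (h2 : g p = 0) : ψ' e.2 * g e.2 = 0 := by
  by_cases hp : e.2 = p
  · rw [hp, h2, mul_zero]
  · rw [h'.psi _ hp (c.k1.rest_snd_ne he), ind_false, zero_mul]
    rintro ⟨a1, a2⟩
    have a3 := (h.loc e he).above c hab zero_le_one le_rfl (by rw [pt_one]; exact a1)
    rw [pt_one] at a3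
    linarith

/-- the first corner of a side with a part below the triangle is not above it -/
theorem knD2b_fst (c : Ctx F S p q r t M η) (h : Clip F p q r t M η ψ a b)
    (h' : Clip F.neg p q r t M (fun x => -η x) ψ' a' b') {f : Seg} (hf : f ∈ rest p q t)
    (hab : a' f < b' f) (g : R3 → ZMod 2) (h2 : g q = 0) : ψ f.1 * g f.1 = 0 := by
  by_cases hq : f.1 = q
  · rw [hq, h2, mul_zero]
  · rw [h.psi _ (c.k1.rest_fst_ne hf) hq, ind_false, zero_mul]
    rintro ⟨a1, a2⟩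
    have a3 := (h'.loc f hf).above c.neg hab le_rfl zero_le_one (by rw [pt_zero]; exact a1)
    rw [pt_zero] at a3
    linarith

theorem knD2b_ends {e : Seg} {a b : ℝ} {k0 k1 : ZMod 2} (h : ClipAt F p q r M η e a b k0 k1)
    (hab : a < b) : (0 ≤ (M (pt e a)).1 ∧ (M (pt e a)).1 ≤ 1) ∧
      0 ≤ (M (pt e b)).1 ∧ (M (pt e b)).1 ≤ 1 := by
  obtain ⟨a1, a2, a3⟩ := (h.cls hab a h.h0 (h.hab.trans h.h1)).2 ⟨le_rfl, h.hab⟩
  obtain ⟨b1, b2, b3⟩ := (h.cls hab b (h.h0.trans h.hab) h.h1).2 ⟨h.hab, le_rfl⟩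
  exact ⟨⟨by linarith, by linarith⟩, by linarith, by linarith⟩

/-- Fix `e`, `E = sub2 M e (a e) (b e)`. By `sum` for `f` (lower clipping) with
`g u = up E (M (pt f u))` the two `up` terms are `G f.1 + G f.2 + bsum`, `G y = ψ' y * up E (M y)`;
`tele_after` gives `G e.2 + G p`; `G p = 0` (`up_deg` or `up_left`, `M p = (0,0)`, ends `inT`);
`G e.2 = 0`: if `e.2 ≠ p` and `ψ' e.2 ≠ 0` then `e.2` is below the open triangle, so `a e = b e`
(`ClipAt.above`). -/
theorem sum_up1 (c : Ctx F S p q r t M η) (h : Clip F p q r t M η ψ a b)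
    (h' : Clip F.neg p q r t M (fun x => -η x) ψ' a' b') {e : Seg} (he : e ∈ rest p q t) :
    ∑ f ∈ fs (rest p q t), lt2 (idx (rest p q t) e) (idx (rest p q t) f) *
      (up (sub2 M e (a e) (b e)) (M (pt f (a' f))) + up (sub2 M e (a e) (b e)) (M (pt f (b' f)))) =
    ∑ f ∈ fs (rest p q t), lt2 (idx (rest p q t) e) (idx (rest p q t) f) *
      F.neg.bsum p q r f (fun u => up (sub2 M e (a e) (b e)) (M (pt f u))) := by
  rcases (h.loc e he).hab.eq_or_lt with hab | hab
  · have h0 : ∀ y, up (sub2 M e (a e) (b e)) y = 0 := fun y => by rw [sub2, hab, up_deg]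
    exact knD2b_after c.k1 h' he (fun x => up (sub2 M e (a e) (b e)) (M x))
      (by rw [h0, mul_zero]) (h0 _)
  · have h1 := knD2b_ends (h.loc e he) hab
    have h0 : up (sub2 M e (a e) (b e)) (M p) = 0 := by
      rw [c.Mp]
      exact up_left h1.1.1 h1.2.1
    exact knD2b_after c.k1 h' he (fun x => up (sub2 M e (a e) (b e)) (M x))
      (knD2b_snd c h h' he hab (fun x => up (sub2 M e (a e) (b e)) (M x)) h0) h0

/-- mirror: fix `f`, `tele_before`, `dn_right` with `M q = (1,0)` -/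
theorem sum_dn1 (c : Ctx F S p q r t M η) (h : Clip F p q r t M η ψ a b)
    (h' : Clip F.neg p q r t M (fun x => -η x) ψ' a' b') {f : Seg} (hf : f ∈ rest p q t) :
    ∑ e ∈ fs (rest p q t), lt2 (idx (rest p q t) e) (idx (rest p q t) f) *
      (dn (sub2 M f (a' f) (b' f)) (M (pt e (a e))) + dn (sub2 M f (a' f) (b' f)) (M (pt e (b e)))) =
    ∑ e ∈ fs (rest p q t), lt2 (idx (rest p q t) e) (idx (rest p q t) f) *
      F.bsum p q r e (fun s => dn (sub2 M f (a' f) (b' f)) (M (pt e s))) := by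
  rcases (h'.loc f hf).hab.eq_or_lt with hab | hab
  · have h0 : ∀ y, dn (sub2 M f (a' f) (b' f)) y = 0 := fun y => by rw [sub2, hab, dn_deg]
    exact knD2b_before c.k1 h hf (fun x => dn (sub2 M f (a' f) (b' f)) (M x))
      (by rw [h0, mul_zero]) (h0 _)
  · have h1 := knD2b_ends (h'.loc f hf) hab
    have h0 : dn (sub2 M f (a' f) (b' f)) (M q) = 0 := by
      rw [c.Mq]
      exact dn_right h1.1.2 h1.2.2
    exact knD2b_before c.k1 h hf (fun x => dn (sub2 M f (a' f) (b' f)) (M x))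
      (knD2b_fst c h h' hf hab (fun x => dn (sub2 M f (a' f) (b' f)) (M x)) h0) h0

/-- Fix `f` under the side `σ` at abscissa `y < 1`. `sum` for `e` with `g s = lt2 (M (pt e s)).1 y`,
`tele_before` with `G x = ψ x * lt2 (M x).1 y`: `G q = 0` since `M q = (1,0)`; `G f.1 = 0` since
`f.1 = q` or `ψ f.1 = ind (abv f.1) = 0` (`pos` and `ClipAt.above` for the lower clipping). -/
theorem sum_up2 (c : Ctx F S p q r t M η) (h : Clip F p q r t M η ψ a b)
    (h' : Clip F.neg p q r t M (fun x => -η x) ψ' a' b') {f σ : Seg} (hf : f ∈ rest p q t)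
    (hσ : σ ∈ TS p q r) (ho : F.ov σ f) {y : ℝ} (hy : y ≤ 1) :
    ∑ e ∈ fs (rest p q t), lt2 (idx (rest p q t) e) (idx (rest p q t) f) *
      (lt2 (M (pt e (a e))).1 y + lt2 (M (pt e (b e))).1 y) =
    ∑ e ∈ fs (rest p q t), lt2 (idx (rest p q t) e) (idx (rest p q t) f) *
      F.bsum p q r e (fun s => lt2 (M (pt e s)).1 y) := by
  have hab := (h'.loc f hf).pos σ hσ ((Fr.neg_ov _ _).2 ho)
  have h0 : lt2 (M q).1 y = 0 := by
    rw [c.Mq]
    exact lt2_of_le hy
  exact knD2b_before c.k1 h hf (fun x => lt2 (M x).1 y)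
    (knD2b_fst c h h' hf hab (fun x => lt2 (M x).1 y) h0) h0

/-- mirror: fix `e` over the side `σ` at abscissa `x ≥ 0`, `tele_after` -/
theorem sum_dn2 (c : Ctx F S p q r t M η) (h : Clip F p q r t M η ψ a b)
    (h' : Clip F.neg p q r t M (fun x => -η x) ψ' a' b') {e σ : Seg} (he : e ∈ rest p q t)
    (hσ : σ ∈ TS p q r) (ho : F.ov e σ) {x : ℝ} (hx : 0 ≤ x) :
    ∑ f ∈ fs (rest p q t), lt2 (idx (rest p q t) e) (idx (rest p q t) f) *
      (lt2 x (M (pt f (a' f))).1 + lt2 x (M (pt f (b' f))).1) =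
    ∑ f ∈ fs (rest p q t), lt2 (idx (rest p q t) e) (idx (rest p q t) f) *
      F.neg.bsum p q r f (fun u => lt2 x (M (pt f u)).1) := by
  have hab := (h.loc e he).pos σ hσ ho
  have h0 : lt2 x (M p).1 = 0 := by
    rw [c.Mp]
    exact lt2_of_le hx
  exact knD2b_after c.k1 h' he (fun y => lt2 x (M y).1)
    (knD2b_snd c h h' he hab (fun y => lt2 x (M y).1) h0) h0

end Pool.Agent.Lib.MP_1f96ff_gt
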