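import Pool.Agent.Lib.MP_1f96ff_gt.KnD2b

namespace Pool.Agent.Lib.MP_1f96ff_gt

open Classical

/-! Second term: assembly. -/

variable {F : Fr} {S : Set R3} {p q r : R3} {t : List R3} {M : R3 → P2} {η : R3 → ℝ}

theorem knD2c_congr {Q : List Seg} {g g' : Seg → Seg → ZMod 2}
    (h : ∀ e ∈ Q, ∀ f ∈ Q, e ≠ f → g e f = g' e f) :
    ∑ e ∈ fs Q, ∑ f ∈ fs Q, lt2 (idx Q e) (idx Q f) * g e f =
      ∑ e ∈ fs Q, ∑ f ∈ fs Q, lt2 (idx Q e) (idx Q f) * g' e f := by
  refine Finset.sum_congr rfl fun e he => Finset.sum_congr rfl fun f hf => ?_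
  by_cases hef : e = f
  · rw [hef, lt2_of_le le_rfl, zero_mul, zero_mul]
  · rw [h e (mem_fs.1 he) f (mem_fs.1 hf) hef]

theorem knD2c_ind {P : Prop} {x y : ZMod 2} (h : P → x = y) : ind P * x = ind P * y := by
  by_cases hP : P
  · rw [h hP]
  · rw [ind_false hP, zero_mul, zero_mul]

theorem knD2c_ne (c : Ctx F S p q r t M η) : ((p, r) : Seg) ≠ (p, q) ∧ ((r, q) : Seg) ≠ (p, q) := by
  constructor
  · intro h
    have h1 := c.Mr.symm.trans ((congrArg M (Prod.mk.inj h).2).trans c.Mq)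
    exact one_ne_zero (Prod.mk.inj h1).2
  · intro h
    have h1 := c.Mr.symm.trans ((congrArg M (Prod.mk.inj h).1).trans c.Mp)
    exact one_ne_zero (Prod.mk.inj h1).2

theorem knD2c_up {ψ ψ' : R3 → ZMod 2} {a b a' b' : Seg → ℝ} (c : Ctx F S p q r t M η)
    (h : Clip F p q r t M η ψ a b) (h' : Clip F.neg p q r t M (fun x => -η x) ψ' a' b') :
    ∑ e ∈ fs (rest p q t), ∑ f ∈ fs (rest p q t), lt2 (idx (rest p q t) e) (idx (rest p q t) f) *
      (up (sub2 M e (a e) (b e)) (M (pt f (a' f))) + up (sub2 M e (a e) (b e)) (M (pt f (b' f)))) =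
    ∑ e ∈ fs (rest p q t), ∑ f ∈ fs (rest p q t), lt2 (idx (rest p q t) e) (idx (rest p q t) f) *
      (F.wq M e f (p, q) (p, q) + F.wq M e f (p, r) (p, q) + F.wq M e f (r, q) (p, q)) := by
  have m1 : ((p, q) : Seg) ∈ TS p q r := by simp [TS]
  have m2 : ((p, r) : Seg) ∈ TS p q r := by simp [TS]
  have m3 : ((r, q) : Seg) ∈ TS p q r := by simp [TS]
  refine (Finset.sum_congr rfl fun e he => sum_up1 c h h' (mem_fs.1 he)).trans ?_
  refine (knD2c_congr (g' := fun e f => ind (F.ov (p, q) f) *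
    (lt2 (M (pt e (a e))).1 (M (pt f (F.par f (p, q)))).1 +
      lt2 (M (pt e (b e))).1 (M (pt f (F.par f (p, q)))).1)) fun e he f hf hef => ?_).trans ?_
  · simp only [Fr.bsum, Fr.neg_ov, Fr.neg_par]
    rw [knD2c_ind fun ho => up_bd c he hf hef (h.loc e he) m1 ho.1.symm,
      knD2c_ind fun ho => up_bd c he hf hef (h.loc e he) m2 ho.1.symm,
      knD2c_ind fun ho => up_bd c he hf hef (h.loc e he) m3 ho.1.symm,
      ind_true (rfl : ((p, q) : Seg) = (p, q)), ind_false (knD2c_ne c).1, ind_false (knD2c_ne c).2]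
    ring
  · rw [Finset.sum_comm]
    refine Eq.trans (Finset.sum_congr rfl fun f hf => ?_) Finset.sum_comm
    simp only [mul_left_comm _ (ind (F.ov (p, q) f))]
    rw [← Finset.mul_sum, knD2c_ind fun ho => sum_up2 c h h' (mem_fs.1 hf) m1 ho (by
      obtain ⟨h1, -, h2⟩ := (c.neg.ov_data m1 ((Fr.neg_ov _ _).2 ho)).2.2.1
      rw [Fr.neg_par] at h1 h2
      linarith), Finset.mul_sum]
    refine Finset.sum_congr rfl fun e _ => ?_
    simp only [Fr.bsum, Fr.wq]
    ring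

theorem knD2c_dn0 {ψ ψ' : R3 → ZMod 2} {a b a' b' : Seg → ℝ} (c : Ctx F S p q r t M η)
    (h : Clip F p q r t M η ψ a b) (h' : Clip F.neg p q r t M (fun x => -η x) ψ' a' b')
    {e σ : Seg} (he : e ∈ rest p q t) (hσ : σ ∈ TS p q r) :
    ∑ f ∈ fs (rest p q t), lt2 (idx (rest p q t) e) (idx (rest p q t) f) *
      (ind (F.ov e σ) * (lt2 (M (pt e (F.par e σ))).1 (M (pt f (a' f))).1 +
        lt2 (M (pt e (F.par e σ))).1 (M (pt f (b' f))).1)) =
    ∑ f ∈ fs (rest p q t), lt2 (idx (rest p q t) e) (idx (rest p q t) f) *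
      (F.wq M e f σ (p, q) + F.wq M e f σ (p, r) + F.wq M e f σ (r, q)) := by
  simp only [mul_left_comm _ (ind (F.ov e σ))]
  rw [← Finset.mul_sum, knD2c_ind fun ho => sum_dn2 c h h' he hσ ho (by
    obtain ⟨h1, h2, -⟩ := (c.ov_data hσ ho).2.2.1
    linarith), Finset.mul_sum]
  refine Finset.sum_congr rfl fun f _ => ?_
  simp only [Fr.bsum, Fr.wq, Fr.neg_ov, Fr.neg_par]
  ring

theorem knD2c_dn {ψ ψ' : R3 → ZMod 2} {a b a' b' : Seg → ℝ} (c : Ctx F S p q r t M η)
    (h : Clip F p q r t M η ψ a b) (h' : Clip F.neg p q r t M (fun x => -η x) ψ' a' b') :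
    ∑ e ∈ fs (rest p q t), ∑ f ∈ fs (rest p q t), lt2 (idx (rest p q t) e) (idx (rest p q t) f) *
      (dn (sub2 M f (a' f) (b' f)) (M (pt e (a e))) + dn (sub2 M f (a' f) (b' f)) (M (pt e (b e)))) =
    ∑ e ∈ fs (rest p q t), ∑ f ∈ fs (rest p q t), lt2 (idx (rest p q t) e) (idx (rest p q t) f) *
      (F.wq M e f (p, r) (p, q) + F.wq M e f (p, r) (p, r) + F.wq M e f (p, r) (r, q) +
        (F.wq M e f (r, q) (p, q) + F.wq M e f (r, q) (p, r) + F.wq M e f (r, q) (r, q))) := by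
  have m1 : ((p, q) : Seg) ∈ TS p q r := by simp [TS]
  have m2 : ((p, r) : Seg) ∈ TS p q r := by simp [TS]
  have m3 : ((r, q) : Seg) ∈ TS p q r := by simp [TS]
  rw [Finset.sum_comm]
  refine (Finset.sum_congr rfl fun f hf => sum_dn1 c h h' (mem_fs.1 hf)).trans ?_
  rw [Finset.sum_comm]
  refine (knD2c_congr (g' := fun e f => ind (F.ov e (p, r)) *
    (lt2 (M (pt e (F.par e (p, r)))).1 (M (pt f (a' f))).1 +
      lt2 (M (pt e (F.par e (p, r)))).1 (M (pt f (b' f))).1) + ind (F.ov e (r, q)) *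
    (lt2 (M (pt e (F.par e (r, q)))).1 (M (pt f (a' f))).1 +
      lt2 (M (pt e (F.par e (r, q)))).1 (M (pt f (b' f))).1)) fun e he f hf hef => ?_).trans ?_
  · have k := fun σ hσ (ho : F.ov e σ) => dn_bd c.neg he hf hef (h'.loc f hf) hσ ho.1
    simp only [Fr.neg_par] at k
    simp only [Fr.bsum]
    rw [knD2c_ind (k _ m1), knD2c_ind (k _ m2), knD2c_ind (k _ m3),
      ind_false (fun h => h rfl : ¬ ((p, q) : Seg) ≠ (p, q)), ind_true (knD2c_ne c).1,
      ind_true (knD2c_ne c).2]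
    ring
  · refine Finset.sum_congr rfl fun e he => ?_
    simp only [mul_add _ (ind (F.ov e (p, r)) * _), Finset.sum_add_distrib]
    rw [knD2c_dn0 c h h' (mem_fs.1 he) m2, knD2c_dn0 c h h' (mem_fs.1 he) m3,
      ← Finset.sum_add_distrib]
    exact Finset.sum_congr rfl fun f _ => (mul_add _ _ _).symm

/-- Take `clip c` and `clip c.neg`. `pair_mid` (pairs with `e = f` have `lt2 = 0`), then the `up`
half: `sum_up1`, `up_bd` (only `σ = (p,q)` survives; `(p,r)`, `(r,q)` differ from `(p,q)` because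
`M r ≠ M q`, `M r ≠ M p`), `Finset.sum_comm`, `sum_up2`, giving
`wq e f (p,q) (p,q) + wq e f (p,r) (p,q) + wq e f (r,q) (p,q)`. The `dn` half: `sum_dn1`, `dn_bd`,
`sum_dn2`, giving the sum of `wq e f σ' σ` over `σ' ∈ {(p,r), (r,q)}` and all three `σ`. The terms
`wq e f (p,r) (p,q)` and `wq e f (r,q) (p,q)` occur twice. Abscissae of boundary points lie in
`[0,1]` (`ov_data`, `inT`). -/
theorem term2 (c : Ctx F S p q r t M η) :
    ∑ e ∈ fs (rest p q t), ∑ f ∈ fs (rest p q t),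
      lt2 (idx (rest p q t) e) (idx (rest p q t) f) * ind (F.mid M η e f) =
    ∑ e ∈ fs (rest p q t), ∑ f ∈ fs (rest p q t),
      lt2 (idx (rest p q t) e) (idx (rest p q t) f) * F.W M p q r e f := by
  obtain ⟨ψ, a, b, h⟩ := clip c
  obtain ⟨ψ', a', b', h'⟩ := clip c.neg
  refine (knD2c_congr fun e he f hf hef =>
    pair_mid c he hf hef (h.loc e he) (h'.loc f hf)).trans ?_
  have k := congrArg₂ (· + ·) (knD2c_up c h h') (knD2c_dn c h h')
  simp only [← Finset.sum_add_distrib, ← mul_add] at k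
  refine Eq.trans (Finset.sum_congr rfl fun e _ => Finset.sum_congr rfl fun f _ => ?_)
    (k.trans (Finset.sum_congr rfl fun e _ => Finset.sum_congr rfl fun f _ => ?_))
  · refine congrArg _ ?_
    exact add_assoc _ _ _
  · refine congrArg _ ?_
    rw [Fr.W]
    linear_combination two_zero (F.wq M e f (p, r) (p, q)) + two_zero (F.wq M e f (r, q) (p, q))

end Pool.Agent.Lib.MP_1f96ff_gt
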