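import Pool.Agent.Lib.MP_1f96ff_gt.KnD1
import Pool.Agent.Lib.MP_1f96ff_gt.KnD2c
import Pool.Agent.Lib.MP_1f96ff_gt.KnApp

namespace Pool.Agent.Lib.MP_1f96ff_gt

open Classical

/-! Invariance under a nondegenerate triangle move. -/

theorem knDelta_mid {F : Fr} {S : Set R3} {p q r : R3} {t : List R3} {M : R3 → P2} {η : R3 → ℝ}
    (c : Ctx F S p q r t M η) {e f : Seg} (h : F.mid M η e f) : F.ov e f := by
  refine ⟨h.1, ?_⟩
  have h1 := c.ediff _ _ h.1.π_eq
  have h2 : 0 < η (pt e (F.par e f)) := h.2.1.2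
  have h3 : 0 < -η (pt f (F.par f e)) := h.2.2.2
  linarith

theorem knDelta_pt {F : Fr} {S : Set R3} {p q r : R3} {t : List R3} {M : R3 → P2} {η : R3 → ℝ}
    (c : Ctx F S p q r t M η) {e f σ' σ : Seg} (he : e ∈ rest p q t) (h' : σ' ∈ TS p q r)
    (h : σ ∈ TS p q r) (I : List Seg) {k : ℝ} (hk : 0 < k)
    (k1 : ∀ u, idx I σ' + u = k * (M (pt σ' u)).1) (k2 : ∀ u, idx I σ + u = k * (M (pt σ u)).1) :
    ind (F.ov e σ') * ind (F.ov σ f) *
        (lt2 (F.time I σ' e) (F.time I σ f) *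
          lt2 (F.time (rest p q t) e σ') (F.time (rest p q t) f σ)) =
      lt2 (idx (rest p q t) e) (idx (rest p q t) f) * F.wq M e f σ' σ := by
  unfold Fr.wq
  by_cases h1 : F.ov e σ'
  · by_cases h2 : F.ov σ f
    · have hef : e ≠ f := fun hh => c.not_both he h h' h1 (hh ▸ h2)
      have a1 : lt2 (F.time (rest p q t) e σ') (F.time (rest p q t) f σ) =
          lt2 (idx (rest p q t) e) (idx (rest p q t) f) := by
        refine lt2_congr ?_
        rw [Fr.time_lt_iff he h1.1 h2.1.symm]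
        exact ⟨fun hh => hh.resolve_right fun h3 => hef h3.1, Or.inl⟩
      have a2 : lt2 (F.time I σ' e) (F.time I σ f) =
          lt2 (M (pt e (F.par e σ'))).1 (M (pt f (F.par f σ))).1 := by
        refine lt2_congr ?_
        rw [(c.co.eq _ _).2 h1.1.π_eq, (c.co.eq _ _).2 h2.1.symm.π_eq, Fr.time, Fr.time, k1, k2]
        exact mul_lt_mul_iff_right₀ hk
      rw [a1, a2]; ring
    · rw [ind_false h2]; ring
  · rw [ind_false h1]; ring

/-- `PV_append` with `I = [(p,q)]` and with `I = [(p,r),(r,q)]` (`not_cr_self`, `not_cr_adj`).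
The two second terms add up to `∑ c ∈ C P, ∑ e, bsum ..`, which is (`term1`, `Fr.sum_C`,
`mid → ov` by `ediff`) the left side of `term2`. The two third terms add up to the right side:
`lt2 (time P e σ') (time P f σ) = lt2 (idx e) (idx f)` for `e ≠ f` (`time_lt_iff`), for `e = f` the
indicators vanish (`Ctx.not_both`); `time I σ e` is the abscissa `(M (pt e (par e σ))).1` for
`I = [(p,q)]` and twice the abscissa for the other list (`M_pq`, `M_pr`, `M_rq`, `cr.π_eq`,
`idx_cons_self`, `idx_cons_ne`). -/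
theorem PV_delta {F : Fr} {S : Set R3} {p q r : R3} {t : List R3} {M : R3 → P2} {η : R3 → ℝ}
    (c : Ctx F S p q r t M η) :
    F.PV ((p, r) :: (r, q) :: rest p q t) = F.PV ((p, q) :: rest p q t) := by
  have hrp : r ≠ p := fun h => by
    have h1 := c.Mr
    rw [h, c.Mp] at h1
    have := congrArg Prod.snd h1
    norm_num at this
  have hne : (r, q) ≠ (p, r) := fun h => hrp (congrArg Prod.fst h)
  have hn1 : ([(p, q)] ++ rest p q t).Nodup := c.k1.good'.nodup
  have hn2 : ([(p, r), (r, q)] ++ rest p q t).Nodup := by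
    have := c.k2.good.nodup
    rwa [sides_closeUp'] at this
  have A1 := PV_append F hn1 (by
    intro σ hσ σ' hσ'
    rw [List.mem_singleton] at hσ hσ'
    rw [hσ, hσ']; exact Fr.not_cr_self _)
  have A2 := PV_append F hn2 (by
    intro σ hσ σ' hσ'
    simp only [List.mem_cons, List.not_mem_nil, or_false] at hσ hσ'
    rcases hσ with rfl | rfl <;> rcases hσ' with rfl | rfl
    · exact Fr.not_cr_self _
    · exact Fr.not_cr_adj (by simp)
    · exact Fr.not_cr_adj (by simp)
    · exact Fr.not_cr_self _)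
  have s1 : ∀ g : Seg → ZMod 2, ∑ σ ∈ fs [(p, q)], g σ = g (p, q) := fun g => by
    rw [sum_fs (by simp)]; simp
  have s2 : ∀ g : Seg → ZMod 2, ∑ σ ∈ fs [(p, r), (r, q)], g σ = g (p, r) + g (r, q) := fun g => by
    rw [sum_fs (by simpa using hne.symm)]; simp
  have t0 : (p, q) ∈ TS p q r := by simp [TS]
  have t1 : (p, r) ∈ TS p q r := by simp [TS]
  have t2 : (r, q) ∈ TS p q r := by simp [TS]
  have i0 : ∀ u, idx [(p, q)] (p, q) + u = 1 * (M (pt (p, q) u)).1 := fun u => by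
    rw [idx_cons_self, c.M_pq]; ring
  have i1 : ∀ u, idx [(p, r), (r, q)] (p, r) + u = 2 * (M (pt (p, r) u)).1 := fun u => by
    rw [idx_cons_self, c.M_pr]; ring
  have i2 : ∀ u, idx [(p, r), (r, q)] (r, q) + u = 2 * (M (pt (r, q) u)).1 := fun u => by
    rw [idx_cons_ne hne, idx_cons_self, c.M_rq]; ring
  simp only [s1, s2] at A1 A2
  have B : ∑ x ∈ F.C (rest p q t), ∑ e ∈ fs (rest p q t), F.bsum p q r e (fun y =>
      lt2 (F.time (rest p q t) x.1 x.2) (idx (rest p q t) e + y) *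
        lt2 (idx (rest p q t) e + y) (F.time (rest p q t) x.2 x.1)) =
      ∑ e ∈ fs (rest p q t), ∑ f ∈ fs (rest p q t),
        lt2 (idx (rest p q t) e) (idx (rest p q t) f) * F.W M p q r e f := by
    rw [← term2 c, Finset.sum_congr rfl fun x hx =>
      term1 c (Fr.mem_C.1 hx).1 (Fr.mem_C.1 hx).2.1 (Fr.mem_C.1 hx).2.2, Fr.sum_C]
    refine Finset.sum_congr rfl fun e _ => Finset.sum_congr rfl fun f _ => ?_
    by_cases hm : F.mid M η e f
    · rw [ind_true (knDelta_mid c hm), one_mul]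
    · rw [ind_false hm]; ring
  have C1 : ∀ e ∈ fs (rest p q t), ∀ f ∈ fs (rest p q t), _ := fun e he f _ =>
    knDelta_pt c (f := f) (mem_fs.1 he) t0 t0 _ one_pos i0 i0
  have C2 : ∀ e ∈ fs (rest p q t), ∀ f ∈ fs (rest p q t), _ := fun e he f _ =>
    congrArg₂ (· + ·)
      (congrArg₂ (· + ·) (knDelta_pt c (f := f) (mem_fs.1 he) t1 t1 _ two_pos i1 i1)
        (knDelta_pt c (f := f) (mem_fs.1 he) t1 t2 _ two_pos i1 i2))
      (congrArg₂ (· + ·) (knDelta_pt c (f := f) (mem_fs.1 he) t2 t1 _ two_pos i2 i1)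
        (knDelta_pt c (f := f) (mem_fs.1 he) t2 t2 _ two_pos i2 i2))
  rw [Finset.sum_congr rfl fun e he => Finset.sum_congr rfl fun f hf => C1 e he f hf] at A1
  rw [Finset.sum_congr rfl fun e he => Finset.sum_congr rfl fun f hf => C2 e he f hf] at A2
  simp only [Fr.bsum, Fr.W, mul_add, Finset.sum_add_distrib] at B
  simp only [Finset.sum_add_distrib] at A2
  simp only [Fr.time] at A1 A2 B
  simp only [List.cons_append, List.nil_append] at A1 A2
  rw [A1, A2]
  have key : ∀ X a0 a1 a2 w0 w1 w2 w3 w4 : ZMod 2, a0 + a1 + a2 = w0 + w1 + w2 + w3 + w4 →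
      X + (a1 + a2) + (w1 + w2 + (w3 + w4)) = X + a0 + w0 := fun X a0 a1 a2 w0 w1 w2 w3 w4 h => by
    linear_combination h + two_zero (w1 + w2 + w3 + w4) - two_zero a0
  exact key _ _ _ _ _ _ _ _ _ B

end Pool.Agent.Lib.MP_1f96ff_gt
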