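import Pool.Agent.Lib.MP_1f96ff_gt.KnList

namespace Pool.Agent.Lib.MP_1f96ff_gt

open Classical

/-! Combinatorics of an embedding. -/

variable {V : Type} {G : SimpleGraph V}

theorem Emb.path_rev (E : Emb G) {u v : V} (h : G.Adj u v) : E.path v u = (E.path u v).reverse := by
  simp [Emb.path, E.rev u v h]

theorem Emb.path_good (E : Emb G) {u v : V} (h : G.Adj u v) : Good (sides (E.path u v)) := by
  exact (E.arc u v h).good

theorem knEmb_corner {Q : List Seg} (hQ : Good Q) {e0 e : Seg} (h0 : e0 ∈ Q) (he : e ∈ Q) {x : R3}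
    (hx0 : x = e0.1 ∨ x = e0.2) (hx : x ∈ segment ℝ e.1 e.2) : x ∈ ({e.1, e.2} : Set R3) := by
  by_cases h : e0 = e
  · subst h
    exact hx0
  · refine (hQ.meet h0 he h ⟨?_, hx⟩).2
    rcases hx0 with rfl | rfl
    exacts [left_mem_segment ℝ _ _, right_mem_segment ℝ _ _]

theorem knEmb_pos (E : Emb G) {u v w : V} (h : G.Adj u v) (hw : w ∈ ({u, v} : Set V)) {e : Seg}
    (he : e ∈ sides (E.path u v)) (hx : E.pos w ∈ segment ℝ e.1 e.2) :
    E.pos w ∈ ({e.1, e.2} : Set R3) := by
  rcases hw with rfl | rfl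
  · have h1 : E.pos w ∈ (sides (E.path w v)).map Prod.fst := by
      rw [Emb.path, map_fst_sides]
      exact List.mem_cons_self
    obtain ⟨e0, h0, h2⟩ := List.mem_map.1 h1
    exact knEmb_corner (E.path_good h) h0 he (Or.inl h2.symm) hx
  · have h1 : E.pos w ∈ (sides (E.path u w)).map Prod.snd := by
      rw [Emb.path, List.cons_append, map_snd_sides]
      simp
    obtain ⟨e0, h0, h2⟩ := List.mem_map.1 h1
    exact knEmb_corner (E.path_good h) h0 he (Or.inr h2.symm) hx

theorem knEmb_swap (E : Emb G) {u v : V} (h : G.Adj u v) {e : Seg}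
    (he : e ∈ sides (E.path u v)) : e.swap ∈ sides (E.path v u) := by
  rw [E.path_rev h, sides_reverse, List.mem_reverse]
  exact List.mem_map_of_mem he

/-- A common point is `pos w` with `w` an end of both edges (`disj`). The first point of an arc
lies on a side `e` only as an end of `e`: it is an end of the first side `e0`, and `e = e0` or
`Meet e0 e`; likewise the last point (or reverse the path). -/
theorem Emb.meet (E : Emb G) {u v u' v' : V} (h : G.Adj u v) (h' : G.Adj u' v')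
    (hne : s(u, v) ≠ s(u', v')) {e f : Seg} (he : e ∈ sides (E.path u v))
    (hf : f ∈ sides (E.path u' v')) : Meet e f := by
  rintro x ⟨hx, hx'⟩
  obtain ⟨w, ⟨hw, hw'⟩, rfl⟩ := E.disj u v u' v' h h' hne ⟨⟨e, he, hx⟩, ⟨f, hf, hx'⟩⟩
  exact ⟨knEmb_pos E h hw he hx, knEmb_pos E h' hw' hf hx'⟩

theorem Emb.disjoint (E : Emb G) {u v u' v' : V} (h : G.Adj u v) (h' : G.Adj u' v')
    (h1 : u ≠ u') (h2 : u ≠ v') (h3 : v ≠ u') (h4 : v ≠ v') {e f : Seg}
    (he : e ∈ sides (E.path u v)) (hf : f ∈ sides (E.path u' v')) {s t : ℝ} (s0 : 0 ≤ s)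
    (s1 : s ≤ 1) (t0 : 0 ≤ t) (t1 : t ≤ 1) : pt e s ≠ pt f t := by
  intro hst
  have hne : s(u, v) ≠ s(u', v') := fun e => by
    rcases Sym2.eq_iff.1 e with e | e
    exacts [h1 e.1, h2 e.1]
  obtain ⟨w, ⟨hw, hw'⟩, -⟩ := E.disj u v u' v' h h' hne
    ⟨⟨e, he, (mem_seg e _).2 ⟨s, s0, s1, rfl⟩⟩, ⟨f, hf, (mem_seg f _).2 ⟨t, t0, t1, hst⟩⟩⟩
  rcases hw with rfl | rfl <;> rcases hw' with e | e
  exacts [h1 e, h2 e, h3 e, h4 e]

/-- the finite set of all sides of all edges, and a finite set containing all corners -/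
theorem Emb.exists_goodSet [Fintype V] (E : Emb G) :
    ∃ (S : Finset R3) (Sg : Finset Seg), (∀ v, E.pos v ∈ S) ∧
      (∀ u v, G.Adj u v → ∀ x ∈ E.path u v, x ∈ S) ∧ GoodSet (S : Set R3) Sg ∧
      ∀ u v, G.Adj u v → ∀ e ∈ sides (E.path u v), e ∈ Sg := by
  obtain ⟨S, hS1, hS2⟩ : ∃ S : Finset R3, (∀ v, E.pos v ∈ S) ∧ ∀ u v, ∀ x ∈ E.path u v, x ∈ S :=
    ⟨Finset.univ.image E.pos ∪ Finset.univ.biUnion fun p : V × V => (E.path p.1 p.2).toFinset,
      fun v => Finset.mem_union_left _ (Finset.mem_image_of_mem _ (Finset.mem_univ v)),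
      fun u v x hx => Finset.mem_union_right _
        (Finset.mem_biUnion.2 ⟨(u, v), Finset.mem_univ _, List.mem_toFinset.2 hx⟩)⟩
  obtain ⟨Sg, hSg⟩ : ∃ Sg : Finset Seg, ∀ e, e ∈ Sg ↔
      ∃ u v, G.Adj u v ∧ e ∈ sides (E.path u v) := by
    refine ⟨(Finset.univ.filter fun p : V × V => G.Adj p.1 p.2).biUnion
      fun p => (sides (E.path p.1 p.2)).toFinset, fun e => ?_⟩
    simp
  refine ⟨S, Sg, hS1, fun u v _ => hS2 u v, ⟨fun e he => ?_, fun e he => ?_, fun e he => ?_,
    fun e he f hf => ?_⟩, fun u v h e he => (hSg e).2 ⟨u, v, h, he⟩⟩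
  · obtain ⟨u, v, -, he⟩ := (hSg e).1 he
    exact ⟨hS2 u v _ (mem_of_mem_sides he).1, hS2 u v _ (mem_of_mem_sides he).2⟩
  · obtain ⟨u, v, h, he⟩ := (hSg e).1 he
    exact (E.path_good h).1 e he
  · obtain ⟨u, v, h, he⟩ := (hSg e).1 he
    exact (hSg _).2 ⟨v, u, h.symm, knEmb_swap E h he⟩
  · obtain ⟨u, v, h, he⟩ := (hSg e).1 he
    obtain ⟨u', v', h', hf⟩ := (hSg f).1 hf
    by_cases hne : s(u, v) = s(u', v')
    · rcases Sym2.eq_iff.1 hne with ⟨rfl, rfl⟩ | ⟨rfl, rfl⟩
      · by_cases hef : e = f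
        · exact Or.inl hef
        · exact Or.inr (Or.inr ((E.path_good h).meet he hf hef))
      · by_cases hef : e = f.swap
        · exact Or.inr (Or.inl hef)
        · exact Or.inr (Or.inr ((E.path_good h).meet he (knEmb_swap E h' hf) hef).swap_right)
    · exact Or.inr (Or.inr (E.meet h h' hne he hf))

/-- induction on the walk with `sides_append`; the list on the left starts with `pos u` -/
theorem Emb.sides_walk (E : Emb G) {u v : V} (c : G.Walk u v) :
    sides ((c.darts.flatMap fun d => E.pos d.fst :: E.bend d.fst d.snd) ++ [E.pos v]) =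
      c.darts.flatMap fun d => sides (E.path d.fst d.snd) := by
  induction c with
  | nil => simp
  | @cons a b c h p ih =>
    obtain ⟨l, hl⟩ : ∃ l, (p.darts.flatMap fun d => E.pos d.fst :: E.bend d.fst d.snd) ++
        [E.pos c] = E.pos b :: l := by
      cases p with
      | nil => exact ⟨[], rfl⟩
      | cons h' q => exact ⟨_, rfl⟩
    rw [SimpleGraph.Walk.darts_cons, List.flatMap_cons, List.flatMap_cons, List.append_assoc,
      ← ih, hl, sides_append]
    rfl

theorem Emb.sides_poly (E : Emb G) {v : V} (c : G.Walk v v) :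
    sides (closeUp (E.poly c)) = c.darts.flatMap fun d => sides (E.path d.fst d.snd) := by
  rw [← E.sides_walk]
  cases c with
  | nil => rfl
  | cons h q => rfl

/-- cycles have length at most `card V` (`IsCycle.support_nodup`, `length_support`), and there
are finitely many walks of a given length (`SimpleGraph.finsetWalkLength`) -/
theorem finite_cycles [Fintype V] (G : SimpleGraph V) :
    {c : (v : V) × G.Walk v v | c.2.IsCycle}.Finite := by
  refine (Finset.univ.sigma fun v => G.finsetWalkLengthLT (Fintype.card V + 1) v v).finite_toSet.subset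
    fun c hc => ?_
  have h := (SimpleGraph.Walk.IsCycle.support_nodup hc).length_le_card
  rw [List.length_tail, SimpleGraph.Walk.length_support] at h
  rw [Finset.mem_coe, Finset.mem_sigma, SimpleGraph.mem_finsetWalkLengthLT_iff]
  exact ⟨Finset.mem_univ _, by omega⟩

end Pool.Agent.Lib.MP_1f96ff_gt
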