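import Pool.Agent.Lib.MP_1f96ff_gt.KnStr

namespace Pool.Agent.Lib.MP_1f96ff_gt



/-! A graph on twelve vertices such that it and its complement are two-apex: the lower bound. -/

abbrev Z3 := ℤ × ℤ × ℤ

def dZ (p q r s : Z3) : ℤ :=
  (q.1 - p.1) * ((r.2.1 - p.2.1) * (s.2.2 - p.2.2) - (r.2.2 - p.2.2) * (s.2.1 - p.2.1)) -
  (q.2.1 - p.2.1) * ((r.1 - p.1) * (s.2.2 - p.2.2) - (r.2.2 - p.2.2) * (s.1 - p.1)) +
  (q.2.2 - p.2.2) * ((r.1 - p.1) * (s.2.1 - p.2.1) - (r.2.1 - p.2.1) * (s.1 - p.1))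

noncomputable def cZ (p : Z3) : R3 := !₂[(p.1 : ℝ), (p.2.1 : ℝ), (p.2.2 : ℝ)]

noncomputable def dR (p q r s : R3) : ℝ :=
  (q 0 - p 0) * ((r 1 - p 1) * (s 2 - p 2) - (r 2 - p 2) * (s 1 - p 1)) -
  (q 1 - p 1) * ((r 0 - p 0) * (s 2 - p 2) - (r 2 - p 2) * (s 0 - p 0)) +
  (q 2 - p 2) * ((r 0 - p 0) * (s 1 - p 1) - (r 1 - p 1) * (s 0 - p 0))

theorem dR_cZ (p q r s : Z3) : dR (cZ p) (cZ q) (cZ r) (cZ s) = (dZ p q r s : ℝ) := by
  simp [dR, cZ, dZ]

theorem pt_apply (e : Seg) (t : ℝ) (i : Fin 3) : pt e t i = e.1 i + t * (e.2 i - e.1 i) := by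
  simp [pt]

theorem pt_coords {p q r s : R3} {a b : ℝ} (h : pt (p, q) a = pt (r, s) b) :
    p 0 + a * (q 0 - p 0) = r 0 + b * (s 0 - r 0) ∧ p 1 + a * (q 1 - p 1) = r 1 + b * (s 1 - r 1) ∧
      p 2 + a * (q 2 - p 2) = r 2 + b * (s 2 - r 2) := by
  have h0 := congrArg (· 0) h
  have h1 := congrArg (· 1) h
  have h2 := congrArg (· 2) h
  simp only [pt_apply] at h0 h1 h2
  exact ⟨h0, h1, h2⟩

theorem ne_of_skew {p q r s : R3} (h : dR p q r s ≠ 0) (a b : ℝ) :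
    pt (p, q) a ≠ pt (r, s) b := fun e => h (by
  obtain ⟨h0, h1, h2⟩ := pt_coords e
  simp only [dR]
  linear_combination
    (-((q 1 - p 1) * (s 2 - r 2) - (q 2 - p 2) * (s 1 - r 1))) * h0 * (-1) +
    (((q 0 - p 0) * (s 2 - r 2) - (q 2 - p 2) * (s 0 - r 0))) * h1 * (-1) +
    (-((q 0 - p 0) * (s 1 - r 1) - (q 1 - p 1) * (s 0 - r 0))) * h2 * (-1))

theorem ne_of_side {p q z r s : R3} (h : 0 < dR p q z r * dR p q z s) (a : ℝ) {b : ℝ}
    (b0 : 0 ≤ b) (b1 : b ≤ 1) : pt (p, q) a ≠ pt (r, s) b := fun e => by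
  obtain ⟨h0, h1, h2⟩ := pt_coords e
  have key : (1 - b) * dR p q z r + b * dR p q z s = 0 := by
    simp only [dR]
    linear_combination
      (-((q 1 - p 1) * (z 2 - p 2) - (q 2 - p 2) * (z 1 - p 1))) * h0 +
      (((q 0 - p 0) * (z 2 - p 2) - (q 2 - p 2) * (z 0 - p 0))) * h1 +
      (-((q 0 - p 0) * (z 1 - p 1) - (q 1 - p 1) * (z 0 - p 0))) * h2
  have e1 : (1 - b) * (dR p q z r) ^ 2 + b * (dR p q z r * dR p q z s) = 0 := by
    linear_combination dR p q z r * key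
  have e2 : (1 - b) * (dR p q z r * dR p q z s) + b * (dR p q z s) ^ 2 = 0 := by
    linear_combination dR p q z s * key
  have f1 : 0 ≤ (1 - b) * (dR p q z r) ^ 2 := mul_nonneg (by linarith) (sq_nonneg _)
  have f2 : 0 ≤ b * (dR p q z s) ^ 2 := mul_nonneg b0 (sq_nonneg _)
  nlinarith

/-- two segments from one point in independent directions -/
theorem zero_of_indep {p q r z : R3} (h : dR p q r z ≠ 0) {a b : ℝ}
    (e : pt (p, q) a = pt (p, r) b) : a = 0 := by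
  obtain ⟨h0, h1, h2⟩ := pt_coords e
  apply mul_right_cancel₀ h
  simp only [dR]
  linear_combination
    ((r 1 - p 1) * (z 2 - p 2) - (r 2 - p 2) * (z 1 - p 1)) * h0 -
    ((r 0 - p 0) * (z 2 - p 2) - (r 2 - p 2) * (z 0 - p 0)) * h1 +
    ((r 0 - p 0) * (z 1 - p 1) - (r 1 - p 1) * (z 0 - p 0)) * h2

theorem meet_of_indep {p q r z : R3} (h : dR p q r z ≠ 0) : Meet (p, q) (p, r) :=
  meet_of_pt fun s t _ _ _ _ e => by
    rw [zero_of_indep h e]; simp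

def z1 : Z3 := (0, 0, 5)
def z2 : Z3 := (3, 17, -7)

/-- the decidable criterion -/
def Crit {n : ℕ} (adj : Fin n → Fin n → Bool) (X : Fin n → Z3) : Prop :=
  (∀ u v w, u ≠ v → u ≠ w → v ≠ w → dZ (X u) (X v) (X w) z1 ≠ 0 ∨ dZ (X u) (X v) (X w) z2 ≠ 0) ∧
  (∀ u v, adj u v = true → ∀ s t, adj s t = true → u ≠ s → u ≠ t → v ≠ s → v ≠ t →
    dZ (X u) (X v) (X s) (X t) ≠ 0 ∨ 0 < dZ (X u) (X v) z1 (X s) * dZ (X u) (X v) z1 (X t) ∨
      0 < dZ (X s) (X t) z1 (X u) * dZ (X s) (X t) z1 (X v)) ∧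
  (∀ u v, X u = X v → u = v) ∧ (∀ u v, 0 < (X u).2.2 → 0 < (X v).2.2 → u = v) ∧
  ∀ u v, (X u).2.2 < 0 → (X v).2.2 < 0 → u = v

theorem not_IK_of_crit {V : Type} (G : SimpleGraph V) {n : ℕ} {adj : Fin n → Fin n → Bool}
    {X : Fin n → Z3} (hc : Crit adj X) (i : V → Fin n) (hi : Function.Injective i)
    (ha : ∀ u v, G.Adj u v → adj (i u) (i v) = true) : ¬ IK G := by
  obtain ⟨c1, c2, c3, c4, c5⟩ := hc
  have ind3 : ∀ u v w, u ≠ v → u ≠ w → v ≠ w →
      ∃ z, dR (cZ (X (i u))) (cZ (X (i v))) (cZ (X (i w))) z ≠ 0 := fun u v w h1 h2 h3 => by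
    rcases c1 _ _ _ (hi.ne h1) (hi.ne h2) (hi.ne h3) with h | h
    · exact ⟨cZ z1, by rw [dR_cZ]; exact_mod_cast h⟩
    · exact ⟨cZ z2, by rw [dR_cZ]; exact_mod_cast h⟩
  have m3 : ∀ u v w, u ≠ v → u ≠ w → v ≠ w →
      Meet (cZ (X (i u)), cZ (X (i v))) (cZ (X (i u)), cZ (X (i w))) := fun u v w h1 h2 h3 => by
    obtain ⟨z, hz⟩ := ind3 u v w h1 h2 h3
    exact meet_of_indep hz
  refine not_IK_of_straight G (fun v => cZ (X (i v))) (EuclideanSpace.projₗ 2) (cZ z1)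
    (by simp [cZ, z1]) ?_ ?_ ?_ ?_ ?_
  · intro u v h
    apply hi; apply c3
    have h0 := congrArg (· 0) h
    have h1 := congrArg (· 1) h
    have h2 := congrArg (· 2) h
    simp [cZ] at h0 h1 h2
    exact Prod.ext h0 (Prod.ext h1 h2)
  · intro u v s t h h' hne
    have huv := h.ne
    have hst := h'.ne
    by_cases a1 : u = s
    · subst a1
      exact m3 u v t huv hst fun e => hne (by rw [e])
    by_cases a2 : u = t
    · subst a2
      exact (m3 u v s huv hst.symm fun e => hne (by rw [e, Sym2.eq_swap])).swap_right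
    by_cases a3 : v = s
    · subst a3
      exact (m3 v u t huv.symm hst a2).swap_left
    by_cases a4 : v = t
    · subst a4
      exact (m3 v u s huv.symm hst.symm a1).swap_left.swap_right
    refine meet_of_pt fun a b a0 a1' b0 b1 e => absurd e ?_
    rcases c2 _ _ (ha _ _ h) _ _ (ha _ _ h') (hi.ne a1) (hi.ne a2) (hi.ne a3) (hi.ne a4) with
      k | k | k
    · exact ne_of_skew (by rw [dR_cZ]; exact_mod_cast k) a b
    · exact ne_of_side (z := cZ z1) (by rw [dR_cZ, dR_cZ]; exact_mod_cast k) a b0 b1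
    · exact (ne_of_side (z := cZ z1) (by rw [dR_cZ, dR_cZ]; exact_mod_cast k) b a0 a1').symm
  · intro u v w h hw
    by_contra hn
    rw [not_or] at hn
    obtain ⟨z, hz⟩ := ind3 u w v (Ne.symm hn.1) h.ne hn.2
    obtain ⟨s, -, -, hs⟩ := (mem_seg (cZ (X (i u)), cZ (X (i v))) _).mp hw
    have := zero_of_indep hz (a := 1) (b := s) (by rw [pt_one]; exact hs)
    exact one_ne_zero this
  · intro u v h1 h2
    apply hi; apply c4
    · simpa [cZ] using h1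
    · simpa [cZ] using h2
  · intro u v h1 h2
    apply hi; apply c5
    · simpa [cZ] using h1
    · simpa [cZ] using h2

def row : Fin 12 → ℕ := ![992, 980, 962, 944, 938, 985, 935, 895, 3327, 3327, 2816, 1792]

def adjR (u v : Fin 12) : Bool := (row u).testBit v

def adjB (u v : Fin 12) : Bool := !(adjR u v) && u != v

def XR : Fin 12 → Z3 := ![(6, 5, 0), (9, 0, 0), (8, 3, 0), (4, 4, 0), (1, 0, 0), (1, 5, 0),
  (9, 9, 0), (6, 4, 0), (11, 14, 1), (12, 14, -3), (19, 11, 0), (20, 11, 0)]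

def XB : Fin 12 → Z3 := ![(4, 3, 0), (7, 3, 0), (9, 0, 0), (9, 7, 0), (2, 4, 0), (7, 2, 0),
  (2, 8, 0), (3, 5, 0), (19, 7, 0), (18, 8, 0), (15, 16, 3), (11, 14, -2)]

theorem critR : Crit adjR XR := by
  unfold Crit
  refine ⟨?_, ?_, ?_, ?_, ?_⟩ <;> decide +kernel

theorem critB : Crit adjB XB := by
  unfold Crit
  refine ⟨?_, ?_, ?_, ?_, ?_⟩ <;> decide +kernel

theorem adjR_symm : ∀ u v, adjR u v = true → adjR v u = true := by decide +kernel

theorem adjR_irrefl : ∀ u, adjR u u ≠ true := by decide +kernel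

theorem lower (n : ℕ) (hn : n ≤ 12) : ∃ G : SimpleGraph (Fin n), ¬ IK G ∧ ¬ IK Gᶜ := by
  let G : SimpleGraph (Fin n) :=
    { Adj := fun u v => adjR (Fin.castLE hn u) (Fin.castLE hn v) = true
      symm := ⟨fun _ _ h => adjR_symm _ _ h⟩
      loopless := ⟨fun _ h => adjR_irrefl _ h⟩ }
  refine ⟨G, not_IK_of_crit G critR (Fin.castLE hn) (Fin.castLE_injective hn) fun _ _ h => h,
    not_IK_of_crit Gᶜ critB (Fin.castLE hn) (Fin.castLE_injective hn) fun u v h => ?_⟩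
  rw [SimpleGraph.compl_adj] at h
  have h2 : adjR (Fin.castLE hn u) (Fin.castLE hn v) = false := by simpa [G] using h.2
  simp [adjB, h2, (Fin.castLE_injective hn).ne h.1]

end Pool.Agent.Lib.MP_1f96ff_gt
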