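import Pool.Agent.Lib.MP_1f96ff_gt.KnApp

namespace Pool.Agent.Lib.MP_1f96ff_gt

open Classical

/-! Invariance under subdivision of the first side. -/

theorem knSub_par {F : Fr} {σ e : Seg} {a b : ℝ} (hab : a < b)
    (h : F.ov e (pt σ a, pt σ b)) :
    F.D σ e ≠ 0 ∧ F.par σ e = a + F.par (pt σ a, pt σ b) e * (b - a) ∧
      F.par e (pt σ a, pt σ b) = F.par e σ := by
  have hD : F.D σ e ≠ 0 := fun h0 => h.1.symm.1 (by rw [Fr.D_sub, h0, mul_zero])
  exact ⟨hD, Fr.par_sub hD hab.ne⟩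

theorem knSub_iff {F : Fr} {σ e : Seg} {a b : ℝ} (ha : 0 ≤ a) (hab : a < b) (hb : b ≤ 1) :
    F.ov e (pt σ a, pt σ b) ↔ F.ov e σ ∧ a < F.par σ e ∧ F.par σ e < b := by
  have hp : 0 < b - a := sub_pos.mpr hab
  constructor
  · intro h
    obtain ⟨hD, h1, h2⟩ := knSub_par hab h
    obtain ⟨⟨-, c1, c2, c3, c4⟩, hh⟩ := h
    have d1 : a < F.par σ e := by rw [h1]; nlinarith
    have d2 : F.par σ e < b := by rw [h1]; nlinarith
    rw [pt_pt, ← h1, h2] at hh
    rw [h2] at c1 c2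
    exact ⟨⟨⟨by rw [F.D_symm]; exact neg_ne_zero.mpr hD, c1, c2, by linarith, by linarith⟩, hh⟩,
      d1, d2⟩
  · rintro ⟨h, d1, d2⟩
    have hD : F.D σ e ≠ 0 := h.1.symm.1
    obtain ⟨h1, h2⟩ := Fr.par_sub hD hab.ne
    obtain ⟨⟨-, c1, c2, -, -⟩, hh⟩ := h
    refine ⟨⟨?_, h2 ▸ c1, h2 ▸ c2, ?_, ?_⟩, ?_⟩
    · rw [F.D_symm, Fr.D_sub]
      exact neg_ne_zero.mpr (mul_ne_zero hp.ne' hD)
    · rw [h1] at d1
      by_contra hc
      nlinarith [not_lt.mp hc]
    · rw [h1] at d2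
      by_contra hc
      nlinarith [not_lt.mp hc]
    · rw [pt_pt, ← h1, h2]
      exact hh

theorem knSub_lt {A B : Prop} {u v u' v' : ℝ} (z : ZMod 2)
    (h : A → B → (u < v ↔ u' < v')) :
    ind A * ind B * (lt2 u v * z) = ind A * (ind B * (lt2 u' v' * z)) := by
  by_cases hA : A
  · by_cases hB : B
    · rw [lt2_congr (h hA hB), mul_assoc]
    · rw [ind_false hB]; ring
  · rw [ind_false hA]; ring

theorem knSub_sum1 (a : Seg) (g : Seg → ZMod 2) : ∑ e ∈ fs [a], g e = g a := by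
  rw [sum_fs (List.nodup_singleton a)]; simp

theorem knSub_sum2 {a b : Seg} (h : a ≠ b) (g : Seg → ZMod 2) :
    ∑ e ∈ fs [a, b], g e = g a + g b := by
  rw [sum_fs_cons (by simpa using h), knSub_sum1]

/-- A crossing with `(p,q)` is a crossing with exactly one of the two parts. Note
`(p, r) = (pt σ 0, pt σ ρ)` and `(r, q) = (pt σ ρ, pt σ 1)` for `σ = (p,q)`; use `D_sub`, `par_sub`,
`pt_pt`; the hypothesis `hne` excludes a crossing at `r`. Stated for `cr` together with the height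
condition through an arbitrary weight: take `G` to depend on the parameter on `e` and on the
parameter on `σ`. -/
theorem sub_ov (F : Fr) (p q : R3) {ρ : ℝ} (h0 : 0 < ρ) (h1 : ρ < 1) (e : Seg)
    (hne : F.cr (p, q) e → F.par (p, q) e ≠ ρ) (G : ℝ → ℝ → ZMod 2) :
    ind (F.ov e (p, q)) * G (F.par e (p, q)) (F.par (p, q) e) =
      ind (F.ov e (p, pt (p, q) ρ)) *
          G (F.par e (p, pt (p, q) ρ)) (ρ * F.par (p, pt (p, q) ρ) e) +
        ind (F.ov e (pt (p, q) ρ, q)) *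
          G (F.par e (pt (p, q) ρ, q)) (ρ + (1 - ρ) * F.par (pt (p, q) ρ, q) e) := by
  have e1 : (p, pt (p, q) ρ) = (pt (p, q) 0, pt (p, q) ρ) := by rw [pt_zero]
  have e2 : (pt (p, q) ρ, q) = (pt (p, q) ρ, pt (p, q) 1) := by rw [pt_one]
  have i1 := knSub_iff (F := F) (σ := (p, q)) (e := e) le_rfl h0 h1.le
  have i2 := knSub_iff (F := F) (σ := (p, q)) (e := e) h0.le h1 le_rfl
  rw [e1, e2]
  by_cases h : F.ov e (p, q)
  · rcases lt_or_gt_of_ne (hne h.1.symm) with hl | hl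
    · have a1 := i1.mpr ⟨h, h.1.2.2.2.1, hl⟩
      have a2 : ¬ F.ov e (pt (p, q) ρ, pt (p, q) 1) := fun h' => lt_asymm hl (i2.mp h').2.1
      obtain ⟨-, b1, b2⟩ := knSub_par h0 a1
      have b3 : ρ * F.par (pt (p, q) 0, pt (p, q) ρ) e = F.par (p, q) e := by rw [b1]; ring
      rw [ind_true h, ind_true a1, ind_false a2, b2, b3, zero_mul, add_zero]
    · have a1 := i2.mpr ⟨h, hl, h.1.2.2.2.2⟩
      have a2 : ¬ F.ov e (pt (p, q) 0, pt (p, q) ρ) := fun h' => lt_asymm hl (i1.mp h').2.2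
      obtain ⟨-, b1, b2⟩ := knSub_par h1 a1
      have b3 : ρ + (1 - ρ) * F.par (pt (p, q) ρ, pt (p, q) 1) e = F.par (p, q) e := by
        rw [b1]; ring
      rw [ind_true h, ind_true a1, ind_false a2, b2, b3, zero_mul, zero_add]
  · rw [ind_false h, ind_false fun h' => h (i1.mp h').1, ind_false fun h' => h (i2.mp h').1]
    ring

/-- `PV_append` for both lists; rewrite the terms of the list `[(p,q)]` with `sub_ov` for `F`
(over-crossings) and for `F.neg` (under-crossings, `neg_ov`, `neg_par`); the order of the times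
`x` on `(p,r)` and `1 + x'` on `(r,q)` is the order of `ρ x` and `ρ + (1-ρ) x'` (parameters of
crossings are in `(0,1)`). `hne` follows from `Gen.vert` and `Meet (p,r) e`: `r` is not an interior
point of `e`. -/
theorem PV_sub {F : Fr} {S : Set R3} (hg : F.Gen S) {p q : R3} {t : List R3} {ρ : ℝ}
    (h0 : 0 < ρ) (h1 : ρ < 1) (hS : ∀ x ∈ p :: pt (p, q) ρ :: q :: t, x ∈ S)
    (k1 : IsKnot (p :: q :: t)) (k2 : IsKnot (p :: pt (p, q) ρ :: q :: t)) :
    F.PV ((p, pt (p, q) ρ) :: (pt (p, q) ρ, q) :: rest p q t) = F.PV ((p, q) :: rest p q t) := by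
  have g1 : Good ((p, q) :: rest p q t) := k1.good'
  have g2 : Good ((p, pt (p, q) ρ) :: (pt (p, q) ρ, q) :: rest p q t) := by
    rw [← sides_closeUp']; exact k2.good
  have n2 := g2.nodup
  have hd : (p, pt (p, q) ρ) ≠ (pt (p, q) ρ, q) := fun h =>
    (List.nodup_cons.mp n2).1 (h ▸ List.mem_cons_self)
  have hne : ∀ e ∈ rest p q t, F.cr (p, q) e → F.par (p, q) e ≠ ρ := fun e he hc hρ => by
    have hin : In S e := in_of_mem_closeUp hS (by rw [sides_closeUp']; simp [he])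
    have hm : Meet e (p, pt (p, q) ρ) := g2.meet (by simp [he]) List.mem_cons_self fun h =>
      (List.nodup_cons.mp n2).1 (h ▸ List.mem_cons_of_mem _ he)
    have h2 := hc.π_eq
    rw [hρ] at h2
    have h3 := hg.vert e hin _ (hS _ (by simp)) _ h2
    exact hm.ne hc.symm.nd hc.2.2.2.1 hc.2.2.2.2 zero_le_one le_rfl (by rw [pt_one]; exact h3.symm)
  have p1 := PV_append F (I := [(p, q)]) (P := rest p q t) g1.nodup (by
    intro σ hσ σ' hσ'
    rw [List.mem_singleton.mp hσ, List.mem_singleton.mp hσ']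
    exact Fr.not_cr_self _)
  have p2 := PV_append F (I := [(p, pt (p, q) ρ), (pt (p, q) ρ, q)]) (P := rest p q t) n2 (by
    intro σ hσ σ' hσ'
    simp only [List.mem_cons, List.not_mem_nil, or_false] at hσ hσ'
    rcases hσ with rfl | rfl <;> rcases hσ' with rfl | rfl <;> exact Fr.not_cr_adj (by simp))
  refine p2.trans (Eq.trans ?_ p1.symm)
  congr 1
  · congr 1
    refine Finset.sum_congr rfl fun c _ => Finset.sum_congr rfl fun e he => ?_
    rw [knSub_sum1, knSub_sum2 hd]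
    exact (sub_ov F p q h0 h1 e (hne e (mem_fs.mp he)) fun x _ =>
      lt2 (F.time (rest p q t) c.1 c.2) (idx (rest p q t) e + x) *
        lt2 (idx (rest p q t) e + x) (F.time (rest p q t) c.2 c.1)).symm
  · refine Finset.sum_congr rfl fun e he => Finset.sum_congr rfl fun f hf => ?_
    simp only [knSub_sum1, knSub_sum2 hd, Fr.time, idx_cons_self, idx_cons_ne hd.symm, zero_add]
    have s1 := sub_ov F p q h0 h1 e (hne e (mem_fs.mp he)) fun x y =>
      ind (F.ov (p, q) f) * (lt2 y (F.par (p, q) f) *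
        lt2 (idx (rest p q t) e + x) (idx (rest p q t) f + F.par f (p, q)))
    have s2 := fun X Y : ℝ => sub_ov F.neg p q h0 h1 f (hne f (mem_fs.mp hf)) fun x y =>
      lt2 Y y * lt2 X (idx (rest p q t) f + x)
    simp only [Fr.neg_ov, Fr.neg_par] at s1 s2
    rw [mul_assoc (ind (F.ov e (p, q))), s1, s2, s2, mul_add, mul_add]
    have h2 : 0 < 1 - ρ := sub_pos.mpr h1
    congr 1
    · congr 1
      · exact knSub_lt _ fun _ _ => (mul_lt_mul_iff_right₀ h0).symm
      · refine knSub_lt _ fun a b => iff_of_true ?_ ?_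
        · linarith [a.1.2.2.2.2, b.1.2.1]
        · nlinarith [a.1.2.2.2.2, b.1.2.1]
    · congr 1
      · refine knSub_lt _ fun a b => iff_of_false ?_ ?_
        · linarith [a.1.2.2.2.1, b.1.2.2.1]
        · nlinarith [a.1.2.2.2.1, b.1.2.2.1]
      · refine knSub_lt _ fun _ _ => ?_
        rw [add_lt_add_iff_left, add_lt_add_iff_left]
        exact (mul_lt_mul_iff_right₀ h2).symm

end Pool.Agent.Lib.MP_1f96ff_gt
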