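import Pool.Agent.Lib.MP_1f96ff_gt.KnRot
import Pool.Agent.Lib.MP_1f96ff_gt.KnDelta
import Pool.Agent.Lib.MP_1f96ff_gt.KnSub

namespace Pool.Agent.Lib.MP_1f96ff_gt

open Classical

/-! The count vanishes on unknotted polygons. -/

theorem knInv_line {F : Fr} {S : Set R3} (hg : F.Gen S) {p q r : R3} (hp : p ∈ S) (hq : q ∈ S)
    (hr : r ∈ S) (hpq : p ≠ q) (hD : F.D (p, q) (p, r) = 0) : ∃ ρ, r = pt (p, q) ρ := by
  have h1 : (F.π q).1 - (F.π p).1 ≠ 0 := fun h =>
    hpq (hg.xinj p hp q hq (sub_eq_zero.mp h).symm)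
  refine ⟨((F.π r).1 - (F.π p).1) / ((F.π q).1 - (F.π p).1), hg.vert (p, q) ⟨hp, hq⟩ r hr _ ?_⟩
  simp only [Fr.D, det2, Prod.fst_sub, Prod.snd_sub] at hD
  rw [F.π_pt, Prod.ext_iff, pt2_fst, pt2_snd]
  constructor
  · field_simp
    ring
  · field_simp
    linear_combination hD

theorem knInv_between {p q : R3} {ρ : ℝ} (h0 : p ≠ pt (p, q) ρ) (h1 : pt (p, q) ρ ≠ q)
    (hm : Meet (p, pt (p, q) ρ) (pt (p, q) ρ, q)) : 0 < ρ ∧ ρ < 1 := by
  have e1 : ∀ s, pt (p, pt (p, q) ρ) s = pt (p, q) (s * ρ) := fun s => by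
    simpa using pt_pt (p, q) 0 ρ s
  have e2 : ∀ s, pt (pt (p, q) ρ, q) s = pt (p, q) (ρ + s * (1 - ρ)) := fun s => by
    simpa using pt_pt (p, q) ρ 1 s
  constructor
  · by_contra h
    rcases (not_lt.mp h).eq_or_lt with h2 | h2
    · exact h0 (by rw [h2, pt_zero])
    · have h3 : 0 < 1 - ρ := by linarith
      refine hm.symm.ne h1 (s := -ρ / (1 - ρ)) (t := 0) (div_pos (by linarith) h3)
        ((div_lt_one h3).mpr (by linarith)) le_rfl zero_le_one ?_
      rw [e1, e2, div_mul_cancel₀ _ h3.ne', add_neg_cancel, zero_mul]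
  · by_contra h
    rcases (not_lt.mp h).eq_or_lt with h2 | h2
    · exact h1 (by rw [← h2, pt_one])
    · have h3 : 0 < ρ := by linarith
      refine hm.ne h0 (s := 1 / ρ) (t := 1) (div_pos one_pos h3) ((div_lt_one h3).mpr h2)
        zero_le_one le_rfl ?_
      rw [e1, e2, div_mul_cancel₀ _ h3.ne', one_mul, add_sub_cancel]

/-- Rotation: `PV_rot`, `sides_closeUp_rotate`. Triangle move: if `F.D (p,q) (p,r) ≠ 0` build a
`Ctx` (`exists_co` with `ρ = 1/2`, `exists_eta`) and use `PV_delta`; otherwise `π r` is on the line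
of `(p,q)` (use `xinj` to solve for the parameter), so `r = pt (p,q) ρ` (`Gen.vert`), and
`0 < ρ < 1` because `p, r, q` are different and `Meet (p,r) (r,q)`; use `PV_sub`. -/
theorem PV_move {F : Fr} {S : Set R3} (hg : F.Gen S) {l l' : List R3} (hl : ∀ x ∈ l, x ∈ S)
    (hl' : ∀ x ∈ l', x ∈ S) (h : Move l l') :
    F.PV (sides (closeUp l')) = F.PV (sides (closeUp l)) := by
  obtain ⟨k1, k2, h | ⟨p, q, r, t, rfl, rfl, h⟩⟩ := h
  · subst h
    match l, hl, k1 with
    | p :: q :: t, hl, k1 =>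
      rw [sides_closeUp_rotate, sides_closeUp]
      exact PV_rot hg hl k1
    | [_], _, k1 => exact absurd k1.1 (by simp)
    | [], _, k1 => exact absurd k1.1 (by simp)
  · rw [sides_closeUp', sides_closeUp]
    by_cases hD : F.D (p, q) (p, r) = 0
    · have hpq : p ≠ q := k1.good'.1 (p, q) (by simp)
      obtain ⟨ρ, rfl⟩ := knInv_line hg (hl' p (by simp)) (hl' q (by simp)) (hl' r (by simp)) hpq hD
      have hG := k2.good
      rw [sides_closeUp'] at hG
      obtain ⟨h0, h1⟩ := knInv_between (hG.1 (p, pt (p, q) ρ) (by simp))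
        (hG.1 (pt (p, q) ρ, q) (by simp)) ((List.pairwise_cons.mp hG.2).1 _ (by simp))
      exact PV_sub hg h0 h1 hl' k1 k2
    · obtain ⟨M, hM, h1, h2, h3⟩ := exists_co F hD (1 / 2)
      obtain ⟨η, h4, h5, h6, h7, h8⟩ := exists_eta F hD
      exact PV_delta ⟨hg, hl', k1, k2, h, hM, h1, h2, h3, h4, h5, h6, h7, h8⟩

/-- no crossings: `not_cr_self`, `not_cr_adj` -/
theorem PV_tri (F : Fr) (a b c : R3) : F.PV (sides (closeUp [a, b, c])) = 0 := by
  have h : F.C (sides (closeUp [a, b, c])) = ∅ := by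
    refine Finset.eq_empty_of_forall_notMem fun x hx => ?_
    obtain ⟨h1, h2, h3⟩ := Fr.mem_C.mp hx
    have h4 : sides (closeUp [a, b, c]) = [(a, b), (b, c), (c, a)] := by simp [sides, closeUp]
    rw [h4] at h1 h2
    refine Fr.not_cr_adj ?_ h3.1
    simp only [List.mem_cons, List.not_mem_nil, or_false] at h1 h2
    rcases h1 with h1 | h1 | h1 <;> rcases h2 with h2 | h2 | h2 <;> simp [h1, h2]
  rw [Fr.PV, h, pv, Finset.sum_empty]

/-- induction on `EqvGen`, with unions of finite sets and `Gen.mono` -/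
theorem PV_eqv {l l' : List R3} (h : Relation.EqvGen Move l l') :
    ∃ S : Finset R3, ∀ F : Fr, F.Gen (S : Set R3) →
      F.PV (sides (closeUp l)) = F.PV (sides (closeUp l')) := by
  induction h with
  | rel l l' h =>
    refine ⟨l.toFinset ∪ l'.toFinset, fun F hF => (PV_move hF ?_ ?_ h).symm⟩
    · intro x hx
      simp [hx]
    · intro x hx
      simp [hx]
  | refl l => exact ⟨∅, fun _ _ => rfl⟩
  | symm l l' _ ih =>
    obtain ⟨S, hS⟩ := ih
    exact ⟨S, fun F hF => (hS F hF).symm⟩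
  | trans l l' l'' _ _ ih ih' =>
    obtain ⟨S, hS⟩ := ih
    obtain ⟨S', hS'⟩ := ih'
    refine ⟨S ∪ S', fun F hF => (hS F (hF.mono ?_)).trans (hS' F (hF.mono ?_))⟩
    · exact Finset.coe_subset.mpr Finset.subset_union_left
    · exact Finset.coe_subset.mpr Finset.subset_union_right

theorem knInv_isKnot {l l' : List R3} (h : Relation.EqvGen Move l l') : IsKnot l ↔ IsKnot l' := by
  induction h with
  | rel l l' h => exact ⟨fun _ => h.2.1, fun _ => h.1⟩
  | refl l => exact Iff.rfl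
  | symm l l' _ ih => exact ih.symm
  | trans l l' l'' _ _ ih ih' => exact ih.trans ih'

theorem Unknotted.isKnot {l : List R3} (h : Unknotted l) : IsKnot l := by
  obtain ⟨a, b, c, h1, h2⟩ := h
  exact (knInv_isKnot h2).mpr h1

theorem Unknotted.PV_zero {l : List R3} (h : Unknotted l) :
    ∃ S : Finset R3, ∀ F : Fr, F.Gen (S : Set R3) → F.PV (sides (closeUp l)) = 0 := by
  obtain ⟨a, b, c, -, h2⟩ := h
  obtain ⟨S, hS⟩ := PV_eqv h2
  exact ⟨S, fun F hF => (hS F hF).trans (PV_tri F a b c)⟩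

end Pool.Agent.Lib.MP_1f96ff_gt
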