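import Pool.Agent.Lib.MP_1f96ff_gt.KnB2
import Pool.Agent.Lib.MP_1f96ff_gt.KnSeg
import Pool.Agent.Lib.MP_1f96ff_gt.KnSeg2

namespace Pool.Agent.Lib.MP_1f96ff_gt

open Classical

/-! Crossing parity of two disjoint polygonal paths. -/

/-- ray count of a point against a path -/
noncomputable def Fr.phi (F : Fr) (x : R3) (l : List R3) : ZMod 2 :=
  ((sides l).map fun e => up (F.π e.1, F.π e.2) (F.π x)).sum

/-- `sides_reverse`, `up_swap` -/
theorem Fr.phi_reverse (F : Fr) (x : R3) (l : List R3) : F.phi x l.reverse = F.phi x l := by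
  rw [Fr.phi, Fr.phi, sides_reverse, List.map_reverse, List.sum_reverse, List.map_map]
  exact congrArg List.sum (List.map_congr_left fun e _ => up_swap (F.π e.1, F.π e.2) (F.π x))

theorem knPar_off {F : Fr} {S : Set R3} (hg : F.Gen S) {x : R3} (hx : x ∈ S) {f : Seg}
    (hf : In S f) (h : ∀ t, 0 ≤ t → t ≤ 1 → x ≠ pt f t) : Off (F.π x) (F.π f.1, F.π f.2) :=
  fun t t0 t1 e => h t t0 t1 (hg.vert f hf x hx t (e.trans (F.π_pt f t).symm))

theorem knPar_seg {F : Fr} {S : Set R3} (hg : F.Gen S) {e f : Seg} (he : In S e) (hf : In S f)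
    (hd : ∀ s t, 0 ≤ s → s ≤ 1 → 0 ≤ t → t ≤ 1 → pt e s ≠ pt f t) :
    ind (F.cr e f) = rays (F.π e.1, F.π e.2) (F.π f.1, F.π f.2) := by
  rw [← seg_par
    (knPar_off hg he.1 hf fun t t0 t1 => pt_zero e ▸ hd 0 t le_rfl zero_le_one t0 t1)
    (knPar_off hg he.2 hf fun t t0 t1 => pt_one e ▸ hd 1 t zero_le_one le_rfl t0 t1)
    (knPar_off hg hf.1 he fun t t0 t1 => pt_zero f ▸ (hd t 0 t0 t1 le_rfl zero_le_one).symm)
    (knPar_off hg hf.2 he fun t t0 t1 => pt_one f ▸ (hd t 1 t0 t1 zero_le_one le_rfl).symm)]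
  refine ind_congr ⟨fun h => ⟨_, _, h.2.1, h.2.2.1, h.2.2.2.1, h.2.2.2.2, ?_⟩, ?_⟩
  · rw [← F.π_pt, ← F.π_pt]
    exact h.π_eq
  · rintro ⟨s, t, s0, s1, t0, t1, h⟩
    rw [← F.π_pt, ← F.π_pt] at h
    exact (hg.cr_of_ne he hf s0 s1 t0.le t1.le h (hd s t s0.le s1.le t0.le t1.le)).1

theorem knPar_dn {F : Fr} {S : Set R3} (hg : F.Gen S) {c d x : R3} {l : List R3} (hx : x ∈ S)
    (hS : ∀ y ∈ c :: l ++ [d], y ∈ S) (hn : (sides (c :: l ++ [d])).Nodup)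
    (h : ∀ f ∈ sides (c :: l ++ [d]), ∀ t, 0 ≤ t → t ≤ 1 → x ≠ pt f t) :
    ∑ f ∈ fs (sides (c :: l ++ [d])), dn (F.π f.1, F.π f.2) (F.π x) =
      F.phi x (c :: l ++ [d]) + (lt2 (F.π x).1 (F.π c).1 + lt2 (F.π x).1 (F.π d).1) := by
  rw [← tele c l d fun y => lt2 (F.π x).1 (F.π y).1, Fr.phi, ← sum_fs hn, ← sum_fs hn,
    ← Finset.sum_add_distrib]
  refine Finset.sum_congr rfl fun f hf => ?_
  have hf := mem_fs.1 hf
  have hi : In S f := ⟨hS _ (mem_of_mem_sides hf).1, hS _ (mem_of_mem_sides hf).2⟩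
  rw [← add_assoc]
  exact dn_eq_up (knPar_off hg hx hi (h f hf))
    (fun e => h f hf 0 le_rfl zero_le_one ((hg.xinj _ hx _ hi.1 e).trans (pt_zero f).symm))
    (fun e => h f hf 1 zero_le_one le_rfl ((hg.xinj _ hx _ hi.2 e).trans (pt_one f).symm))

/-- For sides `e`, `f` of the two paths: no end of one projects to the other (`Gen.vert`, `hd`),
`ind (cr e f) = ind (X2 ..)` (`Gen.cr_of_ne`, `cr.π_eq`, `π_pt`), `seg_par`. Sum the `up` terms over
`f` and the `dn` terms over `e` with `tele`; then `dn_eq_up` (`xinj`) and `tele` once more. -/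
theorem cr_parity {F : Fr} {S : Set R3} (hg : F.Gen S) {a b c d : R3} {l l' : List R3}
    (hS : ∀ x ∈ a :: l ++ [b], x ∈ S) (hS' : ∀ x ∈ c :: l' ++ [d], x ∈ S)
    (hn : (sides (a :: l ++ [b])).Nodup) (hn' : (sides (c :: l' ++ [d])).Nodup)
    (hd : ∀ e ∈ sides (a :: l ++ [b]), ∀ f ∈ sides (c :: l' ++ [d]), ∀ s t, 0 ≤ s → s ≤ 1 →
      0 ≤ t → t ≤ 1 → pt e s ≠ pt f t) :
    ∑ e ∈ fs (sides (a :: l ++ [b])), ∑ f ∈ fs (sides (c :: l' ++ [d])), ind (F.cr e f) =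
      lt2 (F.π a).1 (F.π c).1 + lt2 (F.π a).1 (F.π d).1 + lt2 (F.π b).1 (F.π c).1 +
        lt2 (F.π b).1 (F.π d).1 + F.phi a (c :: l' ++ [d]) + F.phi b (c :: l' ++ [d]) +
        F.phi c (a :: l ++ [b]) + F.phi d (a :: l ++ [b]) := by
  have e1 : ∀ e ∈ fs (sides (a :: l ++ [b])), ∑ f ∈ fs (sides (c :: l' ++ [d])), ind (F.cr e f) =
      up (F.π e.1, F.π e.2) (F.π c) + up (F.π e.1, F.π e.2) (F.π d) +
        ∑ f ∈ fs (sides (c :: l' ++ [d])),
          (dn (F.π f.1, F.π f.2) (F.π e.1) + dn (F.π f.1, F.π f.2) (F.π e.2)) := fun e he => by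
    have he := mem_fs.1 he
    rw [← tele c l' d fun y => up (F.π e.1, F.π e.2) (F.π y), ← sum_fs hn',
      ← Finset.sum_add_distrib]
    refine Finset.sum_congr rfl fun f hf => ?_
    have hf := mem_fs.1 hf
    rw [knPar_seg hg ⟨hS _ (mem_of_mem_sides he).1, hS _ (mem_of_mem_sides he).2⟩
      ⟨hS' _ (mem_of_mem_sides hf).1, hS' _ (mem_of_mem_sides hf).2⟩ (hd e he f hf), rays,
      add_assoc]
  have e2 : ∀ f ∈ fs (sides (c :: l' ++ [d])), ∑ e ∈ fs (sides (a :: l ++ [b])),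
      (dn (F.π f.1, F.π f.2) (F.π e.1) + dn (F.π f.1, F.π f.2) (F.π e.2)) =
        dn (F.π f.1, F.π f.2) (F.π a) + dn (F.π f.1, F.π f.2) (F.π b) := fun f _ => by
    rw [sum_fs hn]
    exact tele a l b fun x => dn (F.π f.1, F.π f.2) (F.π x)
  obtain ⟨ea, ha, ha'⟩ : ∃ e ∈ sides (a :: l ++ [b]), e.1 = a := by
    rw [← List.mem_map, map_fst_sides (a :: l) b]
    exact List.mem_cons_self
  obtain ⟨eb, hb, hb'⟩ : ∃ e ∈ sides (a :: l ++ [b]), e.2 = b := by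
    rw [← List.mem_map, List.cons_append, map_snd_sides]
    simp
  rw [Finset.sum_congr rfl e1, Finset.sum_add_distrib, Finset.sum_add_distrib, Finset.sum_comm,
    Finset.sum_congr rfl e2, Finset.sum_add_distrib,
    knPar_dn hg (hS a (by simp)) hS' hn' fun f hf t t0 t1 =>
      ha' ▸ pt_zero ea ▸ hd ea ha f hf 0 t le_rfl zero_le_one t0 t1,
    knPar_dn hg (hS b (by simp)) hS' hn' fun f hf t t0 t1 =>
      hb' ▸ pt_one eb ▸ hd eb hb f hf 1 t zero_le_one le_rfl t0 t1, sum_fs hn, sum_fs hn]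
  simp only [Fr.phi]
  ring

end Pool.Agent.Lib.MP_1f96ff_gt
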