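import Pool.Agent.Lib.MP_1f96ff_gt.KnW1
import Pool.Agent.Lib.MP_1f96ff_gt.KnCnt

namespace Pool.Agent.Lib.MP_1f96ff_gt

open Classical

/-! The word of a good list of segments. -/

variable {F : Fr} {S : Set R3} {Sg : Finset Seg}

theorem TL_snd (Q : List Seg) : (F.TL Sg Q).map Prod.snd = Q.flatMap (F.wd Sg) := by
  rw [Fr.TL, List.map_flatMap]
  congr 1
  funext e
  rw [Fr.wd, List.map_map]
  rfl

theorem mem_TL {Q : List Seg} {x : ℝ × (F.L Sg × Bool)} :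
    x ∈ F.TL Sg Q ↔ ∃ e ∈ Q, ∃ s ∈ F.A Sg e, x = (idx Q e + s, F.lam Sg (pt e s)) := by
  simp only [Fr.TL, List.mem_flatMap, List.mem_map, Finset.mem_sort]
  constructor
  · rintro ⟨e, he, s, hs, rfl⟩
    exact ⟨e, he, s, hs, rfl⟩
  · rintro ⟨e, he, s, hs, rfl⟩
    exact ⟨e, he, s, hs, rfl⟩

theorem knW2_A {e : Seg} {s : ℝ} (h : s ∈ F.A Sg e) : 0 < s ∧ s < 1 := by
  obtain ⟨f, -, hc, rfl⟩ := Fr.mem_A.mp h
  exact ⟨hc.2.1, hc.2.2.1⟩

theorem knW2_idx {Q : List Seg} (hn : Q.Nodup) : Q.Pairwise fun e f => idx Q e < idx Q f := by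
  induction Q with
  | nil => exact List.Pairwise.nil
  | cons a Q ih =>
    obtain ⟨ha, hQ⟩ := List.nodup_cons.mp hn
    have hne : ∀ e ∈ Q, e ≠ a := fun e he h => ha (h ▸ he)
    refine List.Pairwise.cons (fun e he => ?_) ?_
    · rw [idx_cons_self, idx_cons_ne (hne e he)]
      linarith [idx_nonneg Q e]
    · refine (List.Pairwise.and_mem.mp (ih hQ)).imp fun {e f} h => ?_
      rw [idx_cons_ne (hne e h.1), idx_cons_ne (hne f h.2.1)]
      linarith [h.2.2]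

/-- `List.pairwise_flatMap`; inside one segment `Finset.sortedLT_sort`-type lemma; for two
segments the positions increase along a `Nodup` list (prove `Q.Pairwise (idx Q · < idx Q ·)` by
induction with `idx_cons_self`, `idx_cons_ne`) and parameters are in `(0,1)` (`mem_A`). -/
theorem TL_sorted {Q : List Seg} (hn : Q.Nodup) :
    (F.TL Sg Q).Pairwise fun x y => x.1 < y.1 := by
  rw [Fr.TL, List.pairwise_flatMap]
  refine ⟨fun e _ => ?_, (knW2_idx hn).imp fun {e f} h x hx y hy => ?_⟩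
  · rw [List.pairwise_map]
    have h1 : ((F.A Sg e).sort (· ≤ ·)).Pairwise (· < ·) :=
      (Finset.sortedLT_sort (F.A Sg e)).pairwise
    exact h1.imp fun {s t} h => by simpa using h
  · obtain ⟨s, hs, rfl⟩ := List.mem_map.mp hx
    obtain ⟨t, ht, rfl⟩ := List.mem_map.mp hy
    have a := knW2_A ((Finset.mem_sort _).mp hs)
    have b := knW2_A ((Finset.mem_sort _).mp ht)
    have c := idx_succ_le h
    show idx Q e + s < idx Q f + t
    linarith [a.2, b.1]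

/-- equal letters on two members of a good list: the same segment -/
theorem knW2_seg (hg : F.Gen S) (hs : GoodSet S Sg) {Q : List Seg} (hQ : Good Q)
    (hm : ∀ e ∈ Q, e ∈ Sg) {e e' : Seg} (he : e ∈ Q) (he' : e' ∈ Q) {s s' : ℝ}
    (h1 : s ∈ F.A Sg e) (h2 : s' ∈ F.A Sg e')
    (h : F.lam Sg (pt e s) = F.lam Sg (pt e' s')) : e = e' :=
  by_contra fun hne => lam_ne hg hs (hm e he) (hm e' he') (hQ.meet he he' hne) h1 h2 h

theorem TL_inj (hg : F.Gen S) (hs : GoodSet S Sg) {Q : List Seg} (hQ : Good Q)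
    (hm : ∀ e ∈ Q, e ∈ Sg) : ∀ x ∈ F.TL Sg Q, ∀ y ∈ F.TL Sg Q, x.2 = y.2 → x = y := by
  intro x hx y hy hxy
  obtain ⟨e, he, s, h1, rfl⟩ := mem_TL.mp hx
  obtain ⟨e', he', s', h2, rfl⟩ := mem_TL.mp hy
  obtain rfl := knW2_seg hg hs hQ hm he he' h1 h2 hxy
  obtain rfl := par_eq_of_lam hg hs (hm e he) h1 h2 (congrArg Prod.fst hxy)
  rfl

theorem knW2_parA {e f : Seg} (hf : f ∈ Sg) (hc : F.cr e f) : F.par e f ∈ F.A Sg e :=
  Fr.mem_A.mpr ⟨f, hf, hc, rfl⟩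

/-- two crossings of a member of `Q` over a member of `Q'` with the same label are equal -/
theorem knW2_cid_inj (hg : F.Gen S) (hs : GoodSet S Sg) {Q Q' : List Seg} (hQ : Good Q)
    (hQ' : Good Q') (hm : ∀ e ∈ Q, e ∈ Sg) (hm' : ∀ e ∈ Q', e ∈ Sg) {c c' : Seg × Seg}
    (a1 : c.1 ∈ Q) (a2 : c.2 ∈ Q') (a3 : F.ov c.1 c.2)
    (b1 : c'.1 ∈ Q) (b2 : c'.2 ∈ Q') (b3 : F.ov c'.1 c'.2)
    (h : F.cid Sg c = F.cid Sg c') : c = c' := by
  obtain ⟨e, f⟩ := c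
  obtain ⟨e', f'⟩ := c'
  have o1 := lam_over hg hs (hm e a1) (hm' f a2) a3
  have o2 := lam_over hg hs (hm e' b1) (hm' f' b2) b3
  have u1 := lam_under hg hs (hm e a1) (hm' f a2) a3
  have u2 := lam_under hg hs (hm e' b1) (hm' f' b2) b3
  have e1 : e = e' := knW2_seg hg hs hQ hm a1 b1 (knW2_parA (hm' f a2) a3.1)
    (knW2_parA (hm' f' b2) b3.1) (by rw [o1, o2, h])
  have e2 : f = f' := knW2_seg hg hs hQ' hm' a2 b2 (knW2_parA (hm e a1) a3.1.symm)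
    (knW2_parA (hm e' b1) b3.1.symm) (by rw [u1, u2, h])
  rw [e1, e2]

/-- an upper letter and a letter with the same label on two segments that `Meet` -/
theorem knW2_surj (hg : F.Gen S) (hs : GoodSet S Sg) {e e' : Seg} (he : e ∈ Sg) (he' : e' ∈ Sg)
    (hm : Meet e e') {s s' : ℝ} (h1 : s ∈ F.A Sg e) (h2 : s' ∈ F.A Sg e') {z : F.L Sg}
    {b : Bool} (k1 : (z, true) = F.lam Sg (pt e s)) (k2 : (z, b) = F.lam Sg (pt e' s')) :
    F.ov e e' ∧ F.cid Sg (e, e') = z := by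
  obtain ⟨hc, rfl, rfl⟩ := cr_of_lam hg hs he he' hm h1 h2 (by rw [← k1, ← k2])
  refine ⟨(over_iff hg hs he he' hc).mp ?_, ?_⟩
  · have h3 : true = decide (F.over Sg (pt e (F.par e e'))) := congrArg Prod.snd k1
    exact of_decide_eq_true h3.symm
  · exact (congrArg Prod.fst k1).symm

theorem knW2_o (hg : F.Gen S) (hs : GoodSet S Sg) {Q : List Seg} {e f : Seg} (he : e ∈ Q)
    (he' : e ∈ Sg) (hf : f ∈ Sg) (ho : F.ov e f) :
    (F.time Q e f, (F.cid Sg (e, f), true)) ∈ F.TL Sg Q :=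
  mem_TL.mpr ⟨e, he, F.par e f, knW2_parA hf ho.1, by rw [lam_over hg hs he' hf ho]; rfl⟩

theorem knW2_u (hg : F.Gen S) (hs : GoodSet S Sg) {Q : List Seg} {e f : Seg} (hf : f ∈ Q)
    (he' : e ∈ Sg) (hf' : f ∈ Sg) (ho : F.ov e f) :
    (F.time Q f e, (F.cid Sg (e, f), false)) ∈ F.TL Sg Q :=
  mem_TL.mpr ⟨f, hf, F.par f e, knW2_parA he' ho.1.symm, by
    rw [lam_under hg hs he' hf' ho]; rfl⟩

/-- `PVw_eq_pv` with `C = F.C Q`, `cid = F.cid Sg`. Injectivity of `cid`: `lam_over` for both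
crossings, `TL_inj`, `Gen.time_inj`. Surjectivity: the two letters lie on different segments
(`par_eq_of_lam`), `cr_of_lam`, and the flags give `ov` (`over_iff`). -/
theorem PVw_wd (hg : F.Gen S) (hs : GoodSet S Sg) {Q : List Seg} (hQ : Good Q)
    (hm : ∀ e ∈ Q, e ∈ Sg) : PVw (Q.flatMap (F.wd Sg)) = F.PV Q := by
  rw [← TL_snd, Fr.PV]
  refine PVw_eq_pv (F.TL Sg Q) (TL_sorted hQ.nodup) (TL_inj hg hs hQ hm) (F.C Q) (F.cid Sg) _ _
    (fun c hc c' hc' h => ?_) (fun c hc => ?_) (fun c hc => ?_) (fun z s s' hz hz' => ?_)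
  · obtain ⟨a1, a2, a3⟩ := Fr.mem_C.mp hc
    obtain ⟨b1, b2, b3⟩ := Fr.mem_C.mp hc'
    exact knW2_cid_inj hg hs hQ hQ hm hm a1 a2 a3 b1 b2 b3 h
  · obtain ⟨a1, a2, a3⟩ := Fr.mem_C.mp hc
    exact knW2_o hg hs a1 (hm _ a1) (hm _ a2) a3
  · obtain ⟨a1, a2, a3⟩ := Fr.mem_C.mp hc
    exact knW2_u hg hs a2 (hm _ a1) (hm _ a2) a3
  · obtain ⟨e, he, t, h1, k1⟩ := mem_TL.mp hz
    obtain ⟨e', he', t', h2, k2⟩ := mem_TL.mp hz'
    have k1' : (z, true) = F.lam Sg (pt e t) := congrArg Prod.snd k1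
    have k2' : (z, false) = F.lam Sg (pt e' t') := congrArg Prod.snd k2
    have hne : e ≠ e' := fun h => by
      subst h
      obtain rfl := par_eq_of_lam hg hs (hm e he) h1 h2 (by rw [← k1', ← k2'])
      have h3 : true = false := congrArg Prod.snd (k1'.trans k2'.symm)
      exact absurd h3 (by decide)
    obtain ⟨h4, h5⟩ := knW2_surj hg hs (hm e he) (hm e' he') (hQ.meet he he' hne) h1 h2 k1' k2'
    exact ⟨(e, e'), Fr.mem_C.mpr ⟨he, he', h4⟩, h5⟩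

/-- `om_eq_card` with `C = (fs Q ×ˢ fs Q').filter (ov)` -/
theorem om_wd (hg : F.Gen S) (hs : GoodSet S Sg) {Q Q' : List Seg} (hQ : Good Q) (hQ' : Good Q')
    (hm : ∀ e ∈ Q, e ∈ Sg) (hm' : ∀ e ∈ Q', e ∈ Sg) (hQQ : ∀ e ∈ Q, ∀ f ∈ Q', Meet e f) :
    om (Q.flatMap (F.wd Sg)) (Q'.flatMap (F.wd Sg)) =
      ∑ e ∈ fs Q, ∑ f ∈ fs Q', ind (F.ov e f) := by
  have hC : ∀ c : Seg × Seg, c ∈ (fs Q ×ˢ fs Q').filter (fun c => F.ov c.1 c.2) ↔
      c.1 ∈ Q ∧ c.2 ∈ Q' ∧ F.ov c.1 c.2 := fun c => by simp [mem_fs, and_assoc]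
  rw [← TL_snd, ← TL_snd, om_eq_card (F.TL Sg Q) (F.TL Sg Q') (TL_sorted hQ.nodup)
    (TL_sorted hQ'.nodup) (TL_inj hg hs hQ hm) (TL_inj hg hs hQ' hm')
    ((fs Q ×ˢ fs Q').filter fun c => F.ov c.1 c.2) (F.cid Sg)
    (fun c hc c' hc' h => ?_) (fun c hc => ?_) (fun c hc => ?_) (fun z s s' hz hz' => ?_)]
  · rw [Finset.sum_filter, Finset.sum_product]
    rfl
  · obtain ⟨a1, a2, a3⟩ := (hC _).mp hc
    obtain ⟨b1, b2, b3⟩ := (hC _).mp hc'
    exact knW2_cid_inj hg hs hQ hQ' hm hm' a1 a2 a3 b1 b2 b3 h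
  · obtain ⟨a1, a2, a3⟩ := (hC _).mp hc
    exact ⟨_, knW2_o hg hs a1 (hm _ a1) (hm' _ a2) a3⟩
  · obtain ⟨a1, a2, a3⟩ := (hC _).mp hc
    exact ⟨_, knW2_u hg hs a2 (hm _ a1) (hm' _ a2) a3⟩
  · obtain ⟨e, he, t, h1, k1⟩ := mem_TL.mp hz
    obtain ⟨e', he', t', h2, k2⟩ := mem_TL.mp hz'
    have k1' : (z, true) = F.lam Sg (pt e t) := congrArg Prod.snd k1
    have k2' : (z, false) = F.lam Sg (pt e' t') := congrArg Prod.snd k2
    obtain ⟨h4, h5⟩ := knW2_surj hg hs (hm e he) (hm' e' he') (hQQ e he e' he') h1 h2 k1' k2'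
    exact ⟨(e, e'), (hC _).mpr ⟨he, he', h4⟩, h5⟩

end Pool.Agent.Lib.MP_1f96ff_gt
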