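import Pool.Agent.Lib.MP_1f96ff_gt.KnGen
import Pool.Agent.Lib.MP_1f96ff_gt.KnInv
import Pool.Agent.Lib.MP_1f96ff_gt.KnW2
import Pool.Agent.Lib.MP_1f96ff_gt.KnPar
import Pool.Agent.Lib.MP_1f96ff_gt.KnEmb

namespace Pool.Agent.Lib.MP_1f96ff_gt

open Classical

/-! A knotless embedding gives the combinatorial data `K0`. -/

/-- Take `E` with all cycles unknotted, the finite sets of `Unknotted.PV_zero` for all cycles
(`finite_cycles`) together with the set of `exists_goodSet`, a generic frame (`exists_gen`), and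
`w u v = (sides (E.path u v)).flatMap (F.wd Sg)`, `ξ v = (F.π (E.pos v)).1`,
`φ x u v = F.phi (E.pos x) (E.path u v)`. Reversal: `path_rev`, `sides_reverse`, `wd_swap`.
Locality: `Emb.meet`, `wd_disj`. Cycles: `sides_poly`, `List.flatMap_assoc`, `PVw_wd`,
`Unknotted.isKnot`. Last clause: `om_wd` twice, `ind_cr`, `cr_parity`, `Emb.disjoint`. -/
theorem geo {V : Type} [Fintype V] (G : SimpleGraph V) (h : ¬ IK G) : K0 G := by
  simp only [IK, not_forall, not_exists, not_and, not_not] at h
  obtain ⟨E, hE⟩ := h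
  obtain ⟨S0, Sg, hpos, hpath, hgs, hsg⟩ := E.exists_goodSet
  have hch : ∀ c : (v : V) × G.Walk v v, ∃ S : Finset R3, c.2.IsCycle → ∀ F : Fr,
      F.Gen (S : Set R3) → F.PV (sides (closeUp (E.poly c.2))) = 0 := fun c => by
    by_cases hc : c.2.IsCycle
    · obtain ⟨S, hS⟩ := (hE c.1 c.2 hc).PV_zero
      exact ⟨S, fun _ => hS⟩
    · exact ⟨∅, fun h => absurd h hc⟩
  choose T hT using hch
  obtain ⟨F, hF⟩ := exists_gen (S0 ∪ (finite_cycles G).toFinset.biUnion T)
  have hF0 : F.Gen (S0 : Set R3) := hF.mono (by intro x hx; simp [Finset.mem_coe.mp hx])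
  refine ⟨F.L Sg, inferInstance, inferInstance,
    fun u v => (sides (E.path u v)).flatMap (F.wd Sg), fun v => (F.π (E.pos v)).1,
    fun x u v => F.phi (E.pos x) (E.path u v), ?_, ?_, ?_, ?_, ?_, ?_⟩
  · intro u v huv
    exact E.inj (hF0.xinj _ (hpos u) _ (hpos v) huv)
  · intro u v huv
    simp only
    rw [E.path_rev huv, sides_reverse, List.reverse_flatMap, ← List.map_reverse, List.flatMap_map]
    congr 1
    funext e
    exact wd_swap e
  · intro a b c d hab hcd hne x hx hx'
    obtain ⟨e, he, hxe⟩ := List.mem_flatMap.mp hx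
    obtain ⟨f, hf, hxf⟩ := List.mem_flatMap.mp hx'
    exact wd_disj hF0 hgs (hsg _ _ hab e he) (hsg _ _ hcd f hf) (E.meet hab hcd hne he hf) hxe hxf
  · intro v c hc
    have h1 : wordOf (fun u v => (sides (E.path u v)).flatMap (F.wd Sg)) c =
        (sides (closeUp (E.poly c))).flatMap (F.wd Sg) := by
      rw [E.sides_poly, List.flatMap_assoc]; rfl
    rw [h1, PVw_wd hF0 hgs (hE v c hc).isKnot.good]
    · refine hT ⟨v, c⟩ hc F (hF.mono ?_)
      intro x hx
      simp only [Finset.coe_union, Finset.coe_biUnion, Set.mem_union, Set.mem_iUnion]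
      exact Or.inr ⟨⟨v, c⟩, by simpa using hc, hx⟩
    · intro e he
      rw [E.sides_poly] at he
      obtain ⟨d, -, hd⟩ := List.mem_flatMap.mp he
      exact hsg _ _ d.adj e hd
  · intro x u v huv
    simp only
    rw [E.path_rev huv, F.phi_reverse]
  · intro a b c d hab hcd h1 h2 h3 h4
    have hne : s(a, b) ≠ s(c, d) := by simp [h1, h2]
    have hm : ∀ e ∈ sides (E.path a b), ∀ f ∈ sides (E.path c d), Meet e f :=
      fun e he f hf => E.meet hab hcd hne he hf
    simp only
    rw [om_wd hF0 hgs (E.path_good hab) (E.path_good hcd) (hsg _ _ hab) (hsg _ _ hcd) hm,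
      om_wd hF0 hgs (E.path_good hcd) (E.path_good hab) (hsg _ _ hcd) (hsg _ _ hab)
        (fun f hf e he => (hm e he f hf).symm), Finset.sum_comm (s := fs (sides (E.path c d))),
      ← Finset.sum_add_distrib]
    refine Eq.trans ?_ (cr_parity hF0 (hpath a b hab) (hpath c d hcd) (E.path_good hab).nodup
      (E.path_good hcd).nodup fun e he f hf s t s0 s1 t0 t1 =>
        E.disjoint hab hcd h1 h2 h3 h4 he hf s0 s1 t0 t1)
    refine Finset.sum_congr rfl fun e he => ?_
    rw [← Finset.sum_add_distrib]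
    exact Finset.sum_congr rfl fun f hf => (Fr.ind_cr (hm e (mem_fs.mp he) f (mem_fs.mp hf))).symm

end Pool.Agent.Lib.MP_1f96ff_gt
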