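import Pool.Agent.Lib.MP_1f96ff_gt.KnList

namespace Pool.Agent.Lib.MP_1f96ff_gt

open Classical

/-! Cone moves. `h` is a linear height function. -/

theorem Unknotted.of_move {l l' : List R3} (m : Move l l') (h : Unknotted l') : Unknotted l := by
  obtain ⟨a, b, c, h1, h2⟩ := h
  exact ⟨a, b, c, h1, .trans _ _ _ (.rel _ _ m) h2⟩

theorem Unknotted.of_move' {l l' : List R3} (m : Move l l') (h : Unknotted l) : Unknotted l' := by
  obtain ⟨a, b, c, h1, h2⟩ := h
  exact ⟨a, b, c, h1, .trans _ _ _ (.symm _ _ (.rel _ _ m)) h2⟩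

/-- any cyclic shift (induction on `l1`, `IsKnot.rotate`) -/
theorem IsKnot.append_comm {l1 l2 : List R3} (h : IsKnot (l1 ++ l2)) :
    IsKnot (l2 ++ l1) ∧ (Unknotted (l2 ++ l1) → Unknotted (l1 ++ l2)) := by
  induction l1 generalizing l2 with
  | nil => simpa using h
  | cons c l ih =>
    have e : (c :: l ++ l2).rotate 1 = l ++ (l2 ++ [c]) := by simp [List.rotate_cons_succ]
    have e' : l2 ++ [c] ++ l = l2 ++ c :: l := by simp
    obtain ⟨h1, h2⟩ := ih (e ▸ h.rotate)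
    rw [e'] at h1 h2
    exact ⟨h1, fun hu => Unknotted.of_move ⟨h, h.rotate, Or.inl rfl⟩ (e ▸ h2 hu)⟩

theorem knFl1_tri {a y x w : R3} (hw : w ∈ convexHull ℝ ({a, y, x} : Set R3)) :
    ∃ z ∈ segment ℝ x y, ∃ s, 0 ≤ s ∧ s ≤ 1 ∧ w = pt (a, z) s := by
  rw [convexHull_insert (by simp), convexHull_pair, mem_convexJoin] at hw
  obtain ⟨_, rfl, z, hz, hw⟩ := hw
  exact ⟨z, segment_symm ℝ y x ▸ hz, (mem_seg (_, z) w).1 hw⟩

theorem knFl1_h (h : R3 →ₗ[ℝ] ℝ) (a b : R3) (t : ℝ) :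
    h (pt (a, b) t) = h a + t * (h b - h a) := by
  simp [pt]

theorem knFl1_le (h : R3 →ₗ[ℝ] ℝ) {a b w : R3} (hw : w ∈ segment ℝ a b) (ha : h a ≤ 0)
    (hb : h b ≤ 0) : h w ≤ 0 := by
  obtain ⟨s, s0, s1, rfl⟩ := (mem_seg (a, b) w).1 hw
  rw [knFl1_h]
  nlinarith

theorem knFl1_eq (h : R3 →ₗ[ℝ] ℝ) {a b w : R3} (hw : w ∈ segment ℝ a b) (ha : h a = 0)
    (hb : h b = 0) : h w = 0 := by
  obtain ⟨s, -, -, rfl⟩ := (mem_seg (a, b) w).1 hw
  rw [knFl1_h, ha, hb]
  ring

/-- a point between the apex and the plane that is not above the plane -/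
theorem knFl1_end (h : R3 →ₗ[ℝ] ℝ) {a z : R3} {s : ℝ} (ha : 0 < h a) (hz : h z = 0) (s1 : s ≤ 1)
    (hw : h (pt (a, z) s) ≤ 0) : pt (a, z) s = z := by
  rw [knFl1_h, hz] at hw
  have e : s = 1 := le_antisymm s1 (by nlinarith)
  rw [e, pt_one]

theorem knFl1_apex (h : R3 →ₗ[ℝ] ℝ) {p q a : R3} (hpq : p ≠ q) (hp : h p = 0) (hq : h q = 0)
    (ha : h a ≠ 0) : Meet (p, a) (a, q) := by
  refine meet_of_pt fun s u _ _ _ _ e => ?_
  have h1 := congrArg h e
  rw [knFl1_h, knFl1_h, hp, hq] at h1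
  have h2 : u = 1 - s := mul_right_cancel₀ ha (by linarith)
  have h3 : (1 - s) • (p - q) = 0 := by
    rw [← sub_eq_zero.2 e, h2]
    simp only [pt]
    module
  have h4 : s = 1 := by
    rcases smul_eq_zero.1 h3 with h4 | h4
    · linarith
    · exact absurd (sub_eq_zero.1 h4) hpq
  rw [h4, pt_one]
  exact ⟨Or.inr rfl, Or.inl rfl⟩

theorem knFl1_rest (h : R3 →ₗ[ℝ] ℝ) {p q : R3} {t : List R3} (hp : h p = 0) (hq : h q = 0)
    (hz : ∀ z ∈ t, h z ≤ 0) {e : Seg} (he : e ∈ rest p q t) {w : R3}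
    (hw : w ∈ segment ℝ e.1 e.2) : h w ≤ 0 := by
  refine knFl1_le h hw ?_ ?_
  · rcases List.mem_cons.1 (fst_mem_rest he) with e1 | e1
    · rw [e1, hq]
    · exact hz _ e1
  · rcases List.mem_append.1 (snd_mem_rest he) with e1 | e1
    · exact hz _ e1
    · rw [List.mem_singleton.1 e1, hp]

/-- Key step. A point `w` of the triangle is `a + s (z - a)` with `z` on the segment `x y`, and
`h w = (1 - s) h a`. Let `e` be a side of `rest a y t` containing `w`. If `e.2 ≠ a`, both ends have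
`h ≤ 0`, so `s = 1`, `w = z`, and `Meet (x,y) e` gives `w = y`, an end of `e`. If `e.2 = a`, `c = e.1 ∈ t`
(here `t ≠ []`): `s = 0`, or `z = a + μ (c - a)` with `0 < μ ≤ 1` by heights, so `z` is on `e` and on
`(x,y)`, hence a common end, impossible by `Nodup`. -/
theorem cone_key (h : R3 →ₗ[ℝ] ℝ) {a x y : R3} {t : List R3} (ht : t ≠ [])
    (hk : IsKnot (a :: x :: y :: t)) (ha : 0 < h a) (hx : h x = 0) (hy : h y = 0)
    (hz : ∀ z ∈ t, h z ≤ 0) {e : Seg} (he : e ∈ rest a y t) {w : R3}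
    (hw : w ∈ convexHull ℝ ({a, y, x} : Set R3)) (hw' : w ∈ segment ℝ e.1 e.2) :
    (w = a ∨ w = y) ∧ (w = e.1 ∨ w = e.2) := by
  have hm : Meet (x, y) e := by
    have h1 := hk.2.2
    rw [sides_closeUp'] at h1
    exact List.rel_of_pairwise_cons h1.of_cons he
  have hn := hk.2.1
  simp only [List.nodup_cons, List.mem_cons, not_or] at hn
  obtain ⟨⟨n1, n2, n3⟩, ⟨n4, n5⟩, n6, -⟩ := hn
  obtain ⟨z, z1, s, s0, s1, rfl⟩ := knFl1_tri hw
  have z0 := knFl1_eq h z1 hx hy
  have f1 := List.mem_cons.1 (fst_mem_rest he)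
  by_cases h2 : e.2 = a
  · have hc : e.1 ∈ t := by
      obtain ⟨b, t, rfl⟩ := List.exists_cons_of_ne_nil ht
      rcases List.mem_cons.1 (show e ∈ (y, b) :: rest a b t from he) with e1 | e1
      · rw [e1] at h2
        exact absurd (h2 ▸ List.mem_cons_self) n3
      · exact fst_mem_rest e1
    rcases s0.eq_or_lt with rfl | s0
    · rw [pt_zero]
      exact ⟨Or.inl rfl, Or.inr h2.symm⟩
    exfalso
    obtain ⟨u, u0, u1, hu⟩ := (mem_seg e _).1 hw'
    have e1 : z = pt e (1 - (1 - u) / s) := by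
      have e2 : s • (z - pt e (1 - (1 - u) / s)) = 0 := by
        rw [← sub_eq_zero.2 hu]
        simp only [pt, h2]
        match_scalars <;> field_simp <;> ring
      exact sub_eq_zero.1 ((smul_eq_zero.1 e2).resolve_left s0.ne')
    have e3 : 0 ≤ (1 - u) / s := div_nonneg (by linarith) s0.le
    have e4 := knFl1_h h e.1 e.2 (1 - (1 - u) / s)
    rw [show (e.1, e.2) = e from rfl, ← e1, z0, h2] at e4
    have e5 := hz _ hc
    have e6 : 0 ≤ 1 - (1 - u) / s := by
      by_contra h3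
      nlinarith [not_le.1 h3]
    obtain ⟨m1, m2⟩ := hm (a := z) ⟨z1, (mem_seg e z).2 ⟨_, e6, by linarith, e1⟩⟩
    rcases m1 with m1 | m1 <;> rcases m2 with m2 | m2
    · exact n5 (by rw [show x = e.1 from m1.symm.trans m2]; exact hc)
    · exact n1 ((m1.symm.trans m2 : x = e.2).trans h2).symm
    · exact n6 (by rw [show y = e.1 from m1.symm.trans m2]; exact hc)
    · exact n2 ((m1.symm.trans m2 : y = e.2).trans h2).symm
  · have f2 : e.2 ∈ t :=
      (List.mem_append.1 (snd_mem_rest he)).resolve_right fun e1 => h2 (List.mem_singleton.1 e1)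
    have e1 := knFl1_end h ha z0 s1 (knFl1_le h hw'
      (f1.elim (fun e1 => by rw [e1, hy]) (hz _)) (hz _ f2))
    rw [e1] at hw' ⊢
    obtain ⟨m1, m2⟩ := hm (a := z) ⟨z1, hw'⟩
    refine ⟨Or.inr (m1.resolve_left fun m1 : z = x => ?_), m2⟩
    rcases m2 with m2 | m2
    · rw [← (m1.symm.trans m2 : x = e.1)] at f1
      exact f1.elim n4 n5
    · exact n5 ((m1.symm.trans m2 : x = e.2) ▸ f2)

/-- remove the corner after the apex -/
theorem cone_remove (h : R3 →ₗ[ℝ] ℝ) {a x y : R3} {t : List R3} (ht : t ≠ [])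
    (hk : IsKnot (a :: x :: y :: t)) (ha : 0 < h a) (hx : h x = 0) (hy : h y = 0)
    (hz : ∀ z ∈ t, h z ≤ 0) : Move (a :: y :: t) (a :: x :: y :: t) := by
  refine ⟨⟨?_, hk.2.1.sublist ((List.sublist_cons_self _ _).cons_cons a), ?_⟩, hk,
    Or.inr ⟨a, y, x, t, rfl, rfl, ?_⟩⟩
  · have := List.length_pos_of_ne_nil ht
    simp only [List.length_cons]
    omega
  · have h1 := hk.2.2
    rw [sides_closeUp'] at h1
    rw [sides_closeUp]
    refine List.Pairwise.cons (fun e he w hw => ?_) h1.of_cons.of_cons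
    exact cone_key h ht hk ha hx hy hz he
      (segment_subset_convexHull (by simp) (by simp) hw.1) hw.2
  · rintro w ⟨w1, e, he, w2⟩
    rw [sides_closeUp] at he
    rcases List.mem_cons.1 he with rfl | he
    · exact w2
    · rcases (cone_key h ht hk ha hx hy hz he w1 w2).1 with rfl | rfl
      · exact left_mem_segment _ _ _
      · exact right_mem_segment _ _ _

/-- Insert an apex over a side in the plane. Points of the triangle have `h ≥ 0` with equality
only on the segment `p q`; points of the old polygon have `h ≤ 0`. -/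
theorem cone_insert (h : R3 →ₗ[ℝ] ℝ) {p q a : R3} {t : List R3} (hk : IsKnot (p :: q :: t))
    (ha : 0 < h a) (hp : h p = 0) (hq : h q = 0) (hz : ∀ z ∈ t, h z ≤ 0) :
    Move (p :: q :: t) (p :: a :: q :: t) := by
  have h1 := hk.2.2
  rw [sides_closeUp] at h1
  have hn := hk.2.1
  simp only [List.nodup_cons, List.mem_cons, not_or] at hn
  obtain ⟨⟨n1, n2⟩, n3, n4⟩ := hn
  have key : ∀ c, c ∈ segment ℝ p q → ∀ e ∈ rest p q t, Meet (a, c) e := by
    intro c hc e he w hw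
    obtain ⟨s, -, s1, rfl⟩ := (mem_seg _ _).1 hw.1
    have e1 := knFl1_end h ha (knFl1_eq h hc hp hq) s1 (knFl1_rest h hp hq hz he hw.2)
    rw [e1] at hw ⊢
    have hm : Meet (p, q) e := List.rel_of_pairwise_cons h1 he
    exact ⟨Or.inr rfl, (hm (a := c) ⟨hc, hw.2⟩).2⟩
  refine ⟨hk, ⟨by simp, ?_, ?_⟩, Or.inr ⟨p, q, a, t, rfl, rfl, ?_⟩⟩
  · simp only [List.nodup_cons, List.mem_cons, not_or]
    refine ⟨⟨fun e => ?_, n1, n2⟩, ⟨fun e => ?_, fun e => ?_⟩, n3, n4⟩
    · rw [← e, hp] at ha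
      exact lt_irrefl _ ha
    · rw [e, hq] at ha
      exact lt_irrefl _ ha
    · exact absurd (hz a e) (not_le.2 ha)
  · rw [sides_closeUp']
    refine List.Pairwise.cons (fun e he => ?_)
      (List.Pairwise.cons (key q (right_mem_segment _ _ _)) h1.of_cons)
    rcases List.mem_cons.1 he with rfl | he
    · exact knFl1_apex h n1 hp hq ha.ne'
    · exact (key p (left_mem_segment _ _ _) e he).swap_left
  · rintro w ⟨w1, e, he, w2⟩
    rw [sides_closeUp] at he
    rcases List.mem_cons.1 he with rfl | he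
    · exact w2
    · have e0 : ({p, q, a} : Set R3) = {a, q, p} := by
        ext v
        simp only [Set.mem_insert_iff, Set.mem_singleton_iff]
        tauto
      rw [e0] at w1
      obtain ⟨z, z1, s, -, s1, rfl⟩ := knFl1_tri w1
      rw [knFl1_end h ha (knFl1_eq h z1 hp hq) s1 (knFl1_rest h hp hq hz he w2)]
      exact z1

theorem isKnot_tri (h : R3 →ₗ[ℝ] ℝ) {x y b : R3} (hxy : x ≠ y) (hx : h x = 0) (hy : h y = 0)
    (hb : h b ≠ 0) : IsKnot [y, x, b] := by
  have key : ∀ c, c = y ∨ c = x → Meet (y, x) (c, b) := by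
    intro c hc w hw
    obtain ⟨s, -, -, rfl⟩ := (mem_seg _ _).1 hw.2
    have e1 := knFl1_eq h hw.1 hy hx
    have e2 : h c = 0 := by rcases hc with rfl | rfl <;> assumption
    rw [knFl1_h, e2, zero_add, sub_zero] at e1
    rw [(mul_eq_zero.1 e1).resolve_right hb, pt_zero]
    exact ⟨hc, Or.inl rfl⟩
  have n1 : y ≠ b := fun e => hb (e ▸ hy)
  have n2 : x ≠ b := fun e => hb (e ▸ hx)
  refine ⟨le_rfl, by simp [hxy.symm, n1, n2], ?_⟩
  show [(y, x), (x, b), (b, y)].Pairwise Meet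
  simp only [List.pairwise_cons, List.mem_cons, List.not_mem_nil, or_false, forall_eq_or_imp,
    forall_eq, false_imp_iff, implies_true, List.Pairwise.nil, and_true]
  exact ⟨⟨key x (Or.inr rfl), (key y (Or.inl rfl)).swap_right⟩, knFl1_apex h hxy hx hy hb⟩

end Pool.Agent.Lib.MP_1f96ff_gt
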