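import Pool.Agent.Lib.MP_1f96ff_gt.KnFl1

namespace Pool.Agent.Lib.MP_1f96ff_gt

open Classical

/-! A polygon with at most one corner above and at most one below a plane is unknotted. -/

/-- repeated `cone_remove`: induction on `X` -/
theorem cone_run (h : R3 →ₗ[ℝ] ℝ) {a y : R3} {X t : List R3} (ht : t ≠ [])
    (hk : IsKnot (a :: (X ++ y :: t))) (ha : 0 < h a) (hX : ∀ x ∈ X, h x = 0) (hy : h y = 0)
    (hz : ∀ z ∈ t, h z ≤ 0) :
    IsKnot (a :: y :: t) ∧ (Unknotted (a :: y :: t) → Unknotted (a :: (X ++ y :: t))) := by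
  induction X with
  | nil => exact ⟨hk, id⟩
  | cons x X ih =>
    obtain ⟨y', t', e, h1, h2, h3⟩ : ∃ y' t', X ++ y :: t = y' :: t' ∧ t' ≠ [] ∧ h y' = 0 ∧
        ∀ z ∈ t', h z ≤ 0 := by
      rcases X with _ | ⟨x', X⟩
      · exact ⟨y, t, rfl, ht, hy, hz⟩
      · refine ⟨x', X ++ y :: t, rfl, by simp, hX _ (by simp), fun z hz' => ?_⟩
        rcases List.mem_append.1 hz' with h4 | h4
        · exact (hX z (by simp [h4])).le
        · rcases List.mem_cons.1 h4 with rfl | h4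
          exacts [hy.le, hz z h4]
    rw [List.cons_append, e] at hk ⊢
    have m := cone_remove h h1 hk ha (hX x (by simp)) h2 h3
    obtain ⟨k1, k2⟩ := ih (e ▸ m.1) fun z hz' => hX z (List.mem_cons_of_mem _ hz')
    exact ⟨k1, fun u => Unknotted.of_move' m (e ▸ k2 u)⟩

theorem knFl2_tri {a b c : R3} (hk : IsKnot [a, b, c]) : Unknotted [a, b, c] :=
  ⟨a, b, c, hk, Relation.EqvGen.refl _⟩

/-- one apex: write the rest as `X ++ [y, c]` -/
theorem flat_one (h : R3 →ₗ[ℝ] ℝ) {a : R3} {l : List R3} (hk : IsKnot (a :: l)) (ha : 0 < h a)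
    (hl : ∀ x ∈ l, h x = 0) : Unknotted (a :: l) := by
  have h3 := hk.1
  rcases l.eq_nil_or_concat' with rfl | ⟨l, c, rfl⟩
  · simp at h3
  rcases l.eq_nil_or_concat' with rfl | ⟨X, y, rfl⟩
  · simp at h3
  rw [List.append_assoc] at hk hl ⊢
  obtain ⟨k1, k2⟩ := cone_run h (t := [c]) (by simp) hk ha (fun x hx => hl x (by simp [hx]))
    (hl y (by simp)) fun z hz => (hl z (by simp at hz; simp [hz])).le
  exact k2 (knFl2_tri k1)

theorem knFl2_red (h : R3 →ₗ[ℝ] ℝ) {a b : R3} {X Y : List R3} (hk : IsKnot (a :: (X ++ b :: Y)))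
    (ha : 0 < h a) (hX : ∀ x ∈ X, h x = 0) (hY : ∀ z ∈ b :: Y, h z ≤ 0) :
    ∃ X' : List R3, (X' = [] ∨ ∃ x, h x = 0 ∧ X' = [x]) ∧ IsKnot (a :: (X' ++ b :: Y)) ∧
      (Unknotted (a :: (X' ++ b :: Y)) → Unknotted (a :: (X ++ b :: Y))) := by
  rcases X.eq_nil_or_concat' with rfl | ⟨X, x, rfl⟩
  · exact ⟨[], Or.inl rfl, hk, id⟩
  · rw [List.append_assoc] at hk ⊢
    exact ⟨[x], Or.inr ⟨x, hX x (by simp), rfl⟩, cone_run h (by simp) hk ha
      (fun z hz => hX z (by simp [hz])) (hX x (by simp)) hY⟩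

/-- Two apices. Shorten `X` to at most one point with `cone_run`, shift, shorten `Y` with `-h`.
What is left has three corners, or is `[b, y, a, x]`, a shift of `[y, a, x, b]`, which is
`cone_insert` applied to `isKnot_tri`. -/
theorem flat_two (h : R3 →ₗ[ℝ] ℝ) {a b : R3} {X Y : List R3} (hk : IsKnot (a :: (X ++ b :: Y)))
    (ha : 0 < h a) (hb : h b < 0) (hX : ∀ x ∈ X, h x = 0) (hY : ∀ x ∈ Y, h x = 0) :
    Unknotted (a :: (X ++ b :: Y)) := by
  obtain ⟨X', x1, k1, u1⟩ := knFl2_red h hk ha hX fun z hz => by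
    rcases List.mem_cons.1 hz with rfl | hz
    exacts [hb.le, (hY z hz).le]
  obtain ⟨k2, u2⟩ := IsKnot.append_comm (l1 := a :: X') (l2 := b :: Y) k1
  obtain ⟨Y', y1, k3, u3⟩ := knFl2_red (-h) (a := b) (b := a) (X := Y) (Y := X') k2
    (by simpa using hb) (by simpa using hY) fun z hz => by
      rw [LinearMap.neg_apply, neg_nonpos]
      rcases List.mem_cons.1 hz with rfl | hz
      · exact ha.le
      · rcases x1 with rfl | ⟨x, hx, rfl⟩
        · simp at hz
        · rw [List.mem_singleton.1 hz, hx]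
  refine u1 (u2 (u3 ?_))
  rcases x1 with rfl | ⟨x, hx, rfl⟩ <;> rcases y1 with rfl | ⟨y, hy, rfl⟩
  · simpa using k3.1
  · exact knFl2_tri k3
  · exact knFl2_tri k3
  · have hy' : h y = 0 := by simpa using hy
    have hxy : x ≠ y := by
      rintro rfl
      simpa using k3.2.1
    have k4 := isKnot_tri h hxy hx hy' hb.ne
    exact (IsKnot.append_comm (l1 := [b]) (l2 := [y, a, x]) k3).2 (Unknotted.of_move'
      (cone_insert h k4 ha hy' hx (by simpa using hb.le)) (knFl2_tri k4))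

theorem knFl2_pos (h : R3 →ₗ[ℝ] ℝ) {l : List R3} (hk : IsKnot l)
    (h1 : ∀ x ∈ l, ∀ y ∈ l, 0 < h x → 0 < h y → x = y)
    (h2 : ∀ x ∈ l, ∀ y ∈ l, h x < 0 → h y < 0 → x = y) {a : R3} (hal : a ∈ l) (ha : 0 < h a) :
    Unknotted l := by
  obtain ⟨s, t, rfl⟩ := List.append_of_mem hal
  obtain ⟨k1, u1⟩ := hk.append_comm
  refine u1 ?_
  have hm : ∀ x ∈ t ++ s, x ∈ s ++ a :: t := fun x hx => by
    simp only [List.mem_append, List.mem_cons] at hx ⊢
    tauto
  rw [List.cons_append] at k1 ⊢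
  generalize t ++ s = r at k1 hm
  have hn := List.nodup_cons.1 k1.2.1
  have h3 : ∀ x ∈ r, h x ≤ 0 := fun x hx => not_lt.1 fun h4 =>
    hn.1 (h1 x (hm x hx) a hal h4 ha ▸ hx)
  by_cases hb : ∃ b ∈ r, h b < 0
  · obtain ⟨b, hbr, hb⟩ := hb
    obtain ⟨X, Y, rfl⟩ := List.append_of_mem hbr
    have h5 := List.nodup_cons.1 (List.nodup_middle.1 hn.2)
    have h6 : ∀ x ∈ X ++ Y, h x = 0 := fun x hx => by
      have h7 : x ∈ X ++ b :: Y := by
        simp only [List.mem_append, List.mem_cons] at hx ⊢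
        tauto
      exact le_antisymm (h3 x h7) (not_lt.1 fun h4 =>
        h5.1 (h2 x (hm x h7) b (hm b hbr) h4 hb ▸ hx))
    exact flat_two h k1 ha hb (fun x hx => h6 x (List.mem_append_left _ hx))
      fun x hx => h6 x (List.mem_append_right _ hx)
  · push Not at hb
    exact flat_one h k1 ha fun x hx => le_antisymm (h3 x hx) (hb x hx)

/-- Cases by `List.append_of_mem` and `IsKnot.append_comm`; with no apex insert `a0`. -/
theorem flat (h : R3 →ₗ[ℝ] ℝ) (a0 : R3) (h0 : 0 < h a0) {l : List R3} (hk : IsKnot l)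
    (h1 : ∀ x ∈ l, ∀ y ∈ l, 0 < h x → 0 < h y → x = y)
    (h2 : ∀ x ∈ l, ∀ y ∈ l, h x < 0 → h y < 0 → x = y) : Unknotted l := by
  by_cases ha : ∃ a ∈ l, 0 < h a
  · obtain ⟨a, hal, ha⟩ := ha
    exact knFl2_pos h hk h1 h2 hal ha
  by_cases hb : ∃ b ∈ l, h b < 0
  · obtain ⟨b, hbl, hb⟩ := hb
    exact knFl2_pos (-h) hk (by simpa using h2) (by simpa using h1) hbl (by simpa using hb)
  push Not at ha hb
  have hz : ∀ x ∈ l, h x = 0 := fun x hx => le_antisymm (ha x hx) (hb x hx)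
  have h3 := hk.1
  rcases l with _ | ⟨p, _ | ⟨q, t⟩⟩
  · simp at h3
  · simp at h3
  have m := cone_insert h hk h0 (hz p (by simp)) (hz q (by simp))
    fun z hz' => ha z (by simp [hz'])
  obtain ⟨k1, u1⟩ := IsKnot.append_comm (l1 := [p]) (l2 := a0 :: q :: t) m.2.1
  refine Unknotted.of_move m (u1 (flat_one h k1 h0 fun x hx => hz x ?_))
  simp only [List.append_eq, List.mem_append, List.mem_cons, List.cons_append,
    List.not_mem_nil] at hx ⊢
  tauto

end Pool.Agent.Lib.MP_1f96ff_gt
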