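import Pool.Agent.Lib.MP_1f96ff_gt.KnCo
import Pool.Agent.Lib.MP_1f96ff_gt.KnSeg2

namespace Pool.Agent.Lib.MP_1f96ff_gt

open Classical

/-! Gauss parity, geometric part. `e0 = (p, q)` crosses the side `f` of the rest at parameters
`s0 = par e0 f`, `s1 = par f e0`. The closed curve `A` runs from the crossing along `e0` to `q`,
through the sides before `f`, and along `f` to the crossing; `B` is the complement. -/

/-- parameter interval of the part of `g` in `A` -/
noncomputable def gA (F : Fr) (e0 f : Seg) (P : List Seg) (g : Seg) : ℝ × ℝ :=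
  if g = e0 then (F.par e0 f, 1) else if g = f then (0, F.par f e0)
  else if idx P g < idx P f then (0, 1) else (0, 0)

/-- parameter interval of the part of `g` in `B` -/
noncomputable def gB (F : Fr) (e0 f : Seg) (P : List Seg) (g : Seg) : ℝ × ℝ :=
  if g = e0 then (0, F.par e0 f) else if g = f then (F.par f e0, 1)
  else if idx P f < idx P g then (0, 1) else (0, 0)

/-- `B` is closed in projection: for `G` depending only on the projection the ends cancel
(`sum_fs_cons`, `IsKnot.tele_after`, `cr.π_eq`). -/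
theorem gauss_closedB {F : Fr} {p q : R3} {t : List R3} (hk : IsKnot (p :: q :: t)) {f : Seg}
    (hf : f ∈ rest p q t) (hc : F.cr (p, q) f) (G : R3 → ZMod 2)
    (hG : ∀ x y, F.π x = F.π y → G x = G y) :
    ∑ k ∈ fs ((p, q) :: rest p q t), (G (pt k (gB F (p, q) f (rest p q t) k).1) +
      G (pt k (gB F (p, q) f (rest p q t) k).2)) = 0 := by
  have hn : (p, q) ∉ rest p q t := (List.nodup_cons.mp hk.good'.nodup).1
  have key : ∀ k ∈ fs (rest p q t), G (pt k (gB F (p, q) f (rest p q t) k).1) +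
      G (pt k (gB F (p, q) f (rest p q t) k).2) =
      (if k = f then G (pt f (F.par f (p, q))) + G f.2 else 0) +
        lt2 (idx (rest p q t) f) (idx (rest p q t) k) * (G k.1 + G k.2) := by
    intro k hkm
    have h1 : k ≠ (p, q) := fun h => hn (h ▸ mem_fs.mp hkm)
    rw [gB, if_neg h1]
    by_cases h2 : k = f
    · subst h2
      simp [lt2_of_le]
    · rw [if_neg h2, if_neg h2]
      by_cases h3 : idx (rest p q t) f < idx (rest p q t) k
      · simp [h3, lt2_of_lt h3]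
      · simp [h3, lt2_of_le (not_lt.mp h3), two_zero]
  rw [sum_fs_cons hn, Finset.sum_congr rfl key, Finset.sum_add_distrib, hk.tele_after hf,
    Finset.sum_ite_eq', if_pos (mem_fs.mpr hf), gB, if_pos rfl, pt_zero, hG _ _ hc.π_eq]
  linear_combination two_zero (G p) + two_zero (G f.2) + two_zero (G (pt f (F.par f (p, q))))

/-- the same for `A` (`IsKnot.tele_before`) -/
theorem gauss_closedA {F : Fr} {p q : R3} {t : List R3} (hk : IsKnot (p :: q :: t)) {f : Seg}
    (hf : f ∈ rest p q t) (hc : F.cr (p, q) f) (G : R3 → ZMod 2)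
    (hG : ∀ x y, F.π x = F.π y → G x = G y) :
    ∑ g ∈ fs ((p, q) :: rest p q t), (G (pt g (gA F (p, q) f (rest p q t) g).1) +
      G (pt g (gA F (p, q) f (rest p q t) g).2)) = 0 := by
  have hn : (p, q) ∉ rest p q t := (List.nodup_cons.mp hk.good'.nodup).1
  have key : ∀ k ∈ fs (rest p q t), G (pt k (gA F (p, q) f (rest p q t) k).1) +
      G (pt k (gA F (p, q) f (rest p q t) k).2) =
      (if k = f then G f.1 + G (pt f (F.par f (p, q))) else 0) +
        lt2 (idx (rest p q t) k) (idx (rest p q t) f) * (G k.1 + G k.2) := by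
    intro k hkm
    have h1 : k ≠ (p, q) := fun h => hn (h ▸ mem_fs.mp hkm)
    rw [gA, if_neg h1]
    by_cases h2 : k = f
    · subst h2
      simp [lt2_of_le]
    · rw [if_neg h2, if_neg h2]
      by_cases h3 : idx (rest p q t) k < idx (rest p q t) f
      · simp [h3, lt2_of_lt h3]
      · simp [h3, lt2_of_le (not_lt.mp h3), two_zero]
  rw [sum_fs_cons hn, Finset.sum_congr rfl key, Finset.sum_add_distrib, hk.tele_before hf,
    Finset.sum_ite_eq', if_pos (mem_fs.mpr hf), gA, if_pos rfl, pt_one, hG _ _ hc.π_eq]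
  linear_combination two_zero (G q) + two_zero (G f.1) + two_zero (G (pt f (F.par f (p, q))))

/-- corners of `A` -/
def knG2_cA (p q : R3) (t : List R3) (f : Seg) (c : R3) : Prop :=
  c = q ∨ ∃ g ∈ rest p q t, (idx (rest p q t) g ≤ idx (rest p q t) f ∧ c = g.1) ∨
    (idx (rest p q t) g < idx (rest p q t) f ∧ c = g.2)

/-- corners of `B` -/
def knG2_cB (p q : R3) (t : List R3) (f : Seg) (c : R3) : Prop :=
  c = p ∨ ∃ k ∈ rest p q t, (idx (rest p q t) f ≤ idx (rest p q t) k ∧ c = k.2) ∨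
    (idx (rest p q t) f < idx (rest p q t) k ∧ c = k.1)

theorem knG2_disj {p q : R3} {t : List R3} (hk : IsKnot (p :: q :: t)) {f : Seg}
    (hf : f ∈ rest p q t) (c : R3) (hA : knG2_cA p q t f c) (hB : knG2_cB p q t f c) : False := by
  rcases hA with rfl | ⟨g, hg, ⟨h1, rfl⟩ | ⟨h1, rfl⟩⟩ <;>
    rcases hB with h | ⟨k, hkm, ⟨h2, h⟩ | ⟨h2, h⟩⟩
  · exact hk.good'.1 _ List.mem_cons_self h.symm
  · exact hk.rest_snd_ne hkm h.symm
  · have := hk.idx_first hkm h.symm
    linarith [idx_nonneg (rest p c t) f]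
  · exact hk.rest_fst_ne hg h
  · have := hk.chain_idx hkm hg h.symm
    linarith
  · rw [hk.rest_fst_inj hg hkm h] at h1
    linarith
  · have := hk.idx_last hg h hf
    linarith
  · rw [hk.rest_snd_inj hg hkm h] at h1
    linarith
  · have := hk.chain_idx hg hkm h
    linarith [idx_succ_le h1]

theorem knG2_end {F : Fr} {S : Set R3} (hg : F.Gen S) {Q : List Seg} (hQ : Good Q)
    (hS : ∀ e ∈ Q, In S e) {e f g k : Seg} (he : e ∈ Q) (hf : f ∈ Q) (hc : F.cr e f)
    (hgm : g ∈ Q) (hkm : k ∈ Q) (hgk : g ≠ k) (hn : ¬ ((g = e ∨ g = f) ∧ (k = e ∨ k = f)))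
    {X Y : R3 → Prop} (hXY : ∀ c, X c → Y c → False) {s t : ℝ}
    (hs : (s = 0 ∧ X g.1) ∨ (s = 1 ∧ X g.2) ∨ (g = e ∧ s = F.par e f) ∨ (g = f ∧ s = F.par f e))
    (t0 : 0 ≤ t) (t1 : t ≤ 1) (h0 : t = 0 → Y k.1) (h1 : t = 1 → Y k.2) :
    F.π (pt g s) ≠ F.π (pt k t) := by
  intro h
  have hm := hQ.meet hgm hkm hgk
  have key : ∀ s, 0 ≤ s → s ≤ 1 → pt g s ∈ S → X (pt g s) → F.π (pt g s) ≠ F.π (pt k t) := by
    intro s s0 s1 hs hX h
    have e1 := hg.vert k (hS k hkm) _ hs t h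
    rcases (hm.ends s0 s1 t0 t1 e1).2 with e2 | e2
    · exact hXY _ hX (e2 ▸ h0 (pt_inj (hQ.1 k hkm) (by rw [← e1, e2, pt_zero])))
    · exact hXY _ hX (e2 ▸ h1 (pt_inj (hQ.1 k hkm) (by rw [← e1, e2, pt_one])))
  rcases hs with ⟨rfl, hX⟩ | ⟨rfl, hX⟩ | ⟨rfl, rfl⟩ | ⟨rfl, rfl⟩
  · exact key 0 le_rfl zero_le_one (by rw [pt_zero]; exact (hS g hgm).1) (by rwa [pt_zero]) h
  · exact key 1 zero_le_one le_rfl (by rw [pt_one]; exact (hS g hgm).2) (by rwa [pt_one]) h
  · obtain ⟨c1, c2, -⟩ := hg.cr_of (hS g hgm) (hS k hkm) hm hc.nd hc.2.1 hc.2.2.1 t0 t1 h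
    exact hg.par_ne (hS g hgm) (hS f hf) (hS k hkm)
      (hQ.meet hf hkm fun e => hn ⟨Or.inl rfl, Or.inr e.symm⟩) hc c1 c2
  · obtain ⟨c1, c2, -⟩ := hg.cr_of (hS g hgm) (hS k hkm) hm hc.symm.nd hc.2.2.2.1 hc.2.2.2.2
      t0 t1 h
    exact hg.par_ne (hS g hgm) (hS e he) (hS k hkm)
      (hQ.meet he hkm fun e => hn ⟨Or.inr rfl, Or.inl e.symm⟩) hc.symm c1 c2

theorem knG2_A {F : Fr} {p q : R3} {t : List R3} {f : Seg} (hf : f ∈ rest p q t)
    (hc : F.cr (p, q) f) {g : Seg} (hgm : g ∈ (p, q) :: rest p q t) {a : ℝ × ℝ}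
    (ha : gA F (p, q) f (rest p q t) g = a) : a = (0, 0) ∨ (0 ≤ a.1 ∧ a.1 < a.2 ∧ a.2 ≤ 1 ∧
      (a.1 = 0 → knG2_cA p q t f g.1) ∧ (a.2 = 1 → knG2_cA p q t f g.2) ∧
      (a.1 = 0 ∨ (g = (p, q) ∧ a.1 = F.par (p, q) f)) ∧
      (a.2 = 1 ∨ (g = f ∧ a.2 = F.par f (p, q))) ∧
      (g = (p, q) ∨ g = f ∨ idx (rest p q t) g < idx (rest p q t) f)) := by
  unfold gA at ha
  split_ifs at ha with h1 h2 h3 <;> subst ha
  · subst h1
    exact Or.inr ⟨hc.2.1.le, hc.2.2.1, le_rfl, fun h => absurd h hc.2.1.ne', fun _ => Or.inl rfl,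
      Or.inr ⟨rfl, rfl⟩, Or.inl rfl, Or.inl rfl⟩
  · subst h2
    exact Or.inr ⟨le_rfl, hc.2.2.2.1, hc.2.2.2.2.le, fun _ => Or.inr ⟨g, hf, Or.inl ⟨le_rfl, rfl⟩⟩,
      fun h => absurd h hc.2.2.2.2.ne, Or.inl rfl, Or.inr ⟨rfl, rfl⟩, Or.inr (Or.inl rfl)⟩
  · have hg := (List.mem_cons.mp hgm).resolve_left h1
    exact Or.inr ⟨le_rfl, zero_lt_one, le_rfl, fun _ => Or.inr ⟨g, hg, Or.inl ⟨h3.le, rfl⟩⟩,
      fun _ => Or.inr ⟨g, hg, Or.inr ⟨h3, rfl⟩⟩, Or.inl rfl, Or.inl rfl, Or.inr (Or.inr h3)⟩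
  · exact Or.inl rfl

theorem knG2_B {F : Fr} {p q : R3} {t : List R3} {f : Seg} (hf : f ∈ rest p q t)
    (hc : F.cr (p, q) f) {g : Seg} (hgm : g ∈ (p, q) :: rest p q t) {a : ℝ × ℝ}
    (ha : gB F (p, q) f (rest p q t) g = a) : a = (0, 0) ∨ (0 ≤ a.1 ∧ a.1 < a.2 ∧ a.2 ≤ 1 ∧
      (a.1 = 0 → knG2_cB p q t f g.1) ∧ (a.2 = 1 → knG2_cB p q t f g.2) ∧
      (a.1 = 0 ∨ (g = f ∧ a.1 = F.par f (p, q))) ∧
      (a.2 = 1 ∨ (g = (p, q) ∧ a.2 = F.par (p, q) f)) ∧
      (g = (p, q) ∨ g = f ∨ idx (rest p q t) f < idx (rest p q t) g)) := by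
  unfold gB at ha
  split_ifs at ha with h1 h2 h3 <;> subst ha
  · subst h1
    exact Or.inr ⟨le_rfl, hc.2.1, hc.2.2.1.le, fun _ => Or.inl rfl, fun h => absurd h hc.2.2.1.ne,
      Or.inl rfl, Or.inr ⟨rfl, rfl⟩, Or.inl rfl⟩
  · subst h2
    exact Or.inr ⟨hc.2.2.2.1.le, hc.2.2.2.2, le_rfl, fun h => absurd h hc.2.2.2.1.ne',
      fun _ => Or.inr ⟨g, hf, Or.inl ⟨le_rfl, rfl⟩⟩, Or.inr ⟨rfl, rfl⟩, Or.inl rfl,
      Or.inr (Or.inl rfl)⟩
  · have hg := (List.mem_cons.mp hgm).resolve_left h1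
    exact Or.inr ⟨le_rfl, zero_lt_one, le_rfl, fun _ => Or.inr ⟨g, hg, Or.inr ⟨h3, rfl⟩⟩,
      fun _ => Or.inr ⟨g, hg, Or.inl ⟨h3.le, rfl⟩⟩, Or.inl rfl, Or.inl rfl, Or.inr (Or.inr h3)⟩
  · exact Or.inl rfl

/-- The pair identity for the `A` part of `g` and the `B` part of `k`, in coordinates `M` with
`M z = (0,0)` at the crossing `z = pt e0 s0`, `M q = (1,0)`, `M f.1 = (1,1)`.
Cases: a degenerate part (`rays_deg_left/right`, the indicator is false); `g, k ∈ {e0, f}`: the `A`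
parts have first coordinate `≥ 0`, the `B` parts `≤ 0` (`M p`, `M f.2` are negative multiples of
`M q`, `M f.1`), use `rays_sep`, and the indicator is false (`not_cr_self`, strict inequalities);
otherwise `g ≠ k`, `Meet g k`, and `pair_id` applies: an end of a part is a corner of the polygon
or the crossing point; a corner projects to a point of another side only if it is an end of it
(`Gen.vert`, `Meet.ends`), and the corners of `A` (the `k.1` with `k` in `P` not after `f`) differ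
from those of `B` (the `k.2` with `k` not before `f`; use `teleB`-free arguments:
`IsKnot.rest_fst_inj`, `rest_snd_inj`, `chain_idx` below); the crossing point lies on no third side
(`Gen.cr_of`, `Gen.par_ne`). -/
theorem gauss_pair {F : Fr} {S : Set R3} (hg : F.Gen S) {p q : R3} {t : List R3}
    (hS : ∀ x ∈ p :: q :: t, x ∈ S) (hk : IsKnot (p :: q :: t)) {f : Seg} (hf : f ∈ rest p q t)
    (hc : F.cr (p, q) f) {M : R3 → P2} (hM : F.Co M)
    (h0 : M (pt (p, q) (F.par (p, q) f)) = (0, 0)) (h1 : M q = (1, 0)) (h2 : M f.1 = (1, 1))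
    {g k : Seg} (hgm : g ∈ (p, q) :: rest p q t) (hkm : k ∈ (p, q) :: rest p q t) :
    ind (F.cr g k ∧ (gA F (p, q) f (rest p q t) g).1 < F.par g k ∧
        F.par g k < (gA F (p, q) f (rest p q t) g).2 ∧
        (gB F (p, q) f (rest p q t) k).1 < F.par k g ∧
        F.par k g < (gB F (p, q) f (rest p q t) k).2) =
      rays (sub2 M g (gA F (p, q) f (rest p q t) g).1 (gA F (p, q) f (rest p q t) g).2)
        (sub2 M k (gB F (p, q) f (rest p q t) k).1 (gB F (p, q) f (rest p q t) k).2) := by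
  have hQ := hk.good'
  have hn : (p, q) ∉ rest p q t := (List.nodup_cons.mp hQ.nodup).1
  have hfe : f ≠ (p, q) := fun h => hn (h ▸ hf)
  have hIn : ∀ e ∈ (p, q) :: rest p q t, In S e := fun e he =>
    in_of_mem_closeUp hS (by rwa [sides_closeUp])
  by_cases hb : (g = (p, q) ∨ g = f) ∧ (k = (p, q) ∨ k = f)
  · have h0' : M (pt f (F.par f (p, q))) = (0, 0) := by rw [← h0, hM.eq]; exact hc.π_eq.symm
    have hp : (M p).1 ≤ 0 := by
      have := congrArg Prod.fst h0
      rw [hM.aff, pt2_fst, h1] at this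
      simp only at this
      nlinarith [hc.2.1, hc.2.2.1]
    have hf2 : (M f.2).1 ≤ 0 := by
      have := congrArg Prod.fst h0'
      rw [hM.aff, pt2_fst, h2] at this
      simp only at this
      nlinarith [hc.2.2.2.1, hc.2.2.2.2]
    rw [rays_sep (c := 0), ind_false]
    · rcases hb with ⟨rfl | rfl, rfl | rfl⟩
      · exact fun h => Fr.not_cr_self _ h.1
      · intro h
        have := h.2.1
        rw [gA, if_pos rfl] at this
        exact lt_irrefl _ this
      · intro h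
        have := h.2.2.1
        rw [gA, if_neg hfe, if_pos rfl] at this
        exact lt_irrefl _ this
      · exact fun h => Fr.not_cr_self _ h.1
    · rcases hb.1 with rfl | rfl <;> simp [sub2, gA, hfe, h0, h2]
    · rcases hb.1 with rfl | rfl <;> simp [sub2, gA, hfe, h0', h1]
    · rcases hb.2 with rfl | rfl <;> simp [sub2, gB, hfe, h0', hp]
    · rcases hb.2 with rfl | rfl <;> simp [sub2, gB, hfe, h0, hf2]
  · generalize ha : gA F (p, q) f (rest p q t) g = a
    generalize hb' : gB F (p, q) f (rest p q t) k = b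
    rcases knG2_A hf hc hgm ha with rfl | ⟨a0, a1, a2, a3, a4, a5, a6, a7⟩
    · rw [ind_false fun h => lt_asymm h.2.1 h.2.2.1, sub2, rays_deg_left]
    rcases knG2_B hf hc hkm hb' with rfl | ⟨b0, b1, b2, b3, b4, b5, b6, b7⟩
    · rw [ind_false fun h => lt_asymm h.2.2.2.1 h.2.2.2.2]
      exact (rays_deg_right _ _).symm
    have hgk : g ≠ k := by
      rintro rfl
      rcases a7 with h | h | h
      · exact hb ⟨Or.inl h, Or.inl h⟩
      · exact hb ⟨Or.inr h, Or.inr h⟩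
      · rcases b7 with h' | h' | h'
        · exact hb ⟨Or.inl h', Or.inl h'⟩
        · exact hb ⟨Or.inr h', Or.inr h'⟩
        · exact lt_asymm h h'
    have hf' : f ∈ (p, q) :: rest p q t := List.mem_cons_of_mem _ hf
    refine pair_id hg hM (hIn g hgm) (hIn k hkm) (hQ.meet hgm hkm hgk) (hQ.1 g hgm) a0 a1 a2 b0 b1
      b2 (fun s hs u u0 u1 => ?_) fun u hu s s0 s1 => Ne.symm ?_
    · refine knG2_end hg hQ hIn List.mem_cons_self hf' hc hgm hkm hgk hb (knG2_disj hk hf) ?_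
        (b0.trans u0) (u1.trans b2) (fun h => b3 (by linarith)) fun h => b4 (by linarith)
      rcases hs with rfl | rfl
      · exact a5.elim (fun h => Or.inl ⟨h, a3 h⟩) fun h => Or.inr (Or.inr (Or.inl h))
      · exact a6.elim (fun h => Or.inr (Or.inl ⟨h, a4 h⟩)) fun h => Or.inr (Or.inr (Or.inr h))
    · refine knG2_end hg hQ hIn List.mem_cons_self hf' hc hkm hgm hgk.symm (fun h => hb h.symm)
        (fun c h h' => knG2_disj hk hf c h' h) ?_
        (a0.trans s0) (s1.trans a2) (fun h => a3 (by linarith)) fun h => a4 (by linarith)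
      rcases hu with rfl | rfl
      · exact b5.elim (fun h => Or.inl ⟨h, b3 h⟩) fun h => Or.inr (Or.inr (Or.inr h))
      · exact b6.elim (fun h => Or.inr (Or.inl ⟨h, b4 h⟩)) fun h => Or.inr (Or.inr (Or.inl h))

end Pool.Agent.Lib.MP_1f96ff_gt
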