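import Pool.Agent.Lib.MP_1f96ff_gt.KnB1

namespace Pool.Agent.Lib.MP_1f96ff_gt

open Classical

/-! Existence of a generic frame.

Take the direction `d = (τ, τ^3, 1)` and `π x = (x0 - τ x2 + ρ (x1 - τ^3 x2), x1 - τ^3 x2)`,
`h x = x2`. Then `π x = π y` iff `x - y = λ • d` (with `λ = x2 - y2`), and
`D e f = [e.2 - e.1, f.2 - f.1, d]` (triple product `tp`). -/

/-- triple product in coordinates -/
def tp (a b c : R3) : ℝ :=
  a 0 * (b 1 * c 2 - b 2 * c 1) - a 1 * (b 0 * c 2 - b 2 * c 0) + a 2 * (b 0 * c 1 - b 1 * c 0)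

/-- a quadratic form in the three coordinates -/
def IsQuad (q : R3 → ℝ) : Prop :=
  ∃ c1 c2 c3 c4 c5 c6 : ℝ, ∀ w : R3, q w = c1 * w 0 ^ 2 + c2 * (w 0 * w 1) + c3 * w 1 ^ 2 +
    c4 * (w 0 * w 2) + c5 * (w 1 * w 2) + c6 * w 2 ^ 2

/-- On the curve `(τ, τ^3, 1)` the six monomials have the different degrees 2,4,6,1,3,0, so a
nonzero form gives a nonzero polynomial in `τ`, which has finitely many roots. -/
theorem IsQuad.finite {q : R3 → ℝ} (h : IsQuad q) (hne : ∃ w, q w ≠ 0) :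
    {τ : ℝ | q !₂[τ, τ ^ 3, 1] = 0}.Finite := by
  obtain ⟨c1, c2, c3, c4, c5, c6, h⟩ := h
  obtain ⟨w, hw⟩ := hne
  open Polynomial in
  have hp : (C c1 * X ^ 2 + C c2 * X ^ 4 + C c3 * X ^ 6 + C c4 * X ^ 1 + C c5 * X ^ 3 +
      C c6 * X ^ 0 : ℝ[X]) ≠ 0 := by
    intro e
    have a : ∀ n, (C c1 * X ^ 2 + C c2 * X ^ 4 + C c3 * X ^ 6 + C c4 * X ^ 1 + C c5 * X ^ 3 +
      C c6 * X ^ 0 : ℝ[X]).coeff n = 0 := fun n => by rw [e, coeff_zero]
    have a0 := a 0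
    have a1 := a 1
    have a2 := a 2
    have a3 := a 3
    have a4 := a 4
    have a6 := a 6
    simp only [coeff_add, coeff_C_mul_X_pow] at a0 a1 a2 a3 a4 a6
    norm_num at a0 a1 a2 a3 a4 a6
    apply hw
    rw [h, a0, a1, a2, a3, a4, a6]
    ring
  refine (finite_setOfPred_isRoot hp).subset fun τ hτ => ?_
  have h1 : q !₂[τ, τ ^ 3, 1] = 0 := hτ
  rw [h] at h1
  simp at h1
  simp
  linear_combination h1

/-- A direction off the zero sets of finitely many nonzero forms. -/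
theorem exists_dir {ι : Type} (I : Finset ι) (q : ι → R3 → ℝ) (h : ∀ i ∈ I, IsQuad (q i)) :
    ∃ τ : ℝ, ∀ i ∈ I, q i !₂[τ, τ ^ 3, 1] = 0 → ∀ w, q i w = 0 := by
  have hfin : (⋃ i ∈ (I : Set ι), {τ : ℝ | q i !₂[τ, τ ^ 3, 1] = 0 ∧ ∃ w, q i w ≠ 0}).Finite := by
    refine I.finite_toSet.biUnion fun i hi => ?_
    by_cases hw : ∃ w, q i w ≠ 0
    · exact ((h i hi).finite hw).subset fun τ hτ => hτ.1
    · exact Set.finite_empty.subset fun τ hτ => hw hτ.2
  obtain ⟨τ, hτ⟩ := hfin.exists_notMem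
  refine ⟨τ, fun i hi h0 w => ?_⟩
  by_contra hw
  exact hτ (Set.mem_biUnion hi ⟨h0, w, hw⟩)

/-- a linear form in the three coordinates -/
def knGen_Lin (l : R3 → ℝ) : Prop := ∃ a b c : ℝ, ∀ w : R3, l w = a * w 0 + b * w 1 + c * w 2

theorem knGen_mul {l l' : R3 → ℝ} (h : knGen_Lin l) (h' : knGen_Lin l') :
    IsQuad fun w => l w * l' w := by
  obtain ⟨a, b, c, h⟩ := h
  obtain ⟨a', b', c', h'⟩ := h'
  exact ⟨a * a', a * b' + b * a', b * b', a * c' + c * a', b * c' + c * b', c * c', fun w => by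
    simp only [h, h']; ring⟩

theorem knGen_add {q q' : R3 → ℝ} (h : IsQuad q) (h' : IsQuad q') :
    IsQuad fun w => q w + q' w := by
  obtain ⟨a1, a2, a3, a4, a5, a6, h⟩ := h
  obtain ⟨b1, b2, b3, b4, b5, b6, h'⟩ := h'
  exact ⟨a1 + b1, a2 + b2, a3 + b3, a4 + b4, a5 + b5, a6 + b6, fun w => by simp only [h, h']; ring⟩

theorem knGen_lin3 (a b : R3) : knGen_Lin fun w => tp a b w :=
  ⟨a 1 * b 2 - a 2 * b 1, a 2 * b 0 - a 0 * b 2, a 0 * b 1 - a 1 * b 0, fun w => by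
    simp only [tp]; ring⟩

theorem knGen_lin2 (a b : R3) : knGen_Lin fun w => tp a w b :=
  ⟨a 2 * b 1 - a 1 * b 2, a 0 * b 2 - a 2 * b 0, a 1 * b 0 - a 0 * b 1, fun w => by
    simp only [tp]; ring⟩

theorem knGen_linz : knGen_Lin fun w => w 2 := ⟨0, 0, 1, fun w => by ring⟩

/-- the form of three points -/
def knGen_f1 (x : R3 × R3 × R3) (w : R3) : ℝ := tp (x.2.1 - x.1) (x.2.2 - x.1) w * w 2

/-- the form of two points -/
noncomputable def knGen_f2 (x : R3 × R3) (w : R3) : ℝ := tp (x.2 - x.1) !₂[0, 1, 0] w * w 2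

/-- the form of three lines -/
def knGen_Q (v1 v2 v3 p1 p2 p3 w : R3) : ℝ :=
  tp v2 v3 w * tp v1 w p1 + tp v3 v1 w * tp v2 w p2 + tp v1 v2 w * tp v3 w p3

/-- the form of three segments -/
def knGen_f3 (x : Seg × Seg × Seg) (w : R3) : ℝ :=
  knGen_Q (x.1.2 - x.1.1) (x.2.1.2 - x.2.1.1) (x.2.2.2 - x.2.2.1) x.1.1 x.2.1.1 x.2.2.1 w

theorem knGen_Q_eq (v1 v2 v3 x d w : R3) (s t u l2 l3 : ℝ) :
    knGen_Q v1 v2 v3 (x - s • v1) (x + l2 • d - t • v2) (x + l3 • d - u • v3) w =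
      l2 * (tp v3 v1 w * tp v2 w d) + l3 * (tp v1 v2 w * tp v3 w d) := by
  simp only [knGen_Q, tp, PiLp.add_apply, PiLp.sub_apply, PiLp.smul_apply, smul_eq_mul]
  ring

/-- the frame with parameters `τ`, `ρ` -/
noncomputable def knGen_fr (τ ρ : ℝ) : Fr where
  π :=
    { toFun := fun x => (x 0 - τ * x 2 + ρ * (x 1 - τ ^ 3 * x 2), x 1 - τ ^ 3 * x 2)
      map_add' := fun x y => Prod.ext (by simp; ring) (by simp; ring)
      map_smul' := fun a x => Prod.ext (by simp; ring) (by simp; ring) }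
  h :=
    { toFun := fun x => x 2
      map_add' := fun x y => by simp
      map_smul' := fun a x => by simp }
  inj := fun x y h1 h2 => by
    have a1 : x 0 - τ * x 2 + ρ * (x 1 - τ ^ 3 * x 2) =
        y 0 - τ * y 2 + ρ * (y 1 - τ ^ 3 * y 2) := congrArg Prod.fst h1
    have a2 : x 1 - τ ^ 3 * x 2 = y 1 - τ ^ 3 * y 2 := congrArg Prod.snd h1
    have a3 : x 2 = y 2 := h2
    ext i
    fin_cases i
    · show x 0 = y 0
      linear_combination a1 - ρ * a2 + τ * a3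
    · show x 1 = y 1
      linear_combination a2 + τ ^ 3 * a3
    · exact a3

theorem knGen_π (τ ρ : ℝ) (x : R3) : (knGen_fr τ ρ).π x =
    (x 0 - τ * x 2 + ρ * (x 1 - τ ^ 3 * x 2), x 1 - τ ^ 3 * x 2) := rfl

theorem knGen_D (τ ρ : ℝ) (e f : Seg) :
    (knGen_fr τ ρ).D e f = tp (e.2 - e.1) (f.2 - f.1) !₂[τ, τ ^ 3, 1] := by
  simp [Fr.D, det2, knGen_π, tp]
  ring

theorem knGen_fib {τ ρ : ℝ} {x y : R3} (h : (knGen_fr τ ρ).π x = (knGen_fr τ ρ).π y) :
    y = x + (y 2 - x 2) • !₂[τ, τ ^ 3, 1] := by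
  refine (knGen_fr τ ρ).inj _ _ ?_ ?_
  · rw [← h, knGen_π, knGen_π]
    exact Prod.ext (by simp; ring) (by simp; ring)
  · show y 2 = (x + (y 2 - x 2) • (!₂[τ, τ ^ 3, 1] : R3)) 2
    simp

/-- Use `exists_dir` three times or once with a sum type of indices, for the forms
(1) `w ↦ tp (b - a) (c - a) w * w 2` (a, b, c in S),
(2) `w ↦ |(b - a) × w|^2` (sum of the three squared components; it vanishes for all `w` only
if `a = b`),
(3) for three segments with `v_i = e_i.2 - e_i.1`, `p_i = e_i.1`: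
`Q w = tp v2 v3 w * tp v1 w p1 + tp v3 v1 w * tp v2 w p2 + tp v1 v2 w * tp v3 w p3`.
`vert`: `c - pt e t = λ • d` gives form (1) `= 0` at `d`, so `(b - a) × (c - a) = 0`, so
`λ (b - a) × d = 0`; if `λ ≠ 0` then `a = b` by (2), and then `c - a = λ • d` gives `c = a` by (2).
`trip`: if `x_i = pt e_i t_i = x + λ_i • d` then `Q d = 0` (ring), so `Q = 0`, and
`Q (d + v1) = tp v3 v1 d * tp v1 v2 d * (λ3 - λ2)` (ring, up to sign), so `λ2 = λ3`.
`xinj`: for `a ≠ b` in `S` the pair `(u, v) = (Δ0 - τ Δ2, Δ1 - τ^3 Δ2)` is not zero by (2), so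
`u + ρ v = 0` for at most one `ρ`; choose `ρ` outside a finite set. -/
theorem exists_gen (S : Finset R3) : ∃ F : Fr, F.Gen (S : Set R3) := by
  obtain ⟨τ, hτ⟩ := exists_dir ((S ×ˢ S ×ˢ S).image knGen_f1 ∪ ((S ×ˢ S).image knGen_f2 ∪
      ((S ×ˢ S) ×ˢ (S ×ˢ S) ×ˢ (S ×ˢ S)).image knGen_f3)) id (by
    intro q hq
    simp only [Finset.mem_union, Finset.mem_image] at hq
    rcases hq with ⟨x, -, rfl⟩ | ⟨x, -, rfl⟩ | ⟨x, -, rfl⟩
    · exact knGen_mul (knGen_lin3 _ _) knGen_linz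
    · exact knGen_mul (knGen_lin3 _ _) knGen_linz
    · exact knGen_add (knGen_add (knGen_mul (knGen_lin3 _ _) (knGen_lin2 _ _))
        (knGen_mul (knGen_lin3 _ _) (knGen_lin2 _ _)))
        (knGen_mul (knGen_lin3 _ _) (knGen_lin2 _ _)))
  have H1 : ∀ a ∈ S, ∀ b ∈ S, ∀ c ∈ S, knGen_f1 (a, b, c) !₂[τ, τ ^ 3, 1] = 0 →
      ∀ w, knGen_f1 (a, b, c) w = 0 := fun a ha b hb c hc =>
    hτ _ (Finset.mem_union_left _ (Finset.mem_image_of_mem _ (by simp [ha, hb, hc])))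
  have H3 : ∀ e f g : Seg, In S e → In S f → In S g → knGen_f3 (e, f, g) !₂[τ, τ ^ 3, 1] = 0 →
      ∀ w, knGen_f3 (e, f, g) w = 0 := fun e f g he hf hg =>
    hτ _ (Finset.mem_union_right _ (Finset.mem_union_right _ (Finset.mem_image_of_mem _
      (Finset.mem_product.2 ⟨Finset.mem_product.2 he, Finset.mem_product.2
        ⟨Finset.mem_product.2 hf, Finset.mem_product.2 hg⟩⟩))))
  have K : ∀ a ∈ S, ∀ b ∈ S, (b 0 - a 0) - τ * (b 2 - a 2) = 0 →
      (b 1 - a 1) - τ ^ 3 * (b 2 - a 2) = 0 → a = b := by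
    intro a ha b hb h0 h1
    have h2 : ∀ w, knGen_f2 (a, b) w = 0 := hτ _ (Finset.mem_union_right _
      (Finset.mem_union_left _ (Finset.mem_image_of_mem _ (by simp [ha, hb])))) (by
        simp [knGen_f2, tp]
        linear_combination h0)
    have h3 := h2 !₂[0, 0, 1]
    have h4 := h2 !₂[1, 0, 1]
    simp [knGen_f2, tp] at h3 h4
    have h5 : b 2 - a 2 = 0 := by linear_combination h3 - h4
    ext i
    fin_cases i
    · show a 0 = b 0
      linear_combination -h3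
    · show a 1 = b 1
      linear_combination -h1 - τ ^ 3 * h5
    · show a 2 = b 2
      linear_combination -h5
  obtain ⟨ρ, hρ⟩ := Infinite.exists_notMem_finset ((S ×ˢ S).image fun x : R3 × R3 =>
    -((x.2 0 - x.1 0) - τ * (x.2 2 - x.1 2)) / ((x.2 1 - x.1 1) - τ ^ 3 * (x.2 2 - x.1 2)))
  refine ⟨knGen_fr τ ρ, ?_, ?_, ?_⟩
  · rintro ⟨a, b⟩ ⟨ha, hb⟩ c hc t h
    have h1 := knGen_fib h.symm
    generalize c 2 - pt (a, b) t 2 = l at h1
    rcases eq_or_ne l 0 with rfl | hl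
    · simpa using h1
    have c0 : c 0 = a 0 + t * (b 0 - a 0) + l * τ := by rw [h1]; simp [pt]
    have c1 : c 1 = a 1 + t * (b 1 - a 1) + l * τ ^ 3 := by rw [h1]; simp [pt]
    have c2 : c 2 = a 2 + t * (b 2 - a 2) + l := by rw [h1]; simp [pt]
    have h2 := H1 a ha b hb c hc (by
      simp [knGen_f1, tp, c0, c1, c2]
      ring)
    have h3 := h2 !₂[0, 0, 1]
    have h4 := h2 !₂[1, 0, 1]
    have h5 := h2 !₂[0, 1, 1]
    simp [knGen_f1, tp] at h3 h4 h5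
    rw [c0, c1] at h3
    rw [c0, c1, c2] at h4 h5
    have hab : a = b := K a ha b hb
      (mul_left_cancel₀ hl (by linear_combination h3 - h5))
      (mul_left_cancel₀ hl (by linear_combination h4 - h3))
    subst hab
    have hac : a = c := K a ha c hc (by rw [c0, c2]; ring) (by rw [c1, c2]; ring)
    rw [← hac]
    simp [pt]
  · intro e f g he hf hg s t u hD hD' h h'
    have h1 := knGen_fib h
    have h2 := knGen_fib h'
    generalize pt f t 2 - pt e s 2 = l2 at h1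
    generalize pt g u 2 - pt e s 2 = l3 at h2
    rw [knGen_D] at hD hD'
    generalize (!₂[τ, τ ^ 3, 1] : R3) = d at *
    have hQ : ∀ w, knGen_f3 (e, f, g) w = l2 * (tp (g.2 - g.1) (e.2 - e.1) w *
        tp (f.2 - f.1) w d) + l3 * (tp (e.2 - e.1) (f.2 - f.1) w * tp (g.2 - g.1) w d) := by
      intro w
      rw [← knGen_Q_eq _ _ _ (pt e s) d w s t u l2 l3, ← h1, ← h2]
      simp [knGen_f3, pt]
    have h3 := H3 e f g he hf hg (by rw [hQ]; simp only [tp]; ring) (d + (e.2 - e.1))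
    rw [hQ] at h3
    have h4 : tp (e.2 - e.1) (f.2 - f.1) d * (tp (e.2 - e.1) (g.2 - g.1) d * (l2 - l3)) = 0 := by
      rw [← h3]
      simp only [tp, PiLp.add_apply]
      ring
    have h5 := sub_eq_zero.1 ((mul_eq_zero.1 ((mul_eq_zero.1 h4).resolve_left hD)).resolve_left hD')
    rw [h1, h2, h5]
  · intro a ha b hb h
    have h1 : a 0 - τ * a 2 + ρ * (a 1 - τ ^ 3 * a 2) =
        b 0 - τ * b 2 + ρ * (b 1 - τ ^ 3 * b 2) := h
    by_cases hv : (b 1 - a 1) - τ ^ 3 * (b 2 - a 2) = 0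
    · exact K a ha b hb (by linear_combination -h1 - ρ * hv) hv
    · refine absurd (Finset.mem_image.2 ⟨(a, b), Finset.mem_product.2 ⟨ha, hb⟩, ?_⟩) hρ
      rw [div_eq_iff hv]
      linear_combination h1

end Pool.Agent.Lib.MP_1f96ff_gt
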