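import Pool.Agent.Lib.MP_1f96ff_gt.Defs
import Pool.Agent.Lib.MP_1f96ff_gt.Wd

/-! Definitions for the projection argument (helper file; nothing here occurs in the statement). -/

namespace Pool.Agent.Lib.MP_1f96ff_gt

open Classical

noncomputable section

abbrev P2 := ℝ × ℝ
abbrev Seg := R3 × R3
abbrev Seg2 := P2 × P2

/-- indicator mod 2 -/
def ind (P : Prop) : ZMod 2 := if P then 1 else 0

/-- the point with parameter `t` on the line of a segment -/
def pt (e : Seg) (t : ℝ) : R3 := e.1 + t • (e.2 - e.1)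

def pt2 (a : Seg2) (t : ℝ) : P2 := a.1 + t • (a.2 - a.1)

def det2 (v w : P2) : ℝ := v.1 * w.2 - v.2 * w.1

/-- A frame: projection to the plane and height. -/
structure Fr where
  π : R3 →ₗ[ℝ] P2
  h : R3 →ₗ[ℝ] ℝ
  inj : ∀ x y, π x = π y → h x = h y → x = y

/-- the same projection seen from below -/
def Fr.neg (F : Fr) : Fr := ⟨F.π, -F.h, fun x y h1 h2 => F.inj x y h1 (neg_inj.mp h2)⟩

def Fr.D (F : Fr) (e f : Seg) : ℝ := det2 (F.π e.2 - F.π e.1) (F.π f.2 - F.π f.1)

/-- parameter on `e` of the crossing of the projected lines of `e` and `f` -/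
def Fr.par (F : Fr) (e f : Seg) : ℝ := det2 (F.π f.1 - F.π e.1) (F.π f.2 - F.π f.1) / F.D e f

/-- the projections of `e` and `f` cross transversally at interior points -/
def Fr.cr (F : Fr) (e f : Seg) : Prop :=
  F.D e f ≠ 0 ∧ 0 < F.par e f ∧ F.par e f < 1 ∧ 0 < F.par f e ∧ F.par f e < 1

/-- `e` crosses over `f` -/
def Fr.ov (F : Fr) (e f : Seg) : Prop :=
  F.cr e f ∧ F.h (pt f (F.par f e)) < F.h (pt e (F.par e f))

/-- both ends in `S` -/
def In (S : Set R3) (e : Seg) : Prop := e.1 ∈ S ∧ e.2 ∈ S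

/-- the frame is generic for the points of `S` -/
structure Fr.Gen (F : Fr) (S : Set R3) : Prop where
  vert : ∀ e, In S e → ∀ c ∈ S, ∀ t, F.π c = F.π (pt e t) → c = pt e t
  trip : ∀ e f g, In S e → In S f → In S g → ∀ s t u, F.D e f ≠ 0 → F.D e g ≠ 0 →
    F.π (pt e s) = F.π (pt f t) → F.π (pt e s) = F.π (pt g u) → pt f t = pt g u
  xinj : ∀ a ∈ S, ∀ b ∈ S, (F.π a).1 = (F.π b).1 → a = b

/-- a list of nondegenerate segments that pairwise meet only in common ends -/
def Good (Q : List Seg) : Prop := (∀ e ∈ Q, e.1 ≠ e.2) ∧ Q.Pairwise Meet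

/-- the finite set of members of a list of segments -/
def fs (Q : List Seg) : Finset Seg := Q.toFinset

/-- position of a segment in a list -/
def idx (Q : List Seg) (e : Seg) : ℝ := (Q.idxOf e : ℕ)

/-- the time at which the path `Q` passes, on `e`, the crossing of `e` with `f` -/
def Fr.time (F : Fr) (Q : List Seg) (e f : Seg) : ℝ := idx Q e + F.par e f

/-- the crossings of a list of segments, as pairs (over, under) -/
def Fr.C (F : Fr) (Q : List Seg) : Finset (Seg × Seg) :=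
  (fs Q ×ˢ fs Q).filter fun c => F.ov c.1 c.2

/-- Polyak-Viro count of abstract Gauss data: crossings `C`, passed over at time `o` and under
at time `u`. -/
def pv {ι : Type} (C : Finset ι) (o u : ι → ℝ) : ZMod 2 :=
  ∑ c ∈ C, ∑ c' ∈ C, lt2 (u c) (o c') * lt2 (o c') (o c) * lt2 (o c) (u c')

/-- interlacing parity of two crossings -/
def il {ι : Type} (o u : ι → ℝ) (c c' : ι) : ZMod 2 :=
  lt2 (o c) (o c') + lt2 (u c) (o c') + lt2 (o c) (u c') + lt2 (u c) (u c')

def Fr.PV (F : Fr) (Q : List Seg) : ZMod 2 :=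
  pv (F.C Q) (fun c => F.time Q c.1 c.2) (fun c => F.time Q c.2 c.1)

/-! planar notions -/

def or2 (a : Seg2) (y : P2) : ℝ := det2 (a.2 - a.1) (y - a.1)

/-- the upward ray from `y` (shifted slightly to the left) meets `a` -/
def up (a : Seg2) (y : P2) : ZMod 2 :=
  ind ((a.1.1 < y.1 ∧ y.1 ≤ a.2.1 ∧ or2 a y < 0) ∨ (a.2.1 < y.1 ∧ y.1 ≤ a.1.1 ∧ 0 < or2 a y))

/-- the downward ray from `x` (shifted slightly to the right) meets `b` -/
def dn (b : Seg2) (x : P2) : ZMod 2 :=
  ind ((b.1.1 ≤ x.1 ∧ x.1 < b.2.1 ∧ 0 < or2 b x) ∨ (b.2.1 ≤ x.1 ∧ x.1 < b.1.1 ∧ or2 b x < 0))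

/-- the open segments meet -/
def X2 (a b : Seg2) : Prop := ∃ s t, 0 < s ∧ s < 1 ∧ 0 < t ∧ t < 1 ∧ pt2 a s = pt2 b t

/-- the point is not on the closed segment -/
def Off (y : P2) (a : Seg2) : Prop := ∀ t, 0 ≤ t → t ≤ 1 → y ≠ pt2 a t

/-- affine coordinates on the projection plane -/
structure Fr.Co (F : Fr) (M : R3 → P2) : Prop where
  aff : ∀ e t, M (pt e t) = pt2 (M e.1, M e.2) t
  eq : ∀ x y, M x = M y ↔ F.π x = F.π y

/-- planar image of the part of `e` between two parameters -/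
def sub2 (M : R3 → P2) (e : Seg) (a b : ℝ) : Seg2 := (M (pt e a), M (pt e b))

/-- the four ray terms of a pair of planar segments -/
def rays (a b : Seg2) : ZMod 2 := up a b.1 + up a b.2 + dn b a.1 + dn b a.2

/-! the triangle of a triangle move, in coordinates `p = (0,0)`, `q = (1,0)`, `r = (1/2,1)` -/

def inT (z : P2) : Prop := 0 ≤ z.2 ∧ z.2 ≤ 2 * z.1 ∧ z.2 ≤ 2 - 2 * z.1

def inO (z : P2) : Prop := 0 < z.2 ∧ z.2 < 2 * z.1 ∧ z.2 < 2 - 2 * z.1

/-- the point projects into the open triangle and lies above it -/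
def abv (M : R3 → P2) (η : R3 → ℝ) (x : R3) : Prop := inO (M x) ∧ 0 < η x

/-- the rest of the knot: the path from `q` to `p` -/
def rest (p q : R3) (t : List R3) : List Seg := sides (q :: t ++ [p])

/-- hypotheses of a nondegenerate triangle move; `η` is the height above the triangle -/
structure Ctx (F : Fr) (S : Set R3) (p q r : R3) (t : List R3) (M : R3 → P2) (η : R3 → ℝ) :
    Prop where
  gen : F.Gen S
  mem : ∀ x ∈ p :: r :: q :: t, x ∈ S
  k1 : IsKnot (p :: q :: t)
  k2 : IsKnot (p :: r :: q :: t)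
  hull : convexHull ℝ {p, q, r} ∩ trace (closeUp (p :: q :: t)) ⊆ segment ℝ p q
  co : F.Co M
  Mp : M p = (0, 0)
  Mq : M q = (1, 0)
  Mr : M r = (1 / 2, 1)
  eaff : ∀ e s, η (pt e s) = η e.1 + s * (η e.2 - η e.1)
  ediff : ∀ x y, F.π x = F.π y → η x - η y = F.h x - F.h y
  ep : η p = 0
  eq : η q = 0
  er : η r = 0

/-- the three sides of the triangle -/
def TS (p q r : R3) : List Seg := [(p, q), (p, r), (r, q)]

/-- sum of `g` over the parameters at which `e` crosses over a side of the triangle -/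
def Fr.bsum (F : Fr) (p q r : R3) (e : Seg) (g : ℝ → ZMod 2) : ZMod 2 :=
  ind (F.ov e (p, q)) * g (F.par e (p, q)) + ind (F.ov e (p, r)) * g (F.par e (p, r)) +
    ind (F.ov e (r, q)) * g (F.par e (r, q))

/-- `[a, b]` is the parameter interval of the part of `e` above the triangle (`a = b` if there
is none); `k0`, `k1` say whether it begins at the first, ends at the second end of `e`. -/
structure ClipAt (F : Fr) (p q r : R3) (M : R3 → P2) (η : R3 → ℝ) (e : Seg) (a b : ℝ)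
    (k0 k1 : ZMod 2) : Prop where
  h0 : 0 ≤ a
  hab : a ≤ b
  h1 : b ≤ 1
  opn : ∀ s, 0 < s → s < 1 → (abv M η (pt e s) ↔ a < s ∧ s < b)
  cls : a < b → ∀ s, 0 ≤ s → s ≤ 1 → (inT (M (pt e s)) ↔ a ≤ s ∧ s ≤ b)
  hgt : a < b → ∀ s, a ≤ s → s ≤ b → 0 < η (pt e s) ∨ pt e s = p ∨ pt e s = q
  ends : a < b → ∀ s, s = a ∨ s = b →
    s = 0 ∨ s = 1 ∨ ∃ σ ∈ TS p q r, F.ov e σ ∧ s = F.par e σ
  pos : ∀ σ ∈ TS p q r, F.ov e σ → a < b
  sum : ∀ g : ℝ → ZMod 2, g a + g b = k0 * g 0 + k1 * g 1 + F.bsum p q r e g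

/-- clipping data for all sides of the rest -/
structure Clip (F : Fr) (p q r : R3) (t : List R3) (M : R3 → P2) (η : R3 → ℝ)
    (ψ : R3 → ZMod 2) (a b : Seg → ℝ) : Prop where
  psi : ∀ x, x ≠ p → x ≠ q → ψ x = ind (abv M η x)
  loc : ∀ e ∈ rest p q t, ClipAt F p q r M η e (a e) (b e) (ψ e.1) (ψ e.2)

/-- `e` over the side `σ'`, `f` under the side `σ`, the first point to the left of the second -/
def Fr.wq (F : Fr) (M : R3 → P2) (e f σ' σ : Seg) : ZMod 2 :=
  ind (F.ov e σ') * ind (F.ov σ f) *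
    lt2 (M (pt e (F.par e σ'))).1 (M (pt f (F.par f σ))).1

/-- both points on the lower side, or both on the upper sides -/
def Fr.W (F : Fr) (M : R3 → P2) (p q r : R3) (e f : Seg) : ZMod 2 :=
  F.wq M e f (p, q) (p, q) + F.wq M e f (p, r) (p, r) + F.wq M e f (p, r) (r, q) +
    F.wq M e f (r, q) (p, r) + F.wq M e f (r, q) (r, q)

/-- `e` crosses `f` inside the triangle, `e` above and `f` below it -/
def Fr.mid (F : Fr) (M : R3 → P2) (η : R3 → ℝ) (e f : Seg) : Prop :=
  F.cr e f ∧ abv M η (pt e (F.par e f)) ∧ abv M (fun x => -η x) (pt f (F.par f e))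

/-! words -/

/-- a finite set of oriented segments, closed under reversal, forming an embedded graph -/
structure GoodSet (S : Set R3) (Sg : Finset Seg) : Prop where
  mem : ∀ e ∈ Sg, In S e
  nd : ∀ e ∈ Sg, e.1 ≠ e.2
  swap : ∀ e ∈ Sg, e.swap ∈ Sg
  meet : ∀ e ∈ Sg, ∀ f ∈ Sg, e = f ∨ e = f.swap ∨ Meet e f

/-- the crossing points in the plane -/
def Fr.Z (F : Fr) (Sg : Finset Seg) : Finset P2 :=
  ((Sg ×ˢ Sg).filter fun c => F.cr c.1 c.2).image fun c => F.π (pt c.1 (F.par c.1 c.2))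

/-- the alphabet of crossings -/
abbrev Fr.L (F : Fr) (Sg : Finset Seg) : Type := Option {z // z ∈ F.Z Sg}

/-- the point is the upper point of a crossing -/
def Fr.over (F : Fr) (Sg : Finset Seg) (x : R3) : Prop :=
  ∃ e ∈ Sg, ∃ f ∈ Sg, F.ov e f ∧ x = pt e (F.par e f)

/-- the letter of a point -/
def Fr.lam (F : Fr) (Sg : Finset Seg) (x : R3) : F.L Sg × Bool :=
  (if h : F.π x ∈ F.Z Sg then some ⟨F.π x, h⟩ else none, decide (F.over Sg x))

/-- the parameters of the crossings on `e` -/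
def Fr.A (F : Fr) (Sg : Finset Seg) (e : Seg) : Finset ℝ :=
  (Sg.filter fun f => F.cr e f).image fun f => F.par e f

/-- the word read along `e` -/
def Fr.wd (F : Fr) (Sg : Finset Seg) (e : Seg) : List (F.L Sg × Bool) :=
  ((F.A Sg e).sort (· ≤ ·)).map fun s => F.lam Sg (pt e s)

/-- the word read along a list of segments, with times -/
def Fr.TL (F : Fr) (Sg : Finset Seg) (Q : List Seg) : List (ℝ × (F.L Sg × Bool)) :=
  Q.flatMap fun e => ((F.A Sg e).sort (· ≤ ·)).map fun s => (idx Q e + s, F.lam Sg (pt e s))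

/-- the polygonal path of an edge -/
def Emb.path {V : Type} {G : SimpleGraph V} (E : Emb G) (u v : V) : List R3 :=
  E.pos u :: E.bend u v ++ [E.pos v]

end

end Pool.Agent.Lib.MP_1f96ff_gt
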