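import Pool.Agent.Lib.MP_1f96ff_gt.KnB1

namespace Pool.Agent.Lib.MP_1f96ff_gt

open Classical

/-! Lists of sides: basic facts, positions, telescoping sums. -/

@[simp] theorem sides_nil : sides [] = [] := rfl
@[simp] theorem sides_single (a : R3) : sides [a] = [] := rfl
@[simp] theorem sides_cons_cons (a b : R3) (t : List R3) :
    sides (a :: b :: t) = (a, b) :: sides (b :: t) := rfl

theorem sides_append (l : List R3) (a : R3) (l' : List R3) :
    sides (l ++ a :: l') = sides (l ++ [a]) ++ sides (a :: l') := by
  induction l with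
  | nil => simp
  | cons b l ih =>
    cases l with
    | nil => simp
    | cons c l => simpa using ih

theorem sides_concat (l : List R3) (a b : R3) :
    sides (l ++ [a] ++ [b]) = sides (l ++ [a]) ++ [(a, b)] := by
  rw [List.append_assoc]; exact sides_append l a [b]

theorem map_fst_sides (l : List R3) (b : R3) : (sides (l ++ [b])).map Prod.fst = l := by
  induction l with
  | nil => simp
  | cons a l ih =>
    cases l with
    | nil => simp
    | cons c l => simpa using ih

theorem map_snd_sides (a : R3) (l : List R3) : (sides (a :: l)).map Prod.snd = l := by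
  induction l generalizing a with
  | nil => simp
  | cons c l ih => simpa using ih c

theorem mem_of_mem_sides {l : List R3} {e : Seg} (h : e ∈ sides l) : e.1 ∈ l ∧ e.2 ∈ l :=
  ⟨(List.of_mem_zip (a := e.1) (b := e.2) h).1,
    List.mem_of_mem_tail (List.of_mem_zip (a := e.1) (b := e.2) h).2⟩

theorem sides_reverse (l : List R3) : sides l.reverse = ((sides l).map Prod.swap).reverse := by
  induction l with
  | nil => simp
  | cons a l ih =>
    cases l with
    | nil => simp
    | cons b l =>
      have : (a :: b :: l).reverse = l.reverse ++ [b] ++ [a] := by simp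
      rw [this, sides_concat, ← List.reverse_cons, ih]; simp

theorem closeUp_cons (p : R3) (t : List R3) : closeUp (p :: t) = p :: t ++ [p] := by
  simp [closeUp]

theorem sides_closeUp (p q : R3) (t : List R3) :
    sides (closeUp (p :: q :: t)) = (p, q) :: rest p q t := by
  simp [closeUp, rest]

theorem sides_closeUp' (p q r : R3) (t : List R3) :
    sides (closeUp (p :: r :: q :: t)) = (p, r) :: (r, q) :: rest p q t := by
  simp [closeUp, rest]

theorem sides_closeUp_rotate (p q : R3) (t : List R3) :
    sides (closeUp ((p :: q :: t).rotate 1)) = rest p q t ++ [(p, q)] := by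
  have : (p :: q :: t).rotate 1 = q :: (t ++ [p]) := by simp [List.rotate_cons_succ]
  rw [this, closeUp_cons, rest]
  exact sides_concat (q :: t) p q

theorem mem_fs {Q : List Seg} {e : Seg} : e ∈ fs Q ↔ e ∈ Q := by simp [fs]

theorem sum_fs {Q : List Seg} (h : Q.Nodup) (g : Seg → ZMod 2) :
    ∑ e ∈ fs Q, g e = (Q.map g).sum := List.sum_toFinset g h

theorem sum_fs_cons {a : Seg} {Q : List Seg} (h : a ∉ Q) (g : Seg → ZMod 2) :
    ∑ e ∈ fs (a :: Q), g e = g a + ∑ e ∈ fs Q, g e := by
  rw [fs, List.toFinset_cons, Finset.sum_insert (by simpa using h)]; rfl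

theorem sum_fs_append {Q Q' : List Seg} (h : (Q ++ Q').Nodup) (g : Seg → ZMod 2) :
    ∑ e ∈ fs (Q ++ Q'), g e = ∑ e ∈ fs Q, g e + ∑ e ∈ fs Q', g e := by
  rw [sum_fs h, sum_fs h.of_append_left, sum_fs h.of_append_right, List.map_append,
    List.sum_append]

theorem Fr.mem_C {F : Fr} {Q : List Seg} {c : Seg × Seg} :
    c ∈ F.C Q ↔ c.1 ∈ Q ∧ c.2 ∈ Q ∧ F.ov c.1 c.2 := by
  simp [Fr.C, mem_fs, and_assoc]

theorem Fr.sum_C (F : Fr) (Q : List Seg) (g : Seg × Seg → ZMod 2) :
    ∑ c ∈ F.C Q, g c = ∑ e ∈ fs Q, ∑ f ∈ fs Q, ind (F.ov e f) * g (e, f) := by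
  rw [Fr.C, Finset.sum_filter, Finset.sum_product]
  refine Finset.sum_congr rfl fun e _ => Finset.sum_congr rfl fun f _ => ?_
  by_cases h : F.ov e f <;> simp [ind, h]

theorem idx_nonneg (Q : List Seg) (e : Seg) : 0 ≤ idx Q e := Nat.cast_nonneg _

theorem idx_cons_self (a : Seg) (Q : List Seg) : idx (a :: Q) a = 0 := by simp [idx]

theorem idx_cons_ne {a e : Seg} (h : e ≠ a) (Q : List Seg) : idx (a :: Q) e = idx Q e + 1 := by
  simp [idx, List.idxOf_cons_ne _ h.symm]

theorem idx_append_left {Q : List Seg} {e : Seg} (h : e ∈ Q) (Q' : List Seg) :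
    idx (Q ++ Q') e = idx Q e := by
  simp [idx, List.idxOf_append_of_mem h]

theorem idx_append_right {Q : List Seg} {e : Seg} (h : e ∉ Q) (Q' : List Seg) :
    idx (Q ++ Q') e = Q.length + idx Q' e := by
  simp [idx, List.idxOf_append_of_notMem h]

theorem idx_lt_length {Q : List Seg} {e : Seg} (h : e ∈ Q) : idx Q e + 1 ≤ Q.length := by
  have := List.idxOf_lt_length_iff.mpr h
  simp only [idx]; exact_mod_cast this

theorem idx_inj {Q : List Seg} {e f : Seg} (he : e ∈ Q) (h : idx Q e = idx Q f) : e = f := by
  simp only [idx, Nat.cast_inj] at h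
  exact (List.idxOf_inj he).mp h

theorem idx_succ_le {Q : List Seg} {e f : Seg} (h : idx Q e < idx Q f) :
    idx Q e + 1 ≤ idx Q f := by
  simp only [idx] at h ⊢
  have : Q.idxOf e < Q.idxOf f := by exact_mod_cast h
  exact_mod_cast this

/-- order of times: first the position, then the parameter -/
theorem idx_add_lt {Q : List Seg} {e f : Seg} (he : e ∈ Q) {s t : ℝ} (s0 : 0 < s) (s1 : s < 1)
    (t0 : 0 < t) (t1 : t < 1) :
    idx Q e + s < idx Q f + t ↔ idx Q e < idx Q f ∨ (e = f ∧ s < t) := by
  rcases lt_trichotomy (idx Q e) (idx Q f) with h | h | h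
  · have := idx_succ_le h
    exact ⟨fun _ => Or.inl h, fun _ => by linarith⟩
  · have hef := idx_inj he h
    exact ⟨fun h' => Or.inr ⟨hef, by linarith⟩, fun h' => by
      rcases h' with h' | h'
      · linarith
      · linarith [h'.2]⟩
  · have := idx_succ_le h
    refine ⟨fun h' => by linarith, fun h' => ?_⟩
    rcases h' with h' | h'
    · linarith
    · rw [h'.1] at h; exact absurd h (lt_irrefl _)

theorem Good.nodup {Q : List Seg} (h : Good Q) : Q.Nodup := by
  have := List.Pairwise.and_mem.mp h.2
  exact this.imp fun {a b} hab (hEq : a = b) => not_meet_self (h.1 a hab.1) (by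
    have := hab.2.2; rwa [← hEq] at this)

theorem Good.meet {Q : List Seg} (h : Good Q) {e f : Seg} (he : e ∈ Q) (hf : f ∈ Q)
    (hef : e ≠ f) : Meet e f :=
  haveI : Std.Symm Meet := ⟨fun _ _ => Meet.symm⟩
  List.Pairwise.forall h.2 he hf hef

theorem Good.sublist {Q Q' : List Seg} (h : Good Q) (hs : Q'.Sublist Q) : Good Q' :=
  ⟨fun e he => h.1 e (hs.subset he), h.2.sublist hs⟩

theorem Good.perm {Q Q' : List Seg} (h : Good Q) (hp : Q.Perm Q') : Good Q' :=
  ⟨fun e he => h.1 e (hp.mem_iff.mpr he), (hp.pairwise_iff fun h => Meet.symm h).mp h.2⟩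

theorem ne_of_mem_sides {l : List R3} (h : l.Nodup) {e : Seg} (he : e ∈ sides l) : e.1 ≠ e.2 := by
  induction l with
  | nil => simp at he
  | cons a l ih =>
    cases l with
    | nil => simp at he
    | cons b l =>
      rw [sides_cons_cons, List.mem_cons] at he
      rcases he with rfl | he
      · intro hab
        simp only at hab
        simp [hab] at h
      · exact ih h.of_cons he

theorem IsArc.good {l : List R3} (h : IsArc l) : Good (sides l) :=
  ⟨fun _ he => ne_of_mem_sides h.1 he, h.2⟩

theorem IsKnot.nodup_rest {p q : R3} {t : List R3} (h : IsKnot (p :: q :: t)) :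
    (q :: t ++ [p]).Nodup := by
  have : (q :: t ++ [p]).Perm (p :: q :: t) := List.perm_append_singleton p (q :: t)
  exact this.nodup_iff.mpr h.2.1

theorem IsKnot.good {l : List R3} (h : IsKnot l) : Good (sides (closeUp l)) := by
  refine ⟨?_, h.2.2⟩
  match l, h with
  | p :: q :: t, h =>
    rw [sides_closeUp]
    intro e he
    rcases List.mem_cons.mp he with rfl | he
    · have := h.2.1
      intro hpq
      simp only at hpq
      simp [hpq] at this
    · exact ne_of_mem_sides h.nodup_rest he
  | [], h => exact absurd h.1 (by simp)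
  | [_], h => exact absurd h.1 (by simp)

theorem IsKnot.good' {p q : R3} {t : List R3} (h : IsKnot (p :: q :: t)) :
    Good ((p, q) :: rest p q t) := by
  rw [← sides_closeUp]; exact h.good

theorem IsKnot.good_rest {p q : R3} {t : List R3} (h : IsKnot (p :: q :: t)) :
    Good (rest p q t) := h.good'.sublist (List.sublist_cons_self _ _)

theorem IsKnot.rotate {l : List R3} (h : IsKnot l) : IsKnot (l.rotate 1) := by
  match l, h with
  | p :: q :: t, h =>
    refine ⟨by simpa using h.1, (List.rotate_perm _ _).nodup_iff.mpr h.2.1, ?_⟩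
    rw [sides_closeUp_rotate]
    exact (h.good'.perm (List.perm_append_singleton _ _).symm).2
  | [], h => exact absurd h.1 (by simp)
  | [_], h => exact absurd h.1 (by simp)

theorem fst_mem_rest {p q : R3} {t : List R3} {e : Seg} (he : e ∈ rest p q t) : e.1 ∈ q :: t := by
  rw [← map_fst_sides (q :: t) p]; exact List.mem_map_of_mem he

theorem snd_mem_rest {p q : R3} {t : List R3} {e : Seg} (he : e ∈ rest p q t) :
    e.2 ∈ t ++ [p] := by
  rw [← map_snd_sides q (t ++ [p])]; exact List.mem_map_of_mem he

theorem IsKnot.rest_fst_ne {p q : R3} {t : List R3} (h : IsKnot (p :: q :: t)) {e : Seg}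
    (he : e ∈ rest p q t) : e.1 ≠ p := fun hp =>
  (List.nodup_cons.mp h.2.1).1 (hp ▸ fst_mem_rest he)

theorem IsKnot.rest_snd_ne {p q : R3} {t : List R3} (h : IsKnot (p :: q :: t)) {e : Seg}
    (he : e ∈ rest p q t) : e.2 ≠ q := fun hq =>
  (List.nodup_cons.mp h.nodup_rest).1 (hq ▸ snd_mem_rest he)

theorem IsKnot.rest_fst_inj {p q : R3} {t : List R3} (h : IsKnot (p :: q :: t)) {e f : Seg}
    (he : e ∈ rest p q t) (hf : f ∈ rest p q t) (hef : e.1 = f.1) : e = f := by
  have : ((rest p q t).map Prod.fst).Nodup := by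
    rw [rest, map_fst_sides (q :: t) p]; exact h.2.1.of_cons
  exact List.inj_on_of_nodup_map this he hf hef

theorem IsKnot.rest_snd_inj {p q : R3} {t : List R3} (h : IsKnot (p :: q :: t)) {e f : Seg}
    (he : e ∈ rest p q t) (hf : f ∈ rest p q t) (hef : e.2 = f.2) : e = f := by
  have : ((rest p q t).map Prod.snd).Nodup := by
    rw [rest, List.cons_append, map_snd_sides q (t ++ [p])]; exact h.nodup_rest.of_cons
  exact List.inj_on_of_nodup_map this he hf hef

/-- telescoping along a whole path -/
theorem tele (a : R3) (l : List R3) (b : R3) (G : R3 → ZMod 2) :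
    ((sides (a :: l ++ [b])).map fun e => G e.1 + G e.2).sum = G a + G b := by
  induction l generalizing a with
  | nil => simp
  | cons c l ih =>
    have := ih c
    simp only [List.cons_append, sides_cons_cons, List.map_cons, List.sum_cons] at this ⊢
    rw [this]; linear_combination two_zero (G c)

/-- telescoping over the sides before `f` -/
theorem teleB (a : R3) (l : List R3) (h : (sides (a :: l)).Nodup) {f : Seg}
    (hf : f ∈ sides (a :: l)) (G : R3 → ZMod 2) :
    ∑ e ∈ fs (sides (a :: l)), lt2 (idx (sides (a :: l)) e) (idx (sides (a :: l)) f) *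
      (G e.1 + G e.2) = G a + G f.1 := by
  induction l generalizing a with
  | nil => simp at hf
  | cons c l ih =>
    rw [sides_cons_cons] at h hf ⊢
    have hn := (List.nodup_cons.mp h).1
    rw [sum_fs_cons hn, idx_cons_self]
    rcases List.mem_cons.mp hf with rfl | hf'
    · rw [idx_cons_self, lt2_of_le le_rfl, Finset.sum_eq_zero fun e _ => by
        rw [lt2_of_le (idx_nonneg _ _), zero_mul]]
      simp [two_zero]
    · have hne : f ≠ (a, c) := fun h' => hn (h' ▸ hf')
      rw [idx_cons_ne hne, lt2_of_lt (by linarith [idx_nonneg (sides (c :: l)) f]),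
        Finset.sum_congr rfl (g := fun e => lt2 (idx (sides (c :: l)) e) (idx (sides (c :: l)) f) *
          (G e.1 + G e.2)) fun e he => by
          have he' : e ≠ (a, c) := fun h' => hn (h' ▸ mem_fs.mp he)
          rw [idx_cons_ne he', lt2_congr (add_lt_add_iff_right 1)],
        ih c h.of_cons hf']
      simp only
      linear_combination two_zero (G c)

/-- telescoping over the sides after `e` -/
theorem teleA (a : R3) (l : List R3) (b : R3) (h : (sides (a :: l ++ [b])).Nodup) {e : Seg}
    (he : e ∈ sides (a :: l ++ [b])) (G : R3 → ZMod 2) :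
    ∑ f ∈ fs (sides (a :: l ++ [b])),
      lt2 (idx (sides (a :: l ++ [b])) e) (idx (sides (a :: l ++ [b])) f) * (G f.1 + G f.2) =
        G e.2 + G b := by
  have h1 := teleB a (l ++ [b]) h he G
  have h2 := tele a l b G
  rw [← sum_fs h] at h2
  rw [← List.cons_append] at h1
  set Q := sides (a :: l ++ [b])
  have h3 : ∑ f ∈ fs Q, (lt2 (idx Q e) (idx Q f) * (G f.1 + G f.2) +
      lt2 (idx Q f) (idx Q e) * (G f.1 + G f.2) + (G f.1 + G f.2)) = G e.1 + G e.2 := by
    rw [Finset.sum_eq_single e]
    · rw [lt2_of_le le_rfl]; ring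
    · intro f hf hfe
      have : idx Q e ≠ idx Q f := fun h' => hfe (idx_inj he h').symm
      linear_combination (G f.1 + G f.2) * lt2_add_lt2 this + two_zero (G f.1 + G f.2)
    · intro h'; exact absurd (mem_fs.mpr he) h'
  rw [Finset.sum_add_distrib, Finset.sum_add_distrib, h1, h2] at h3
  linear_combination h3 - two_zero (G a) - two_zero (G b)

theorem IsKnot.tele_before {p q : R3} {t : List R3} (h : IsKnot (p :: q :: t)) {f : Seg}
    (hf : f ∈ rest p q t) (G : R3 → ZMod 2) :
    ∑ e ∈ fs (rest p q t), lt2 (idx (rest p q t) e) (idx (rest p q t) f) * (G e.1 + G e.2) =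
      G q + G f.1 := teleB q (t ++ [p]) h.good_rest.nodup hf G

theorem IsKnot.tele_after {p q : R3} {t : List R3} (h : IsKnot (p :: q :: t)) {e : Seg}
    (he : e ∈ rest p q t) (G : R3 → ZMod 2) :
    ∑ f ∈ fs (rest p q t), lt2 (idx (rest p q t) e) (idx (rest p q t) f) * (G f.1 + G f.2) =
      G e.2 + G p := teleA q t p h.good_rest.nodup he G

/-- the side starting at `q` is the first one -/
theorem IsKnot.idx_first {p q : R3} {t : List R3} (h : IsKnot (p :: q :: t)) {e : Seg}
    (he : e ∈ rest p q t) (hq : e.1 = q) : idx (rest p q t) e = 0 := by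
  obtain ⟨c, l, hcl⟩ : ∃ c l, t ++ [p] = c :: l := by cases t <;> simp
  have hr : rest p q t = (q, c) :: sides (c :: l) := by rw [rest, List.cons_append, hcl]; rfl
  have : e = (q, c) := h.rest_fst_inj he (by rw [hr]; exact List.mem_cons_self) hq
  rw [hr, this, idx_cons_self]

/-- the side ending at `p` is the last one -/
theorem IsKnot.idx_last {p q : R3} {t : List R3} (h : IsKnot (p :: q :: t)) {e f : Seg}
    (he : e ∈ rest p q t) (hp : e.2 = p) (hf : f ∈ rest p q t) :
    idx (rest p q t) f ≤ idx (rest p q t) e := by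
  obtain ⟨l, c, hcl⟩ : ∃ l c, q :: t = l ++ [c] :=
    ⟨(q :: t).dropLast, (q :: t).getLast (by simp), (List.dropLast_append_getLast _).symm⟩
  have hr : rest p q t = sides (l ++ [c]) ++ [(c, p)] := by rw [rest, hcl, sides_concat]
  have hn := h.good_rest.nodup
  have : e = (c, p) := h.rest_snd_inj he (by rw [hr]; simp) hp
  have h1 := idx_lt_length hf
  have h2 : (c, p) ∉ sides (l ++ [c]) := by
    rw [hr] at hn
    intro h'
    exact (List.disjoint_of_nodup_append hn) h' (by simp)
  have h3 : idx (rest p q t) e = (sides (l ++ [c])).length := by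
    rw [hr, this, idx_append_right h2, idx_cons_self, add_zero]
  rw [h3]
  have h4 : ((rest p q t).length : ℝ) = (sides (l ++ [c])).length + 1 := by rw [hr]; simp
  linarith

/-- consecutive sides have consecutive positions -/
theorem idx_chain (a : R3) (l : List R3) (h : (a :: l).Nodup) {e f : Seg}
    (he : e ∈ sides (a :: l)) (hf : f ∈ sides (a :: l)) (hef : e.2 = f.1) :
    idx (sides (a :: l)) f = idx (sides (a :: l)) e + 1 := by
  induction l generalizing a with
  | nil => simp at he
  | cons c l ih =>
    have ha : a ∉ c :: l := (List.nodup_cons.mp h).1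
    have hn : ∀ g ∈ sides (c :: l), g ≠ (a, c) := fun g hg h' =>
      ha (by have := (mem_of_mem_sides hg).1; rwa [h'] at this)
    rw [sides_cons_cons] at he hf ⊢
    rcases List.mem_cons.mp hf with rfl | hf'
    · exfalso
      rcases List.mem_cons.mp he with rfl | he'
      · exact ha (by simp only at hef; simp [hef])
      · exact ha (by have := (mem_of_mem_sides he').2; rwa [hef] at this)
    · rw [idx_cons_ne (hn f hf')]
      rcases List.mem_cons.mp he with rfl | he'
      · rw [idx_cons_self]
        cases l with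
        | nil => simp at hf'
        | cons d l =>
          rw [sides_cons_cons] at hf' ⊢
          rcases List.mem_cons.mp hf' with rfl | hf''
          · rw [idx_cons_self]
          · exfalso
            have h1 := (mem_of_mem_sides hf'').1
            rw [← hef] at h1
            exact (List.nodup_cons.mp h.of_cons).1 h1
      · rw [idx_cons_ne (hn e he'), ih c h.of_cons he' hf']

theorem IsKnot.chain_idx {p q : R3} {t : List R3} (h : IsKnot (p :: q :: t)) {e f : Seg}
    (he : e ∈ rest p q t) (hf : f ∈ rest p q t) (hef : e.2 = f.1) :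
    idx (rest p q t) f = idx (rest p q t) e + 1 :=
  idx_chain q (t ++ [p]) h.nodup_rest he hf hef

end Pool.Agent.Lib.MP_1f96ff_gt
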