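import Pool.Agent.Lib.MP_1f96ff_gt.KnG2
import Pool.Agent.Lib.MP_1f96ff_gt.KnAbs

namespace Pool.Agent.Lib.MP_1f96ff_gt

open Classical

/-! Invariance of the count under a cyclic shift. -/

/-- Take `M` from `exists_co` for the points `pt (p,q) s0`, `q`, `f.1` (use `Fr.D_sub`-like
algebra, or `par_iff`, for the determinant), sum `gauss_pair` over `g` and `k`, and use
`gauss_closedB` for the `up` terms and `gauss_closedA` for the `dn` terms. -/
theorem gauss_sum {F : Fr} {S : Set R3} (hg : F.Gen S) {p q : R3} {t : List R3}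
    (hS : ∀ x ∈ p :: q :: t, x ∈ S) (hk : IsKnot (p :: q :: t)) {f : Seg} (hf : f ∈ rest p q t)
    (hc : F.cr (p, q) f) :
    ∑ g ∈ fs ((p, q) :: rest p q t), ∑ k ∈ fs ((p, q) :: rest p q t),
      ind (F.cr g k ∧ (gA F (p, q) f (rest p q t) g).1 < F.par g k ∧
        F.par g k < (gA F (p, q) f (rest p q t) g).2 ∧
        (gB F (p, q) f (rest p q t) k).1 < F.par k g ∧
        F.par k g < (gB F (p, q) f (rest p q t) k).2) = 0 := by
  have hD : F.D (pt (p, q) (F.par (p, q) f), q) (pt (p, q) (F.par (p, q) f), f.1) ≠ 0 := by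
    have h1 := hc.π_eq
    have e1 : F.D (pt (p, q) (F.par (p, q) f), q) (pt (p, q) (F.par (p, q) f), f.1) =
        -((1 - F.par (p, q) f) * F.par f (p, q) * F.D (p, q) f) := by
      have a1 : F.π q - F.π (pt (p, q) (F.par (p, q) f)) =
          (1 - F.par (p, q) f) • (F.π q - F.π p) := by
        rw [F.π_pt]; simp only [pt2]; module
      have a2 : F.π f.1 - F.π (pt (p, q) (F.par (p, q) f)) =
          (-F.par f (p, q)) • (F.π f.2 - F.π f.1) := by
        rw [h1, F.π_pt]; simp only [pt2]; module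
      simp only [Fr.D]
      rw [a1, a2]
      simp only [det2, Prod.smul_fst, Prod.smul_snd, smul_eq_mul]
      ring
    rw [e1]
    refine neg_ne_zero.mpr (mul_ne_zero (mul_ne_zero ?_ hc.2.2.2.1.ne') hc.1)
    exact (sub_pos.mpr hc.2.2.1).ne'
  obtain ⟨M, hM, h0, h1, h2⟩ := exists_co F hD 1
  rw [Finset.sum_congr rfl fun g hgm => Finset.sum_congr rfl fun k hkm =>
    gauss_pair hg hS hk hf hc hM h0 h1 h2 (mem_fs.mp hgm) (mem_fs.mp hkm)]
  simp only [rays, add_assoc]
  simp only [← add_assoc (up _ _) (up _ _)]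
  simp only [Finset.sum_add_distrib (f := fun k => up _ _ + up _ _)]
  rw [Finset.sum_add_distrib, Finset.sum_eq_zero, zero_add, Finset.sum_comm, Finset.sum_eq_zero]
  · intro k _
    exact gauss_closedA hk hf hc (fun x => dn (sub2 M k (gB F (p, q) f (rest p q t) k).1
      (gB F (p, q) f (rest p q t) k).2) (M x)) fun x y hxy => by
        simp only [(hM.eq x y).mpr hxy]
  · intro g _
    exact gauss_closedB hk hf hc (fun x => up (sub2 M g (gA F (p, q) f (rest p q t) g).1
      (gA F (p, q) f (rest p q t) g).2) (M x)) fun x y hxy => by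
        simp only [(hM.eq x y).mpr hxy]

theorem knRot_beta {F : Fr} {S : Set R3} (hg : F.Gen S) {p q : R3} {t : List R3}
    (hS : ∀ x ∈ p :: q :: t, x ∈ S) (hk : IsKnot (p :: q :: t)) {f : Seg} (hf : f ∈ rest p q t)
    (hc : F.cr (p, q) f) {g k : Seg} (hgm : g ∈ (p, q) :: rest p q t)
    (hkm : k ∈ (p, q) :: rest p q t) (hgk : F.cr g k) (n1 : (g, k) ≠ (f, (p, q)))
    (n2 : (g, k) ≠ ((p, q), f)) :
    ind ((gA F (p, q) f (rest p q t) g).1 < F.par g k ∧
        F.par g k < (gA F (p, q) f (rest p q t) g).2) =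
      lt2 (F.time ((p, q) :: rest p q t) f (p, q)) (F.time ((p, q) :: rest p q t) g k) +
        lt2 (F.time ((p, q) :: rest p q t) (p, q) f) (F.time ((p, q) :: rest p q t) g k) ∧
    ind ((gB F (p, q) f (rest p q t) g).1 < F.par g k ∧
        F.par g k < (gB F (p, q) f (rest p q t) g).2) =
      1 + (lt2 (F.time ((p, q) :: rest p q t) f (p, q)) (F.time ((p, q) :: rest p q t) g k) +
        lt2 (F.time ((p, q) :: rest p q t) (p, q) f) (F.time ((p, q) :: rest p q t) g k)) := by
  have hQ := hk.good'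
  have hIn : ∀ e ∈ (p, q) :: rest p q t, In S e := fun e he =>
    in_of_mem_closeUp hS (by rw [sides_closeUp]; exact he)
  have hn : (p, q) ∉ rest p q t := (List.nodup_cons.mp hQ.nodup).1
  have hfe : f ≠ (p, q) := fun h => hn (h ▸ hf)
  have hfm : f ∈ (p, q) :: rest p q t := List.mem_cons_of_mem _ hf
  have he0 : (p, q) ∈ (p, q) :: rest p q t := List.mem_cons_self
  have c1 := hc.2.1
  have c2 := hc.2.2.1
  have c3 := hc.2.2.2.1
  have c4 := hc.2.2.2.2
  have d1 := hgk.2.1
  have d2 := hgk.2.2.1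
  have i0 := idx_nonneg (rest p q t) f
  simp only [Fr.time, idx_cons_self, idx_cons_ne hfe, zero_add]
  by_cases g0 : g = (p, q)
  · subst g0
    have hkf : k ≠ f := fun h => n2 (by rw [h])
    have hne : F.par (p, q) f ≠ F.par (p, q) k :=
      hg.par_ne (hIn _ he0) (hIn _ hfm) (hIn _ hkm) (hQ.meet hfm hkm hkf.symm) hc hgk
    simp only [gA, gB, if_true, idx_cons_self, zero_add]
    rw [lt2_of_le (x := idx (rest p q t) f + 1 + F.par f (p, q)) (by linarith), zero_add]
    rcases lt_or_gt_of_ne hne with h | h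
    · rw [lt2_of_lt h, ind_true ⟨h, d2⟩, ind_false fun h' => lt_asymm h h'.2]
      exact ⟨rfl, by decide⟩
    · rw [lt2_of_le h.le, ind_false fun h' => lt_asymm h h'.1, ind_true ⟨d1, h⟩]
      exact ⟨rfl, by decide⟩
  · have hgr : g ∈ rest p q t := (List.mem_cons.mp hgm).resolve_left g0
    have j0 := idx_nonneg (rest p q t) g
    rw [idx_cons_ne g0, lt2_of_lt (x := F.par (p, q) f) (by linarith)]
    by_cases g1 : g = f
    · subst g1
      have hk0 : k ≠ (p, q) := fun h => n1 (by rw [h])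
      have hne : F.par g (p, q) ≠ F.par g k :=
        hg.par_ne (hIn _ hgm) (hIn _ he0) (hIn _ hkm) (hQ.meet he0 hkm hk0.symm) hc.symm hgk
      simp only [gA, gB, if_neg g0, if_true]
      rcases lt_or_gt_of_ne hne with h | h
      · rw [lt2_of_lt (by linarith), ind_false fun h' => lt_asymm h h'.2, ind_true ⟨h, d2⟩]
        exact ⟨by decide, by decide⟩
      · rw [lt2_of_le (by linarith), ind_true ⟨d1, h⟩, ind_false fun h' => lt_asymm h h'.1]
        exact ⟨by decide, by decide⟩
    · have hne : idx (rest p q t) g ≠ idx (rest p q t) f := fun h => g1 (idx_inj hgr h)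
      simp only [gA, gB, if_neg g0, if_neg g1]
      rcases lt_or_gt_of_ne hne with h | h
      · have := idx_succ_le h
        rw [if_pos h, if_neg h.not_gt, lt2_of_le (by linarith), ind_true ⟨d1, d2⟩,
          ind_false fun h' => lt_asymm h'.1 h'.2]
        exact ⟨by decide, by decide⟩
      · have := idx_succ_le h
        rw [if_neg h.not_gt, if_pos h, lt2_of_lt (by linarith),
          ind_false fun h' => lt_asymm h'.1 h'.2, ind_true ⟨d1, d2⟩]
        exact ⟨by decide, by decide⟩

theorem knRot_z2 (a b : ZMod 2) : a * (1 + b) + b * (1 + a) = a + b := by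
  linear_combination two_zero (a * b)

/-- Gauss parity. Let `Q = (p,q) :: rest`, `c = (f, (p,q))`, `τ0 = time (p,q) f`, `τ1 = time f (p,q)`,
`β g k = lt2 τ1 (time g k) + lt2 τ0 (time g k)`; `il c (g,k) = β g k + β k g`. For a crossing pair
`(g,k)` other than `c`, `c.swap` the time differs from `τ0`, `τ1` (`Gen.time_inj`), `β g k = 1` iff
`par g k` is in the open `gA` interval of `g`, and `β k g = 0` iff `par k g` is in the open `gB`
interval of `k` (`time_lt_iff`). So the summand of `gauss_sum` at `(g,k)` is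
`ind (cr g k) * β g k * (1 + β k g)` (and `0` at `c`, `c.swap`); write
`ind cr = ind (ov g k) + ind (ov k g)` (`ind_cr`; for `g = k` all vanish), swap the names in the second
sum, and use `β1 (1 + β2) + β2 (1 + β1) = β1 + β2`. -/
theorem gauss {F : Fr} {S : Set R3} (hg : F.Gen S) {p q : R3} {t : List R3}
    (hS : ∀ x ∈ p :: q :: t, x ∈ S) (hk : IsKnot (p :: q :: t)) {f : Seg} (hf : f ∈ rest p q t)
    (hc : F.ov f (p, q)) :
    ∑ c' ∈ (F.C ((p, q) :: rest p q t)).erase (f, (p, q)),
      il (fun c => F.time ((p, q) :: rest p q t) c.1 c.2)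
        (fun c => F.time ((p, q) :: rest p q t) c.2 c.1) (f, (p, q)) c' = 0 := by
  have hQ := hk.good'
  have hn : (p, q) ∉ rest p q t := (List.nodup_cons.mp hQ.nodup).1
  have hfe : f ≠ (p, q) := fun h => hn (h ▸ hf)
  have hcr : F.cr (p, q) f := hc.1.symm
  have hsum := gauss_sum hg hS hk hf hcr
  set Q := (p, q) :: rest p q t with hQdef
  set β : Seg → Seg → ZMod 2 := fun g k =>
    lt2 (F.time Q f (p, q)) (F.time Q g k) + lt2 (F.time Q (p, q) f) (F.time Q g k) with hβ
  set w : Seg → Seg → ZMod 2 := fun g k =>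
    if (g, k) = (f, (p, q)) ∨ (g, k) = ((p, q), f) then 0 else β g k * (1 + β k g) with hw
  have h1 : ∀ g ∈ fs Q, ∀ k ∈ fs Q,
      ind (F.cr g k ∧ (gA F (p, q) f (rest p q t) g).1 < F.par g k ∧
        F.par g k < (gA F (p, q) f (rest p q t) g).2 ∧
        (gB F (p, q) f (rest p q t) k).1 < F.par k g ∧
        F.par k g < (gB F (p, q) f (rest p q t) k).2) =
      ind (F.ov g k) * w g k + ind (F.ov k g) * w g k := by
    intro g hgm k hkm
    rw [mem_fs] at hgm hkm
    by_cases hgk : F.cr g k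
    · have hne : g ≠ k := fun h => Fr.not_cr_self (F := F) k (by rwa [h] at hgk)
      rw [← add_mul, ← Fr.ind_cr (hQ.meet hgm hkm hne), ind_true hgk, one_mul]
      by_cases n1 : (g, k) = (f, (p, q))
      · have hw0 : w g k = 0 := by simp only [hw]; rw [if_pos (Or.inl n1)]
        obtain ⟨rfl, rfl⟩ := Prod.mk.inj n1
        rw [hw0]
        refine ind_false fun h => ?_
        have := h.2.2.1
        simp only [gA, if_neg hfe, if_true] at this
        exact lt_irrefl _ this
      by_cases n2 : (g, k) = ((p, q), f)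
      · have hw0 : w g k = 0 := by simp only [hw]; rw [if_pos (Or.inr n2)]
        obtain ⟨rfl, rfl⟩ := Prod.mk.inj n2
        rw [hw0]
        refine ind_false fun h => ?_
        have := h.2.1
        simp only [gA, if_true] at this
        exact lt_irrefl _ this
      have hw0 : w g k = β g k * (1 + β k g) := by
        simp only [hw]; rw [if_neg (not_or.mpr ⟨n1, n2⟩)]
      have n1' : (k, g) ≠ (f, (p, q)) := fun h => n2 (by
        obtain ⟨a, b⟩ := Prod.mk.inj h; rw [a, b])
      have n2' : (k, g) ≠ ((p, q), f) := fun h => n1 (by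
        obtain ⟨a, b⟩ := Prod.mk.inj h; rw [a, b])
      have a := (knRot_beta hg hS hk hf hcr hgm hkm hgk n1 n2).1
      have b := (knRot_beta hg hS hk hf hcr hkm hgm hgk.symm n1' n2').2
      rw [hw0]
      simp only [hβ]
      rw [← a, ← b, ← ind_and]
      exact ind_congr ⟨fun h => ⟨⟨h.2.1, h.2.2.1⟩, h.2.2.2⟩, fun h => ⟨hgk, h.1.1, h.1.2, h.2⟩⟩
    · rw [ind_false fun h => hgk h.1, ind_false fun h : F.ov g k => hgk h.1,
        ind_false fun h : F.ov k g => hgk h.1.symm]
      simp
  rw [Finset.sum_congr rfl fun g hgm => Finset.sum_congr rfl fun k hkm => h1 g hgm k hkm] at hsum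
  simp only [Finset.sum_add_distrib] at hsum
  rw [Finset.sum_comm (f := fun g k => ind (F.ov k g) * w g k), ← Finset.sum_add_distrib] at hsum
  simp only [← Finset.sum_add_distrib, ← mul_add] at hsum
  rw [← F.sum_C Q fun c => w c.1 c.2 + w c.2 c.1] at hsum
  rw [← hsum, ← Finset.sum_erase (F.C Q) (a := (f, (p, q)))
    (f := fun c => w c.1 c.2 + w c.2 c.1) (by simp [hw])]
  refine Finset.sum_congr rfl fun c hc' => ?_
  obtain ⟨g, k⟩ := c
  obtain ⟨n1, hmem⟩ := Finset.mem_erase.mp hc'
  have hov : F.ov g k := (Fr.mem_C.mp hmem).2.2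
  have n2 : (g, k) ≠ ((p, q), f) := fun h => by
    obtain ⟨a, b⟩ := Prod.mk.inj h
    rw [a, b] at hov
    exact Fr.ov_asymm hc hov
  have n1' : (k, g) ≠ (f, (p, q)) := fun h => n2 (by
    obtain ⟨a, b⟩ := Prod.mk.inj h; rw [a, b])
  have n2' : (k, g) ≠ ((p, q), f) := fun h => n1 (by
    obtain ⟨a, b⟩ := Prod.mk.inj h; rw [a, b])
  simp only [hw]
  rw [if_neg (not_or.mpr ⟨n1, n2⟩), if_neg (not_or.mpr ⟨n1', n2'⟩), knRot_z2]
  simp only [il, hβ]
  ring

/-- `pv_rot` with `N = (rest p q t).length`; the two crossing sets are equal (`Fr.mem_C`); a time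
is `< 1` iff the letter is on `(p,q)`. -/
theorem PV_rot {F : Fr} {S : Set R3} (hg : F.Gen S) {p q : R3} {t : List R3}
    (hS : ∀ x ∈ p :: q :: t, x ∈ S) (hk : IsKnot (p :: q :: t)) :
    F.PV (rest p q t ++ [(p, q)]) = F.PV ((p, q) :: rest p q t) := by
  have hQ := hk.good'
  have hIn : ∀ e ∈ (p, q) :: rest p q t, In S e := fun e he =>
    in_of_mem_closeUp hS (by rw [sides_closeUp]; exact he)
  have hn : (p, q) ∉ rest p q t := (List.nodup_cons.mp hQ.nodup).1
  have hC : F.C (rest p q t ++ [(p, q)]) = F.C ((p, q) :: rest p q t) := by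
    ext c
    simp only [Fr.mem_C, List.mem_append, List.mem_cons, List.not_mem_nil, or_false]
    tauto
  have hb : ∀ e ∈ (p, q) :: rest p q t, ∀ f, F.cr e f →
      0 ≤ F.time ((p, q) :: rest p q t) e f ∧
        F.time ((p, q) :: rest p q t) e f < ((rest p q t).length : ℝ) + 1 := by
    intro e he f hc
    have h1 := idx_lt_length he
    have h2 := idx_nonneg ((p, q) :: rest p q t) e
    have h3 := hc.2.1
    have h4 := hc.2.2.1
    simp only [List.length_cons, Nat.cast_add, Nat.cast_one] at h1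
    simp only [Fr.time]
    constructor <;> linarith
  have hlt : ∀ e f, F.cr e f → F.time ((p, q) :: rest p q t) e f < 1 → e = (p, q) := by
    intro e f hc h
    by_contra hne
    have h2 := idx_nonneg (rest p q t) e
    have h3 := hc.2.1
    simp only [Fr.time, idx_cons_ne hne] at h
    linarith
  have hs : ∀ e ∈ (p, q) :: rest p q t, ∀ f, F.cr e f →
      F.time (rest p q t ++ [(p, q)]) e f =
        if F.time ((p, q) :: rest p q t) e f < 1 then
          F.time ((p, q) :: rest p q t) e f + ((rest p q t).length : ℝ)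
        else F.time ((p, q) :: rest p q t) e f - 1 := by
    intro e he f hc
    by_cases h0 : e = (p, q)
    · subst h0
      have h4 := hc.2.2.1
      simp only [Fr.time, idx_cons_self, idx_append_right hn, zero_add, add_zero]
      rw [if_pos h4]; ring
    · rw [if_neg fun h => h0 (hlt e f hc h)]
      have her : e ∈ rest p q t := (List.mem_cons.mp he).resolve_left h0
      simp only [Fr.time, idx_cons_ne h0, idx_append_left her]
      ring
  simp only [Fr.PV]
  rw [hC]
  refine pv_rot (N := ((rest p q t).length : ℝ)) ?_ ?_ ?_ ?_ ?_ ?_ ?_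
  · intro c hc
    obtain ⟨h1, h2, h3⟩ := Fr.mem_C.mp hc
    exact ⟨(hb _ h1 _ h3.1).1, (hb _ h1 _ h3.1).2, (hb _ h2 _ h3.1.symm).1,
      (hb _ h2 _ h3.1.symm).2⟩
  · intro c hc
    obtain ⟨h1, h2, h3⟩ := Fr.mem_C.mp hc
    exact hs _ h1 _ h3.1
  · intro c hc
    obtain ⟨h1, h2, h3⟩ := Fr.mem_C.mp hc
    exact hs _ h2 _ h3.1.symm
  · intro c hc c' hc' h
    obtain ⟨h1, h2, h3⟩ := Fr.mem_C.mp hc
    obtain ⟨h1', h2', h3'⟩ := Fr.mem_C.mp hc'
    obtain ⟨a, b⟩ := hg.time_inj hQ hIn h1 h2 h1' h3.1 h3'.1.symm h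
    rw [a, b] at h3
    exact Fr.ov_asymm h3 h3'
  · intro c hc c' hc' h
    obtain ⟨h1, h2, h3⟩ := Fr.mem_C.mp hc
    obtain ⟨h1', h2', h3'⟩ := Fr.mem_C.mp hc'
    obtain ⟨a, b⟩ := hg.time_inj hQ hIn h1 h2 h2' h3.1 h3'.1 h
    exact Prod.ext a b
  · intro c hc c' hc' h
    obtain ⟨h1, h2, h3⟩ := Fr.mem_C.mp hc
    obtain ⟨h1', h2', h3'⟩ := Fr.mem_C.mp hc'
    obtain ⟨a, b⟩ := hg.time_inj hQ hIn h2 h1 h1' h3.1.symm h3'.1.symm h
    exact Prod.ext b a
  · intro c hc h
    obtain ⟨f, e⟩ := c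
    obtain ⟨h1, h2, h3⟩ := Fr.mem_C.mp hc
    have he : e = (p, q) := hlt _ _ h3.1.symm h
    subst he
    have hf : f ∈ rest p q t := (List.mem_cons.mp h1).resolve_left fun h' =>
      Fr.not_cr_self f (by have := h3.1; simp only at this h'; rwa [← h'] at this)
    exact gauss hg hS hk hf h3

end Pool.Agent.Lib.MP_1f96ff_gt
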