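import Pool.Agent.Lib.MP_1f96ff_gt.KnFl2
import Pool.Agent.Lib.MP_1f96ff_gt.KnEmb

namespace Pool.Agent.Lib.MP_1f96ff_gt

open Classical

/-! Straight-line embeddings with two apices are knotless. -/

theorem knStr_trace (a b : R3) : trace (a :: [] ++ [b]) = segment ℝ a b := by
  ext x
  simp [trace, sides]

theorem knStr_flat {α β : Type} (f : α → β) (l : List α) :
    (l.flatMap fun d => [f d]) = l.map f := by
  induction l with
  | nil => rfl
  | cons a l ih => simp [ih]

/-- The embedding has `bend = []`. For a cycle `c`, `poly c` is `c.darts.map (pos ·.fst)`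
(`map_fst_darts`, `IsCycle` gives `Nodup` of `support.dropLast` and `3 ≤ length`), its sides are the
pairs of ends of the darts (`sides_poly`), which are pairwise different edges (`edges_nodup`), so it
`IsKnot`; apply `flat`. -/
theorem not_IK_of_straight {V : Type} (G : SimpleGraph V) (pos : V → R3) (h : R3 →ₗ[ℝ] ℝ)
    (a0 : R3) (h0 : 0 < h a0) (hinj : Function.Injective pos)
    (hm : ∀ u v u' v', G.Adj u v → G.Adj u' v' → s(u, v) ≠ s(u', v') →
      Meet (pos u, pos v) (pos u', pos v'))
    (hoff : ∀ u v w, G.Adj u v → pos w ∈ segment ℝ (pos u) (pos v) → w = u ∨ w = v)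
    (h1 : ∀ u v, 0 < h (pos u) → 0 < h (pos v) → u = v)
    (h2 : ∀ u v, h (pos u) < 0 → h (pos v) < 0 → u = v) : ¬ IK G := by
  let E : Emb G :=
    { pos := pos
      bend := fun _ _ => []
      inj := hinj
      rev := fun _ _ _ => rfl
      arc := fun u v huv => ⟨by simpa using hinj.ne huv.ne, by simp [sides]⟩
      disj := fun u v u' v' a a' hne x hx => by
        rw [knStr_trace, knStr_trace] at hx
        obtain ⟨b1, b2⟩ := hm u v u' v' a a' hne hx
        have b2' : x = pos u' ∨ x = pos v' := b2
        have b1' : x = pos u ∨ x = pos v := b1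
        rcases b1' with rfl | rfl
        · exact ⟨u, ⟨Or.inl rfl, b2'.imp (fun e => hinj e) fun e => hinj e⟩, rfl⟩
        · exact ⟨v, ⟨Or.inr rfl, b2'.imp (fun e => hinj e) fun e => hinj e⟩, rfl⟩
      off := fun u v w a hw => hoff u v w a (by rwa [knStr_trace] at hw) }
  intro hIK
  obtain ⟨v, c, hc, hn⟩ := hIK E
  have hp : E.poly c = c.support.dropLast.map pos := by
    rw [← SimpleGraph.Walk.map_fst_darts, List.map_map]
    exact knStr_flat (fun d : G.Dart => pos d.fst) c.darts
  have hs : sides (closeUp (E.poly c)) = c.darts.map fun d => (pos d.fst, pos d.snd) := by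
    rw [E.sides_poly]
    exact knStr_flat (fun d : G.Dart => (pos d.fst, pos d.snd)) c.darts
  refine hn (flat h a0 h0 ⟨?_, ?_, ?_⟩ ?_ ?_)
  · rw [hp, List.length_map, List.length_dropLast, SimpleGraph.Walk.length_support]
    exact hc.three_le_length
  · rw [hp]
    exact hc.nodup_dropLast_support.map hinj
  · rw [hs, List.pairwise_map]
    have he : (c.darts.map SimpleGraph.Dart.edge).Nodup := hc.isTrail.edges_nodup
    rw [List.Nodup, List.pairwise_map] at he
    exact he.imp fun {d d'} hne => hm _ _ _ _ d.adj d'.adj hne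
  · rw [hp]
    intro x hx y hy a b
    obtain ⟨u, -, rfl⟩ := List.mem_map.1 hx
    obtain ⟨w, -, rfl⟩ := List.mem_map.1 hy
    rw [h1 u w a b]
  · rw [hp]
    intro x hx y hy a b
    obtain ⟨u, -, rfl⟩ := List.mem_map.1 hx
    obtain ⟨w, -, rfl⟩ := List.mem_map.1 hy
    rw [h2 u w a b]

end Pool.Agent.Lib.MP_1f96ff_gt
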