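import Pool.Agent.Lib.MP_1f96ff_gt.KnB2

namespace Pool.Agent.Lib.MP_1f96ff_gt

open Classical

/-! Letters of points, words of segments. -/

variable {F : Fr} {S : Set R3} {Sg : Finset Seg}

theorem Fr.mem_A {e : Seg} {s : ℝ} : s ∈ F.A Sg e ↔ ∃ f ∈ Sg, F.cr e f ∧ s = F.par e f := by
  simp only [Fr.A, Finset.mem_image, Finset.mem_filter]
  exact ⟨fun ⟨f, ⟨h1, h2⟩, h3⟩ => ⟨f, h1, h2, h3.symm⟩,
    fun ⟨f, h1, h2, h3⟩ => ⟨f, ⟨h1, h2⟩, h3.symm⟩⟩

theorem GoodSet.meet_of_cr (hs : GoodSet S Sg) {e f : Seg} (he : e ∈ Sg) (hf : f ∈ Sg)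
    (hc : F.cr e f) : Meet e f := by
  rcases hs.meet e he f hf with rfl | rfl | h
  · exact absurd hc (Fr.not_cr_self _)
  · exact absurd hc (Fr.not_cr_adj (Or.inr (Or.inl rfl)))
  · exact h

/-- If `x = pt e (par e f) = pt e' (par e' f')` with `ov e' f'`, then `e'` is `e` or `e.swap`
(`Meet.ne`); reduce to `e' = e` (`ov.swap_left`, `par_swap`, `pt_swap`), then `pt_inj` and
`Gen.pt_eq` show that the lower points agree. -/
theorem over_iff (hg : F.Gen S) (hs : GoodSet S Sg) {e f : Seg} (he : e ∈ Sg) (hf : f ∈ Sg)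
    (hc : F.cr e f) : F.over Sg (pt e (F.par e f)) ↔ F.ov e f := by
  refine ⟨?_, fun h => ⟨e, he, f, hf, h, rfl⟩⟩
  have key : ∀ f' ∈ Sg, F.ov e f' → pt e (F.par e f) = pt e (F.par e f') → F.ov e f := by
    intro f' hf' ho hx
    have hp := pt_inj hc.nd hx
    refine ⟨hc, ?_⟩
    rw [hg.pt_eq (hs.mem e he) (hs.mem f hf) (hs.mem f' hf') hc ho.1 hp, hx]
    exact ho.2
  rintro ⟨e', he', f', hf', ho, hx⟩
  rcases hs.meet e he e' he' with rfl | rfl | h
  · exact key f' hf' ho hx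
  · refine key f' hf' ho.swap_left ?_
    rw [hx, (Fr.par_swap ho.1.1).1, pt_swap, sub_sub_cancel]
  · exact absurd hx (h.ne hc.nd hc.2.1 hc.2.2.1 ho.1.2.1.le ho.1.2.2.1.le)

/-- the label of a crossing -/
noncomputable def Fr.cid (F : Fr) (Sg : Finset Seg) (c : Seg × Seg) : F.L Sg :=
  (F.lam Sg (pt c.1 (F.par c.1 c.2))).1

theorem lam_over (hg : F.Gen S) (hs : GoodSet S Sg) {e f : Seg} (he : e ∈ Sg) (hf : f ∈ Sg)
    (ho : F.ov e f) : F.lam Sg (pt e (F.par e f)) = (F.cid Sg (e, f), true) := by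
  refine Prod.ext rfl ?_
  simp only [Fr.lam, decide_eq_true_eq]
  exact (over_iff hg hs he hf ho.1).mpr ho

theorem lam_under (hg : F.Gen S) (hs : GoodSet S Sg) {e f : Seg} (he : e ∈ Sg) (hf : f ∈ Sg)
    (ho : F.ov e f) : F.lam Sg (pt f (F.par f e)) = (F.cid Sg (e, f), false) := by
  refine Prod.ext ?_ ?_
  · simp only [Fr.cid, Fr.lam, ho.1.π_eq]
  · simp only [Fr.lam, decide_eq_false_iff_not]
    exact fun h => Fr.ov_asymm ho ((over_iff hg hs hf he ho.1.symm).mp h)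

/-- equal labels mean equal projections (both projections are in `Z`) -/
theorem pi_eq_of_lam {e e' : Seg} (he : e ∈ Sg) (he' : e' ∈ Sg) {s s' : ℝ} (h1 : s ∈ F.A Sg e)
    (h2 : s' ∈ F.A Sg e') (h : (F.lam Sg (pt e s)).1 = (F.lam Sg (pt e' s')).1) :
    F.π (pt e s) = F.π (pt e' s') := by
  have z : ∀ e ∈ Sg, ∀ s ∈ F.A Sg e, F.π (pt e s) ∈ F.Z Sg := by
    intro e he s h1
    obtain ⟨f, hf, hc, rfl⟩ := Fr.mem_A.mp h1
    exact Finset.mem_image.mpr
      ⟨(e, f), Finset.mem_filter.mpr ⟨Finset.mem_product.mpr ⟨he, hf⟩, hc⟩, rfl⟩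
  simp only [Fr.lam, dif_pos (z e he s h1), dif_pos (z e' he' s' h2), Option.some.injEq,
    Subtype.mk.injEq] at h
  exact h

/-- equal labels on two segments that `Meet`: a crossing of the two (`Gen.cr_of`) -/
theorem cr_of_lam (hg : F.Gen S) (hs : GoodSet S Sg) {e e' : Seg} (he : e ∈ Sg) (he' : e' ∈ Sg)
    (hm : Meet e e') {s s' : ℝ} (h1 : s ∈ F.A Sg e) (h2 : s' ∈ F.A Sg e')
    (h : (F.lam Sg (pt e s)).1 = (F.lam Sg (pt e' s')).1) :
    F.cr e e' ∧ s = F.par e e' ∧ s' = F.par e' e := by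
  have hp := pi_eq_of_lam he he' h1 h2 h
  obtain ⟨f, -, hc, rfl⟩ := Fr.mem_A.mp h1
  obtain ⟨f', -, hc', rfl⟩ := Fr.mem_A.mp h2
  exact hg.cr_of (hs.mem e he) (hs.mem e' he') hm hc.nd hc.2.1 hc.2.2.1 hc'.2.1.le hc'.2.2.1.le hp

/-- then the two flags differ (`over_iff`, `cr.ov_or`, `ov_asymm`) -/
theorem lam_ne (hg : F.Gen S) (hs : GoodSet S Sg) {e e' : Seg} (he : e ∈ Sg) (he' : e' ∈ Sg)
    (hm : Meet e e') {s s' : ℝ} (h1 : s ∈ F.A Sg e) (h2 : s' ∈ F.A Sg e') :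
    F.lam Sg (pt e s) ≠ F.lam Sg (pt e' s') := by
  intro h
  obtain ⟨hc, rfl, rfl⟩ := cr_of_lam hg hs he he' hm h1 h2 (congrArg Prod.fst h)
  rcases hc.ov_or hm with ho | ho
  · rw [lam_over hg hs he he' ho, lam_under hg hs he he' ho] at h
    exact absurd (congrArg Prod.snd h) (by simp)
  · rw [lam_over hg hs he' he ho, lam_under hg hs he' he ho] at h
    exact absurd (congrArg Prod.snd h) (by simp)

/-- equal labels on one segment: equal parameters (the projection is injective on the line of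
`e`: `Gen.pll` with `D_self`, `pt_inj`) -/
theorem par_eq_of_lam (hg : F.Gen S) (hs : GoodSet S Sg) {e : Seg} (he : e ∈ Sg) {s s' : ℝ}
    (h1 : s ∈ F.A Sg e) (h2 : s' ∈ F.A Sg e)
    (h : (F.lam Sg (pt e s)).1 = (F.lam Sg (pt e s')).1) : s = s' := by
  exact pt_inj (hs.nd e he)
    (hg.pll (hs.mem e he) (hs.mem e he) (F.D_self e) (pi_eq_of_lam he he h1 h2 h))

theorem wd_disj (hg : F.Gen S) (hs : GoodSet S Sg) {e e' : Seg} (he : e ∈ Sg) (he' : e' ∈ Sg)
    (hm : Meet e e') {x : F.L Sg × Bool} (h1 : x ∈ F.wd Sg e) : x ∉ F.wd Sg e' := by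
  intro h2
  simp only [Fr.wd, List.mem_map, Finset.mem_sort] at h1 h2
  obtain ⟨s, a1, rfl⟩ := h1
  obtain ⟨s', a2, a3⟩ := h2
  exact lam_ne hg hs he he' hm a1 a2 a3.symm

/-- `A e.swap` is the image of `A e` under `s ↦ 1 - s` (`par_swap`); the reversed image of the
sorted list is sorted and has the same elements, so it is the sorted list
(`List.Perm.eq_of_pairwise` or `List.eq_of_perm_of_sorted`); `pt_swap`. -/
theorem wd_swap (e : Seg) : F.wd Sg e.swap = (F.wd Sg e).reverse := by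
  have hA : ∀ s, s ∈ F.A Sg e.swap ↔ ∃ t ∈ F.A Sg e, 1 - t = s := by
    intro s
    simp only [Fr.mem_A]
    constructor
    · rintro ⟨f, hf, hc, rfl⟩
      have hc' : F.cr e f := hc.swap_left
      exact ⟨_, ⟨f, hf, hc', rfl⟩, (Fr.par_swap hc'.1).1.symm⟩
    · rintro ⟨_, ⟨f, hf, hc, rfl⟩, rfl⟩
      exact ⟨f, hf, hc.swap_left, (Fr.par_swap hc.1).1.symm⟩
  have h1 : (F.A Sg e.swap).sort (· ≤ ·) =
      (((F.A Sg e).sort (· ≤ ·)).map fun t => 1 - t).reverse := by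
    refine List.Perm.eq_of_pairwise' (r := (· ≤ ·)) (Finset.pairwise_sort _ _) ?_ ?_
    · rw [List.pairwise_reverse, List.pairwise_map]
      exact (Finset.pairwise_sort _ _).imp fun h => sub_le_sub_left h 1
    · refine (List.perm_ext_iff_of_nodup (Finset.sort_nodup _ _) ?_).mpr fun s => ?_
      · exact List.nodup_reverse.mpr ((Finset.sort_nodup _ _).map sub_right_injective)
      · simp only [Finset.mem_sort, List.mem_reverse, List.mem_map, hA]
  simp only [Fr.wd, h1, List.map_reverse, List.map_map, Function.comp_def, pt_swap,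
    sub_sub_cancel]

end Pool.Agent.Lib.MP_1f96ff_gt
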