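import Pool.Agent.Lib.MP_1f96ff_gt.Inv

/-! The step from one level to the next. -/

namespace Pool.Agent.Lib.MP_1f96ff_gt

variable {K : ∀ n : ℕ, SimpleGraph (Fin n) → Prop}

/-- The bits of `Q` lie in the pattern `P` with the vertex `w` doubled by the vertex `m`. -/
def InDbl (m P w Q : ℕ) : Prop :=
  ∀ a ≤ m, ∀ b ≤ m, a ≠ b → Q.testBit (16 * a + b) = true →
    (a < m ∧ b < m ∧ P.testBit (16 * a + b) = true) ∨
      (a = m ∧ b < m ∧ b ≠ w ∧ (P.testBit (16 * w + b) = true ∨ P.testBit (16 * b + w) = true))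

/-- Every root is covered by a lemma. -/
def Cover (K : ∀ n : ℕ, SimpleGraph (Fin n) → Prop) (m : ℕ) (T' : ℕ → ℕ) (len' : ℕ)
    (T : ℕ → ℕ) (len : ℕ) : Prop :=
  ∀ i < len', ∀ w < m, ∃ Q, Holds K (m + 1) T len Q w ∧ InDbl m (T' i) w Q

theorem exists_opt {n : ℕ} (G : SimpleGraph (Fin (n + 1))) (h : ∀ x, ∃ y, G.Adj x y) :
    ∃ u v, Opt G u v := by
  classical
  obtain ⟨u, -, hu⟩ := Finset.exists_min_image Finset.univ (dg G) Finset.univ_nonempty
  obtain ⟨v, hv⟩ := h u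
  obtain ⟨p, hp, hmin⟩ := Finset.exists_min_image
    (Finset.univ.filter fun p : Fin (n + 1) × Fin (n + 1) => dg G p.1 ≤ dg G u ∧ G.Adj p.1 p.2)
    (fun p => kk G p.1 p.2) ⟨(u, v), by simp [hv]⟩
  simp only [Finset.mem_filter, Finset.mem_univ, true_and] at hp hmin
  exact ⟨p.1, p.2, hp.2, fun x => hp.1.trans (hu x (Finset.mem_univ _)),
    fun z w hz hzw => hmin (z, w) ⟨hz.trans hp.1, hzw⟩⟩

theorem core (hK : KI K) {m : ℕ} {T' T : ℕ → ℕ} {len' len : ℕ} (hc : Claim K m T' len')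
    (hcov : Cover K m T' len' T len) (G : SimpleGraph (Fin (m + 1))) (hA : Adm K (m + 1) G)
    (h : ∀ x, ∃ y, G.Adj x y) : Concl (m + 1) T len G := by
  obtain ⟨u, v, hO⟩ := exists_opt G h
  let H1 : SimpleGraph (Fin (m + 1)) :=
    { Adj := fun x y => x ≠ y ∧ x ≠ u ∧ y ≠ u ∧
        (G.Adj x y ∨ (x = v ∧ G.Adj u y) ∨ (y = v ∧ G.Adj u x))
      symm := ⟨fun _ _ h => ⟨h.1.symm, h.2.2.1, h.2.1, by
        rcases h.2.2.2 with h | h | h
        exacts [.inl h.symm, .inr (.inr h), .inr (.inl h)]⟩⟩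
      loopless := ⟨fun _ h => h.1 rfl⟩ }
  have k1 : K _ H1 := hK.contr G H1 u v hO.adj (fun x y h => ⟨h.2.1, h.2.2.2⟩) hA.red
  let H : SimpleGraph (Fin m) := H1.comap u.succAbove
  have inj : Function.Injective u.succAbove := Fin.succAbove_right_injective
  have k2 : K m H := hK.mono H1 H _ inj (fun _ _ h => h) k1
  have hneg : ∀ a b, Hᶜ.Adj a b → u.succAbove a ≠ u.succAbove b ∧
      ¬ (G.Adj (u.succAbove a) (u.succAbove b) ∨ (u.succAbove a = v ∧ G.Adj u (u.succAbove b)) ∨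
        (u.succAbove b = v ∧ G.Adj u (u.succAbove a))) := fun a b hab =>
    ⟨inj.ne hab.1, fun h => hab.2 ⟨inj.ne hab.1, Fin.succAbove_ne _ _, Fin.succAbove_ne _ _, h⟩⟩
  have k3 : K m Hᶜ := hK.mono Gᶜ Hᶜ _ inj
    (fun a b hab => ⟨(hneg a b hab).1, fun h => (hneg a b hab).2 (.inl h)⟩) hA.blue
  obtain ⟨i, hi, σ, hσ⟩ := hc H k2 k3
  obtain ⟨c, hcv⟩ := Fin.exists_succAbove_eq hO.adj.ne'
  let w := σ.symm c
  have hw : u.succAbove (σ w) = v := by simp [w, hcv]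
  let τ : Equiv.Perm (Fin (m + 1)) :=
    (finSuccEquiv' (Fin.last m)).trans (σ.optionCongr.trans (finSuccEquiv' u).symm)
  have τl : τ (Fin.last m) = u := by simp [τ]
  have τc : ∀ a : Fin m, τ a.castSucc = u.succAbove (σ a) := by
    intro a
    have : finSuccEquiv' (Fin.last m) a.castSucc = some a := by
      rw [← Fin.succAbove_last_apply, finSuccEquiv'_succAbove]
    simp [τ, this]
  obtain ⟨Q, hQ, hD⟩ := hcov i hi w w.2
  refine hQ.perm hK τ (u := Fin.last m) (w := w.castSucc) rfl rfl hA (by rwa [τl, τc, hw]) ?_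
  have key : ∀ a b : Fin (m + 1), a ≠ b → Q.testBit (16 * a.1 + b.1) = true →
      Gᶜ.Adj (τ a) (τ b) := by
    intro a b hab hbit
    rcases hD a (Nat.lt_succ_iff.mp a.2) b (Nat.lt_succ_iff.mp b.2) (fun h => hab (Fin.ext h))
      hbit with ⟨ha, hb, hP⟩ | ⟨ha, hb, hbw, hP⟩
    · have e1 : a = (⟨a, ha⟩ : Fin m).castSucc := rfl
      have e2 : b = (⟨b, hb⟩ : Fin m).castSucc := rfl
      have := hneg _ _ (hσ ⟨a, ha⟩ ⟨b, hb⟩ (Gr_adj.mpr
        ⟨fun h => hab (Fin.ext (Fin.mk.inj h)), .inl hP⟩))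
      rw [e1, e2, τc, τc]
      exact ⟨this.1, fun h => this.2 (.inl h)⟩
    · have e1 : a = Fin.last m := Fin.ext ha
      have e2 : b = (⟨b, hb⟩ : Fin m).castSucc := rfl
      have := hneg _ _ (hσ w ⟨b, hb⟩ (Gr_adj.mpr
        ⟨fun h => hbw (congrArg Fin.val h).symm, hP⟩))
      rw [e1, e2, τl, τc]
      exact ⟨(Fin.succAbove_ne _ _).symm, fun h => this.2 (.inr (.inl ⟨hw, h⟩))⟩
  intro a b hab
  rcases Gr_adj.mp hab with ⟨hne, h | h⟩
  · exact key a b hne h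
  · exact (key b a hne.symm h).symm

theorem adj_of_sup_le {n : ℕ} {G : SimpleGraph (Fin n)} {y z : Fin n}
    (h : G ⊔ SimpleGraph.edge y z ≤ G) (hyz : y ≠ z) : G.Adj y z :=
  h (Or.inr (by simp [SimpleGraph.edge_adj, hyz]))

/-- The step for at most twelve vertices. -/
theorem step_le (hK : KI K) {m : ℕ} (hm : 1 ≤ m) (hm' : m + 1 ≤ 12) {T' T : ℕ → ℕ}
    {len' len : ℕ} (hc : Claim K m T' len') (hcov : Cover K m T' len' T len) :
    Claim K (m + 1) T len := by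
  intro G hG hG'
  obtain ⟨F, hGF, hF⟩ := Finite.exists_le_maximal (p := fun F => K (m + 1) F) hG
  have hmax : ∀ y z, y ≠ z → K _ (F ⊔ SimpleGraph.edge y z) → F.Adj y z := fun y z hyz h =>
    adj_of_sup_le (hF.2 h le_sup_left) hyz
  refine Concl.of_le hGF (core hK hc hcov F ⟨hF.1, hK.le (compl_le_compl hGF) hG',
    fun _ x y z hd hy hz hyz => hmax y z hyz (hK.addE F x y z hy hz hd hF.1),
    fun h => by omega⟩ fun x => ?_)
  by_contra hx
  push Not at hx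
  have : Nontrivial (Fin (m + 1)) := Fin.nontrivial_iff_two_le.mpr (by omega)
  obtain ⟨y, hy⟩ := exists_ne x
  exact hx y (hmax x y hy.symm (hK.pend F x y hx hF.1))

/-- The last step. -/
theorem step_13 (hK : KI K) (h7 : ¬ K 7 ⊤) {T' T : ℕ → ℕ} {len' : ℕ} (hc : Claim K 12 T' len')
    (hcov : Cover K 12 T' len' T 0) (G : SimpleGraph (Fin 13)) (hG : K 13 G) (hG' : K 13 Gᶜ) :
    False := by
  classical
  have fin : ∀ F : SimpleGraph (Fin 13), K 13 F → K 13 Fᶜ → (∀ x, ∃ y, F.Adj x y) →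
      (∀ x y, (∀ z, dg F y ≤ dg F z) → dg F y ≤ dg Fᶜ x) → False := by
    intro F h1 h2 h3 h4
    obtain ⟨i, hi, -⟩ := core hK hc hcov F ⟨h1, h2, fun h => by omega, fun _ => h4⟩ h3
    omega
  let S : SimpleGraph (Fin 13) → Prop := fun F => K 13 F ∧ K 13 Fᶜ ∧ ∀ x, ∃ y, Fᶜ.Adj x y
  have hS : ∃ F, S F := by
    by_cases h : ∀ x, ∃ y, Gᶜ.Adj x y
    · exact ⟨G, hG, hG', h⟩
    · push Not at h
      obtain ⟨x, hx⟩ := h
      have hx' : ∀ y, x ≠ y → G.Adj x y := fun y hy => by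
        by_contra h
        exact hx y ⟨hy, h⟩
      refine ⟨Gᶜ, hG', by rwa [compl_compl], fun y => ?_⟩
      rw [compl_compl]
      by_cases e : x = y
      · obtain ⟨z, hz⟩ := exists_ne x
        exact ⟨z, e ▸ hx' z hz.symm⟩
      · exact ⟨x, (hx' y e).symm⟩
  obtain ⟨F0, hF0⟩ := hS
  obtain ⟨F, -, ⟨h1, h2, h3⟩, hmax⟩ := Finite.exists_le_maximal (p := S) hF0
  have h4 : ∀ x, ∃ y, F.Adj x y := by
    intro u
    by_contra hu
    push Not at hu
    let f : Fin 7 → Fin 13 := fun a => u.succAbove (Fin.castLE (by norm_num) a)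
    have finj : Function.Injective f :=
      Fin.succAbove_right_injective.comp (Fin.castLE_injective _)
    obtain ⟨a, b, hab, hn⟩ : ∃ a b, a ≠ b ∧ ¬ F.Adj (f a) (f b) := by
      by_contra h
      push Not at h
      exact h7 (hK.mono F ⊤ f finj (fun a b hab => h a b hab) h1)
    have ha : f a ≠ u := Fin.succAbove_ne _ _
    have hb : f b ≠ u := Fin.succAbove_ne _ _
    have hab' : f a ≠ f b := finj.ne hab
    refine hu (f a) (adj_of_sup_le (hmax ⟨hK.pend F u (f a) hu h1,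
      hK.le (compl_le_compl le_sup_left) h2, fun x => ?_⟩ le_sup_left) ha.symm)
    simp only [SimpleGraph.compl_adj, SimpleGraph.sup_adj, SimpleGraph.edge_adj]
    by_cases e1 : x = u
    · exact ⟨f b, by simp [e1, hb.symm, hu, hab'.symm, hb]⟩
    by_cases e2 : x = f a
    · exact ⟨f b, by simp [e2, hab', hn, ha, hb]⟩
    · have : ¬ F.Adj x u := fun h => hu x h.symm
      exact ⟨u, e1, by simp [e1, e2, this]⟩
  obtain ⟨y, -, hy⟩ := Finset.exists_min_image Finset.univ (dg F) Finset.univ_nonempty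
  obtain ⟨y', -, hy'⟩ := Finset.exists_min_image Finset.univ (dg Fᶜ) Finset.univ_nonempty
  rcases le_total (dg F y) (dg Fᶜ y') with h | h
  · exact fin F h1 h2 h4 fun x z hz => ((hz y).trans h).trans (hy' x (Finset.mem_univ _))
  · refine fin Fᶜ h2 (by rwa [compl_compl]) h3 fun x z hz => ?_
    rw [compl_compl]
    exact ((hz y').trans h).trans (hy x (Finset.mem_univ _))

/-- The base: seven vertices. -/
theorem claim_7 (hK : KI K) (h7 : ¬ K 7 ⊤) {T : ℕ → ℕ} (hT : T 0 = 2 ^ 16) : Claim K 7 T 1 := by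
  intro G hG _
  obtain ⟨a, b, hab, hn⟩ : ∃ a b, a ≠ b ∧ ¬ G.Adj a b := by
    by_contra h
    push Not at h
    exact h7 (hK.le (fun a b hab => h a b hab) hG)
  have hσ : ∃ σ : Equiv.Perm (Fin 7), σ 1 = a ∧ σ 0 = b := by
    refine ⟨Equiv.swap 1 a * Equiv.swap 0 (Equiv.swap 1 a b), ?_, by simp⟩
    have : (1 : Fin 7) ≠ Equiv.swap 1 a b := fun h => hab (by
      have := congrArg (Equiv.swap 1 a) h
      simpa using this)
    rw [Equiv.Perm.mul_apply, Equiv.swap_apply_of_ne_of_ne (by decide) this]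
    simp
  obtain ⟨σ, h1, h0⟩ := hσ
  refine ⟨0, one_pos, σ, fun x y hxy => ?_⟩
  rw [hT, Gr_adj] at hxy
  have : ∀ x y : Fin 7, (x ≠ y ∧ ((2 ^ 16).testBit (16 * x.1 + y.1) = true ∨
      (2 ^ 16).testBit (16 * y.1 + x.1) = true)) → (x = 1 ∧ y = 0) ∨ (x = 0 ∧ y = 1) := by
    decide
  rcases this x y hxy with ⟨rfl, rfl⟩ | ⟨rfl, rfl⟩ <;> rw [h1, h0]
  · exact ⟨hab, hn⟩
  · exact ⟨hab.symm, fun h => hn h.symm⟩

end Pool.Agent.Lib.MP_1f96ff_gt
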