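import Pool.Agent.Lib.MP_1f96ff_gt.KnFin
import Pool.Agent.Lib.MP_1f96ff_gt.KnEx
import Pool.Agent.Lib.MP_1f96ff_gt.K.Bridge

/-! From the combinatorial statement on thirteen vertices to the threshold. -/

namespace Pool.Agent.Lib.MP_1f96ff_gt

theorem threshold_of (h : ∀ G : SimpleGraph (Fin 13), K.KK G → K.KK Gᶜ → False) :
    IsLeast {n : ℕ | ∀ G : SimpleGraph (Fin n), IK G ∨ IK Gᶜ} 13 := by
  constructor
  · intro G
    by_contra hc
    rw [not_or] at hc
    exact h G (K.KK.of_K0 (geo G hc.1)) (K.KK.of_K0 (geo _ hc.2))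
  · intro n hn
    by_contra hlt
    obtain ⟨G, h1, h2⟩ := lower n (by omega)
    rcases hn G with h' | h'
    · exact h1 h'
    · exact h2 h'

end Pool.Agent.Lib.MP_1f96ff_gt
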